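import Pool.Agent.N880.QF.CoreA
import Pool.Agent.N7.MainC

/-!
Project QF, L9: the main inequality for a part of the family.
-/

set_option autoImplicit false

open Complex Filter Topology MeasureTheory Set
open H385 (bt wt Rw LF Rw_nonneg fa_Rw_cont fa_Rw_le)
open H370 (NN Nd Ns)
open Pool.Agent.N7.MainC (inner inner_continuous inner_nonneg inner_le main_c)
open Pool.Agent.TH560.QT (Attached)

namespace Pool.Agent.N880.QF

lemma Y_int1 (γ : ℝ) (h0 : 0 < γ) (hπ : γ < Real.pi) {s : ℝ} (hs : 0 < s) :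
    ∃ L0 : ℝ, 0 < L0 ∧ ∀ (Λ A B T κ : ℝ), L0 ≤ Λ → 0 ≤ A → 0 ≤ B → 0 ≤ T → 0 ≤ κ →
    ∫ u in (0 : ℝ)..Λ, Rw γ (u / Λ) * (A * inner 1 u + B * (T + κ * (u + 1))) ≤
      A * (Real.sqrt Real.pi * Λ ^ 2 * ((∫ α in (0 : ℝ)..1, α * Rw γ α) + s)) +
        B * (Rw γ 0 * Λ * (T + κ * (Λ + 1))) := by
  obtain ⟨L0, hL0, hmain⟩ := main_c 1 le_rfl γ h0 hπ s hs
  refine ⟨L0, hL0, ?_⟩
  intro Λ A B T κ hΛ hA hB hT hκ
  have hΛ0 : 0 < Λ := by linarith
  have hRc := fa_Rw_cont γ h0 hπ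
  have hc1 : Continuous (fun u : ℝ => Rw γ (u / Λ)) := hRc.comp (continuous_id.div_const Λ)
  have hc2 : Continuous (inner 1) := inner_continuous one_pos
  have e1 : ∀ u : ℝ, Rw γ (u / Λ) * (A * inner 1 u + B * (T + κ * (u + 1))) =
      A * (Rw γ (u / Λ) * inner 1 u) + B * (Rw γ (u / Λ) * (T + κ * (u + 1))) := by
    intro u; ring
  simp_rw [e1]
  rw [intervalIntegral.integral_add, intervalIntegral.integral_const_mul,
    intervalIntegral.integral_const_mul]
  · refine add_le_add (mul_le_mul_of_nonneg_left (hmain Λ hΛ) hA) (mul_le_mul_of_nonneg_left ?_ hB)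
    have h3 : ∫ u in (0 : ℝ)..Λ, Rw γ (u / Λ) * (T + κ * (u + 1)) ≤
        ∫ u in (0 : ℝ)..Λ, Rw γ 0 * (T + κ * (Λ + 1)) := by
      apply intervalIntegral.integral_mono_on hΛ0.le
      · exact (hc1.mul (by fun_prop)).intervalIntegrable _ _
      · exact continuous_const.intervalIntegrable _ _
      · intro u hu
        have h4 : Rw γ (u / Λ) ≤ Rw γ 0 := fa_Rw_le γ h0 hπ (div_nonneg hu.1 hΛ0.le)
        have h5 := Rw_nonneg γ h0 hπ (u / Λ)
        have h6 := Rw_nonneg γ h0 hπ 0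
        have h7 : κ * (u + 1) ≤ κ * (Λ + 1) := by
          have := hu.2
          gcongr
        have h8 : 0 ≤ κ * (u + 1) := mul_nonneg hκ (by linarith [hu.1])
        exact mul_le_mul h4 (by linarith) (by linarith) h6
    refine h3.trans (le_of_eq ?_)
    rw [intervalIntegral.integral_const, smul_eq_mul]
    ring
  · exact ((hc1.mul hc2).const_mul A |>.intervalIntegrable _ _)
  · exact ((hc1.mul (by fun_prop)).const_mul B |>.intervalIntegrable _ _)

/-- choice of the small parameter -/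
lemma choose_sig {R J g κ0 : ℝ} (h : R + 2 * g * J < κ0) :
    ∃ s : ℝ, 0 < s ∧ s ≤ 1 / 10 ∧
      (R / (1 - s) + 2 * g * (1 + s) * (J + s) + s) / (1 - s) < κ0 := by
  have hc : ContinuousAt (fun s : ℝ =>
      (R / (1 - s) + 2 * g * (1 + s) * (J + s) + s) / (1 - s)) 0 := by
    apply ContinuousAt.div
    · apply ContinuousAt.add
      · apply ContinuousAt.add
        · apply ContinuousAt.div continuousAt_const (by fun_prop) (by norm_num)
        · fun_prop
      · fun_prop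
    · fun_prop
    · norm_num
  have h0 : (fun s : ℝ =>
      (R / (1 - s) + 2 * g * (1 + s) * (J + s) + s) / (1 - s)) 0 < κ0 := by
    simp only [sub_zero, div_one, add_zero, mul_one]
    exact h
  have h1 := hc.eventually_lt_const h0
  rw [Metric.eventually_nhds_iff] at h1
  obtain ⟨ε, hε, h2⟩ := h1
  refine ⟨min (1 / 10) (ε / 2), by positivity, min_le_left _ _, h2 ?_⟩
  rw [Real.dist_eq, sub_zero, abs_of_pos (by positivity)]
  have := min_le_right (1 / 10) (ε / 2)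
  linarith

theorem fQ_nonneg (Q : ℕ) : 0 ≤ fQ Q := by
  unfold fQ
  apply Finset.prod_nonneg
  intro p hp
  have h1 : 1 ≤ (p : ℝ) ^ 2 := by
    have : 1 ≤ (p : ℝ) := by exact_mod_cast (Nat.prime_of_mem_primeFactors hp).one_lt.le
    exact one_le_pow₀ this
  have h2 : 1 / (p : ℝ) ^ 2 ≤ 1 := by
    rw [div_le_one (by positivity)]; exact h1
  linarith

/-- the two parts of the mean square -/
lemma ms_parts {X T L Λ W w f s J R CM ε1 : ℝ} (hw : 0 < w) (hWX : w * X ≤ W) (hX : 0 < X)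
    (hs : 0 < s) (hL : 1 ≤ L) (hT : L ^ 2 ≤ T) (hΛ : 0 < Λ) (hΛL : Λ ≤ L) (hf : 0 ≤ f)
    (hJ : 0 ≤ J) (hR : 0 ≤ R) (hCM : 0 < CM) (hε1 : 0 < ε1)
    (hbig : 12 * Real.pi * CM * R / (w * ε1) ≤ L) :
    (2 / (Real.sqrt Real.pi * Λ)) * (((1 + s) * (f * X) * (T / (2 * Real.pi))) *
        (Real.sqrt Real.pi * Λ ^ 2 * (J + s)) + (CM * X) * (R * Λ * (T + L * (Λ + 1)))) ≤
      T / (2 * Real.pi) * L * W * (2 * (f / w) * (1 + s) * (J + s) + ε1) := by
  have hpi := Real.pi_pos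
  have hsq : 0 < Real.sqrt Real.pi := Real.sqrt_pos.2 hpi
  have hsq1 : 1 ≤ Real.sqrt Real.pi := Real.one_le_sqrt.2 (by linarith [Real.pi_gt_three])
  have hT0 : 0 < T := by nlinarith
  have hXW : X ≤ W / w := by rw [le_div_iff₀ hw]; linarith
  have hW0 : 0 < W := lt_of_lt_of_le (by positivity) hWX
  have e1 : (2 / (Real.sqrt Real.pi * Λ)) * (((1 + s) * (f * X) * (T / (2 * Real.pi))) *
        (Real.sqrt Real.pi * Λ ^ 2 * (J + s)) + (CM * X) * (R * Λ * (T + L * (Λ + 1)))) =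
      T / (2 * Real.pi) * Λ * X * (2 * f * (1 + s) * (J + s)) +
        (2 / Real.sqrt Real.pi) * (CM * X * R * (T + L * (Λ + 1))) := by
    field_simp
  have h1 : T / (2 * Real.pi) * Λ * X * (2 * f * (1 + s) * (J + s)) ≤
      T / (2 * Real.pi) * L * (W / w) * (2 * f * (1 + s) * (J + s)) := by gcongr
  have h1' : T / (2 * Real.pi) * L * (W / w) * (2 * f * (1 + s) * (J + s)) =
      T / (2 * Real.pi) * L * W * (2 * (f / w) * (1 + s) * (J + s)) := by ring
  have h2 : T + L * (Λ + 1) ≤ 3 * T := by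
    have a1 : L * (Λ + 1) ≤ L * (L + 1) := mul_le_mul_of_nonneg_left (by linarith) (by linarith)
    nlinarith
  have h3 : 2 / Real.sqrt Real.pi ≤ 2 := div_le_self (by norm_num) hsq1
  have h4 : (2 / Real.sqrt Real.pi) * (CM * X * R * (T + L * (Λ + 1))) ≤
      2 * (CM * (W / w) * R * (3 * T)) := by
    have : 0 ≤ T + L * (Λ + 1) := by positivity
    gcongr
  have h5 : 2 * (CM * (W / w) * R * (3 * T)) ≤ T / (2 * Real.pi) * L * W * ε1 := by
    rw [div_le_iff₀ (by positivity)] at hbig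
    have a1 : 2 * (CM * (W / w) * R * (3 * T)) =
        (12 * Real.pi * CM * R) * (T * W / (2 * Real.pi * w)) := by field_simp; ring
    have a2 : T / (2 * Real.pi) * L * W * ε1 = (L * (w * ε1)) * (T * W / (2 * Real.pi * w)) := by
      field_simp
    rw [a1, a2]
    exact mul_le_mul_of_nonneg_right hbig (by positivity)
  rw [e1]
  calc _ ≤ T / (2 * Real.pi) * L * W * (2 * (f / w) * (1 + s) * (J + s)) +
        T / (2 * Real.pi) * L * W * ε1 := by
        rw [← h1']; exact add_le_add h1 (h4.trans h5)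
    _ = _ := by ring

lemma sq_parts {X W w L D1 D2 ε1 : ℝ} (hw : 0 < w) (hWX : w * X ≤ W) (hX : 0 < X)
    (hε1 : 0 < ε1)
    (hbig : (Real.sqrt D1 + Real.sqrt D2) / (ε1 * Real.sqrt w) ≤ L) :
    Real.sqrt (X * D1) + Real.sqrt (X * D2) ≤ ε1 * L * Real.sqrt W := by
  have hsw : 0 < Real.sqrt w := Real.sqrt_pos.2 hw
  have h1 : Real.sqrt w * Real.sqrt X ≤ Real.sqrt W := by
    rw [← Real.sqrt_mul hw.le]; exact Real.sqrt_le_sqrt hWX
  rw [div_le_iff₀ (by positivity)] at hbig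
  rw [Real.sqrt_mul hX.le, Real.sqrt_mul hX.le, ← mul_add]
  have hsX := Real.sqrt_nonneg X
  have hL0 : 0 ≤ L := by
    by_contra hcon
    push Not at hcon
    have h2 : 0 ≤ Real.sqrt D1 + Real.sqrt D2 := by positivity
    have h3 : L * (ε1 * Real.sqrt w) < 0 := mul_neg_of_neg_of_pos hcon (by positivity)
    linarith
  calc Real.sqrt X * (Real.sqrt D1 + Real.sqrt D2) ≤ Real.sqrt X * (L * (ε1 * Real.sqrt w)) :=
        mul_le_mul_of_nonneg_left hbig hsX
    _ = ε1 * L * (Real.sqrt w * Real.sqrt X) := by ring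
    _ ≤ _ := mul_le_mul_of_nonneg_left h1 (by positivity)

set_option maxHeartbeats 4000000 in
/-- L9: the main inequality for a part of the family -/
theorem core_main (hms : S_ms) (hchar : S_char) : S_core := by
  intro Q hQ w κ0 hw hκ0
  have hpi := Real.pi_pos
  have hpi3 := Real.pi_gt_three
  have hγ0 : (0 : ℝ) < 1.414 := by norm_num
  have hγπ : (1.414 : ℝ) < Real.pi := by linarith
  obtain ⟨A, hA, hgood⟩ := H385.good_dirichlet_U
  obtain ⟨C1, hC1, hfam⟩ := H385.fam_abstract 1.414 hγ0 hγπ A hA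
  obtain ⟨C1', hC1', hfam'⟩ := H385.fam_abstract_d 1.414 hγ0 hγπ A hA
  obtain ⟨C, hC, hlow⟩ := per_low hchar
  obtain ⟨Ci, hCi, hinner⟩ := inner_le 1 le_rfl
  obtain ⟨R, hRdef⟩ : ∃ R, R = Rw 1.414 0 := ⟨_, rfl⟩
  obtain ⟨J, hJdef⟩ : ∃ J, J = ∫ α in (0:ℝ)..1, α * Rw 1.414 α := ⟨_, rfl⟩
  obtain ⟨f, hfdef⟩ : ∃ f, f = fQ Q := ⟨_, rfl⟩
  rw [← hRdef, ← hJdef, ← hfdef] at hκ0
  have hR : 0 ≤ R := hRdef ▸ Rw_nonneg 1.414 hγ0 hγπ 0
  have hJ : 0 ≤ J := by
    rw [hJdef]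
    apply intervalIntegral.integral_nonneg zero_le_one
    intro α hα
    exact mul_nonneg hα.1 (Rw_nonneg 1.414 hγ0 hγπ α)
  have hf : 0 ≤ f := hfdef ▸ fQ_nonneg Q
  obtain ⟨s, hs, hs1, hsκ⟩ := choose_sig hκ0
  obtain ⟨LY, hLY, hYint⟩ := Y_int1 1.414 hγ0 hγπ hs
  obtain ⟨β, hβdef⟩ : ∃ β, β = 1 - s := ⟨_, rfl⟩
  obtain ⟨c', hc'def⟩ : ∃ c', c' = 2 * (f / w) * (1 + s) * (J + s) := ⟨_, rfl⟩
  rw [← hβdef, ← hc'def] at hsκ
  have hβ : 0 < β := by linarith
  have hc' : 0 ≤ c' := by rw [hc'def]; positivity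
  obtain ⟨κ1, hκ1def⟩ : ∃ κ1, κ1 = (R / β + c' + s) / β := ⟨_, rfl⟩
  rw [← hκ1def] at hsκ
  have hκ1 : 0 ≤ κ1 := by rw [hκ1def]; positivity
  obtain ⟨CC, hCC0, hCCa, hCCb⟩ : ∃ CC, 0 < CC ∧ C1 ≤ CC ∧ C1' ≤ CC :=
    ⟨max C1 C1', lt_max_of_lt_left hC1, le_max_left _ _, le_max_right _ _⟩
  obtain ⟨ε1, hε1, hε1a, hε1b⟩ : ∃ ε1 : ℝ, 0 < ε1 ∧ ε1 ≤ s / 8 ∧
      6 * Real.pi * CC * ε1 / β ≤ s / 8 := by
    refine ⟨min (s / 8) (s / 8 * β / (6 * Real.pi * CC)), ?_, min_le_left _ _, ?_⟩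
    · exact lt_min (by positivity) (by positivity)
    · have : 6 * Real.pi * CC * min (s / 8) (s / 8 * β / (6 * Real.pi * CC)) ≤
          6 * Real.pi * CC * (s / 8 * β / (6 * Real.pi * CC)) := by
        gcongr; exact min_le_right _ _
      rw [div_le_iff₀ hβ]
      refine this.trans (le_of_eq ?_)
      field_simp
  obtain ⟨η, hη, hη1, hη2⟩ : ∃ η : ℝ, 0 < η ∧ η ≤ s / 2 ∧ 8 * η * (R / β) ≤ s / 8 := by
    have h2 : 0 ≤ R / β := by positivity
    refine ⟨min (s / 2) (s / 64 / (R / β + 1)), lt_min (by positivity) (by positivity),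
      min_le_left _ _, ?_⟩
    have h1 : min (s / 2) (s / 64 / (R / β + 1)) ≤ s / 64 / (R / β + 1) := min_le_right _ _
    have h3 : s / 64 / (R / β + 1) * (R / β) ≤ s / 64 := by
      rw [div_mul_eq_mul_div, div_le_iff₀ (by positivity)]
      exact mul_le_mul_of_nonneg_left (by linarith) (by positivity)
    have h4 : min (s / 2) (s / 64 / (R / β + 1)) * (R / β) ≤
        s / 64 / (R / β + 1) * (R / β) := mul_le_mul_of_nonneg_right h1 h2
    linarith
  have hη10 : η < 1 / 10 := by linarith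
  refine ⟨(κ0 - κ1) * w / 8, η, div_pos (mul_pos (by linarith) hw) (by norm_num), hη, hη10, ?_⟩
  intro B hB
  obtain ⟨CM, XM, hCM, hXM, hmsb⟩ := hms Q hQ s s B hs hs (by linarith) hB
  obtain ⟨L0, q1, q2, q3, q4, q5, q6, q7, q8, q9⟩ : ∃ L0 : ℝ,
      4 / η ^ 2 + 4 / η + 12 ≤ L0 ∧ 4 * β + 8 ≤ L0 ∧ 1 / β ≤ L0 ∧ LY / β ≤ L0 ∧
      CC * (12 / β + 3) * (2 * Real.pi) ≤ s / 8 * L0 ∧
      10 * Real.pi * (2 * C / 5) * (R / β + c' + s) ≤ s / 2 * L0 ∧
      12 * Real.pi * CM * R / (w * ε1) ≤ L0 ∧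
      (Real.sqrt (f * Ci + CM) + Real.sqrt CM) / (ε1 * Real.sqrt w) ≤ L0 ∧ 60 * C ≤ L0 := by
    have a1 : 0 ≤ 4 / η ^ 2 + 4 / η + 12 := by positivity
    have a2 : 0 ≤ 4 * β + 8 := by positivity
    have a3 : 0 ≤ 1 / β := by positivity
    have a4 : 0 ≤ LY / β := by positivity
    have a5 : 0 ≤ CC * (12 / β + 3) * (2 * Real.pi) * (8 / s) := by positivity
    have a6 : 0 ≤ 10 * Real.pi * (2 * C / 5) * (R / β + c' + s) * (2 / s) := by positivity
    have a7 : 0 ≤ 12 * Real.pi * CM * R / (w * ε1) := by positivity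
    have a8 : 0 ≤ (Real.sqrt (f * Ci + CM) + Real.sqrt CM) / (ε1 * Real.sqrt w) := by positivity
    have a9 : 0 ≤ 60 * C := by positivity
    refine ⟨(4 / η ^ 2 + 4 / η + 12) + (4 * β + 8) + 1 / β + LY / β +
      CC * (12 / β + 3) * (2 * Real.pi) * (8 / s) +
      10 * Real.pi * (2 * C / 5) * (R / β + c' + s) * (2 / s) +
      12 * Real.pi * CM * R / (w * ε1) +
      (Real.sqrt (f * Ci + CM) + Real.sqrt CM) / (ε1 * Real.sqrt w) + 60 * C,
      by linarith, by linarith, by linarith, by linarith, ?_, ?_, by linarith, by linarith,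
      by linarith⟩
    · have e1 : CC * (12 / β + 3) * (2 * Real.pi) =
          s / 8 * (CC * (12 / β + 3) * (2 * Real.pi) * (8 / s)) := by field_simp
      rw [e1]
      refine mul_le_mul_of_nonneg_left ?_ (by positivity)
      have e2 : s / 8 * (CC * (12 / β + 3) * (2 * Real.pi) * (8 / s)) =
        CC * (12 / β + 3) * (2 * Real.pi) := by field_simp
      rw [← e1]
      linarith
    · have e1 : 10 * Real.pi * (2 * C / 5) * (R / β + c' + s) =
          s / 2 * (10 * Real.pi * (2 * C / 5) * (R / β + c' + s) * (2 / s)) := by field_simp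
      rw [e1]
      refine mul_le_mul_of_nonneg_left ?_ (by positivity)
      rw [← e1]
      linarith
  refine ⟨max XM (max 3 (Real.exp L0)), (le_max_left _ _).trans (le_max_right _ _), ?_⟩
  intro N χ hq X T I hX hT1 hT2 hI hWI
  have hXXM : XM ≤ X := (le_max_left _ _).trans hX
  have hX3 : 3 ≤ X := ((le_max_left _ _).trans (le_max_right _ _)).trans hX
  have hXe : Real.exp L0 ≤ X := ((le_max_right _ _).trans (le_max_right _ _)).trans hX
  have hXpos : 0 < X := by linarith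
  obtain ⟨L, hL⟩ : ∃ L, L = Real.log X := ⟨_, rfl⟩
  have hLL0 : L0 ≤ L := by
    rw [hL, Real.le_log_iff_exp_le hXpos]; exact hXe
  have hXexp : Real.exp (4 / η ^ 2 + 4 / η + 12) ≤ X := (Real.exp_le_exp.2 q1).trans hXe
  have hXexp' : Real.exp (4 / η ^ 2 + 4 / η + 1) ≤ X :=
    (Real.exp_le_exp.2 (by linarith)).trans hXexp
  rw [← hL] at hT1 ⊢
  have hL12 : 12 ≤ L := by
    have : 0 ≤ 4 / η ^ 2 + 4 / η := by positivity
    linarith
  have hLT : L ≤ T := by
    refine le_trans ?_ hT1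
    rw [sq]
    exact le_mul_of_one_le_right (by linarith) (by linarith)
  have hTT : 1 ≤ T := by linarith
  have hTpos : 0 < T := by linarith
  have hT2' : T ≤ Real.exp (η * L) := by
    rw [mul_comm, hL, ← Real.rpow_def_of_pos hXpos]; exact hT2
  have hTX : T ≤ X := by
    refine hT2.trans ?_
    calc X ^ η ≤ X ^ (1 : ℝ) := Real.rpow_le_rpow_of_exponent_le (by linarith) (by linarith)
      _ = X := Real.rpow_one X
  obtain ⟨p1, p2, p3, p4, p5, p6⟩ := H385.param_ok β L T η hβ (by linarith) (q2.trans hLL0)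
    (q3.trans hLL0) hT1 hT2'
  obtain ⟨W, hW⟩ : ∃ W, W = ∑ m ∈ I, om X m := ⟨_, rfl⟩
  have hom : ∀ m, 0 ≤ om X m := fun m => (Real.exp_pos _).le
  rw [← hW] at hWI
  have hW0 : 0 ≤ W := by
    rw [hW]; exact Finset.sum_nonneg fun m _ => hom m
  have hβL : β * L ≤ L := mul_le_of_le_one_left (by linarith) (by linarith)
  have hβL0 : 0 < β * L := by positivity
  -- family data
  have hdata : ∀ m ∈ I, 0 ≤ om X m ∧ (1 : ℝ) ≤ (N m : ℝ) ∧
      H385.GoodU A (N m : ℝ) (LF (N m) (χ m))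
        (fun n => χ m (n : ZMod (N m)) * (ArithmeticFunction.vonMangoldt n : ℂ)) ∧
      Real.log ((N m : ℝ) * T) ≤ (1 + 2 * η) * L := by
    intro m hm
    obtain ⟨g1, g2, g3, -⟩ := per_m hchar hgood B η hη hη10 N χ hq X T m hXexp' hTT hT2
      (hI m hm).1
    exact ⟨hom m, g1, g2, by rw [hL]; exact g3⟩
  have hLm : (1 + 2 * η) * L ≤ 3 * L := mul_le_mul_of_nonneg_right (by linarith) (by linarith)
  have hLm1 : 1 ≤ (1 + 2 * η) * L :=
    le_trans (by linarith : 1 ≤ L) (le_mul_of_one_le_left (by linarith) (by linarith))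
  have hLm0 : 0 ≤ (1 + 2 * η) * L := by linarith
  have hLm2 : ((1 + 2 * η) * L) ^ 2 ≤ 9 * L ^ 2 := by
    have h0 : ((1 + 2 * η) * L) ^ 2 ≤ (3 * L) ^ 2 := pow_le_pow_left₀ hLm0 hLm 2
    linarith [show (3 * L) ^ 2 = 9 * L ^ 2 by ring]
  have hexp : ((1 + 2 * η) * L) ^ 2 * Real.exp (β * L - L ^ 2 / 2) ≤ Real.exp (-(β * L)) :=
    le_trans (mul_le_mul_of_nonneg_right hLm2 (Real.exp_pos _).le) p5
  obtain ⟨Yf, hYf⟩ : ∃ Yf : ℝ → ℝ, Yf = fun u => (1 + s) * (f * X) * (T / (2 * Real.pi)) *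
      inner 1 u + (CM * X) * (T + L * (u + 1)) := ⟨_, rfl⟩
  have hms' : ∀ u ∈ Set.Icc 0 (β * L),
        ∫ t : ℝ, ∑ m ∈ I, om X m *
          ‖∑' n : ℕ, (χ m (n : ZMod (N m)) * (ArithmeticFunction.vonMangoldt n : ℂ)) *
            ((Real.sqrt n : ℂ)⁻¹ * bt T u t (Real.log n))‖ ^ 2 ≤ Yf u := by
    intro u hu
    rw [hYf, hfdef, hL]
    have h1 := hmsb N χ hq X T u I hXXM (by rw [← hL]; exact hT1) hTX hu.1
      (by rw [← hL, ← hβdef]; exact hu.2) (fun m hm => ⟨?_, (hI m hm).2⟩)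
    · exact h1
    · obtain ⟨b1, k, b, b2, b3, b4, b5, b6, -⟩ := (hI m hm).1
      exact ⟨b1, k, b, b2, b3, b4, b5, b6⟩
  have hbd : ∀ u ∈ Set.Icc 0 (β * L), Yf u ≤ T * ((X * (f * Ci + CM)) * (u + 1) + X * CM) := by
    intro u hu
    rw [hYf]
    have hu0 : 0 ≤ u := hu.1
    have h1 := hinner u hu0
    have h2 : (1 + s) * (f * X) * (T / (2 * Real.pi)) * inner 1 u ≤
        (f * X * T) * (Ci * (u + 1)) := by
      have e1 : (1 + s) * (f * X) * (T / (2 * Real.pi)) =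
        (f * X * T) * ((1 + s) / (2 * Real.pi)) := by field_simp
      rw [e1]
      have e2 : (1 + s) / (2 * Real.pi) ≤ 1 := by
        rw [div_le_one (by positivity)]; linarith
      have e3 : (f * X * T) * ((1 + s) / (2 * Real.pi)) ≤ f * X * T :=
        mul_le_of_le_one_right (by positivity) e2
      exact mul_le_mul e3 h1 (inner_nonneg 1 u) (by positivity)
    have h3 : L * (u + 1) ≤ T * (u + 1) := mul_le_mul_of_nonneg_right hLT (by linarith)
    have h4 : (CM * X) * (T + L * (u + 1)) ≤ (CM * X) * (T + T * (u + 1)) :=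
      mul_le_mul_of_nonneg_left (by linarith) (by positivity)
    have h5 : T * ((X * (f * Ci + CM)) * (u + 1) + X * CM) =
      (f * X * T) * (Ci * (u + 1)) + (CM * X) * (T + T * (u + 1)) := by ring
    rw [h5]
    exact add_le_add h2 h4
  have hYi : IntervalIntegrable Yf volume 0 (β * L) := by
    have hc2 : Continuous (inner 1) := inner_continuous one_pos
    rw [hYf]
    exact Continuous.intervalIntegrable (by fun_prop) _ _
  have hy1 : 0 ≤ X * (f * Ci + CM) := by positivity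
  have hy2 : 0 ≤ X * CM := by positivity
  have k1 := hfam I (om X) (fun m => (N m : ℝ)) (fun m => LF (N m) (χ m))
    (fun m n => χ m (n : ZMod (N m)) * (ArithmeticFunction.vonMangoldt n : ℂ))
    T L (β * L) ((1 + 2 * η) * L) (X * (f * Ci + CM)) (X * CM) Yf hdata p1 p2 p3 p4 hLm1 hexp
    hy1 hy2 hms' hbd hYi
  have k2 := hfam' I (om X) (fun m => (N m : ℝ)) (fun m => LF (N m) (χ m))
    (fun m n => χ m (n : ZMod (N m)) * (ArithmeticFunction.vonMangoldt n : ℂ))
    T L (β * L) ((1 + 2 * η) * L) (X * (f * Ci + CM)) (X * CM) Yf hdata p1 p2 p3 p4 hLm1 hexp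
    hy1 hy2 hms' hbd hYi
  -- number of zeros
  obtain ⟨SN, hSN⟩ : ∃ SN, SN = ∑ m ∈ I, om X m * (NN (LF (N m) (χ m)) T (2 * T) : ℝ) := ⟨_, rfl⟩
  have hN : W * ((1 - η) * (T / (2 * Real.pi) * L) - C * T) ≤ SN := by
    rw [hW, hSN, Finset.sum_mul]
    refine Finset.sum_le_sum fun m hm => mul_le_mul_of_nonneg_left ?_ (hom m)
    have := hlow B η hη hη10 N χ hq X T m hXexp (by rw [← hL]; exact hT1) hT2 (hI m hm).1
    rw [← hL] at this
    exact this
  have hSN0 : 0 ≤ SN := by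
    rw [hSN]; exact Finset.sum_nonneg fun m _ => mul_nonneg (hom m) (Nat.cast_nonneg _)
  have hη' : 0 < 1 - η := by linarith
  have hN' : W * (T / (2 * Real.pi) * L - 5 * (2 * C / 5) * T) ≤ SN / (1 - η) := by
    rw [le_div_iff₀ hη']
    refine le_trans ?_ hN
    have e1 : W * (T / (2 * Real.pi) * L - 5 * (2 * C / 5) * T) * (1 - η) =
      W * ((1 - η) * (T / (2 * Real.pi) * L) - 2 * (1 - η) * (C * T)) := by ring
    rw [e1]
    refine mul_le_mul_of_nonneg_left ?_ hW0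
    have : C * T ≤ 2 * (1 - η) * (C * T) := by
      have h0 : 0 < C * T := by positivity
      exact le_mul_of_one_le_left h0.le (by linarith)
    linarith
  have hSNlow : X * T * L * (w / 8) ≤ SN := by
    refine le_trans ?_ hN
    have e1 : T * L / 8 ≤ (1 - η) * (T / (2 * Real.pi) * L) - C * T := by
      have b1 : C * T ≤ T * L / 60 := by
        have := mul_le_mul_of_nonneg_right (q9.trans hLL0) hTpos.le
        linarith
      have b2 : 0.9 * (T / (2 * Real.pi) * L) ≤ (1 - η) * (T / (2 * Real.pi) * L) :=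
        mul_le_mul_of_nonneg_right (by linarith) (by positivity)
      have b3 : T * L * (1 / 8 + 1 / 60) ≤ 0.9 * (T / (2 * Real.pi) * L) := by
        have c1 : 0.9 * (T / (2 * Real.pi) * L) = T * L * (0.45 / Real.pi) := by
          field_simp; ring
        rw [c1]
        refine mul_le_mul_of_nonneg_left ?_ (by positivity)
        rw [le_div_iff₀ hpi]
        have := Real.pi_lt_d2
        linarith
      linarith
    calc X * T * L * (w / 8) = (w * X) * (T * L / 8) := by ring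
      _ ≤ W * (T * L / 8) := mul_le_mul_of_nonneg_right hWI (by positivity)
      _ ≤ _ := mul_le_mul_of_nonneg_left e1 hW0
  have hs8L : s / 8 * L0 ≤ s / 8 * L := mul_le_mul_of_nonneg_left hLL0 (by positivity)
  have hs2L : s / 2 * L0 ≤ s / 2 * L := mul_le_mul_of_nonneg_left hLL0 (by positivity)
  have hJ1 : (2 / (Real.sqrt Real.pi * (β * L))) * (∫ u in (0 : ℝ)..(β * L),
      Rw 1.414 (u / (β * L)) * Yf u) ≤ T / (2 * Real.pi) * L * W * (c' + ε1) := by
    have h1 := hYint (β * L) ((1 + s) * (f * X) * (T / (2 * Real.pi))) (CM * X) T L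
      (by have := q4.trans hLL0; rw [div_le_iff₀ hβ] at this; linarith) (by positivity)
      (by positivity) hTpos.le (by linarith)
    rw [← hJdef, ← hRdef] at h1
    have h2 := ms_parts (CM := CM) (R := R) hw hWI hXpos hs (by linarith : 1 ≤ L) hT1 hβL0 hβL hf hJ
      hR hCM hε1 (q7.trans hLL0)
    rw [hc'def]
    refine le_trans (mul_le_mul_of_nonneg_left ?_ (by positivity)) h2
    rw [hYf]
    exact h1
  have hs12 : Real.sqrt (X * (f * Ci + CM)) + Real.sqrt (X * CM) ≤ ε1 * L * Real.sqrt W :=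
    sq_parts hw hWI hXpos hε1 (q8.trans hLL0)
  have core : ∀ (D : ℝ) (SM : ℝ), 0 < D → D ≤ CC →
      SM ≤ W * ((1 + 2 * η) * L) ^ 2 * R * T / (2 * Real.pi * (β * L)) +
        (2 / (Real.sqrt Real.pi * (β * L))) * (∫ u in (0 : ℝ)..(β * L),
          Rw 1.414 (u / (β * L)) * Yf u) +
      D * (W * (((1 + 2 * η) * L) ^ 2 * L / (β * L) + ((1 + 2 * η) * L) * T / (β * L) +
        L * ((1 + 2 * η) * L)) + Real.sqrt W * ((1 + 2 * η) * L) * T *
          (Real.sqrt (X * (f * Ci + CM)) + Real.sqrt (X * CM)) / (β * L)) →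
      SM + (κ0 - κ1) * w / 8 * (X * T * L) ≤ κ0 * SN := by
    intro D SM hD hDC hSM
    have h1 : SM ≤ (R / β + c' + s) * (SN / (1 - η)) := by
      refine H385.numeric_core β c' s R D (2 * C / 5) η ε1 L T W _ SM _ _ hβ hc' hs hR hD
        (by positivity) hη (by linarith) hε1 (by linarith) hT1 hW0 hη2 hε1a ?_ ?_ ?_ hJ1 hs12 hSM hN'
      · refine le_trans ?_ (q5.trans hs8L)
        have : 0 ≤ (12 / β + 3) * (2 * Real.pi) := by positivity
        rw [mul_assoc, mul_assoc]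
        exact mul_le_mul_of_nonneg_right hDC this
      · refine le_trans ?_ hε1b
        gcongr
      · exact q6.trans hs2L
    have h2 : (R / β + c' + s) * (SN / (1 - η)) ≤ κ1 * SN := by
      have e1 : κ1 * SN = (R / β + c' + s) * (SN / β) := by rw [hκ1def]; ring
      rw [e1]
      refine mul_le_mul_of_nonneg_left ?_ (by positivity)
      exact div_le_div_of_nonneg_left hSN0 hβ (by linarith)
    have h3 : (κ0 - κ1) * w / 8 * (X * T * L) ≤ (κ0 - κ1) * SN := by
      have e1 : (κ0 - κ1) * w / 8 * (X * T * L) = (κ0 - κ1) * (X * T * L * (w / 8)) := by ring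
      rw [e1]
      exact mul_le_mul_of_nonneg_left hSNlow (by linarith)
    have h4 : κ0 * SN = κ1 * SN + (κ0 - κ1) * SN := by ring
    rw [h4]
    exact add_le_add (h1.trans h2) h3
  rw [← hSN]
  constructor
  · refine core C1 _ hC1 hCCa ?_
    rw [← hW, ← hRdef] at k1
    exact k1
  · refine core C1' _ hC1' hCCb ?_
    rw [← hW, ← hRdef] at k2
    exact k2

end Pool.Agent.N880.QF
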