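import Pool.Agent.N880.QF.CoreA
import Pool.Agent.H385R2.WinE

/-!
Project QF, L11: the final statements.
-/

set_option autoImplicit false

open Complex Filter Topology MeasureTheory Set
open H385 (bt wt Rw LF Rw_nonneg)
open H370 (NN Nd Ns)
open Pool.Agent.TH560.QT (Attached)

namespace Pool.Agent.N880.QF

lemma decomp (m : ℤ) (h0 : m ≠ 0) (hsq : ¬ IsSquare m) :
    ∃ (k : ℤ) (b : ℕ), Squarefree k ∧ k ≠ 1 ∧ 1 ≤ b ∧ m = k * (b : ℤ) ^ 2 := by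
  obtain ⟨a, b, hab, ha⟩ := Nat.sq_mul_squarefree m.natAbs
  have hm : m = (m.sign * (a : ℤ)) * (b : ℤ) ^ 2 := by
    conv_lhs => rw [← Int.sign_mul_natAbs m, ← hab]
    push_cast
    ring
  refine ⟨m.sign * a, b, ?_, ?_, ?_, hm⟩
  · rw [← Int.squarefree_natAbs, Int.natAbs_mul, Int.natAbs_sign_of_ne_zero h0, one_mul,
      Int.natAbs_natCast]
    exact ha
  · intro h
    rw [h, one_mul, sq] at hm
    exact hsq ⟨_, hm⟩
  · by_contra hb
    have : b = 0 := by omega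
    rw [this] at hm
    simp at hm
    exact h0 hm

lemma cond_le (hchar : S_char) {N : ℤ → ℕ} {χ : (m : ℤ) → DirichletCharacter ℂ (N m)}
    (hq : QData N χ) (m : ℤ) (h0 : m ≠ 0) (hsq : ¬ IsSquare m) :
    (N m : ℝ) ≤ 4 * |(m : ℝ)| := by
  obtain ⟨k, b, hk, hk1, hb, hm⟩ := decomp m h0 hsq
  have : NeZero (N m) := ⟨hq.ne m⟩
  have hatt := hq.att m h0 hsq
  have hatt1 : Attached (k * (b : ℤ) ^ 2) (χ m) := by rw [← hm]; exact hatt
  obtain ⟨-, h2⟩ := hchar k hk hk1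
  obtain ⟨-, -, hNk⟩ := h2 (N m) inferInstance (χ m) (hq.prim m h0 hsq) (att_of hb hatt1)
  have hkabs : ((k.natAbs : ℕ) : ℝ) = |(k : ℝ)| := by
    rw [Nat.cast_natAbs, Int.cast_abs]
  have hNk' : (N m : ℝ) ≤ 4 * |(k : ℝ)| := by rw [← hkabs]; exact_mod_cast hNk
  have hb1 : (1 : ℝ) ≤ (b : ℝ) := by exact_mod_cast hb
  have hkm : |(k : ℝ)| ≤ |(m : ℝ)| := by
    have e : (m : ℝ) = (k : ℝ) * (b : ℝ) ^ 2 := by rw [hm]; push_cast; ring
    rw [e, abs_mul, abs_of_nonneg (sq_nonneg (b : ℝ))]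
    exact le_mul_of_one_le_right (abs_nonneg _) (one_le_pow₀ hb1)
  linarith

lemma count_small (J : Finset ℤ) (X : ℝ) (hX : 1 ≤ X) :
    ∑ m ∈ J, (if |(m : ℝ)| < Real.sqrt X then (1 : ℝ) else 0) ≤ 3 * Real.sqrt X := by
  have hs1 : 1 ≤ Real.sqrt X := Real.one_le_sqrt.2 hX
  rw [← Finset.sum_filter, Finset.sum_const, nsmul_eq_mul, mul_one]
  have h1 : J.filter (fun m : ℤ => |(m : ℝ)| < Real.sqrt X) ⊆
      Finset.Icc (-⌊Real.sqrt X⌋) ⌊Real.sqrt X⌋ := by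
    intro m hm
    rw [Finset.mem_filter] at hm
    have h2 : |m| ≤ ⌊Real.sqrt X⌋ := by
      rw [Int.le_floor]
      have := hm.2.le
      rwa [← Int.cast_abs] at this
    rw [Finset.mem_Icc]
    exact abs_le.1 h2
  have h3 := Finset.card_le_card h1
  rw [Int.card_Icc] at h3
  have h4 : (0 : ℤ) ≤ ⌊Real.sqrt X⌋ := Int.floor_nonneg.2 (by linarith)
  have h5 : (((⌊Real.sqrt X⌋ + 1 - -⌊Real.sqrt X⌋).toNat : ℕ) : ℝ) =
      2 * (⌊Real.sqrt X⌋ : ℝ) + 1 := by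
    have h6 : (((⌊Real.sqrt X⌋ + 1 - -⌊Real.sqrt X⌋).toNat : ℕ) : ℤ) =
      ⌊Real.sqrt X⌋ + 1 - -⌊Real.sqrt X⌋ := Int.toNat_of_nonneg (by linarith)
    have h7 : (((⌊Real.sqrt X⌋ + 1 - -⌊Real.sqrt X⌋).toNat : ℕ) : ℝ) =
      ((⌊Real.sqrt X⌋ + 1 - -⌊Real.sqrt X⌋ : ℤ) : ℝ) := by exact_mod_cast h6
    rw [h7]
    push_cast
    ring
  have h8 : ((J.filter (fun m : ℤ => |(m : ℝ)| < Real.sqrt X)).card : ℝ) ≤
      2 * (⌊Real.sqrt X⌋ : ℝ) + 1 := by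
    rw [← h5]; exact_mod_cast h3
  have h9 := Int.floor_le (Real.sqrt X)
  linarith

theorem tail_bound (hchar : S_char) : ∃ C : ℝ, 0 < C ∧ ∀ (N : ℤ → ℕ)
    (χ : (m : ℤ) → DirichletCharacter ℂ (N m)), QData N χ → ∀ (X T η θ : ℝ) (J : Finset ℤ),
    Real.exp 12 ≤ X → (Real.log X) ^ 2 ≤ T → T ≤ X ^ η → η < 1 / 10 →
    3 * Real.sqrt X ≤ θ * X → (∀ m ∈ J, m ≠ 0 ∧ ¬ IsSquare m) →
    ∑ m ∈ J, om X m * (1 + Real.log (2 + |(m : ℝ)|)) ≤ θ * X * Real.log X →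
    ∑ m ∈ J, om X m * (NN (LF (N m) (χ m)) T (2 * T) : ℝ) ≤ C * θ * (X * T * Real.log X) := by
  obtain ⟨A, hA, hgood⟩ := H385.good_dirichlet_U
  obtain ⟨C5, hC5, hz⟩ := H385.zcount_long A hA
  refine ⟨4 * C5, by positivity, ?_⟩
  intro N χ hq X T η θ J hX hT1 hT2 hη1 hθX hJ hsum
  have hX0 : 0 < X := lt_of_lt_of_le (Real.exp_pos _) hX
  obtain ⟨L, hL⟩ : ∃ L, L = Real.log X := ⟨_, rfl⟩
  have hL12 : 12 ≤ L := by rwa [hL, Real.le_log_iff_exp_le hX0]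
  have hX1 : 1 ≤ X := by
    have : (1 : ℝ) ≤ Real.exp 12 := Real.one_le_exp (by norm_num)
    linarith
  rw [← hL] at hT1 hsum ⊢
  have hLT : L ≤ T := by
    refine le_trans ?_ hT1
    rw [sq]
    exact le_mul_of_one_le_right (by linarith) (by linarith)
  have hT0 : 0 < T := by linarith
  have hlogT : Real.log T ≤ L / 10 := by
    have := Real.log_le_log hT0 hT2
    rw [Real.log_rpow hX0, ← hL] at this
    have h2 : η * L ≤ 1 / 10 * L := mul_le_mul_of_nonneg_right hη1.le (by linarith)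
    linarith
  have hom : ∀ m, 0 ≤ om X m := fun m => (Real.exp_pos _).le
  have hom1 : ∀ m, om X m ≤ 1 := fun m => Real.exp_le_one_iff.2 (by
    have := Real.pi_pos
    have : 0 ≤ Real.pi * ((m : ℝ) / X) ^ 2 := by positivity
    linarith)
  have hlog8 : Real.log 8 ≤ 3 := by
    have : Real.log 8 = 3 * Real.log 2 := by
      rw [show (8 : ℝ) = 2 ^ 3 by norm_num, Real.log_pow]; norm_num
    rw [this]
    linarith [Real.log_two_lt_d9]
  have hsqL : Real.log (Real.sqrt X) = L / 2 := by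
    rw [Real.log_sqrt hX0.le, hL]
  have hs0 : 0 < Real.sqrt X := Real.sqrt_pos.2 hX0
  have hper : ∀ m ∈ J, om X m * (NN (LF (N m) (χ m)) T (2 * T) : ℝ) ≤
      C5 * T * (3.2 * (om X m * (1 + Real.log (2 + |(m : ℝ)|))) +
        L / 10 * (if |(m : ℝ)| < Real.sqrt X then (1 : ℝ) else 0)) := by
    intro m hm
    obtain ⟨h0, hsq⟩ := hJ m hm
    have : NeZero (N m) := ⟨hq.ne m⟩
    have hN1 : 1 ≤ (N m : ℝ) := by exact_mod_cast NeZero.one_le
    have hz1 := hz (N m) (LF (N m) (χ m)) _ hN1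
      (by rw [LF_eq']; exact hgood (N m) (χ m) (hq.prim m h0 hsq)) T (2 * T) (by linarith)
      (by linarith)
    have hm1 : 0 < |(m : ℝ)| := abs_pos.2 (by exact_mod_cast h0)
    have hNm := cond_le hchar hq m h0 hsq
    have hlog : Real.log (N m * (2 * T)) ≤ 3 + Real.log (2 + |(m : ℝ)|) + L / 10 := by
      have a1 : (N m : ℝ) * (2 * T) ≤ 8 * (2 + |(m : ℝ)|) * T := by
        have : (N m : ℝ) * (2 * T) ≤ (4 * |(m : ℝ)|) * (2 * T) :=
          mul_le_mul_of_nonneg_right hNm (by linarith)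
        have h3 : (4 * |(m : ℝ)|) * (2 * T) ≤ 8 * (2 + |(m : ℝ)|) * T := by
          have : 0 ≤ 16 * T := by positivity
          linarith [show 8 * (2 + |(m : ℝ)|) * T = (4 * |(m : ℝ)|) * (2 * T) + 16 * T by ring]
        linarith
      have a2 := Real.log_le_log (mul_pos (by linarith) (by linarith)) a1
      have a3 : Real.log (8 * (2 + |(m : ℝ)|) * T) =
          Real.log 8 + Real.log (2 + |(m : ℝ)|) + Real.log T := by
        rw [Real.log_mul (by positivity) hT0.ne', Real.log_mul (by norm_num) (by positivity)]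
      rw [a3] at a2
      linarith
    have hlp : 0 ≤ Real.log (2 + |(m : ℝ)|) := Real.log_nonneg (by linarith)
    have hNN : (NN (LF (N m) (χ m)) T (2 * T) : ℝ) ≤
        C5 * T * (3 * (1 + Real.log (2 + |(m : ℝ)|)) + L / 10) := by
      refine hz1.trans ?_
      have e1 : C5 * (2 * T - T) * Real.log (N m * (2 * T)) =
        C5 * T * Real.log (N m * (2 * T)) := by ring
      rw [e1]
      exact mul_le_mul_of_nonneg_left (by linarith) (by positivity)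
    have h1 : om X m * (NN (LF (N m) (χ m)) T (2 * T) : ℝ) ≤
        om X m * (C5 * T * (3 * (1 + Real.log (2 + |(m : ℝ)|)) + L / 10)) :=
      mul_le_mul_of_nonneg_left hNN (hom m)
    refine h1.trans ?_
    have e2 : om X m * (C5 * T * (3 * (1 + Real.log (2 + |(m : ℝ)|)) + L / 10)) =
      C5 * T * (3 * (om X m * (1 + Real.log (2 + |(m : ℝ)|))) + om X m * (L / 10)) := by ring
    rw [e2]
    refine mul_le_mul_of_nonneg_left ?_ (by positivity)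
    have h2 : om X m * (L / 10) ≤ 0.2 * (om X m * (1 + Real.log (2 + |(m : ℝ)|))) +
        L / 10 * (if |(m : ℝ)| < Real.sqrt X then (1 : ℝ) else 0) := by
      split_ifs with hlt
      · have a1 : om X m * (L / 10) ≤ 1 * (L / 10) :=
          mul_le_mul_of_nonneg_right (hom1 m) (by linarith)
        have a2 : 0 ≤ om X m * (1 + Real.log (2 + |(m : ℝ)|)) :=
          mul_nonneg (hom m) (by linarith)
        linarith
      · push Not at hlt
        have a1 : L / 2 ≤ Real.log (2 + |(m : ℝ)|) := by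
          rw [← hsqL]
          exact Real.log_le_log hs0 (by linarith)
        have a2 : om X m * (L / 10) ≤ om X m * (0.2 * (1 + Real.log (2 + |(m : ℝ)|))) :=
          mul_le_mul_of_nonneg_left (by linarith) (hom m)
        linarith
    linarith
  refine (Finset.sum_le_sum hper).trans ?_
  rw [← Finset.mul_sum, Finset.sum_add_distrib, ← Finset.mul_sum, ← Finset.mul_sum]
  have hcs := count_small J X hX1
  have h1 : L / 10 * ∑ m ∈ J, (if |(m : ℝ)| < Real.sqrt X then (1 : ℝ) else 0) ≤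
      L / 10 * (θ * X) := mul_le_mul_of_nonneg_left (hcs.trans hθX) (by linarith)
  have hθX0 : 0 ≤ θ * X := le_trans (by positivity) hθX
  have h2 : 3.2 * ∑ m ∈ J, om X m * (1 + Real.log (2 + |(m : ℝ)|)) +
      L / 10 * ∑ m ∈ J, (if |(m : ℝ)| < Real.sqrt X then (1 : ℝ) else 0) ≤
      4 * (θ * X * L) := by
    have h3 : 0 ≤ θ * X * L := mul_nonneg hθX0 (by linarith)
    have h4 : L / 10 * (θ * X) = 0.1 * (θ * X * L) := by ring
    linarith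
  calc _ ≤ C5 * T * (4 * (θ * X * L)) := mul_le_mul_of_nonneg_left h2 (by positivity)
    _ = _ := by ring

lemma combine (S : Finset ℤ) (P : ℤ → Prop) [DecidablePred P] (o n a : ℤ → ℝ) (κ E : ℝ)
    (hκ : 0 ≤ κ) (ho : ∀ m, 0 ≤ o m) (hn : ∀ m, 0 ≤ n m) (ha : ∀ m, a m ≤ 3 * n m)
    (h1 : ∑ m ∈ S.filter P, o m * a m + E ≤ κ * ∑ m ∈ S.filter P, o m * n m)
    (h2 : 3 * ∑ m ∈ S.filter (fun m => ¬ P m), o m * n m ≤ E) :
    ∑ m ∈ S, o m * a m ≤ κ * ∑ m ∈ S, o m * n m := by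
  rw [← Finset.sum_filter_add_sum_filter_not S P (fun m => o m * a m),
    ← Finset.sum_filter_add_sum_filter_not S P (fun m => o m * n m)]
  have h3 : ∑ m ∈ S.filter (fun m => ¬ P m), o m * a m ≤
      3 * ∑ m ∈ S.filter (fun m => ¬ P m), o m * n m := by
    rw [Finset.mul_sum]
    refine Finset.sum_le_sum fun m _ => ?_
    have := mul_le_mul_of_nonneg_left (ha m) (ho m)
    linarith
  have h4 : 0 ≤ κ * ∑ m ∈ S.filter (fun m => ¬ P m), o m * n m :=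
    mul_nonneg hκ (Finset.sum_nonneg fun m _ => mul_nonneg (ho m) (hn m))
  rw [mul_add]
  linarith

lemma third_claim {W X T L η w a C : ℝ} (hX : 0 ≤ X) (hT : 0 ≤ T) (hWX : w * X ≤ W)
    (hw : 0 < w) (hw1 : w ≤ 1) (hη : η ≤ 1 / 50) (hL : 0 ≤ L)
    (ha : a + 1 / 300 ≤ 0.98 * w / (2 * Real.pi)) (hLC : 300 * C ≤ L) :
    a * (X * T * L) ≤ W * ((1 - η) * (T / (2 * Real.pi) * L) - C * T) := by
  have hpi := Real.pi_pos
  have h1 : T * L * (0.98 / (2 * Real.pi) - 1 / 300) ≤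
      (1 - η) * (T / (2 * Real.pi) * L) - C * T := by
    have b1 : 300 * C * T ≤ L * T := mul_le_mul_of_nonneg_right hLC hT
    have b2 : 0.98 * (T / (2 * Real.pi) * L) ≤ (1 - η) * (T / (2 * Real.pi) * L) :=
      mul_le_mul_of_nonneg_right (by linarith) (by positivity)
    have b3 : T * L * (0.98 / (2 * Real.pi) - 1 / 300) =
      0.98 * (T / (2 * Real.pi) * L) - T * L / 300 := by ring
    linarith
  have hc : 0 ≤ 0.98 / (2 * Real.pi) - 1 / 300 := by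
    have : 1 / 300 ≤ 0.98 / (2 * Real.pi) := by
      rw [le_div_iff₀ (by positivity)]
      linarith [Real.pi_lt_four]
    linarith
  have h2 : 0 ≤ T * L * (0.98 / (2 * Real.pi) - 1 / 300) := by positivity
  have h3 : a ≤ w * (0.98 / (2 * Real.pi) - 1 / 300) := by
    have : w * (0.98 / (2 * Real.pi) - 1 / 300) = 0.98 * w / (2 * Real.pi) - w / 300 := by ring
    rw [this]
    linarith
  calc a * (X * T * L) ≤ (w * (0.98 / (2 * Real.pi) - 1 / 300)) * (X * T * L) :=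
        mul_le_mul_of_nonneg_right h3 (by positivity)
    _ = (w * X) * (T * L * (0.98 / (2 * Real.pi) - 1 / 300)) := by ring
    _ ≤ W * (T * L * (0.98 / (2 * Real.pi) - 1 / 300)) := mul_le_mul_of_nonneg_right hWX h2
    _ ≤ _ := mul_le_mul_of_nonneg_left h1 (le_trans (by positivity) hWX)

lemma J_lt : ∫ α in (0 : ℝ)..1, α * Rw 1.414 α < 0.165 := by
  have h := H385.Rw_const_closed 1.414 0 1 (by norm_num)
  rw [zero_mul, zero_add, one_mul, zero_mul, zero_add, one_mul] at h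
  rw [h]
  have hh : (1.414 : ℝ) / 2 = 707 / 1000 := by norm_num
  have hS : Real.sin 1.414 = 2 * Real.sin (707 / 1000) * Real.cos (707 / 1000) := by
    rw [← Real.sin_two_mul]; congr 1; norm_num
  have hC : Real.cos 1.414 = 1 - 2 * Real.sin (707 / 1000) ^ 2 := by
    have : Real.cos 1.414 = Real.cos (2 * (707 / 1000)) := by congr 1; norm_num
    rw [this, Real.cos_two_mul, Real.cos_sq']
    ring
  obtain ⟨hcos, hsin⟩ := H385.trig_707
  rw [hh, hS, hC]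
  obtain ⟨s, hs⟩ : ∃ s, s = Real.sin (707 / 1000) := ⟨_, rfl⟩
  obtain ⟨c, hcc⟩ : ∃ c, c = Real.cos (707 / 1000) := ⟨_, rfl⟩
  rw [← hs] at hsin ⊢
  rw [← hcc] at hcos ⊢
  rw [abs_le] at hcos hsin
  have hs1 : 0.649555754 ≤ s := by linarith [hsin.1]
  have hspos : 0 < s := by linarith
  have hc1 : c ≤ 0.760313963 := by linarith [hcos.2]
  have hs2 : s ≤ 0.649555757 := by linarith [hsin.2]
  have hc0 : 0 ≤ c := by linarith [hcos.1]
  have hsc : s * c ≤ 0.649555757 * 0.760313963 := mul_le_mul hs2 hc1 hc0 (by norm_num)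
  have hss : 0.649555754 ^ 2 ≤ s ^ 2 := pow_le_pow_left₀ (by norm_num) hs1 2
  have hss2 : s ^ 2 ≤ 0.649555757 ^ 2 := pow_le_pow_left₀ hspos.le hs2 2
  have e : (1.414 / (2 * s)) ^ 2 / 2 *
        ((1 - (1 - 2 * s ^ 2) - 1) / 1.414 ^ 2 + 2 * s * c / 1.414 ^ 3) =
      (2 * s ^ 2 - 1 + 2 / 1.414 * (s * c)) / (8 * s ^ 2) := by
    field_simp
    ring
  rw [e, div_lt_iff₀ (by positivity)]
  have : 2 / 1.414 * (s * c) ≤ 2 / 1.414 * (0.649555757 * 0.760313963 : ℝ) :=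
    mul_le_mul_of_nonneg_left hsc (by norm_num)
  norm_num at this hss hss2 ⊢
  linarith

lemma J_nonneg : 0 ≤ ∫ α in (0 : ℝ)..1, α * Rw 1.414 α := by
  apply intervalIntegral.integral_nonneg zero_le_one
  intro α hα
  exact mul_nonneg hα.1 (Rw_nonneg 1.414 (by norm_num) (by linarith [Real.pi_gt_three]) α)

lemma fQ_one : fQ 1 = 1 := by
  unfold fQ
  simp

lemma fQ_210 : fQ 210 = 768 / 1225 := by
  have h : Nat.primeFactors 210 = {2, 3, 5, 7} := by decide +kernel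
  unfold fQ
  rw [h]
  norm_num

lemma mainL_mono {B : ℕ} {η η' X : ℝ} (hX : 1 ≤ X) (h : η' ≤ η) {m : ℤ} (hm : MainL B η' X m) :
    MainL B η X m := by
  obtain ⟨h1, k, b, h2, h3, h4, h5, h6, h7⟩ := hm
  refine ⟨h1, k, b, h2, h3, h4, h5, h6, le_trans ?_ h7⟩
  exact Real.rpow_le_rpow_of_exponent_le hX (by linarith)

lemma mainL_ne {B : ℕ} {η X : ℝ} {m : ℤ} (hm : MainL B η X m) : m ≠ 0 ∧ ¬ IsSquare m := by
  obtain ⟨h1, k, b, h2, h3, h4, h5, h6, h7⟩ := hm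
  rw [h6]
  exact ⟨main_ne h2 h4, main_nsq h2 h3 h4⟩

lemma sqf_ne {m : ℤ} (h : Squarefree m) (h1 : m ≠ 1) : m ≠ 0 ∧ ¬ IsSquare m := by
  refine ⟨h.ne_zero, ?_⟩
  have := main_nsq h h1 (le_refl 1)
  simpa using this

lemma free_sqf {m : ℤ} (h : Squarefree m) (Q : ℕ) : Free Q m := by
  intro p hp _ hdvd
  have h1 : IsUnit (p : ℤ) := h _ (by rw [← sq]; exact hdvd)
  rw [Int.isUnit_iff] at h1
  have := hp.two_le
  omega

lemma free_one (m : ℤ) : Free 1 m := by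
  intro p hp hp1
  exact absurd (Nat.dvd_one.1 hp1) hp.ne_one

lemma piece_nonneg (F : ℂ → ℂ) (T1 T2 : ℝ) :
    (2 * (NN F T1 T2 : ℝ) - (Ns F T1 T2 : ℝ)) ≤ 3 * (NN F T1 T2 : ℝ) ∧
    (3 * (NN F T1 T2 : ℝ) - 2 * (Nd F T1 T2 : ℝ)) ≤ 3 * (NN F T1 T2 : ℝ) := by
  have h1 : (0 : ℝ) ≤ (NN F T1 T2 : ℝ) := Nat.cast_nonneg _
  have h2 : (0 : ℝ) ≤ (Ns F T1 T2 : ℝ) := Nat.cast_nonneg _
  have h3 : (0 : ℝ) ≤ (Nd F T1 T2 : ℝ) := Nat.cast_nonneg _
  constructor <;> linarith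

open Classical in
/-- common part of the two final statements -/
theorem fin_common (hchar : S_char) : ∃ C5 C : ℝ, 0 < C5 ∧ 0 < C ∧
    ∀ (N : ℤ → ℕ) (χ : (m : ℤ) → DirichletCharacter ℂ (N m)), QData N χ →
    ∀ (B : ℕ) (η w κ0 a e θ X T : ℝ) (S : Finset ℤ),
    Real.exp (4 / η ^ 2 + 4 / η + 12) ≤ X → 300 * C ≤ Real.log X → 3 * Real.sqrt X ≤ θ * X →
    (Real.log X) ^ 2 ≤ T → T ≤ X ^ η → 0 < η → η ≤ 1 / 50 → 3 * (C5 * θ) ≤ e →
    0 < w → w ≤ 1 → 0 ≤ κ0 → a + 1 / 300 ≤ 0.98 * w / (2 * Real.pi) →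
    (∀ m ∈ S, m ≠ 0 ∧ ¬ IsSquare m) →
    w * X ≤ ∑ m ∈ S.filter (MainL B η X), om X m →
    ∑ m ∈ S.filter (fun m => ¬ MainL B η X m), om X m * (1 + Real.log (2 + |(m : ℝ)|)) ≤
      θ * X * Real.log X →
    (∑ m ∈ S.filter (MainL B η X), om X m * (2 * (NN (LF (N m) (χ m)) T (2 * T) : ℝ) -
        (Ns (LF (N m) (χ m)) T (2 * T) : ℝ)) + e * (X * T * Real.log X) ≤
      κ0 * ∑ m ∈ S.filter (MainL B η X), om X m * (NN (LF (N m) (χ m)) T (2 * T) : ℝ) ∧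
    ∑ m ∈ S.filter (MainL B η X), om X m * (3 * (NN (LF (N m) (χ m)) T (2 * T) : ℝ) -
        2 * (Nd (LF (N m) (χ m)) T (2 * T) : ℝ)) + e * (X * T * Real.log X) ≤
      κ0 * ∑ m ∈ S.filter (MainL B η X), om X m * (NN (LF (N m) (χ m)) T (2 * T) : ℝ)) →
    ∑ m ∈ S, om X m * (2 * (NN (LF (N m) (χ m)) T (2 * T) : ℝ) -
        (Ns (LF (N m) (χ m)) T (2 * T) : ℝ)) ≤
      κ0 * ∑ m ∈ S, om X m * (NN (LF (N m) (χ m)) T (2 * T) : ℝ) ∧
    ∑ m ∈ S, om X m * (3 * (NN (LF (N m) (χ m)) T (2 * T) : ℝ) -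
        2 * (Nd (LF (N m) (χ m)) T (2 * T) : ℝ)) ≤
      κ0 * ∑ m ∈ S, om X m * (NN (LF (N m) (χ m)) T (2 * T) : ℝ) ∧
    a * (X * T * Real.log X) ≤ ∑ m ∈ S, om X m * (NN (LF (N m) (χ m)) T (2 * T) : ℝ) := by
  obtain ⟨C5, hC5, htail⟩ := tail_bound hchar
  obtain ⟨C, hC, hlow⟩ := per_low hchar
  refine ⟨C5, C, hC5, hC, ?_⟩
  intro N χ hq B η w κ0 a e θ X T S hX hCX hθX hT1 hT2 hη hη50 hCθ hw hw1 hκ0 ha hS hWI hWJ hI
  have hη2 : 0 < 4 / η ^ 2 := by positivity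
  have hη3 : 0 < 4 / η := by positivity
  have hX12 : Real.exp 12 ≤ X := (Real.exp_le_exp.2 (by linarith)).trans hX
  have hX0 : 0 < X := lt_of_lt_of_le (Real.exp_pos _) hX
  have hL12 : 12 ≤ Real.log X := by rwa [Real.le_log_iff_exp_le hX0]
  have hom : ∀ m, 0 ≤ om X m := fun m => (Real.exp_pos _).le
  have hT0 : 0 ≤ T := le_trans (sq_nonneg _) hT1
  have hNN : ∀ m, 0 ≤ (NN (LF (N m) (χ m)) T (2 * T) : ℝ) := fun m => Nat.cast_nonneg _
  have hXTL : 0 ≤ X * T * Real.log X := by positivity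
  have hJ : 3 * ∑ m ∈ S.filter (fun m => ¬ MainL B η X m),
      om X m * (NN (LF (N m) (χ m)) T (2 * T) : ℝ) ≤ e * (X * T * Real.log X) := by
    have h1 := htail N χ hq X T η θ (S.filter (fun m => ¬ MainL B η X m)) hX12 hT1 hT2
      (by linarith) hθX (fun m hm => hS m (Finset.mem_filter.1 hm).1) hWJ
    have h2 : 3 * (C5 * θ) * (X * T * Real.log X) ≤ e * (X * T * Real.log X) :=
      mul_le_mul_of_nonneg_right hCθ hXTL
    linarith
  refine ⟨?_, ?_, ?_⟩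
  · exact combine S (MainL B η X) (om X) (fun m => (NN (LF (N m) (χ m)) T (2 * T) : ℝ))
      (fun m => 2 * (NN (LF (N m) (χ m)) T (2 * T) : ℝ) - (Ns (LF (N m) (χ m)) T (2 * T) : ℝ))
      κ0 _ hκ0 hom hNN (fun m => (piece_nonneg _ _ _).1) hI.1 hJ
  · exact combine S (MainL B η X) (om X) (fun m => (NN (LF (N m) (χ m)) T (2 * T) : ℝ))
      (fun m => 3 * (NN (LF (N m) (χ m)) T (2 * T) : ℝ) -
        2 * (Nd (LF (N m) (χ m)) T (2 * T) : ℝ))
      κ0 _ hκ0 hom hNN (fun m => (piece_nonneg _ _ _).2) hI.2 hJ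
  · have h1 := third_claim (a := a) hX0.le hT0 hWI hw hw1 hη50 (by linarith) ha hCX
    refine h1.trans ?_
    have h2 : (∑ m ∈ S.filter (MainL B η X), om X m) *
        ((1 - η) * (T / (2 * Real.pi) * Real.log X) - C * T) ≤
        ∑ m ∈ S.filter (MainL B η X), om X m * (NN (LF (N m) (χ m)) T (2 * T) : ℝ) := by
      rw [Finset.sum_mul]
      refine Finset.sum_le_sum fun m hm => mul_le_mul_of_nonneg_left ?_ (hom m)
      exact hlow B η hη (by linarith) N χ hq X T m hX hT1 hT2 (Finset.mem_filter.1 hm).2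
    refine h2.trans ?_
    exact Finset.sum_le_sum_of_subset_of_nonneg (Finset.filter_subset _ _)
      (fun m _ _ => mul_nonneg (hom m) (hNN m))

lemma exists_X0 (X1 X2 X3 η θ C : ℝ) (h1 : 3 ≤ X1) (hθ : 0 < θ) : ∃ X0 : ℝ, 3 ≤ X0 ∧
    ∀ X : ℝ, X0 ≤ X → X1 ≤ X ∧ X2 ≤ X ∧ X3 ≤ X ∧ Real.exp (4 / η ^ 2 + 4 / η + 12) ≤ X ∧
      300 * C ≤ Real.log X ∧ 3 * Real.sqrt X ≤ θ * X := by
  refine ⟨max X1 (max X2 (max X3 (max (Real.exp (4 / η ^ 2 + 4 / η + 12))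
    (max (Real.exp (300 * C)) ((3 / θ) ^ 2))))), h1.trans (le_max_left _ _), ?_⟩
  intro X hX
  simp only [max_le_iff] at hX
  obtain ⟨a1, a2, a3, a4, a5, a6⟩ := hX
  have hX0 : 0 < X := by linarith
  refine ⟨a1, a2, a3, a4, ?_, ?_⟩
  · rwa [Real.le_log_iff_exp_le hX0]
  · have b1 : 3 / θ ≤ Real.sqrt X := Real.le_sqrt_of_sq_le a6
    rw [div_le_iff₀ hθ] at b1
    have b2 := Real.mul_self_sqrt hX0.le
    calc 3 * Real.sqrt X ≤ (Real.sqrt X * θ) * Real.sqrt X :=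
          mul_le_mul_of_nonneg_right b1 (Real.sqrt_nonneg X)
      _ = θ * (Real.sqrt X * Real.sqrt X) := by ring
      _ = θ * X := by rw [b2]

/-- L11a: all non-squares -/
theorem finA_main (hcore : S_core) (hchar : S_char) (hgood : S_good) (hA : S_wtA)
    (hB : S_wtB) : S_finA := by
  classical
  obtain ⟨CA, hCA, hA⟩ := hA
  obtain ⟨C5, C, hC5, hC, hcom⟩ := fin_common hchar
  obtain ⟨J, hJ⟩ : ∃ J, J = ∫ α in (0:ℝ)..1, α * Rw 1.414 α := ⟨_, rfl⟩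
  have hJ0 : 0 ≤ J := hJ ▸ J_nonneg
  have hd2 : Rw 1.414 0 + 2 * J < 1.3275 := by rw [hJ]; exact H385.Rw_const_d2
  obtain ⟨δ, hδ⟩ : ∃ δ, δ = 1.3275 - (Rw 1.414 0 + 2 * J) := ⟨_, rfl⟩
  have hδ0 : 0 < δ := by linarith
  obtain ⟨e', he0, he1, he2⟩ : ∃ e' : ℝ, 0 < e' ∧ e' ≤ 1 / 1000 ∧ e' * (4 * J) < δ := by
    refine ⟨min (1 / 1000) (δ / (4 * (J + 1))), by positivity, min_le_left _ _, ?_⟩
    have h1 : min (1 / 1000) (δ / (4 * (J + 1))) ≤ δ / (4 * (J + 1)) := min_le_right _ _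
    calc min (1 / 1000) (δ / (4 * (J + 1))) * (4 * J) ≤ δ / (4 * (J + 1)) * (4 * J) :=
          mul_le_mul_of_nonneg_right h1 (by positivity)
      _ < δ := by
        rw [div_mul_eq_mul_div, div_lt_iff₀ (by positivity)]
        exact mul_lt_mul_of_pos_left (by linarith) hδ0
  have hκ : Rw 1.414 0 + 2 * (fQ 1 / (1 - e')) * (∫ α in (0 : ℝ)..1, α * Rw 1.414 α) <
      1.3275 := by
    rw [fQ_one, ← hJ]
    have h1 : 1 / (1 - e') ≤ 1 + 2 * e' := by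
      rw [div_le_iff₀ (by linarith)]
      nlinarith
    have h2 : 2 * (1 / (1 - e')) * J ≤ 2 * (1 + 2 * e') * J := by gcongr
    linarith [show 2 * (1 + 2 * e') * J = 2 * J + e' * (4 * J) by ring]
  obtain ⟨e, η0, he, hη0, hη01, hc⟩ := hcore 1 hgood.1 (1 - e') 1.3275 (by linarith) hκ
  obtain ⟨η, hη, hηη0, hη50⟩ : ∃ η : ℝ, 0 < η ∧ η ≤ η0 ∧ η ≤ 1 / 50 :=
    ⟨min η0 (1 / 50), by positivity, min_le_left _ _, min_le_right _ _⟩
  obtain ⟨B0, hB0⟩ := hB e' he0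
  obtain ⟨B, hB1, hBB0, hBe⟩ : ∃ B : ℕ, 1 ≤ B ∧ B0 ≤ B ∧ 3 * (C5 * (CA / B)) ≤ e := by
    have hb : (1 : ℕ) ≤ max (max B0 1) ⌈3 * C5 * CA / e⌉₊ :=
      (le_max_right _ _).trans (le_max_left _ _)
    refine ⟨max (max B0 1) ⌈3 * C5 * CA / e⌉₊, hb,
      (le_max_left _ _).trans (le_max_left _ _), ?_⟩
    have h1 : 3 * C5 * CA / e ≤ ((max (max B0 1) ⌈3 * C5 * CA / e⌉₊ : ℕ) : ℝ) :=
      (Nat.le_ceil _).trans (by exact_mod_cast le_max_right _ _)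
    have h2 : (0 : ℝ) < ((max (max B0 1) ⌈3 * C5 * CA / e⌉₊ : ℕ) : ℝ) := by
      exact_mod_cast hb
    have e1 : 3 * (C5 * (CA / ((max (max B0 1) ⌈3 * C5 * CA / e⌉₊ : ℕ) : ℝ))) =
      3 * C5 * CA / ((max (max B0 1) ⌈3 * C5 * CA / e⌉₊ : ℕ) : ℝ) := by ring
    rw [e1, div_le_iff₀ h2]
    rw [div_le_iff₀ he] at h1
    linarith
  have hBpos : (0 : ℝ) < B := by exact_mod_cast hB1
  obtain ⟨X1, hX1, h1⟩ := hc B hB1
  obtain ⟨X2, hX2, h2⟩ := hA B η hB1 hη (by linarith)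
  obtain ⟨X3, hX3, h3⟩ := hB0 B η hBB0 hη (by linarith)
  obtain ⟨X0, hX0, hXX⟩ := exists_X0 X1 X2 X3 η (CA / B) C hX1 (by positivity)
  refine ⟨η, X0, hη, hX0, ?_⟩
  intro N χ hq X T Y hX hT1 hT2 hY S hS
  obtain ⟨g1, g2, g3, g4, g5, g6⟩ := hXX X hX
  have hX1' : 1 ≤ X := by linarith
  have hWI : (1 - e') * X ≤ ∑ m ∈ S.filter (MainL B η X), om X m := by
    refine h3 X Y g3 hY _ (fun m => ?_)
    rw [Finset.mem_filter, hS]
    exact ⟨fun h => ⟨h.1.1, h.2⟩, fun h => ⟨⟨h.1, mainL_ne h.2⟩, h.2⟩⟩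
  have hWJ : ∑ m ∈ S.filter (fun m => ¬ MainL B η X m),
      om X m * (1 + Real.log (2 + |(m : ℝ)|)) ≤ CA / B * X * Real.log X := by
    refine h2 X _ g2 (fun m hm => ?_)
    rw [Finset.mem_filter, hS] at hm
    exact ⟨hm.1.2.1, hm.2⟩
  have hTη : T ≤ X ^ η0 := hT2.trans (Real.rpow_le_rpow_of_exponent_le hX1' hηη0)
  have hI := h1 N χ hq X T (S.filter (MainL B η X)) g1 hT1 hTη
    (fun m hm => ⟨mainL_mono hX1' hηη0 (Finset.mem_filter.1 hm).2, free_one m⟩) hWI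
  have hpi := Real.pi_pos
  have hfin := hcom N χ hq B η (1 - e') 1.3275 (1 / 7) e (CA / B) X T S g4 g5 g6 hT1 hT2 hη
    hη50 hBe (by linarith) (by linarith) (by norm_num)
    (by
      rw [le_div_iff₀ (by positivity)]
      have := Real.pi_lt_d2
      linarith)
    (fun m hm => ((hS m).1 hm).2) hWI hWJ hI
  obtain ⟨f1, f2, f3⟩ := hfin
  exact ⟨f1, f2, by linarith⟩

/-- L11b: squarefree numbers -/
theorem finB_main (hcore : S_core) (hchar : S_char) (hgood : S_good) (hW : S_wtC) :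
    S_finB := by
  classical
  obtain ⟨C5, C, hC5, hC, hcom⟩ := fin_common hchar
  have hpi := Real.pi_pos
  obtain ⟨J, hJ⟩ : ∃ J, J = ∫ α in (0:ℝ)..1, α * Rw 1.414 α := ⟨_, rfl⟩
  have hd2 : Rw 1.414 0 + 2 * J < 1.3275 := by rw [hJ]; exact H385.Rw_const_d2
  have hJlt : J < 0.165 := by rw [hJ]; exact J_lt
  have hκ : Rw 1.414 0 + 2 * (fQ 210 / 0.6079) * (∫ α in (0 : ℝ)..1, α * Rw 1.414 α) <
      1.338 := by
    rw [fQ_210, ← hJ]
    have e1 : Rw 1.414 0 + 2 * ((768 / 1225) / 0.6079) * J =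
      (Rw 1.414 0 + 2 * J) + 2 * ((768 / 1225) / 0.6079 - 1) * J := by ring
    rw [e1]
    have e2 : 2 * ((768 / 1225) / 0.6079 - 1) * J ≤
        2 * ((768 / 1225) / 0.6079 - 1) * (0.165 : ℝ) :=
      mul_le_mul_of_nonneg_left hJlt.le (by norm_num)
    have e3 : 2 * ((768 / 1225) / 0.6079 - 1) * (0.165 : ℝ) < 0.0105 := by norm_num
    linarith
  obtain ⟨e, η0, he, hη0, hη01, hc⟩ := hcore 210 hgood.2 0.6079 1.338 (by norm_num) hκ
  obtain ⟨η, hη, hηη0, hη50⟩ : ∃ η : ℝ, 0 < η ∧ η ≤ η0 ∧ η ≤ 1 / 50 :=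
    ⟨min η0 (1 / 50), by positivity, min_le_left _ _, min_le_right _ _⟩
  obtain ⟨θ, hθ, hθe, hθ5⟩ : ∃ θ : ℝ, 0 < θ ∧ 3 * (C5 * θ) ≤ e ∧ θ ≤ 1 / 100000 := by
    refine ⟨min (e / (3 * C5)) (1 / 100000), by positivity, ?_, min_le_right _ _⟩
    have h1 : min (e / (3 * C5)) (1 / 100000) ≤ e / (3 * C5) := min_le_left _ _
    rw [le_div_iff₀ (by positivity)] at h1
    linarith
  obtain ⟨X1, hX1, h1⟩ := hc 1 le_rfl
  obtain ⟨X2, hX2, h2⟩ := hW θ η hθ hη (by linarith)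
  obtain ⟨X0, hX0, hXX⟩ := exists_X0 X1 X2 X2 η θ C hX1 hθ
  refine ⟨η, X0, hη, hX0, ?_⟩
  intro N χ hq X T Y hX hT1 hT2 hY S hS
  obtain ⟨g1, g2, g3, g4, g5, g6⟩ := hXX X hX
  have hX1' : 1 ≤ X := by linarith
  obtain ⟨w1, w2⟩ := h2 X Y g2 hY
  have hWI : 0.6079 * X ≤ ∑ m ∈ S.filter (MainL 1 η X), om X m := by
    have h3 := w1 (S.filter (MainL 1 η X)) (fun m => by
      rw [Finset.mem_filter, hS]
      constructor
      · rintro ⟨⟨a1, a2, a3⟩, a4⟩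
        exact ⟨a1, a2, a4⟩
      · rintro ⟨a1, a2, a3⟩
        refine ⟨⟨a1, a2, ?_⟩, a3⟩
        rintro rfl
        exact (mainL_ne a3).2 ⟨1, by norm_num⟩)
    refine le_trans (mul_le_mul_of_nonneg_right ?_ (by linarith)) h3
    have h4 : Real.pi ^ 2 ≤ 9.86965057 := by
      have := Real.pi_lt_d4
      nlinarith
    have h5 : 0.60792 ≤ 6 / Real.pi ^ 2 := by
      rw [le_div_iff₀ (by positivity)]
      linarith
    linarith
  have hWJ : ∑ m ∈ S.filter (fun m => ¬ MainL 1 η X m),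
      om X m * (1 + Real.log (2 + |(m : ℝ)|)) ≤ θ * X * Real.log X := by
    refine w2 _ (fun m hm => ?_)
    rw [Finset.mem_filter, hS] at hm
    exact ⟨hm.1.2.1, hm.2⟩
  have hTη : T ≤ X ^ η0 := hT2.trans (Real.rpow_le_rpow_of_exponent_le hX1' hηη0)
  have hI := h1 N χ hq X T (S.filter (MainL 1 η X)) g1 hT1 hTη
    (fun m hm => ⟨mainL_mono hX1' hηη0 (Finset.mem_filter.1 hm).2,
      free_sqf ((hS m).1 (Finset.mem_filter.1 hm).1).2.1 210⟩) hWI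
  have hfin := hcom N χ hq 1 η 0.6079 1.338 (1 / 11) e θ X T S g4 g5 g6 hT1 hT2 hη
    hη50 hθe (by norm_num) (by norm_num) (by norm_num)
    (by
      rw [le_div_iff₀ (by positivity)]
      have := Real.pi_lt_d4
      linarith)
    (fun m hm => sqf_ne ((hS m).1 hm).2.1 ((hS m).1 hm).2.2) hWI hWJ hI
  obtain ⟨f1, f2, f3⟩ := hfin
  exact ⟨f1, f2, by linarith⟩

end Pool.Agent.N880.QF
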