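import Pool.Agent.N880.QF.Dual

/-! # Square classes -/

set_option autoImplicit false

open Complex Filter Topology MeasureTheory Set
open Pool.Agent.H306R2.RZ (js)
open Pool.Agent.H413R2.RZ4HP (js_mul js_sq js_abs_le sqf_unique_int)

namespace Pool.Agent.N880.QF

lemma ex_sq (k : ℤ) (hk : k ≠ 0) : ∃ x : ℤ × ℕ, Squarefree x.1 ∧ 1 ≤ x.2 ∧ k = x.1 * (x.2 : ℤ) ^ 2 := by
  obtain ⟨a, c, hac, ha⟩ := Nat.sq_mul_squarefree k.natAbs
  have hn : k.natAbs ≠ 0 := Int.natAbs_ne_zero.2 hk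
  have hc : c ≠ 0 := by
    rintro rfl
    rw [← hac] at hn
    simp at hn
  refine ⟨(Int.sign k * a, c), ?_, Nat.one_le_iff_ne_zero.2 hc, ?_⟩
  · rw [← Int.squarefree_natAbs, Int.natAbs_mul, Int.natAbs_sign, if_neg hk]
    simpa using ha
  · have h1 := (Int.sign_mul_natAbs k).symm
    rw [← hac] at h1
    calc k = Int.sign k * ((c ^ 2 * a : ℕ) : ℤ) := h1
      _ = _ := by push_cast; ring

/-- squarefree kernel and root -/
noncomputable def dec (k : ℤ) : ℤ × ℕ := open Classical in if h : k ≠ 0 then (ex_sq k h).choose else (0, 0)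

lemma dec_spec {k : ℤ} (hk : k ≠ 0) :
    Squarefree (dec k).1 ∧ 1 ≤ (dec k).2 ∧ k = (dec k).1 * ((dec k).2 : ℤ) ^ 2 := by
  unfold dec
  rw [dif_pos hk]
  exact (ex_sq k hk).choose_spec

lemma sq_unique {k k' : ℤ} {b b' : ℕ} (hk : Squarefree k) (hk' : Squarefree k') (hb : 1 ≤ b)
    (hb' : 1 ≤ b') (h : k * (b : ℤ) ^ 2 = k' * (b' : ℤ) ^ 2) : k = k' ∧ b = b' := by
  have h1 : k = k' := sqf_unique_int (Int.squarefree_natAbs.2 hk) (Int.squarefree_natAbs.2 hk')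
    (by omega) (by omega) h
  subst h1
  refine ⟨rfl, ?_⟩
  have h3 := mul_left_cancel₀ hk.ne_zero h
  have h4 : b ^ 2 = b' ^ 2 := by exact_mod_cast h3
  exact Nat.pow_left_injective (by norm_num : 2 ≠ 0) h4

lemma sq_ne {k : ℤ} {b : ℕ} (hk : Squarefree k) (hb : 1 ≤ b) : k * (b : ℤ) ^ 2 ≠ 0 := by
  have h1 := hk.ne_zero
  have h2 : (b : ℤ) ≠ 0 := by exact_mod_cast (by omega : b ≠ 0)
  exact mul_ne_zero h1 (pow_ne_zero 2 h2)

lemma dec_eq {k : ℤ} {b : ℕ} (hk : Squarefree k) (hb : 1 ≤ b) :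
    (dec (k * (b : ℤ) ^ 2)).1 = k ∧ (dec (k * (b : ℤ) ^ 2)).2 = b := by
  obtain ⟨h1, h2, h3⟩ := dec_spec (sq_ne hk hb)
  exact sq_unique h1 hk h2 hb h3.symm

lemma dec_le {k : ℤ} (hk : k ≠ 0) : |((dec k).1 : ℝ)| ≤ |(k : ℝ)| := by
  obtain ⟨_, h2, h3⟩ := dec_spec hk
  have h4 : (k : ℝ) = (dec k).1 * ((dec k).2 : ℝ) ^ 2 := by
    conv_lhs => rw [h3]
    push_cast
    ring
  rw [h4, abs_mul]
  have h5 : (1 : ℝ) ≤ (dec k).2 := by exact_mod_cast h2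
  have h6 : 1 ≤ |((dec k).2 : ℝ) ^ 2| := by
    rw [abs_of_nonneg (by positivity)]
    nlinarith
  exact le_mul_of_one_le_right (abs_nonneg _) h6

/-- the symbol on a square class -/
lemma js_diff {k : ℤ} {b p : ℕ} (hp : p.Prime) :
    |js (k * (b : ℤ) ^ 2) p - js k p| ≤ if (p : ℤ) ^ 2 ∣ k * (b : ℤ) ^ 2 then 1 else 0 := by
  by_cases h : b.Coprime p
  · rw [js_mul, js_sq _ _ hp.ne_zero, if_pos h, mul_one, sub_self, abs_zero]
    split_ifs <;> norm_num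
  · have hpb : p ∣ b := by
      rw [Nat.coprime_comm, hp.coprime_iff_not_dvd] at h
      push Not at h
      exact h
    have h2 : (p : ℤ) ^ 2 ∣ k * (b : ℤ) ^ 2 :=
      Dvd.dvd.mul_left (pow_dvd_pow_of_dvd (by exact_mod_cast hpb) 2) k
    rw [if_pos h2, js_mul, js_sq _ _ hp.ne_zero, if_neg h, mul_zero, zero_sub, abs_neg]
    exact js_abs_le k p

lemma js_zero {p : ℕ} (hp : p.Prime) : js 0 p = 0 := by
  have : NeZero p := ⟨hp.ne_zero⟩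
  have h : jacobiSym 0 p = 0 := by
    rw [jacobiSym.eq_zero_iff_not_coprime]
    simp [hp.ne_one]
  simp [js, h]

/-- squarefree integers of absolute value `< K` -/
noncomputable def Kset (K : ℝ) : Finset ℤ :=
  @Finset.filter ℤ (fun k => Squarefree k ∧ |(k : ℝ)| < K) (Classical.decPred _)
    (Finset.Icc (-⌈K⌉) ⌈K⌉)

lemma mem_Kset {K : ℝ} {k : ℤ} : k ∈ Kset K ↔ Squarefree k ∧ |(k : ℝ)| < K := by
  unfold Kset
  rw [@Finset.mem_filter ℤ _ (Classical.decPred _), Finset.mem_Icc]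
  constructor
  · exact fun h => h.2
  · intro h
    refine ⟨?_, h⟩
    have h1 := abs_lt.1 h.2
    have h2 := Int.le_ceil K
    constructor
    · have : ((-⌈K⌉ : ℤ) : ℝ) ≤ (k : ℝ) := by push_cast; linarith
      exact_mod_cast this
    · have : (k : ℝ) ≤ (⌈K⌉ : ℝ) := by linarith
      exact_mod_cast this

lemma Kset_card {K : ℝ} (hK : 1 ≤ K) : ((Kset K).card : ℝ) ≤ 5 * K := by
  unfold Kset
  have h1 : (((Finset.Icc (-⌈K⌉) ⌈K⌉).card : ℕ) : ℝ) ≤ 5 * K := by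
    rw [Int.card_Icc]
    have h2 : ((⌈K⌉ + 1 - -⌈K⌉).toNat : ℤ) = 2 * ⌈K⌉ + 1 := by
      rw [Int.toNat_of_nonneg]
      · ring
      · have : 0 ≤ ⌈K⌉ := Int.ceil_nonneg (by linarith)
        omega
    have h3 : (((⌈K⌉ + 1 - -⌈K⌉).toNat : ℤ) : ℝ) = 2 * (⌈K⌉ : ℝ) + 1 := by
      rw [h2]; push_cast; ring
    have h4 : (((⌈K⌉ + 1 - -⌈K⌉).toNat : ℕ) : ℝ) = 2 * (⌈K⌉ : ℝ) + 1 := by
      rw [← h3]; norm_cast
    rw [h4]
    have := Int.ceil_lt_add_one K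
    linarith
  refine le_trans ?_ h1
  have h5 := @Finset.card_filter_le ℤ (Finset.Icc (-⌈K⌉) ⌈K⌉)
    (fun k => Squarefree k ∧ |(k : ℝ)| < K) (Classical.decPred _)
  exact_mod_cast h5

/-- reindexing a sum over the square classes -/
lemma sum_classes (K : ℝ) (h : ℤ → ℝ) (hs : Summable h)
    (h0 : ∀ k : ℤ, (k = 0 ∨ K ≤ |((dec k).1 : ℝ)|) → h k = 0) :
    ∑' k : ℤ, h k = ∑ k' ∈ Kset K, ∑' j : ℕ, h (k' * (((j + 1 : ℕ)) : ℤ) ^ 2) := by
  have hinj : Function.Injective (fun x : (Kset K) × ℕ => (x.1 : ℤ) * (((x.2 + 1 : ℕ)) : ℤ) ^ 2) := by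
    rintro ⟨⟨k, hk⟩, b⟩ ⟨⟨k', hk'⟩, b'⟩ hx
    simp only at hx
    obtain ⟨e1, e2⟩ := sq_unique (mem_Kset.1 hk).1 (mem_Kset.1 hk').1 (by omega : 1 ≤ b + 1)
      (by omega : 1 ≤ b' + 1) hx
    subst e1
    have : b = b' := by omega
    subst this
    rfl
  have hsupp : Function.support h ⊆ Set.range (fun x : (Kset K) × ℕ =>
      (x.1 : ℤ) * (((x.2 + 1 : ℕ)) : ℤ) ^ 2) := by
    intro k hk
    rw [Function.mem_support] at hk
    have hk0 : k ≠ 0 := fun h1 => hk (h0 k (Or.inl h1))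
    have hkK : |((dec k).1 : ℝ)| < K := by
      by_contra hcon
      push Not at hcon
      exact hk (h0 k (Or.inr hcon))
    obtain ⟨a1, a2, a3⟩ := dec_spec hk0
    refine ⟨(⟨(dec k).1, mem_Kset.2 ⟨a1, hkK⟩⟩, (dec k).2 - 1), ?_⟩
    simp only
    rw [Nat.sub_add_cancel a2]
    exact a3.symm
  rw [← hinj.tsum_eq hsupp]
  have hs2 : Summable (fun x : (Kset K) × ℕ => h ((x.1 : ℤ) * (((x.2 + 1 : ℕ)) : ℤ) ^ 2)) :=
    hs.comp_injective hinj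
  rw [hs2.tsum_prod, tsum_fintype, Finset.sum_coe_sort (Kset K)
    (fun k' => ∑' j : ℕ, h (k' * (((j + 1 : ℕ)) : ℤ) ^ 2))]

end Pool.Agent.N880.QF
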