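import Pool.Agent.N880.QF.Stm
import Pool.Agent.N429.QFChar

/-!
Project QF (helper880), leaf L4 (helper429): the primitive character attached to a squarefree
number.
-/

set_option autoImplicit false

namespace Pool.Agent.N880.QF

/-- L4: the primitive character attached to a squarefree number -/
theorem char_main : S_char := fun k hk _ => Pool.Agent.N429.QFChar.core k hk

end Pool.Agent.N880.QF
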