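import Pool.Agent.N880.QF.Stm

/-!
# The sieving moduli 1 and 210
-/

set_option autoImplicit false

namespace Pool.Agent.N880.QF

namespace Good

theorem mu_mul {a b : ℕ} (h : Nat.Coprime a b) :
    ArithmeticFunction.moebius (a * b) =
      ArithmeticFunction.moebius a * ArithmeticFunction.moebius b :=
  ArithmeticFunction.isMultiplicative_moebius.map_mul_of_coprime h

theorem mu2 : ArithmeticFunction.moebius 2 = -1 :=
  ArithmeticFunction.moebius_apply_prime (by norm_num)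
theorem mu3 : ArithmeticFunction.moebius 3 = -1 :=
  ArithmeticFunction.moebius_apply_prime (by norm_num)
theorem mu5 : ArithmeticFunction.moebius 5 = -1 :=
  ArithmeticFunction.moebius_apply_prime (by norm_num)
theorem mu7 : ArithmeticFunction.moebius 7 = -1 :=
  ArithmeticFunction.moebius_apply_prime (by norm_num)
theorem mu6 : ArithmeticFunction.moebius 6 = 1 := by
  rw [show 6 = 2 * 3 from rfl, mu_mul (by norm_num), mu2, mu3]; norm_num
theorem mu10 : ArithmeticFunction.moebius 10 = 1 := by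
  rw [show 10 = 2 * 5 from rfl, mu_mul (by norm_num), mu2, mu5]; norm_num
theorem mu14 : ArithmeticFunction.moebius 14 = 1 := by
  rw [show 14 = 2 * 7 from rfl, mu_mul (by norm_num), mu2, mu7]; norm_num
theorem mu15 : ArithmeticFunction.moebius 15 = 1 := by
  rw [show 15 = 3 * 5 from rfl, mu_mul (by norm_num), mu3, mu5]; norm_num
theorem mu21 : ArithmeticFunction.moebius 21 = 1 := by
  rw [show 21 = 3 * 7 from rfl, mu_mul (by norm_num), mu3, mu7]; norm_num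
theorem mu35 : ArithmeticFunction.moebius 35 = 1 := by
  rw [show 35 = 5 * 7 from rfl, mu_mul (by norm_num), mu5, mu7]; norm_num
theorem mu30 : ArithmeticFunction.moebius 30 = -1 := by
  rw [show 30 = 6 * 5 from rfl, mu_mul (by norm_num), mu6, mu5]; norm_num
theorem mu42 : ArithmeticFunction.moebius 42 = -1 := by
  rw [show 42 = 6 * 7 from rfl, mu_mul (by norm_num), mu6, mu7]; norm_num
theorem mu70 : ArithmeticFunction.moebius 70 = -1 := by
  rw [show 70 = 10 * 7 from rfl, mu_mul (by norm_num), mu10, mu7]; norm_num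
theorem mu105 : ArithmeticFunction.moebius 105 = -1 := by
  rw [show 105 = 15 * 7 from rfl, mu_mul (by norm_num), mu15, mu7]; norm_num
theorem mu210 : ArithmeticFunction.moebius 210 = 1 := by
  rw [show 210 = 6 * 35 from rfl, mu_mul (by norm_num), mu6, mu35]; norm_num

theorem dv : Nat.divisors 210 =
    {1, 2, 3, 5, 6, 7, 10, 14, 15, 21, 30, 35, 42, 70, 105, 210} := by
  decide +kernel

theorem check : ∀ k < 210, (210 ^ 2 * (k / 210) + 35 ^ 2 * (k / 35) + 21 ^ 2 * (k / 21)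
    + 15 ^ 2 * (k / 15) + 14 ^ 2 * (k / 14) + 10 ^ 2 * (k / 10) + 6 ^ 2 * (k / 6) + k) + 2 * k ≤
    48 * k + (105 ^ 2 * (k / 105) + 70 ^ 2 * (k / 70) + 42 ^ 2 * (k / 42) + 30 ^ 2 * (k / 30)
      + 7 ^ 2 * (k / 7) + 5 ^ 2 * (k / 5) + 3 ^ 2 * (k / 3) + 2 ^ 2 * (k / 2)) := by
  decide +kernel

theorem fr (x : ℝ) (hx : 0 ≤ x) (d e : ℕ) (hd : d * e = 210) (he : e ≠ 0) :
    Int.fract ((d : ℝ) * x) = d * x - ((⌊210 * x⌋₊ / e : ℕ) : ℝ) := by
  have h1 : (d : ℝ) * x = 210 * x / e := by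
    have : (e : ℝ) ≠ 0 := by exact_mod_cast he
    have h2 : (d : ℝ) * e = 210 := by exact_mod_cast hd
    field_simp
    rw [← h2]; ring
  have h3 : ⌊(d : ℝ) * x⌋₊ = ⌊210 * x⌋₊ / e := by
    rw [h1, Nat.floor_div_natCast]
  rw [← h3, ← Int.self_sub_floor]
  congr 1
  rw [← natCast_floor_eq_intCast_floor (by positivity)]

theorem fract_mul (d : ℕ) (y : ℝ) : Int.fract ((d : ℝ) * y) = Int.fract ((d : ℝ) * Int.fract y) := by
  have h : (d : ℝ) * y = (d : ℝ) * Int.fract y + ((d * ⌊y⌋ : ℤ) : ℝ) := by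
    rw [Int.fract]; push_cast; ring
  conv_lhs => rw [h]
  rw [Int.fract_add_intCast]

theorem good210 : GoodQ 210 := by
  refine ⟨by
    rw [show 210 = 2 * (3 * (5 * 7)) from rfl]
    rw [Nat.squarefree_mul (by norm_num), Nat.squarefree_mul (by norm_num),
      Nat.squarefree_mul (by norm_num)]
    exact ⟨Nat.prime_two.squarefree, Nat.prime_three.squarefree,
      (by norm_num : Nat.Prime 5).squarefree, (by norm_num : Nat.Prime 7).squarefree⟩,
    1 / 105, by norm_num, fun y => ?_⟩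
  have hx0 := Int.fract_nonneg y
  have hx1 := Int.fract_lt_one y
  have h0 : DD 210 y = DD 210 (Int.fract y) := by
    unfold DD
    exact Finset.sum_congr rfl fun d _ => by rw [fract_mul]
  rw [h0]
  set x := Int.fract y with hx
  have hk1 : (⌊210 * x⌋₊ : ℝ) ≤ 210 * x := Nat.floor_le (by positivity)
  have hk2 : ⌊210 * x⌋₊ < 210 := by
    rw [Nat.floor_lt (by positivity)]
    push_cast
    linarith
  have hc := check _ hk2
  unfold DD
  rw [dv]
  rw [Finset.sum_insert (by decide), Finset.sum_insert (by decide), Finset.sum_insert (by decide),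
    Finset.sum_insert (by decide), Finset.sum_insert (by decide), Finset.sum_insert (by decide),
    Finset.sum_insert (by decide), Finset.sum_insert (by decide), Finset.sum_insert (by decide),
    Finset.sum_insert (by decide), Finset.sum_insert (by decide), Finset.sum_insert (by decide),
    Finset.sum_insert (by decide), Finset.sum_insert (by decide), Finset.sum_insert (by decide),
    Finset.sum_singleton]
  rw [fr x hx0 1 210 rfl (by norm_num), fr x hx0 2 105 rfl (by norm_num),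
    fr x hx0 3 70 rfl (by norm_num), fr x hx0 5 42 rfl (by norm_num),
    fr x hx0 6 35 rfl (by norm_num), fr x hx0 7 30 rfl (by norm_num),
    fr x hx0 10 21 rfl (by norm_num), fr x hx0 14 15 rfl (by norm_num),
    fr x hx0 15 14 rfl (by norm_num), fr x hx0 21 10 rfl (by norm_num),
    fr x hx0 30 7 rfl (by norm_num), fr x hx0 35 6 rfl (by norm_num),
    fr x hx0 42 5 rfl (by norm_num), fr x hx0 70 3 rfl (by norm_num),
    fr x hx0 105 2 rfl (by norm_num), fr x hx0 210 1 rfl (by norm_num),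
    ArithmeticFunction.moebius_apply_one, mu2, mu3, mu5, mu6, mu7, mu10, mu14, mu15, mu21, mu30, mu35, mu42, mu70,
    mu105, mu210]
  have hcR : ((210 ^ 2 * (⌊210 * x⌋₊ / 210 : ℕ) + 35 ^ 2 * (⌊210 * x⌋₊ / 35 : ℕ)
    + 21 ^ 2 * (⌊210 * x⌋₊ / 21 : ℕ)
    + 15 ^ 2 * (⌊210 * x⌋₊ / 15 : ℕ) + 14 ^ 2 * (⌊210 * x⌋₊ / 14 : ℕ)
    + 10 ^ 2 * (⌊210 * x⌋₊ / 10 : ℕ) + 6 ^ 2 * (⌊210 * x⌋₊ / 6 : ℕ) + ⌊210 * x⌋₊)
    + 2 * ⌊210 * x⌋₊ : ℝ) ≤
    48 * ⌊210 * x⌋₊ + (105 ^ 2 * (⌊210 * x⌋₊ / 105 : ℕ) + 70 ^ 2 * (⌊210 * x⌋₊ / 70 : ℕ)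
      + 42 ^ 2 * (⌊210 * x⌋₊ / 42 : ℕ) + 30 ^ 2 * (⌊210 * x⌋₊ / 30 : ℕ)
      + 7 ^ 2 * (⌊210 * x⌋₊ / 7 : ℕ) + 5 ^ 2 * (⌊210 * x⌋₊ / 5 : ℕ)
      + 3 ^ 2 * (⌊210 * x⌋₊ / 3 : ℕ) + 2 ^ 2 * (⌊210 * x⌋₊ / 2 : ℕ)) := by
    exact_mod_cast hc
  rw [Nat.div_one]
  generalize ((⌊210 * x⌋₊ / 210 : ℕ) : ℝ) = a1 at *
  generalize ((⌊210 * x⌋₊ / 105 : ℕ) : ℝ) = a2 at *
  generalize ((⌊210 * x⌋₊ / 70 : ℕ) : ℝ) = a3 at *
  generalize ((⌊210 * x⌋₊ / 42 : ℕ) : ℝ) = a5 at *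
  generalize ((⌊210 * x⌋₊ / 35 : ℕ) : ℝ) = a6 at *
  generalize ((⌊210 * x⌋₊ / 30 : ℕ) : ℝ) = a7 at *
  generalize ((⌊210 * x⌋₊ / 21 : ℕ) : ℝ) = a10 at *
  generalize ((⌊210 * x⌋₊ / 15 : ℕ) : ℝ) = a14 at *
  generalize ((⌊210 * x⌋₊ / 14 : ℕ) : ℝ) = a15 at *
  generalize ((⌊210 * x⌋₊ / 10 : ℕ) : ℝ) = a21 at *
  generalize ((⌊210 * x⌋₊ / 7 : ℕ) : ℝ) = a30 at *
  generalize ((⌊210 * x⌋₊ / 6 : ℕ) : ℝ) = a35 at *
  generalize ((⌊210 * x⌋₊ / 5 : ℕ) : ℝ) = a42 at *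
  generalize ((⌊210 * x⌋₊ / 3 : ℕ) : ℝ) = a70 at *
  generalize ((⌊210 * x⌋₊ / 2 : ℕ) : ℝ) = a105 at *
  generalize (⌊210 * x⌋₊ : ℝ) = a210 at *
  push_cast
  clear hc hk2 h0
  linarith

theorem good1 : GoodQ 1 := by
  refine ⟨squarefree_one, 1, one_pos, fun y => ?_⟩
  unfold DD
  simp

end Good

theorem good_main : S_good := ⟨Good.good1, Good.good210⟩

end Pool.Agent.N880.QF
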