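import Pool.Agent.N880.QF.Stm2

/-!
Project QF (helper880): Gaussian sums, proofs of `S_sq` and `S_gs`.
-/

set_option autoImplicit false

open Filter Topology MeasureTheory Set

namespace Pool.Agent.N880.QF

namespace Gsum

/-- comparison of the sum and the integral of a decreasing function -/
theorem cmp (H : ℝ → ℝ) (hanti : ∀ x y : ℝ, 0 ≤ x → x ≤ y → H y ≤ H x) (h0 : ∀ x, 0 ≤ H x)
    (hint : IntegrableOn H (Ioi 0)) :
    Summable (fun j : ℕ => H ((j : ℝ) + 1)) ∧ ∑' j : ℕ, H ((j : ℝ) + 1) ≤ ∫ x in Ioi (0 : ℝ), H x ∧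
    ∫ x in Ioi (0 : ℝ), H x ≤ H 0 + ∑' j : ℕ, H ((j : ℝ) + 1) := by
  have ha : ∀ n : ℕ, AntitoneOn H (Icc 0 (0 + (n : ℝ))) := fun n x hx y _ hxy =>
    hanti x y hx.1 hxy
  have h1 : ∀ n : ℕ, ∑ i ∈ Finset.range n, H ((i : ℝ) + 1) ≤ ∫ x in Ioi (0 : ℝ), H x := by
    intro n
    have h2 := (ha n).sum_le_integral
    have h3 : ∫ x in (0 : ℝ)..0 + (n : ℝ), H x ≤ ∫ x in Ioi (0 : ℝ), H x := by
      rw [intervalIntegral.integral_of_le (by positivity)]
      exact setIntegral_mono_set hint (Eventually.of_forall fun x => h0 x)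
        (LE.le.eventuallyLE fun x hx => hx.1)
    refine le_trans (le_of_eq ?_) (h2.trans h3)
    refine Finset.sum_congr rfl fun i _ => ?_
    push_cast
    rw [zero_add]
  have hs : Summable (fun j : ℕ => H ((j : ℝ) + 1)) :=
    summable_of_sum_range_le (fun n => h0 _) h1
  refine ⟨hs, Real.tsum_le_of_sum_range_le (fun n => h0 _) h1, ?_⟩
  have ht : Tendsto (fun n : ℕ => ∫ x in (0 : ℝ)..(n : ℝ), H x) atTop
      (𝓝 (∫ x in Ioi (0 : ℝ), H x)) :=
    intervalIntegral_tendsto_integral_Ioi 0 hint tendsto_natCast_atTop_atTop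
  refine le_of_tendsto' ht fun n => ?_
  have h2 := (ha n).integral_le_sum
  rw [zero_add] at h2
  refine h2.trans ?_
  have h3 : ∑ i ∈ Finset.range n, H (0 + (i : ℝ)) ≤ ∑ i ∈ Finset.range (n + 1), H (0 + (i : ℝ)) :=
    Finset.sum_le_sum_of_subset_of_nonneg (Finset.range_mono (Nat.le_succ n))
      fun i _ _ => h0 _
  refine h3.trans ?_
  rw [Finset.sum_range_succ', add_comm]
  have h4 : ∑ k ∈ Finset.range n, H (0 + ((k + 1 : ℕ) : ℝ)) ≤ ∑' j : ℕ, H ((j : ℝ) + 1) := by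
    have : ∀ k : ℕ, H (0 + ((k + 1 : ℕ) : ℝ)) = H ((k : ℝ) + 1) := fun k => by
      push_cast; rw [zero_add]
    rw [Finset.sum_congr rfl fun k _ => this k]
    exact hs.sum_le_tsum _ fun i _ => h0 _
  have h5 : H (0 + ((0 : ℕ) : ℝ)) = H 0 := by simp
  rw [h5]
  exact add_le_add le_rfl h4

theorem I2_eq : I2 = Real.pi ^ (-(1 / 4 : ℝ)) * Real.Gamma (5 / 4) := by
  have h := integral_exp_neg_mul_rpow (p := 4) (b := Real.pi) (by norm_num) Real.pi_pos
  have h1 : I2 = ∫ x in Ioi (0 : ℝ), Real.exp (-Real.pi * x ^ (4 : ℝ)) := by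
    rw [I2]
    refine setIntegral_congr_fun measurableSet_Ioi fun x hx => ?_
    show Real.exp (-(Real.pi * x ^ 4)) = Real.exp (-Real.pi * x ^ (4 : ℝ))
    have : x ^ (4 : ℝ) = x ^ 4 := by
      rw [← Real.rpow_natCast x 4]; norm_num
    rw [this, neg_mul]
  rw [h1, h]
  norm_num

theorem I2_pos : 0 < I2 := by
  rw [I2_eq]
  exact mul_pos (Real.rpow_pos_of_pos Real.pi_pos _) (Real.Gamma_pos_of_pos (by norm_num))

theorem I2_le : I2 ≤ 1 := by
  rw [I2_eq]
  have h1 : Real.Gamma (5 / 4) ≤ 1 := by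
    have hc : ConvexOn ℝ (Ioi 0) Real.Gamma := Real.convexOn_Gamma
    have h := hc.2 (Set.mem_Ioi.2 (one_pos : (0 : ℝ) < 1)) (Set.mem_Ioi.2 (two_pos : (0 : ℝ) < 2))
      (show (0 : ℝ) ≤ 3 / 4 by norm_num) (show (0 : ℝ) ≤ 1 / 4 by norm_num) (by norm_num)
    simp only [smul_eq_mul] at h
    have h2 : (3 / 4 * 1 + 1 / 4 * 2 : ℝ) = 5 / 4 := by norm_num
    rw [h2, Real.Gamma_one] at h
    have h3 : Real.Gamma 2 = 1 := by
      have := Real.Gamma_two
      exact this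
    rw [h3] at h
    linarith
  have h2 : Real.pi ^ (-(1 / 4 : ℝ)) ≤ 1 :=
    Real.rpow_le_one_of_one_le_of_nonpos (by linarith [Real.pi_gt_three]) (by norm_num)
  calc Real.pi ^ (-(1 / 4 : ℝ)) * Real.Gamma (5 / 4) ≤ 1 * 1 :=
        mul_le_mul h2 h1 (Real.Gamma_pos_of_pos (by norm_num)).le zero_le_one
    _ = 1 := one_mul 1

theorem sq_int (z : ℝ) (hz : 0 < z) :
    ∫ x in Ioi (0 : ℝ), Real.exp (-(Real.pi * (x ^ 2 * z) ^ 2)) = I2 / Real.sqrt z := by
  have hs : 0 < Real.sqrt z := Real.sqrt_pos.2 hz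
  have h := integral_comp_mul_left_Ioi (fun x : ℝ => Real.exp (-(Real.pi * x ^ 4))) 0 hs
  rw [mul_zero, smul_eq_mul] at h
  have h1 : ∀ x : ℝ, Real.exp (-(Real.pi * (x ^ 2 * z) ^ 2)) =
      Real.exp (-(Real.pi * (Real.sqrt z * x) ^ 4)) := by
    intro x
    have : (Real.sqrt z * x) ^ 4 = (x ^ 2 * z) ^ 2 := by
      have h2 := Real.sq_sqrt hz.le
      calc (Real.sqrt z * x) ^ 4 = ((Real.sqrt z) ^ 2 * x ^ 2) ^ 2 := by ring
        _ = (x ^ 2 * z) ^ 2 := by rw [h2]; ring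
    rw [this]
  simp_rw [h1]
  rw [h, I2, div_eq_inv_mul]

theorem sq_le {z : ℝ} (hz : 0 < z) {x y : ℝ} (hx : 0 ≤ x) (hxy : x ≤ y) :
    Real.exp (-(Real.pi * (y ^ 2 * z) ^ 2)) ≤ Real.exp (-(Real.pi * (x ^ 2 * z) ^ 2)) := by
  apply Real.exp_le_exp.2
  have : (x ^ 2 * z) ^ 2 ≤ (y ^ 2 * z) ^ 2 := by gcongr
  have := mul_le_mul_of_nonneg_left this Real.pi_pos.le
  linarith

end Gsum

open Gsum

/-- L12a -/
theorem sq_main : S_sq := by
  refine ⟨I2_pos, I2_le, fun z hz => ?_⟩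
  have hval := sq_int z hz
  have hpos : 0 < I2 / Real.sqrt z := div_pos I2_pos (Real.sqrt_pos.2 hz)
  have hint : IntegrableOn (fun x : ℝ => Real.exp (-(Real.pi * (x ^ 2 * z) ^ 2))) (Ioi 0) := by
    by_contra h
    have := integral_undef h
    rw [hval] at this
    exact hpos.ne' this
  obtain ⟨-, h1, h2⟩ := cmp (fun x : ℝ => Real.exp (-(Real.pi * (x ^ 2 * z) ^ 2)))
    (fun x y hx hxy => sq_le hz hx hxy) (fun x => (Real.exp_pos _).le) hint
  refine ⟨hval, ?_, ?_⟩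
  · rw [phi]; exact sub_nonneg.2 h1
  · rw [phi]
    have : Real.exp (-(Real.pi * ((0 : ℝ) ^ 2 * z) ^ 2)) = 1 := by simp
    simp only [this] at h2
    linarith

namespace Gsum

/-- the sum over the positive integers -/
theorem pos_sum (Y : ℝ) (hY : 0 < Y) :
    Summable (fun j : ℕ => Real.exp (-(Real.pi * (((j : ℝ) + 1) * Y) ^ 2))) ∧
    ∑' j : ℕ, Real.exp (-(Real.pi * (((j : ℝ) + 1) * Y) ^ 2)) ≤ 1 / (2 * Y) := by
  have hval : ∫ x in Ioi (0 : ℝ), Real.exp (-(Real.pi * (x * Y) ^ 2)) = 1 / (2 * Y) := by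
    have h := integral_gaussian_Ioi (Real.pi * Y ^ 2)
    have h1 : ∀ x : ℝ, Real.exp (-(Real.pi * (x * Y) ^ 2)) =
        Real.exp (-(Real.pi * Y ^ 2) * x ^ 2) := fun x => by congr 1; ring
    simp_rw [h1]
    rw [h]
    have h2 : Real.pi / (Real.pi * Y ^ 2) = (1 / Y) ^ 2 := by
      have := Real.pi_pos.ne'
      field_simp
    rw [h2, Real.sqrt_sq (by positivity)]
    field_simp
  have hint : IntegrableOn (fun x : ℝ => Real.exp (-(Real.pi * (x * Y) ^ 2))) (Ioi 0) := by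
    by_contra h
    have := integral_undef h
    rw [hval] at this
    have h3 : 0 < 1 / (2 * Y) := by positivity
    exact h3.ne' this
  obtain ⟨h0, h1, -⟩ := cmp (fun x : ℝ => Real.exp (-(Real.pi * (x * Y) ^ 2)))
    (fun x y hx hxy => by
      apply Real.exp_le_exp.2
      have : (x * Y) ^ 2 ≤ (y * Y) ^ 2 := by gcongr
      have := mul_le_mul_of_nonneg_left this Real.pi_pos.le
      linarith) (fun x => (Real.exp_pos _).le) hint
  rw [hval] at h1
  exact ⟨h0, h1⟩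

theorem int_sum (Y : ℝ) (hY : 0 < Y) :
    HasSum (fun k : ℤ => Real.exp (-(Real.pi * (k * Y) ^ 2)))
      (1 + 2 * ∑' j : ℕ, Real.exp (-(Real.pi * (((j : ℝ) + 1) * Y) ^ 2))) ∧
    HasSum (fun k : ℤ => if k = 0 then 0 else Real.exp (-(Real.pi * (k * Y) ^ 2)))
      (2 * ∑' j : ℕ, Real.exp (-(Real.pi * (((j : ℝ) + 1) * Y) ^ 2))) := by
  obtain ⟨hs, -⟩ := pos_sum Y hY
  set S := ∑' j : ℕ, Real.exp (-(Real.pi * (((j : ℝ) + 1) * Y) ^ 2)) with hS
  have hneg : ∀ n : ℕ, Real.exp (-(Real.pi * (((-((n : ℤ) + 1) : ℤ) : ℝ) * Y) ^ 2)) =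
      Real.exp (-(Real.pi * (((n : ℝ) + 1) * Y) ^ 2)) := by
    intro n
    congr 3
    push_cast
    ring
  have hnz : ∀ n : ℕ, (-((n : ℤ) + 1) : ℤ) ≠ 0 := fun n => by omega
  constructor
  · have h1 : HasSum (fun n : ℕ => Real.exp (-(Real.pi * (((n : ℤ) : ℝ) * Y) ^ 2))) (S + 1) := by
      have h2 := (hasSum_nat_add_iff
        (f := fun n : ℕ => Real.exp (-(Real.pi * (((n : ℤ) : ℝ) * Y) ^ 2))) (g := S) 1).1 (by
          have : (fun n : ℕ => Real.exp (-(Real.pi * ((((n + 1 : ℕ) : ℤ) : ℝ) * Y) ^ 2))) =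
              fun n : ℕ => Real.exp (-(Real.pi * (((n : ℝ) + 1) * Y) ^ 2)) := by
            funext n
            push_cast
            rfl
          rw [this]
          exact hs.hasSum)
      simpa using h2
    have h4 := HasSum.of_nat_of_neg_add_one
      (f := fun k : ℤ => Real.exp (-(Real.pi * (k * Y) ^ 2))) h1 (by
        simp_rw [hneg]
        exact hs.hasSum)
    convert h4 using 1
    ring
  · have h1 : HasSum (fun n : ℕ => if (n : ℤ) = 0 then (0 : ℝ) else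
        Real.exp (-(Real.pi * (((n : ℤ) : ℝ) * Y) ^ 2))) S := by
      have h2 := (hasSum_nat_add_iff
        (f := fun n : ℕ => if (n : ℤ) = 0 then (0 : ℝ) else
          Real.exp (-(Real.pi * (((n : ℤ) : ℝ) * Y) ^ 2))) (g := S) 1).1 (by
          have : (fun n : ℕ => if ((n + 1 : ℕ) : ℤ) = 0 then (0 : ℝ) else
                Real.exp (-(Real.pi * ((((n + 1 : ℕ) : ℤ) : ℝ) * Y) ^ 2))) =
              fun n : ℕ => Real.exp (-(Real.pi * (((n : ℝ) + 1) * Y) ^ 2)) := by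
            funext n
            rw [if_neg (by omega)]
            push_cast
            rfl
          rw [this]
          exact hs.hasSum)
      simpa using h2
    have h4 := HasSum.of_nat_of_neg_add_one
      (f := fun k : ℤ => if k = 0 then (0 : ℝ) else Real.exp (-(Real.pi * (k * Y) ^ 2))) h1 (by
        have : (fun n : ℕ => if (-((n : ℤ) + 1) : ℤ) = 0 then (0 : ℝ) else
            Real.exp (-(Real.pi * (((-((n : ℤ) + 1) : ℤ) : ℝ) * Y) ^ 2))) =
            fun n : ℕ => Real.exp (-(Real.pi * (((n : ℝ) + 1) * Y) ^ 2)) := by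
          funext n
          rw [if_neg (hnz n), hneg]
        rw [this]
        exact hs.hasSum)
    convert h4 using 1
    ring

theorem poisson (Y : ℝ) (hY : 0 < Y) :
    1 / Y ≤ 1 + 2 * ∑' j : ℕ, Real.exp (-(Real.pi * (((j : ℝ) + 1) * Y) ^ 2)) := by
  have h1 := (int_sum Y hY).1.tsum_eq
  have h2 := Real.tsum_exp_neg_mul_int_sq (a := Y ^ 2) (by positivity)
  have h3 : (Y ^ 2) ^ (1 / 2 : ℝ) = Y := by
    rw [← Real.sqrt_eq_rpow, Real.sqrt_sq hY.le]
  rw [h3] at h2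
  have h4 : ∑' k : ℤ, Real.exp (-(Real.pi * (k * Y) ^ 2)) =
      ∑' n : ℤ, Real.exp (-Real.pi * Y ^ 2 * (n : ℝ) ^ 2) := by
    refine tsum_congr fun k => ?_
    congr 1
    ring
  rw [← h1, h4, h2]
  have h5 : 1 ≤ ∑' n : ℤ, Real.exp (-Real.pi / Y ^ 2 * (n : ℝ) ^ 2) := by
    have hs := (int_sum (1 / Y) (by positivity)).1
    have h6 : (fun n : ℤ => Real.exp (-Real.pi / Y ^ 2 * (n : ℝ) ^ 2)) =
        fun k : ℤ => Real.exp (-(Real.pi * (k * (1 / Y)) ^ 2)) := by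
      funext k
      congr 1
      field_simp
    rw [h6, hs.tsum_eq]
    have : 0 ≤ ∑' j : ℕ, Real.exp (-(Real.pi * (((j : ℝ) + 1) * (1 / Y)) ^ 2)) :=
      tsum_nonneg fun j => (Real.exp_pos _).le
    linarith
  calc 1 / Y = 1 / Y * 1 := (mul_one _).symm
    _ ≤ _ := mul_le_mul_of_nonneg_left h5 (by positivity)

/-- the constant of the decay -/
noncomputable def cN (N : ℕ) : ℝ := 1 + N.factorial

theorem cN_pos (N : ℕ) : 0 < cN N := by rw [cN]; positivity

theorem decay (N : ℕ) (x : ℝ) (hx : 0 < x) : Real.exp (-(Real.pi * x ^ 2)) ≤ cN N / x ^ N := by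
  have h1 : x ^ N ≤ 1 + (x ^ 2) ^ N := by
    have : 0 ≤ x ^ N := by positivity
    have h2 : (x ^ 2) ^ N = (x ^ N) ^ 2 := by ring
    rw [h2]
    nlinarith [sq_nonneg (x ^ N - 1)]
  have h2 := Real.pow_div_factorial_le_exp (x ^ 2) (by positivity) N
  have hf : (0 : ℝ) < N.factorial := by positivity
  have h3 : (x ^ 2) ^ N ≤ N.factorial * Real.exp (x ^ 2) := by
    rw [div_le_iff₀ hf] at h2; linarith
  have h4 : (1 : ℝ) ≤ Real.exp (x ^ 2) := Real.one_le_exp (by positivity)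
  have h5 : Real.exp (x ^ 2) ≤ Real.exp (Real.pi * x ^ 2) := by
    apply Real.exp_le_exp.2
    nlinarith [Real.pi_gt_three, sq_nonneg x]
  have h6 : x ^ N ≤ cN N * Real.exp (Real.pi * x ^ 2) := by
    have : cN N * Real.exp (x ^ 2) ≤ cN N * Real.exp (Real.pi * x ^ 2) :=
      mul_le_mul_of_nonneg_left h5 (cN_pos N).le
    refine le_trans ?_ this
    rw [cN]
    nlinarith
  rw [Real.exp_neg, le_div_iff₀ (by positivity), inv_mul_le_iff₀ (Real.exp_pos _), mul_comm]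
  exact h6

/-- `∑ 1/k²` over the integers -/
noncomputable def Z2 : ℝ := ∑' k : ℤ, 1 / (k : ℝ) ^ 2

theorem sum2 : Summable (fun k : ℤ => 1 / (k : ℝ) ^ 2) :=
  Real.summable_one_div_int_pow.2 (by norm_num)

theorem Z2_nonneg : 0 ≤ Z2 := tsum_nonneg fun k => by positivity

theorem key (N : ℕ) (hN : 2 ≤ N) (K : ℝ) (hK : 1 ≤ K) (k : ℝ) (hk : K ≤ |k|) :
    1 / |k| ^ N ≤ K ^ 2 / K ^ N * (1 / k ^ 2) := by
  obtain ⟨M, rfl⟩ : ∃ M, N = M + 2 := ⟨N - 2, by omega⟩
  have hK0 : 0 < K := by linarith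
  have hk0 : 0 < |k| := by linarith
  have h1 : K ^ 2 / K ^ (M + 2) = 1 / K ^ M := by
    rw [pow_add]; field_simp
  have h2 : |k| ^ (M + 2) = |k| ^ M * k ^ 2 := by rw [pow_add, sq_abs]
  rw [h1, h2, ← one_div_mul_one_div]
  have h3 : 1 / |k| ^ M ≤ 1 / K ^ M :=
    one_div_le_one_div_of_le (by positivity) (pow_le_pow_left₀ hK0.le hk M)
  exact mul_le_mul_of_nonneg_right h3 (by positivity)

end Gsum

/-- L12b -/
theorem gs_main : S_gs := by
  refine ⟨fun Y hY => ?_, fun N hN => ⟨cN N * (Z2 + 1), ?_, ?_, ?_⟩⟩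
  · obtain ⟨h1, h2⟩ := int_sum Y hY
    obtain ⟨h3, h4⟩ := pos_sum Y hY
    refine ⟨h1.summable, ?_, ?_⟩
    · rw [h2.tsum_eq]
      calc 2 * ∑' j : ℕ, Real.exp (-(Real.pi * (((j : ℝ) + 1) * Y) ^ 2)) ≤ 2 * (1 / (2 * Y)) := by
            linarith
        _ = 1 / Y := by field_simp
    · rw [h2.tsum_eq]
      have := poisson Y hY
      linarith
  · exact mul_pos (cN_pos N) (by linarith [Z2_nonneg])
  · intro Y K hY hK
    have hK0 : 0 < K := by linarith
    have hle : ∀ k : ℤ, (if K ≤ |(k : ℝ)| then Real.exp (-(Real.pi * (k * Y) ^ 2)) else 0) ≤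
        cN N / Y ^ N * (K ^ 2 / K ^ N) * (1 / (k : ℝ) ^ 2) := by
      intro k
      split_ifs with h
      · have hk0 : 0 < |(k : ℝ)| := by linarith
        have h1 := decay N (|(k : ℝ)| * Y) (by positivity)
        have h2 : (|(k : ℝ)| * Y) ^ 2 = ((k : ℝ) * Y) ^ 2 := by rw [mul_pow, sq_abs, mul_pow]
        rw [h2] at h1
        refine h1.trans ?_
        rw [mul_pow]
        have h3 := key N hN K hK k h
        calc cN N / (|(k : ℝ)| ^ N * Y ^ N) = cN N / Y ^ N * (1 / |(k : ℝ)| ^ N) := by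
              field_simp
          _ ≤ cN N / Y ^ N * (K ^ 2 / K ^ N * (1 / (k : ℝ) ^ 2)) :=
              mul_le_mul_of_nonneg_left h3 (div_nonneg (cN_pos N).le (by positivity))
          _ = _ := by ring
      · have := cN_pos N
        positivity
    have hs1 : Summable fun k : ℤ => cN N / Y ^ N * (K ^ 2 / K ^ N) * (1 / (k : ℝ) ^ 2) :=
      sum2.mul_left _
    have hs0 : Summable fun k : ℤ => (if K ≤ |(k : ℝ)| then
        Real.exp (-(Real.pi * (k * Y) ^ 2)) else 0) :=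
      Summable.of_nonneg_of_le (fun k => by split_ifs <;> positivity) hle hs1
    refine (hs0.tsum_le_tsum hle hs1).trans ?_
    rw [tsum_mul_left]
    have h5 : (0 : ℝ) ≤ cN N / Y ^ N * (K ^ 2 / K ^ N) := by
      have := cN_pos N
      positivity
    calc cN N / Y ^ N * (K ^ 2 / K ^ N) * ∑' k : ℤ, 1 / (k : ℝ) ^ 2
        ≤ cN N / Y ^ N * (K ^ 2 / K ^ N) * (Z2 + 1) :=
          mul_le_mul_of_nonneg_left (by rw [Z2]; linarith) h5
      _ = _ := by ring
  · intro Y D hY hD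
    have hD0 : (0 : ℝ) < D := by exact_mod_cast hD
    have hinj : Function.Injective (fun j : ℤ => (D : ℤ) * j) := fun a b h => by
      have : (D : ℤ) ≠ 0 := by positivity
      exact mul_left_cancel₀ this h
    have hsupp : Function.support (fun k : ℤ => (if k ≠ 0 ∧ (D : ℤ) ∣ k then
        Real.exp (-(Real.pi * (k * Y) ^ 2)) else 0)) ⊆ Set.range (fun j : ℤ => (D : ℤ) * j) := by
      intro k hk
      rw [Function.mem_support] at hk
      by_contra h
      apply hk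
      rw [if_neg]
      rintro ⟨-, j, rfl⟩
      exact h ⟨j, rfl⟩
    rw [← hinj.tsum_eq hsupp]
    have hle : ∀ j : ℤ, (if (D : ℤ) * j ≠ 0 ∧ (D : ℤ) ∣ (D : ℤ) * j then
        Real.exp (-(Real.pi * ((((D : ℤ) * j : ℤ) : ℝ) * Y) ^ 2)) else 0) ≤
        cN N / (D * Y) ^ N * (1 / (j : ℝ) ^ 2) := by
      intro j
      split_ifs with h
      · have hj : j ≠ 0 := by
          rintro rfl
          exact h.1 (mul_zero _)
        have hj1 : (1 : ℝ) ≤ |(j : ℝ)| := by
          have : (1 : ℤ) ≤ |j| := Int.one_le_abs hj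
          exact_mod_cast this
        have h1 := decay N (|(j : ℝ)| * (D * Y)) (by positivity)
        have h2 : (|(j : ℝ)| * (D * Y)) ^ 2 = ((((D : ℤ) * j : ℤ) : ℝ) * Y) ^ 2 := by
          push_cast
          rw [mul_pow, sq_abs]
          ring
        rw [h2] at h1
        refine h1.trans ?_
        rw [mul_pow]
        have h3 := key N hN 1 le_rfl j hj1
        rw [one_pow, one_pow, div_one, one_mul] at h3
        calc cN N / (|(j : ℝ)| ^ N * (D * Y) ^ N) = cN N / (D * Y) ^ N * (1 / |(j : ℝ)| ^ N) := by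
              field_simp
          _ ≤ cN N / (D * Y) ^ N * (1 / (j : ℝ) ^ 2) :=
              mul_le_mul_of_nonneg_left h3 (div_nonneg (cN_pos N).le (by positivity))
      · have := cN_pos N
        positivity
    have hs1 : Summable fun j : ℤ => cN N / (D * Y) ^ N * (1 / (j : ℝ) ^ 2) := sum2.mul_left _
    have hs0 := Summable.of_nonneg_of_le (fun k => by split_ifs <;> positivity) hle hs1
    refine (hs0.tsum_le_tsum hle hs1).trans ?_
    rw [tsum_mul_left]
    have h5 : (0 : ℝ) ≤ cN N / (D * Y) ^ N := by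
      have := cN_pos N
      positivity
    calc cN N / (D * Y) ^ N * ∑' k : ℤ, 1 / (k : ℝ) ^ 2
        ≤ cN N / (D * Y) ^ N * (Z2 + 1) :=
          mul_le_mul_of_nonneg_left (by rw [Z2]; linarith) h5
      _ = _ := by ring

end Pool.Agent.N880.QF
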