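import Pool.Agent.N880.QF.Stm

/-!
Project QF, leaf L1: defect of the right Riemann sum of `exp(-π (x² z)²)`.
-/

set_option autoImplicit false

open Filter Topology MeasureTheory Set

namespace Pool.Agent.N880.QF

namespace PhiAux

/-- the function -/
noncomputable def f (z x : ℝ) : ℝ := Real.exp (-(Real.pi * (x ^ 2 * z) ^ 2))

theorem f_anti {z x y : ℝ} (hz : 0 < z) (hx : 0 ≤ x) (hxy : x ≤ y) : f z y ≤ f z x := by
  unfold f
  apply Real.exp_le_exp.2
  have h1 : x ^ 2 * z ≤ y ^ 2 * z := by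
    apply mul_le_mul_of_nonneg_right _ hz.le
    exact pow_le_pow_left₀ hx hxy 2
  have h2 : (x ^ 2 * z) ^ 2 ≤ (y ^ 2 * z) ^ 2 := pow_le_pow_left₀ (by positivity) h1 2
  have := mul_le_mul_of_nonneg_left h2 Real.pi_pos.le
  linarith

theorem f_cont (z : ℝ) : Continuous (f z) := by
  unfold f
  fun_prop

theorem f_int {z : ℝ} (hz : 0 < z) : IntegrableOn (f z) (Ioi 0) := by
  have hb : 0 < Real.pi * z ^ 2 := by positivity
  have h1 : Integrable (fun x : ℝ => Real.exp (Real.pi * z ^ 2) *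
      Real.exp (-(Real.pi * z ^ 2) * x ^ 2)) := (integrable_exp_neg_mul_sq hb).const_mul _
  refine (h1.mono' (f_cont z).aestronglyMeasurable ?_).integrableOn
  filter_upwards with x
  have hfx : 0 < f z x := Real.exp_pos _
  rw [Real.norm_eq_abs, abs_of_pos hfx, ← Real.exp_add]
  apply Real.exp_le_exp.2
  have : 0 ≤ Real.pi * z ^ 2 * (x ^ 4 - x ^ 2 + 1) := by
    apply mul_nonneg hb.le
    nlinarith [sq_nonneg (x ^ 2 - 1), sq_nonneg x]
  nlinarith

theorem f_sum {z : ℝ} (hz : 0 < z) : Summable (fun j : ℕ => f z ((j : ℝ) + 1)) := by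
  have hb : 0 < Real.pi * z ^ 2 := by positivity
  have h1 : Summable (fun j : ℕ => Real.exp ((j : ℝ) * (-(Real.pi * z ^ 2)))) :=
    Real.summable_exp_nat_mul_iff.2 (by linarith)
  refine Summable.of_nonneg_of_le (fun j => (Real.exp_pos _).le) (fun j => ?_) h1
  apply Real.exp_le_exp.2
  have hj : (0 : ℝ) ≤ j := Nat.cast_nonneg j
  have h2 : (j : ℝ) ≤ (((j : ℝ) + 1) ^ 2) ^ 2 := by
    nlinarith [sq_nonneg ((j : ℝ) + 1), mul_nonneg hj hj, sq_nonneg ((j:ℝ)^2)]
  have h3 := mul_le_mul_of_nonneg_left h2 hb.le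
  nlinarith

theorem cell {z : ℝ} (hz : 0 < z) (j : ℕ) {s : ℝ} (hs : 0 ≤ s) (hs1 : s ≤ 1) :
    s * (f z (j + s) - f z (j + 1)) ≤ (∫ x in (j : ℝ)..((j : ℝ) + 1), f z x) - f z (j + 1) := by
  have hj : (0 : ℝ) ≤ j := Nat.cast_nonneg j
  have hi : ∀ a b : ℝ, IntervalIntegrable (f z) volume a b := fun a b =>
    (f_cont z).intervalIntegrable a b
  have h1 : (∫ x in (j : ℝ)..((j : ℝ) + 1), f z x) =
      (∫ x in (j : ℝ)..((j : ℝ) + s), f z x) + ∫ x in ((j : ℝ) + s)..((j : ℝ) + 1), f z x :=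
    (intervalIntegral.integral_add_adjacent_intervals (hi _ _) (hi _ _)).symm
  have h2 : s * f z (j + s) ≤ ∫ x in (j : ℝ)..((j : ℝ) + s), f z x := by
    have : ∫ x in (j : ℝ)..((j : ℝ) + s), f z (j + s) ≤ ∫ x in (j : ℝ)..((j : ℝ) + s), f z x := by
      apply intervalIntegral.integral_mono_on (by linarith) (by simp) (hi _ _)
      intro x hx
      exact f_anti hz (by linarith [hx.1]) hx.2
    rw [intervalIntegral.integral_const, smul_eq_mul] at this
    linarith [this, show ((j : ℝ) + s - j) * f z (j + s) = s * f z (j + s) by ring]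
  have h3 : (1 - s) * f z (j + 1) ≤ ∫ x in ((j : ℝ) + s)..((j : ℝ) + 1), f z x := by
    have : ∫ x in ((j : ℝ) + s)..((j : ℝ) + 1), f z (j + 1) ≤
        ∫ x in ((j : ℝ) + s)..((j : ℝ) + 1), f z x := by
      apply intervalIntegral.integral_mono_on (by linarith) (by simp) (hi _ _)
      intro x hx
      exact f_anti hz (by linarith [hx.1]) hx.2
    rw [intervalIntegral.integral_const, smul_eq_mul] at this
    linarith [this, show ((j : ℝ) + 1 - (j + s)) * f z (j + 1) = (1 - s) * f z (j + 1) by ring]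
  rw [h1]
  linarith

theorem phi_ge {z : ℝ} (hz : 0 < z) (n : ℕ) :
    ∑ j ∈ Finset.range n, ((∫ x in (j : ℝ)..((j : ℝ) + 1), f z x) - f z (j + 1)) ≤ phi z := by
  have h1 : Tendsto (fun N : ℕ => ∫ x in (0 : ℝ)..(N : ℝ), f z x) atTop
      (𝓝 (∫ x in Ioi (0 : ℝ), f z x)) :=
    intervalIntegral_tendsto_integral_Ioi 0 (f_int hz) tendsto_natCast_atTop_atTop
  have h2 : Tendsto (fun N : ℕ => ∑ j ∈ Finset.range N, f z ((j : ℝ) + 1)) atTop
      (𝓝 (∑' j : ℕ, f z ((j : ℝ) + 1))) := (f_sum hz).hasSum.tendsto_sum_nat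
  have h3 := h1.sub h2
  have h4 : phi z = (∫ x in Ioi (0 : ℝ), f z x) - ∑' j : ℕ, f z ((j : ℝ) + 1) := rfl
  rw [h4]
  refine ge_of_tendsto h3 ?_
  filter_upwards [eventually_ge_atTop n] with N hN
  have h5 : ∀ M : ℕ, (∫ x in (0 : ℝ)..(M : ℝ), f z x) =
      ∑ j ∈ Finset.range M, ∫ x in (j : ℝ)..((j : ℝ) + 1), f z x := by
    intro M
    induction M with
    | zero => simp
    | succ M ih =>
      rw [Finset.sum_range_succ, ← ih]
      push_cast
      exact (intervalIntegral.integral_add_adjacent_intervals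
        ((f_cont z).intervalIntegrable _ _) ((f_cont z).intervalIntegrable _ _)).symm
  rw [h5, ← Finset.sum_sub_distrib]
  apply Finset.sum_le_sum_of_subset_of_nonneg
  · exact Finset.range_mono hN
  · intro j _ _
    have := cell hz j le_rfl zero_le_one
    simpa using this

theorem cubes (N : ℕ) : ((N : ℝ)) ^ 4 / 4 ≤ ∑ j ∈ Finset.range N, ((j : ℝ) + 1) ^ 3 := by
  induction N with
  | zero => simp
  | succ N ih =>
    rw [Finset.sum_range_succ]
    push_cast
    have : (0 : ℝ) ≤ N := Nat.cast_nonneg N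
    nlinarith [mul_nonneg this this]

theorem big {z : ℝ} (hz : 1 ≤ z) :
    (1 / 2) * (Real.exp (-(Real.pi / 16)) - Real.exp (-Real.pi)) * (1 / Real.sqrt z) ≤ phi z := by
  have hz0 : 0 < z := by linarith
  have hs : 1 ≤ Real.sqrt z := Real.one_le_sqrt.2 hz
  have hs0 : 0 < Real.sqrt z := by linarith
  set s : ℝ := 1 / (2 * Real.sqrt z) with hsdef
  have h0 : 0 ≤ s := by positivity
  have h1 : s ≤ 1 := by
    rw [hsdef, div_le_one (by positivity)]
    linarith
  have h2 := (cell hz0 0 h0 h1).trans (by simpa using phi_ge hz0 1)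
  have h3 : f z (((0 : ℕ) : ℝ) + s) = Real.exp (-(Real.pi / 16)) := by
    unfold f
    congr 1
    have h4 : s ^ 2 * z = 1 / 4 := by
      rw [hsdef, div_pow, mul_pow, Real.sq_sqrt hz0.le]
      field_simp
      norm_num
    rw [Nat.cast_zero, zero_add, h4]
    ring
  have h5 : f z (((0 : ℕ) : ℝ) + 1) ≤ Real.exp (-Real.pi) := by
    unfold f
    apply Real.exp_le_exp.2
    have : 1 ≤ z ^ 2 := by nlinarith
    have := mul_le_mul_of_nonneg_left this Real.pi_pos.le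
    simp only [Nat.cast_zero, zero_add, one_pow, one_mul]
    linarith
  rw [h3] at h2
  have h6 : s = (1 / 2) * (1 / Real.sqrt z) := by
    rw [hsdef]; field_simp
  have h7 : s * (Real.exp (-(Real.pi / 16)) - Real.exp (-Real.pi)) ≤
      s * (Real.exp (-(Real.pi / 16)) - f z (((0 : ℕ) : ℝ) + 1)) :=
    mul_le_mul_of_nonneg_left (sub_le_sub_left h5 _) h0
  calc (1 / 2) * (Real.exp (-(Real.pi / 16)) - Real.exp (-Real.pi)) * (1 / Real.sqrt z)
      = s * (Real.exp (-(Real.pi / 16)) - Real.exp (-Real.pi)) := by rw [h6]; ring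
    _ ≤ _ := h7
    _ ≤ phi z := h2

theorem small {z : ℝ} (hz : 0 < z) (hz1 : z ≤ 1) :
    Real.pi / 16 * Real.exp (-(Real.pi * 16)) ≤ phi z := by
  set η := Real.sqrt z with hη
  have hη0 : 0 < η := Real.sqrt_pos.2 hz
  have hη1 : η ≤ 1 := Real.sqrt_le_one.2 hz1
  have hzz : z = η ^ 2 := (Real.sq_sqrt hz.le).symm
  set N : ℕ := ⌈1 / η⌉₊ with hN
  have hN1 : 1 / η ≤ N := Nat.le_ceil _
  have hN2 : (N : ℝ) ≤ 2 / η := by
    have := (Nat.ceil_lt_add_one (show 0 ≤ 1 / η by positivity)).le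
    have h1 : 1 ≤ 1 / η := by rw [le_div_iff₀ hη0]; linarith
    have h2 : 2 / η = 1 / η + 1 / η := by ring
    rw [h2]; linarith
  have hcell : ∀ j ∈ Finset.range N, Real.pi / 4 * Real.exp (-(Real.pi * 16)) * z ^ 2 *
      ((j : ℝ) + 1) ^ 3 ≤ (∫ x in (j : ℝ)..((j : ℝ) + 1), f z x) - f z (j + 1) := by
    intro j hj
    have hjN : (j : ℝ) + 1 ≤ N := by exact_mod_cast Finset.mem_range.1 hj
    have hj0 : (0 : ℝ) ≤ j := Nat.cast_nonneg j
    refine le_trans ?_ (cell hz j (s := 1 / 2) (by norm_num) (by norm_num))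
    have h1 : f z (j + 1 / 2) = f z (j + 1) *
        Real.exp (Real.pi * z ^ 2 * (((j : ℝ) + 1) ^ 4 - ((j : ℝ) + 1 / 2) ^ 4)) := by
      unfold f
      rw [← Real.exp_add]
      congr 1
      ring
    have h2 : Real.pi * z ^ 2 * (((j : ℝ) + 1) ^ 4 - ((j : ℝ) + 1 / 2) ^ 4) + 1 ≤
        Real.exp (Real.pi * z ^ 2 * (((j : ℝ) + 1) ^ 4 - ((j : ℝ) + 1 / 2) ^ 4)) :=
      Real.add_one_le_exp _
    have h3 : Real.exp (-(Real.pi * 16)) ≤ f z (j + 1) := by
      unfold f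
      apply Real.exp_le_exp.2
      have h4 : ((j : ℝ) + 1) * η ≤ 2 := by
        calc ((j : ℝ) + 1) * η ≤ (2 / η) * η := by
              apply mul_le_mul_of_nonneg_right _ hη0.le
              linarith
          _ = 2 := by field_simp
      have h5 : 0 ≤ ((j : ℝ) + 1) * η := by positivity
      have h6 : (((j : ℝ) + 1) * η) ^ 4 ≤ 2 ^ 4 := pow_le_pow_left₀ h5 h4 4
      have h7 : (((j : ℝ) + 1) ^ 2 * z) ^ 2 = (((j : ℝ) + 1) * η) ^ 4 := by
        rw [hzz]; ring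
      rw [h7]
      have := mul_le_mul_of_nonneg_left h6 Real.pi_pos.le
      linarith
    have h4 : ((j : ℝ) + 1) ^ 3 / 2 ≤ ((j : ℝ) + 1) ^ 4 - ((j : ℝ) + 1 / 2) ^ 4 := by
      nlinarith [mul_nonneg hj0 hj0, mul_nonneg (mul_nonneg hj0 hj0) hj0]
    have hpz : 0 ≤ Real.pi * z ^ 2 := by positivity
    have h5 : Real.pi * z ^ 2 * (((j : ℝ) + 1) ^ 3 / 2) ≤
        Real.pi * z ^ 2 * (((j : ℝ) + 1) ^ 4 - ((j : ℝ) + 1 / 2) ^ 4) :=
      mul_le_mul_of_nonneg_left h4 hpz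
    have hf0 : 0 < f z (j + 1) := Real.exp_pos _
    have h6 : f z (j + 1) * (Real.pi * z ^ 2 * (((j : ℝ) + 1) ^ 3 / 2)) ≤
        f z (j + 1 / 2) - f z (j + 1) := by
      rw [h1]
      have := mul_le_mul_of_nonneg_left (h2.trans' (by linarith : Real.pi * z ^ 2 *
        (((j : ℝ) + 1) ^ 3 / 2) + 1 ≤ _)) hf0.le
      linarith
    have h7 : Real.exp (-(Real.pi * 16)) * (Real.pi * z ^ 2 * (((j : ℝ) + 1) ^ 3 / 2)) ≤
        f z (j + 1) * (Real.pi * z ^ 2 * (((j : ℝ) + 1) ^ 3 / 2)) :=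
      mul_le_mul_of_nonneg_right h3 (by positivity)
    linarith
  refine le_trans ?_ ((Finset.sum_le_sum hcell).trans (phi_ge hz N))
  rw [← Finset.mul_sum]
  have h8 := cubes N
  have h9 : (1 / η) ^ 4 ≤ (N : ℝ) ^ 4 := pow_le_pow_left₀ (by positivity) hN1 4
  have h10 : z ^ 2 * (1 / η) ^ 4 = 1 := by
    rw [hzz]; field_simp
  have hc : 0 ≤ Real.pi / 4 * Real.exp (-(Real.pi * 16)) * z ^ 2 := by positivity
  have h11 : Real.pi / 4 * Real.exp (-(Real.pi * 16)) * z ^ 2 * ((1 / η) ^ 4 / 4) ≤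
      Real.pi / 4 * Real.exp (-(Real.pi * 16)) * z ^ 2 *
        ∑ i ∈ Finset.range N, ((i : ℝ) + 1) ^ 3 :=
    mul_le_mul_of_nonneg_left (by linarith) hc
  have h12 : Real.pi / 4 * Real.exp (-(Real.pi * 16)) * z ^ 2 * ((1 / η) ^ 4 / 4) =
      Real.pi / 16 * Real.exp (-(Real.pi * 16)) * (z ^ 2 * (1 / η) ^ 4) := by ring
  rw [h10, mul_one] at h12
  linarith

end PhiAux

open PhiAux

theorem phi_main : S_phi := by
  have hA : 0 < (1 / 2) * (Real.exp (-(Real.pi / 16)) - Real.exp (-Real.pi)) := by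
    have : Real.exp (-Real.pi) < Real.exp (-(Real.pi / 16)) :=
      Real.exp_lt_exp.2 (by linarith [Real.pi_pos])
    linarith
  have hB : 0 < Real.pi / 16 * Real.exp (-(Real.pi * 16)) := by positivity
  refine ⟨min ((1 / 2) * (Real.exp (-(Real.pi / 16)) - Real.exp (-Real.pi)))
    (Real.pi / 16 * Real.exp (-(Real.pi * 16))), lt_min hA hB, fun z hz => ⟨f_sum hz, f_int hz, ?_⟩⟩
  rcases le_total 1 z with h | h
  · refine le_trans ?_ (big h)
    exact mul_le_mul (min_le_left _ _) (min_le_right _ _) (le_min zero_le_one (by positivity)) hA.le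
  · refine le_trans ?_ (small hz h)
    calc _ ≤ (Real.pi / 16 * Real.exp (-(Real.pi * 16))) * 1 :=
          mul_le_mul (min_le_right _ _) (min_le_left _ _) (le_min zero_le_one (by positivity)) hB.le
      _ = _ := mul_one _

end Pool.Agent.N880.QF
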