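import Pool.Agent.N880.QF.Stm

/-!
L1b: the sieved right Riemann sum defect.
-/

set_option autoImplicit false

open Complex Filter Topology MeasureTheory Set

namespace Pool.Agent.N880.QF

namespace PhiQ

/-- the Gaussian-type function -/
noncomputable def H (z x : ℝ) : ℝ := Real.exp (-(Real.pi * (x ^ 2 * z) ^ 2))

/-- minus the derivative of `H` -/
noncomputable def g (z x : ℝ) : ℝ := 4 * Real.pi * x ^ 3 * z ^ 2 * H z x

lemma g_nonneg {z x : ℝ} (hx : 0 ≤ x) : 0 ≤ g z x := by
  unfold g H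
  have := Real.pi_pos
  positivity

lemma H_cont (z : ℝ) : Continuous (H z) := by
  unfold H
  fun_prop

lemma g_cont (z : ℝ) : Continuous (g z) := by
  unfold g H
  fun_prop

lemma H_deriv (z x : ℝ) : HasDerivAt (H z) (-g z x) x := by
  unfold H g H
  have h1 : HasDerivAt (fun x : ℝ => -(Real.pi * (x ^ 2 * z) ^ 2))
      (-(Real.pi * (2 * (x ^ 2 * z) * (2 * x * z)))) x := by
    have h0 : HasDerivAt (fun x : ℝ => x ^ 2 * z) (2 * x * z) x := by
      have := (hasDerivAt_pow 2 x).mul_const z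
      simpa using this
    have h2 := ((h0.fun_pow 2).const_mul Real.pi).fun_neg
    simpa using h2
  have h3 := h1.exp
  convert h3 using 1
  ring

lemma int_aux {z : ℝ} (hz : 0 < z) (k : ℕ) :
    IntegrableOn (fun x : ℝ => x ^ k * H z x) (Ioi 0) := by
  have hb : 0 < Real.pi * z ^ 2 := by have := Real.pi_pos; positivity
  have h := integrableOn_rpow_mul_exp_neg_mul_rpow (p := 4) (s := k) (b := Real.pi * z ^ 2)
    (by have : (0 : ℝ) ≤ k := Nat.cast_nonneg k
        linarith) (by norm_num) hb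
  refine h.congr_fun (fun x hx => ?_) measurableSet_Ioi
  have hx0 : (0 : ℝ) < x := hx
  simp only [H]
  rw [Real.rpow_natCast]
  have : x ^ (4 : ℝ) = x ^ (4 : ℕ) := by
    rw [← Real.rpow_natCast]; norm_num
  rw [this]
  congr 2
  ring

lemma H_int {z : ℝ} (hz : 0 < z) : IntegrableOn (H z) (Ioi 0) := by
  have h := int_aux hz 0
  simpa using h

lemma g_int {z : ℝ} (hz : 0 < z) : IntegrableOn (g z) (Ioi 0) := by
  have h : IntegrableOn (fun x => 4 * Real.pi * z ^ 2 * (x ^ 3 * H z x)) (Ioi 0) :=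
    (int_aux hz 3).const_mul (4 * Real.pi * z ^ 2)
  refine h.congr_fun (fun x _ => ?_) measurableSet_Ioi
  simp only [g]
  ring

lemma H_summable {z : ℝ} (hz : 0 < z) : Summable (fun j : ℕ => H z ((j : ℝ) + 1)) := by
  have hb : 0 < Real.pi * z ^ 2 := by have := Real.pi_pos; positivity
  have h1 : Summable (fun n : ℕ => Real.exp (n * (-(Real.pi * z ^ 2)))) :=
    Real.summable_exp_nat_mul_iff.2 (by linarith)
  refine Summable.of_nonneg_of_le (fun j => (Real.exp_pos _).le) (fun j => ?_) h1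
  unfold H
  apply Real.exp_le_exp.2
  have hj : (0 : ℝ) ≤ j := Nat.cast_nonneg j
  have h2 : (j : ℝ) ≤ ((j : ℝ) + 1) ^ 4 := by
    have h3 : (1 : ℝ) ≤ (j : ℝ) + 1 := by linarith
    calc (j : ℝ) ≤ ((j : ℝ) + 1) ^ 1 := by linarith
      _ ≤ ((j : ℝ) + 1) ^ 4 := pow_le_pow_right₀ h3 (by norm_num)
  have h4 := mul_le_mul_of_nonneg_left h2 hb.le
  nlinarith

/-- one cell -/
lemma cell (z : ℝ) (j : ℕ) :
    ∫ x in (j : ℝ)..((j + 1 : ℕ) : ℝ), Int.fract x * g z x =
      (∫ x in (j : ℝ)..((j + 1 : ℕ) : ℝ), H z x) - H z ((j : ℝ) + 1) := by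
  have hle : (j : ℝ) ≤ ((j + 1 : ℕ) : ℝ) := by push_cast; linarith
  have h1 : ∫ x in (j : ℝ)..((j + 1 : ℕ) : ℝ), Int.fract x * g z x =
      ∫ x in (j : ℝ)..((j + 1 : ℕ) : ℝ), (x - j) * g z x := by
    rw [intervalIntegral.integral_of_le hle, intervalIntegral.integral_of_le hle,
      integral_Ioc_eq_integral_Ioo, integral_Ioc_eq_integral_Ioo]
    refine setIntegral_congr_fun measurableSet_Ioo (fun x hx => ?_)
    have h2 : Int.floor x = (j : ℤ) := by
      rw [Int.floor_eq_iff]
      refine ⟨by simpa using hx.1.le, ?_⟩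
      have := hx.2
      push_cast at this ⊢
      exact this
    simp only [Int.fract, h2]
    norm_num
  rw [h1]
  have hd : ∀ x ∈ uIcc (j : ℝ) ((j + 1 : ℕ) : ℝ), HasDerivAt (fun x => (x - j) * H z x)
      (H z x - (x - j) * g z x) x := by
    intro x _
    have h2 : HasDerivAt (fun x : ℝ => x - (j : ℝ)) 1 x := (hasDerivAt_id x).sub_const _
    have h3 := h2.fun_mul (H_deriv z x)
    have h4 : H z x - (x - (j : ℝ)) * g z x = 1 * H z x + (x - (j : ℝ)) * -g z x := by ring
    rw [h4]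
    exact h3
  have hc1 : IntervalIntegrable (fun x => (x - (j : ℝ)) * g z x) volume (j : ℝ)
      ((j + 1 : ℕ) : ℝ) :=
    ((continuous_id.sub continuous_const).mul (g_cont z)).intervalIntegrable _ _
  have hc2 : IntervalIntegrable (H z) volume (j : ℝ) ((j + 1 : ℕ) : ℝ) :=
    (H_cont z).intervalIntegrable _ _
  have h4 := intervalIntegral.integral_eq_sub_of_hasDerivAt hd (hc2.sub hc1)
  rw [intervalIntegral.integral_sub hc2 hc1] at h4
  push_cast at h4 ⊢
  simp only [sub_self, zero_mul, sub_zero, add_sub_cancel_left, one_mul] at h4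
  linarith

lemma fg_int {z : ℝ} (hz : 0 < z) (d : ℝ) :
    IntegrableOn (fun x => Int.fract (d * x) * g z x) (Ioi 0) := by
  refine Integrable.mono' (g_int hz) ?_ ?_
  · have h1 : Measurable (fun x : ℝ => Int.fract (d * x)) :=
      measurable_fract.comp (measurable_const.mul measurable_id)
    exact (h1.mul (g_cont z).measurable).aestronglyMeasurable
  · refine (ae_restrict_iff' measurableSet_Ioi).2 (Eventually.of_forall fun x hx => ?_)
    have hx0 : (0 : ℝ) < x := hx
    have h2 := g_nonneg (z := z) hx0.le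
    rw [Real.norm_eq_abs, abs_mul, abs_of_nonneg h2, abs_of_nonneg (Int.fract_nonneg _)]
    have h3 := (Int.fract_lt_one (d * x)).le
    nlinarith

/-- the defect as an integral of the fractional part -/
lemma phi_eq {z : ℝ} (hz : 0 < z) : phi z = ∫ x in Ioi (0 : ℝ), Int.fract x * g z x := by
  have hfg : IntegrableOn (fun x => Int.fract x * g z x) (Ioi 0) := by
    have := fg_int hz 1
    simpa using this
  have h1 : Tendsto (fun N : ℕ => ∫ x in (0 : ℝ)..(N : ℝ), Int.fract x * g z x) atTop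
      (𝓝 (∫ x in Ioi (0 : ℝ), Int.fract x * g z x)) :=
    intervalIntegral_tendsto_integral_Ioi 0 hfg tendsto_natCast_atTop_atTop
  have h2 : Tendsto (fun N : ℕ => ∫ x in (0 : ℝ)..(N : ℝ), H z x) atTop
      (𝓝 (∫ x in Ioi (0 : ℝ), H z x)) :=
    intervalIntegral_tendsto_integral_Ioi 0 (H_int hz) tendsto_natCast_atTop_atTop
  have h3 : Tendsto (fun N : ℕ => ∑ j ∈ Finset.range N, H z ((j : ℝ) + 1)) atTop
      (𝓝 (∑' j : ℕ, H z ((j : ℝ) + 1))) := (H_summable hz).hasSum.tendsto_sum_nat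
  have hI : ∀ a b : ℝ, 0 ≤ a → 0 ≤ b → IntervalIntegrable (fun x => Int.fract x * g z x)
      volume a b := fun a b ha hb => by
    rw [intervalIntegrable_iff]
    refine hfg.mono_set (fun x hx => ?_)
    rcases le_total a b with h | h
    · rw [uIoc_of_le h] at hx
      exact lt_of_le_of_lt ha hx.1
    · rw [uIoc_of_ge h] at hx
      exact lt_of_le_of_lt hb hx.1
  have h4 : ∀ N : ℕ, ∫ x in (0 : ℝ)..(N : ℝ), Int.fract x * g z x =
      (∫ x in (0 : ℝ)..(N : ℝ), H z x) - ∑ j ∈ Finset.range N, H z ((j : ℝ) + 1) := by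
    intro N
    induction N with
    | zero => simp
    | succ N ih =>
      rw [← intervalIntegral.integral_add_adjacent_intervals (hI 0 (N : ℝ) le_rfl
        (Nat.cast_nonneg _)) (hI (N : ℝ) ((N + 1 : ℕ) : ℝ) (Nat.cast_nonneg _)
        (Nat.cast_nonneg _)), ih, cell,
        ← intervalIntegral.integral_add_adjacent_intervals
          ((H_cont z).intervalIntegrable (0 : ℝ) (N : ℝ))
          ((H_cont z).intervalIntegrable (N : ℝ) ((N + 1 : ℕ) : ℝ)), Finset.sum_range_succ]
      ring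
  have h5 := h2.sub h3
  have h6 := tendsto_nhds_unique (h1.congr h4) h5
  rw [h6]
  rfl

/-- substitution -/
lemma phi_sub {z : ℝ} (hz : 0 < z) {d : ℝ} (hd : 0 < d) :
    phi (z / d ^ 2) = ∫ x in Ioi (0 : ℝ), Int.fract (d * x) * g z x := by
  have hz' : 0 < z / d ^ 2 := by positivity
  rw [phi_eq hz']
  have h1 := integral_comp_mul_left_Ioi (fun x => Int.fract x * g (z / d ^ 2) x) 0 hd
  rw [mul_zero] at h1
  have h2 : ∫ x in Ioi (0 : ℝ), Int.fract x * g (z / d ^ 2) x =
      d * ∫ x in Ioi (0 : ℝ), Int.fract (d * x) * g (z / d ^ 2) (d * x) := by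
    rw [h1, smul_eq_mul]
    field_simp
  rw [h2, ← integral_const_mul]
  refine setIntegral_congr_fun measurableSet_Ioi (fun x _ => ?_)
  simp only [g, H]
  have h3 : (d * x) ^ 2 * (z / d ^ 2) = x ^ 2 * z := by field_simp
  rw [h3]
  field_simp

end PhiQ

open PhiQ

theorem phiQ_main : S_phiQ := by
  rintro Q ⟨hQ, c, hc, hcD⟩
  refine ⟨c, hc, fun z hz => ?_⟩
  have hQ0 : Q ≠ 0 := hQ.ne_zero
  have h1 : ∑ d ∈ Q.divisors, ((ArithmeticFunction.moebius d : ℤ) : ℝ) / (d : ℝ) ^ 2 *
      phi (z / (d : ℝ) ^ 2) = ∫ x in Ioi (0 : ℝ), DD Q x * g z x := by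
    have h2 : ∀ d ∈ Q.divisors, ((ArithmeticFunction.moebius d : ℤ) : ℝ) / (d : ℝ) ^ 2 *
        phi (z / (d : ℝ) ^ 2) = ∫ x in Ioi (0 : ℝ),
          ((ArithmeticFunction.moebius d : ℤ) : ℝ) / (d : ℝ) ^ 2 *
            (Int.fract (d * x) * g z x) := by
      intro d hd
      have hd0 : (0 : ℝ) < d := by exact_mod_cast Nat.pos_of_mem_divisors hd
      rw [phi_sub hz hd0, integral_const_mul]
    rw [Finset.sum_congr rfl h2, ← integral_finsetSum]
    · refine setIntegral_congr_fun measurableSet_Ioi (fun x _ => ?_)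
      simp only [DD]
      rw [Finset.sum_mul]
      exact Finset.sum_congr rfl fun d _ => by ring
    · intro d _
      exact (fg_int hz d).const_mul _
  have h0 : IntegrableOn (fun x => Int.fract x * g z x) (Ioi 0) := by
    have := fg_int hz 1
    simpa using this
  have h3 : IntegrableOn (fun x => DD Q x * g z x) (Ioi 0) := by
    have h4 : IntegrableOn (fun x : ℝ => ∑ d ∈ Q.divisors,
        ((ArithmeticFunction.moebius d : ℤ) : ℝ) / (d : ℝ) ^ 2 *
            (Int.fract (d * x) * g z x)) (Ioi 0) :=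
      integrable_finsetSum _ fun d _ => (fg_int hz (d : ℝ)).const_mul _
    refine h4.congr_fun (fun x _ => ?_) measurableSet_Ioi
    simp only [DD]
    rw [Finset.sum_mul]
    exact Finset.sum_congr rfl fun d _ => by ring
  rw [h1, phi_eq hz, ← integral_const_mul]
  refine setIntegral_mono_on (h0.const_mul c) h3 measurableSet_Ioi (fun x hx => ?_)
  have hx0 : (0 : ℝ) < x := hx
  have h5 := g_nonneg (z := z) hx0.le
  have h6 := hcD x
  nlinarith [mul_le_mul_of_nonneg_right h6 h5]

end Pool.Agent.N880.QF
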