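import Pool.Agent.N880.QF.Stm
import Pool.Agent.H385R2.Cut

/-! # L3: prime powers and far primes (helper222) -/

set_option autoImplicit false

open Complex Filter Topology MeasureTheory Set
open H385 (bt wt bt_norm wt_nonneg)
open ArithmeticFunction (vonMangoldt)

namespace Pool.Agent.N880.QF

namespace Rest

lemma vm_nonneg (n : ℕ) : 0 ≤ vonMangoldt n := ArithmeticFunction.vonMangoldt_nonneg

/-- `Λ(n)/n²` is summable -/
lemma sum_vm : Summable (fun n : ℕ => vonMangoldt n / (n : ℝ) ^ 2) := by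
  have h := ArithmeticFunction.LSeriesSummable_vonMangoldt (s := 2) (by norm_num)
  have h2 := h.norm
  refine h2.congr fun n => ?_
  rcases Nat.eq_zero_or_pos n with rfl | hn
  · simp
  · rw [LSeries.term_of_ne_zero hn.ne', norm_div]
    have e1 : ‖(n : ℂ) ^ (2 : ℂ)‖ = (n : ℝ) ^ 2 := by
      have : (n : ℂ) ^ (2 : ℂ) = (n : ℂ) ^ (2 : ℕ) := by
        rw [← Complex.cpow_natCast]; norm_num
      rw [this, norm_pow, Complex.norm_natCast]
    rw [e1, Complex.norm_real, Real.norm_of_nonneg (vm_nonneg n)]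

/-- the weights -/
noncomputable def w (u : ℝ) (n : ℕ) : ℝ :=
  vonMangoldt n / Real.sqrt n * Real.exp (-(u - Real.log n) ^ 2 / 4)

lemma w_nonneg (u : ℝ) (n : ℕ) : 0 ≤ w u n := by
  unfold w
  have := vm_nonneg n
  positivity

lemma sqrt_eq_exp {n : ℕ} (hn : 0 < n) : Real.sqrt n = Real.exp (Real.log n / 2) := by
  have hn' : (0 : ℝ) < n := by exact_mod_cast hn
  rw [Real.sqrt_eq_rpow, Real.rpow_def_of_pos hn']
  congr 1
  ring

lemma w_le (u K : ℝ) (n : ℕ) (h : (3 / 2) * Real.log n - (u - Real.log n) ^ 2 / 4 ≤ K) :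
    w u n ≤ Real.exp K * (vonMangoldt n / (n : ℝ) ^ 2) := by
  rcases Nat.eq_zero_or_pos n with rfl | hn
  · simp [w]
  · have hn' : (0 : ℝ) < n := by exact_mod_cast hn
    have e1 : (n : ℝ) ^ 2 = Real.exp (2 * Real.log n) := by
      rw [two_mul, Real.exp_add, Real.exp_log hn']; ring
    unfold w
    rw [e1, sqrt_eq_exp hn, div_eq_mul_inv (vonMangoldt n) (Real.exp (Real.log n / 2)),
      div_eq_mul_inv (vonMangoldt n) (Real.exp (2 * Real.log n)), ← Real.exp_neg, ← Real.exp_neg,
      mul_assoc, ← Real.exp_add]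
    have h2 : Real.exp (-(Real.log n / 2) + -(u - Real.log n) ^ 2 / 4) ≤
        Real.exp K * Real.exp (-(2 * Real.log n)) := by
      rw [← Real.exp_add]
      apply Real.exp_le_exp.2
      linarith
    calc _ ≤ vonMangoldt n * (Real.exp K * Real.exp (-(2 * Real.log n))) :=
          mul_le_mul_of_nonneg_left h2 (vm_nonneg n)
      _ = _ := by ring

lemma w_summable (u : ℝ) : Summable (w u) := by
  refine Summable.of_nonneg_of_le (w_nonneg u) (fun n => w_le u ((3 / 2) * u + 9 / 4) n ?_)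
    (sum_vm.mul_left _)
  nlinarith [sq_nonneg ((u - Real.log n) / 2 + 3 / 2)]

/-! ### far integers -/

lemma far {ε L u : ℝ} (hε : 0 < ε) (hu : u ≤ L) (n : ℕ)
    (h : ε * L < |Real.log n - u|) :
    w u n ≤ Real.exp (((3 / 2) * (1 + 1 / ε)) ^ 2) * (vonMangoldt n / (n : ℝ) ^ 2) := by
  apply w_le
  set l := Real.log n with hl
  set a := (3 / 2) * (1 + 1 / ε) with ha
  have h1 : L ≤ |l - u| / ε := by
    rw [le_div_iff₀ hε]; linarith
  have h2 : l ≤ |l - u| / ε + |l - u| := by
    have := le_abs_self (l - u)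
    linarith
  have h3 : (3 / 2) * l ≤ a * |l - u| := by
    rw [ha]
    calc (3 / 2) * l ≤ (3 / 2) * (|l - u| / ε + |l - u|) := by linarith
      _ = _ := by ring
  have h4 : (u - l) ^ 2 = |l - u| ^ 2 := by rw [sq_abs]; ring
  rw [h4]
  nlinarith [sq_nonneg (|l - u| / 2 - a)]

/-! ### cubes and higher powers -/

open Classical in
/-- part with exponent at least three -/
noncomputable def f4 (n : ℕ) : ℝ :=
  if ∃ p j : ℕ, p.Prime ∧ 3 ≤ j ∧ n = p ^ j then vonMangoldt n / Real.sqrt n else 0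

lemma f4_nonneg (n : ℕ) : 0 ≤ f4 n := by
  unfold f4
  have := vm_nonneg n
  split_ifs <;> positivity

lemma sum_32 : Summable (fun n : ℕ => vonMangoldt n / Real.sqrt ((n : ℝ) ^ 3)) := by
  have h := ArithmeticFunction.LSeriesSummable_vonMangoldt (s := ((3 / 2 : ℝ) : ℂ))
    (by rw [Complex.ofReal_re]; norm_num)
  have h2 := h.norm
  refine h2.congr fun n => ?_
  rcases Nat.eq_zero_or_pos n with rfl | hn
  · simp
  · have hn' : (0 : ℝ) < n := by exact_mod_cast hn
    rw [LSeries.term_of_ne_zero hn.ne', norm_div]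
    have e1 : ‖(n : ℂ) ^ ((3 / 2 : ℝ) : ℂ)‖ = Real.sqrt ((n : ℝ) ^ 3) := by
      have e2 : (n : ℂ) = ((n : ℝ) : ℂ) := by simp
      rw [e2, ← Complex.ofReal_cpow hn'.le, Complex.norm_real,
        Real.norm_of_nonneg (Real.rpow_nonneg hn'.le _), Real.sqrt_eq_rpow,
        ← Real.rpow_natCast, ← Real.rpow_mul hn'.le]
      norm_num
    rw [e1, Complex.norm_real, Real.norm_of_nonneg (vm_nonneg n)]

lemma sum_h : Summable (fun k : ℕ => 2 / Real.sqrt ((2 : ℝ) ^ k)) := by
  have h1 : (1 : ℝ) / Real.sqrt 2 < 1 := by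
    rw [div_lt_one (Real.sqrt_pos.2 (by norm_num))]
    exact Real.one_lt_sqrt_two
  have h2 := (summable_geometric_of_lt_one (by positivity) h1).mul_left 2
  refine h2.congr fun k => ?_
  rw [div_pow, one_pow, mul_one_div]
  congr 1
  symm
  rw [Real.sqrt_eq_iff_mul_self_eq (by positivity) (by positivity), ← mul_pow,
    Real.mul_self_sqrt (by norm_num)]

lemma f4_summable : Summable f4 := by
  have key : Summable (f4 ∘ (Subtype.val : {n : ℕ // IsPrimePow n} → ℕ)) := by
    rw [← Nat.Primes.prodNatEquiv.summable_iff]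
    have hG : Summable (fun x : Nat.Primes × ℕ =>
        (vonMangoldt (x.1 : ℕ) / Real.sqrt (((x.1 : ℕ) : ℝ) ^ 3)) *
          (2 / Real.sqrt ((2 : ℝ) ^ x.2))) := by
      have h1 : Summable (fun p : Nat.Primes =>
          vonMangoldt (p : ℕ) / Real.sqrt (((p : ℕ) : ℝ) ^ 3)) :=
        sum_32.comp_injective (f := fun n : ℕ => vonMangoldt n / Real.sqrt ((n : ℝ) ^ 3))
          Subtype.val_injective
      exact h1.mul_of_nonneg sum_h (fun p => by
        have := vm_nonneg (p : ℕ)
        positivity) (fun k => by positivity)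
    refine Summable.of_nonneg_of_le (fun x => f4_nonneg _) ?_ hG
    rintro ⟨p, k⟩
    have hp := p.2
    have hp0 : (0 : ℝ) < ((p : ℕ) : ℝ) := by exact_mod_cast hp.pos
    have hp2 : (2 : ℝ) ≤ ((p : ℕ) : ℝ) := by exact_mod_cast hp.two_le
    have hv := vm_nonneg (p : ℕ)
    simp only [Function.comp_apply, Nat.Primes.coe_prodNatEquiv_apply]
    unfold f4
    split_ifs with hc
    · obtain ⟨p', j, hp', hj, he⟩ := hc
      have h1 : (p : ℕ) = p' ∧ k + 1 = j := by
        have hpp : (p : ℕ) = p' := by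
          have hd : (p : ℕ) ∣ p' ^ j := by
            rw [← he]; exact dvd_pow_self _ (Nat.succ_ne_zero k)
          exact (Nat.prime_dvd_prime_iff_eq hp hp').1 (hp.dvd_of_dvd_pow hd)
        refine ⟨hpp, ?_⟩
        rw [← hpp] at he
        exact Nat.pow_right_injective hp.two_le he
      obtain ⟨i, rfl⟩ : ∃ i, k = i + 2 := ⟨k - 2, by omega⟩
      rw [ArithmeticFunction.vonMangoldt_apply_pow (Nat.succ_ne_zero _), div_mul_div_comm]
      have hpp : (0 : ℝ) < ((((p : ℕ) ^ (i + 2 + 1) : ℕ) : ℝ)) := by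
        exact_mod_cast pow_pos hp.pos _
      rw [div_le_div_iff₀ (Real.sqrt_pos.2 hpp) (by positivity)]
      have h3 : Real.sqrt (((p : ℕ) : ℝ) ^ 3) * Real.sqrt ((2 : ℝ) ^ (i + 2)) ≤
          2 * Real.sqrt ((((p : ℕ) ^ (i + 2 + 1) : ℕ) : ℝ)) := by
        rw [← Real.sqrt_mul (by positivity)]
        have h4 : (2 : ℝ) * Real.sqrt ((((p : ℕ) ^ (i + 2 + 1) : ℕ) : ℝ)) =
            Real.sqrt (4 * (((p : ℕ) ^ (i + 2 + 1) : ℕ) : ℝ)) := by
          rw [Real.sqrt_mul (by norm_num), show (4 : ℝ) = 2 ^ 2 by norm_num,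
            Real.sqrt_sq (by norm_num)]
        rw [h4]
        apply Real.sqrt_le_sqrt
        push_cast
        have h5 : (2 : ℝ) ^ i ≤ ((p : ℕ) : ℝ) ^ i := pow_le_pow_left₀ (by norm_num) hp2 i
        calc ((p : ℕ) : ℝ) ^ 3 * 2 ^ (i + 2) = 4 * ((p : ℕ) : ℝ) ^ 3 * 2 ^ i := by ring
          _ ≤ 4 * ((p : ℕ) : ℝ) ^ 3 * ((p : ℕ) : ℝ) ^ i :=
            mul_le_mul_of_nonneg_left h5 (by positivity)
          _ = _ := by ring
      calc _ ≤ vonMangoldt (p : ℕ) * (2 * Real.sqrt ((((p : ℕ) ^ (i + 2 + 1) : ℕ) : ℝ))) :=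
            mul_le_mul_of_nonneg_left h3 hv
        _ = _ := by ring
    · positivity
  have h2 := (summable_subtype_iff_indicator (s := {n | IsPrimePow n}) (f := f4)).mp key
  refine h2.congr fun n => ?_
  by_cases hn : IsPrimePow n
  · rw [Set.indicator_of_mem (by exact hn)]
  · rw [Set.indicator_of_notMem (by exact hn)]
    unfold f4
    rw [if_neg]
    rintro ⟨p, j, hp, hj, rfl⟩
    exact hn (hp.isPrimePow.pow (by omega))

/-! ### squares of primes -/

open Classical in
/-- squares of primes -/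
noncomputable def f3 (u : ℝ) (n : ℕ) : ℝ :=
  if ∃ p : ℕ, p.Prime ∧ n = p ^ 2 then w u n else 0

lemma f3_nonneg (u : ℝ) (n : ℕ) : 0 ≤ f3 u n := by
  unfold f3
  have := w_nonneg u n
  split_ifs <;> positivity

lemma f3_summable (u : ℝ) : Summable (f3 u) := by
  refine Summable.of_nonneg_of_le (f3_nonneg u) (fun n => ?_) (w_summable u)
  unfold f3
  split_ifs
  · exact le_rfl
  · exact w_nonneg u n

lemma w_sq (u : ℝ) {m : ℕ} (hm : m.Prime) :
    w u (m ^ 2) = vonMangoldt m / m * Real.exp (-(u / 2 - Real.log m) ^ 2) := by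
  have hm0 : (0 : ℝ) < m := by exact_mod_cast hm.pos
  unfold w
  rw [ArithmeticFunction.vonMangoldt_apply_pow two_ne_zero, Nat.cast_pow, Real.sqrt_sq hm0.le,
    Real.log_pow]
  congr 2
  push_cast
  ring

lemma f3_term (u : ℝ) (hu : 0 ≤ u) (m : ℕ) :
    f3 u (m ^ 2) ≤ 4 / (u / 2 + 1) * (vonMangoldt m ^ 2 / m *
      Real.exp (-(u / 2 - 1 * Real.log m) ^ 2)) +
      Real.exp (1 / 4) * (vonMangoldt m / (m : ℝ) ^ 2) := by
  have hv := vm_nonneg m
  have hr : 0 ≤ 4 / (u / 2 + 1) * (vonMangoldt m ^ 2 / m *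
      Real.exp (-(u / 2 - 1 * Real.log m) ^ 2)) := by positivity
  have hr2 : 0 ≤ Real.exp (1 / 4) * (vonMangoldt m / (m : ℝ) ^ 2) := by positivity
  unfold f3
  split_ifs with hc
  · obtain ⟨p, hp, he⟩ := hc
    have hmp : m = p := Nat.pow_left_injective (by norm_num : 2 ≠ 0) he
    rw [← hmp] at hp
    rw [w_sq u hp]
    have hm0 : (0 : ℝ) < m := by exact_mod_cast hp.pos
    have hm2 : (2 : ℝ) ≤ m := by exact_mod_cast hp.two_le
    set l := Real.log m with hl
    set v := u / 2 with hvdef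
    have hv0 : 0 ≤ v := by positivity
    have hl2 : Real.log 2 ≤ l := Real.log_le_log (by norm_num) hm2
    have hl69 : (0.69 : ℝ) ≤ l := by
      have := Real.log_two_gt_d9
      linarith
    have hvl : vonMangoldt m = l := ArithmeticFunction.vonMangoldt_apply_prime hp
    rw [one_mul] at hr ⊢
    rcases le_or_gt (v / 2) l with h | h
    · have h1 : 1 ≤ 4 / (v + 1) * l := by
        rw [div_mul_eq_mul_div, le_div_iff₀ (by positivity)]
        linarith
      have h2 : vonMangoldt m / m * Real.exp (-(v - l) ^ 2) ≤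
          4 / (v + 1) * (vonMangoldt m ^ 2 / m * Real.exp (-(v - l) ^ 2)) := by
        have h3 : 0 ≤ vonMangoldt m / m * Real.exp (-(v - l) ^ 2) := by positivity
        calc _ = 1 * (vonMangoldt m / m * Real.exp (-(v - l) ^ 2)) := (one_mul _).symm
          _ ≤ (4 / (v + 1) * l) * (vonMangoldt m / m * Real.exp (-(v - l) ^ 2)) :=
            mul_le_mul_of_nonneg_right h1 h3
          _ = _ := by rw [hvl]; ring
      linarith
    · have h1 : Real.exp (-(v - l) ^ 2) ≤ Real.exp (1 / 4) * (1 / m) := by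
        have e1 : (1 : ℝ) / m = Real.exp (-l) := by
          rw [Real.exp_neg, hl, Real.exp_log hm0, one_div]
        rw [e1, ← Real.exp_add]
        apply Real.exp_le_exp.2
        nlinarith [sq_nonneg (l - 1 / 2)]
      have h2 : vonMangoldt m / m * Real.exp (-(v - l) ^ 2) ≤
          Real.exp (1 / 4) * (vonMangoldt m / (m : ℝ) ^ 2) := by
        calc _ ≤ vonMangoldt m / m * (Real.exp (1 / 4) * (1 / m)) :=
              mul_le_mul_of_nonneg_left h1 (by positivity)
          _ = _ := by field_simp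
      linarith
  · linarith

lemma f3_le : ∃ C : ℝ, 0 < C ∧ ∀ u : ℝ, 0 ≤ u → ∑' n : ℕ, f3 u n ≤ C := by
  obtain ⟨C, hC, h⟩ := Pool.Agent.N7.MainC.inner_le 1 le_rfl
  set D := ∑' m : ℕ, vonMangoldt m / (m : ℝ) ^ 2 with hD
  have hD0 : 0 ≤ D := tsum_nonneg fun m => by
    have := vm_nonneg m
    positivity
  refine ⟨4 * C + Real.exp (1 / 4) * D, by positivity, fun u hu => ?_⟩
  have hinj : Function.Injective (fun m : ℕ => m ^ 2) := Nat.pow_left_injective (by norm_num)
  have hsup : Function.support (f3 u) ⊆ Set.range (fun m : ℕ => m ^ 2) := by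
    intro n hn
    rw [Function.mem_support] at hn
    by_contra hc
    apply hn
    unfold f3
    rw [if_neg]
    rintro ⟨p, _, rfl⟩
    exact hc ⟨p, rfl⟩
  have e1 : ∑' n : ℕ, f3 u n = ∑' m : ℕ, f3 u (m ^ 2) := (hinj.tsum_eq hsup).symm
  have hs1 : Summable (fun m : ℕ => f3 u (m ^ 2)) := (f3_summable u).comp_injective hinj
  have hu2 : 0 ≤ u / 2 := by positivity
  have hs2 := Pool.Agent.N7.MainC.inner_summable (c := 1) one_pos (u / 2)
  have hs3 := (hs2.mul_left (4 / (u / 2 + 1))).add (sum_vm.mul_left (Real.exp (1 / 4)))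
  rw [e1]
  refine (hs1.tsum_le_tsum (f3_term u hu) hs3).trans ?_
  rw [(hs2.mul_left (4 / (u / 2 + 1))).tsum_add (sum_vm.mul_left (Real.exp (1 / 4))),
    tsum_mul_left, tsum_mul_left]
  have h1 := h (u / 2) hu2
  unfold Pool.Agent.N7.MainC.inner at h1
  rw [one_pow, one_mul] at h1
  have h2 : 4 / (u / 2 + 1) * ∑' n : ℕ, vonMangoldt n ^ 2 / n *
      Real.exp (-(u / 2 - 1 * Real.log n) ^ 2) ≤ 4 / (u / 2 + 1) * (C * (u / 2 + 1)) :=
    mul_le_mul_of_nonneg_left h1 (by positivity)
  have h3 : 4 / (u / 2 + 1) * (C * (u / 2 + 1)) = 4 * C := by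
    field_simp
  linarith

/-! ### assembly -/

lemma split (B : ℕ) (ε L u : ℝ) (hε : 0 < ε) (hu : u ≤ L) (n : ℕ)
    (hn : n ∉ PP B ε L u) : w u n ≤
      (if n ∈ Finset.range (B + 1) then vonMangoldt n else 0) +
      Real.exp (((3 / 2) * (1 + 1 / ε)) ^ 2) * (vonMangoldt n / (n : ℝ) ^ 2) + f3 u n + f4 n := by
  have hv := vm_nonneg n
  have h3 := f3_nonneg u n
  have h4 := f4_nonneg n
  have h1 : 0 ≤ (if n ∈ Finset.range (B + 1) then vonMangoldt n else 0) := by
    split_ifs <;> positivity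
  have h2 : 0 ≤ Real.exp (((3 / 2) * (1 + 1 / ε)) ^ 2) * (vonMangoldt n / (n : ℝ) ^ 2) := by
    positivity
  by_cases h0 : vonMangoldt n = 0
  · have : w u n = 0 := by unfold w; rw [h0]; simp
    rw [this]; linarith
  · have h0 := ArithmeticFunction.vonMangoldt_ne_zero_iff.1 h0
    obtain ⟨p, j, hp, hj, he⟩ := h0
    have hp := hp.nat_prime
    have hw1 : w u n ≤ vonMangoldt n / Real.sqrt n := by
      unfold w
      have : Real.exp (-(u - Real.log n) ^ 2 / 4) ≤ 1 := by
        rw [Real.exp_le_one_iff]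
        nlinarith [sq_nonneg (u - Real.log n)]
      exact mul_le_of_le_one_right (by positivity) this
    rcases (by omega : j = 1 ∨ j = 2 ∨ 3 ≤ j) with rfl | rfl | hj3
    · rw [pow_one] at he
      subst he
      by_cases hB : p ≤ B
      · have hpos : (1 : ℝ) ≤ p := by exact_mod_cast hp.one_lt.le
        have : vonMangoldt p / Real.sqrt p ≤ vonMangoldt p :=
          div_le_self hv (Real.one_le_sqrt.2 hpos)
        rw [if_pos (Finset.mem_range.2 (by omega))] at h1 ⊢
        linarith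
      · have hfar : ε * L < |Real.log p - u| := by
          by_contra hc
          push Not at hc
          apply hn
          unfold PP
          rw [Finset.mem_filter, Finset.mem_range]
          refine ⟨?_, hp, by omega, hc⟩
          have h5 : Real.log p ≤ u + ε * L := by
            have := (abs_le.1 hc).2
            linarith
          have hp0 : (0 : ℝ) < p := by exact_mod_cast hp.pos
          rw [Real.log_le_iff_le_exp hp0] at h5
          exact Nat.lt_succ_of_le (Nat.le_floor h5)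
        have := far hε hu p hfar
        linarith
    · have : f3 u n = w u n := by
        unfold f3
        rw [if_pos ⟨p, hp, he.symm⟩]
      linarith
    · have : f4 n = vonMangoldt n / Real.sqrt n := by
        unfold f4
        rw [if_pos ⟨p, j, hp, hj3, he.symm⟩]
      linarith

theorem rest_main : S_rest := by
  intro B ε hε
  obtain ⟨C3, hC3, h3⟩ := f3_le
  set K := Real.exp (((3 / 2) * (1 + 1 / ε)) ^ 2) with hK
  set D := ∑' m : ℕ, vonMangoldt m / (m : ℝ) ^ 2 with hD
  have hD0 : 0 ≤ D := tsum_nonneg fun m => by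
    have := vm_nonneg m
    positivity
  have hF0 : 0 ≤ ∑' n, f4 n := tsum_nonneg f4_nonneg
  have hB0 : 0 ≤ ∑ n ∈ Finset.range (B + 1), vonMangoldt n := Finset.sum_nonneg fun n _ => vm_nonneg n
  refine ⟨(∑ n ∈ Finset.range (B + 1), vonMangoldt n) + K * D + C3 + ∑' n, f4 n, by positivity, ?_⟩
  intro L u T t a hL hu0 hu hT ha
  have hw0 := wt_nonneg T t hT
  set g : ℕ → ℂ := fun n => a n * ((Real.sqrt n : ℂ)⁻¹ * bt T u t (Real.log n)) with hg
  have hgn : ∀ n, ‖g n‖ ≤ w u n * wt T t := by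
    intro n
    have h1 := bt_norm T u t (Real.log n) hT
    have h2 : 1 / Real.sqrt (2 * Real.pi) ≤ 1 := by
      rw [div_le_one (Real.sqrt_pos.2 (by positivity))]
      exact Real.one_le_sqrt.2 (by linarith [Real.pi_gt_three])
    have h5 : ‖bt T u t (Real.log n)‖ ≤ Real.exp (-(u - Real.log n) ^ 2 / 4) * wt T t := by
      refine h1.trans (mul_le_mul_of_nonneg_right ?_ hw0)
      exact mul_le_of_le_one_left (Real.exp_pos _).le h2
    rw [hg]
    simp only [norm_mul, norm_inv, Complex.norm_real, Real.norm_of_nonneg (Real.sqrt_nonneg _)]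
    calc ‖a n‖ * ((Real.sqrt n)⁻¹ * ‖bt T u t (Real.log n)‖) ≤
        vonMangoldt n * ((Real.sqrt n)⁻¹ * (Real.exp (-(u - Real.log n) ^ 2 / 4) * wt T t)) := by
          have := ha n
          have h6 := vm_nonneg n
          gcongr
      _ = _ := by unfold w; ring
  have hgs : Summable g := Summable.of_norm_bounded ((w_summable u).mul_right (wt T t)) hgn
  have e1 : (∑' n, g n) - ∑ p ∈ PP B ε L u, g p =
      ∑' n, Set.indicator ((PP B ε L u : Set ℕ)ᶜ) g n := by
    rw [← hgs.sum_add_tsum_compl (s := PP B ε L u), add_sub_cancel_left, tsum_subtype]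
  change ‖(∑' n, g n) - ∑ p ∈ PP B ε L u, g p‖ ≤ _
  rw [e1]
  set F : ℕ → ℝ := fun n => (if n ∈ Finset.range (B + 1) then vonMangoldt n else 0) +
      K * (vonMangoldt n / (n : ℝ) ^ 2) + f3 u n + f4 n with hF
  have hs1 : HasSum (fun n => if n ∈ Finset.range (B + 1) then vonMangoldt n else 0)
      (∑ n ∈ Finset.range (B + 1), vonMangoldt n) := by
    have := hasSum_sum_of_ne_finset_zero (L := SummationFilter.unconditional ℕ)
      (f := fun n => if n ∈ Finset.range (B + 1) then
      vonMangoldt n else 0) (s := Finset.range (B + 1)) (fun n hn => if_neg hn)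
    convert this using 1
    exact Finset.sum_congr rfl fun n hn => (if_pos hn).symm
  have hs : HasSum F ((∑ n ∈ Finset.range (B + 1), vonMangoldt n) + K * D + (∑' n, f3 u n) +
      ∑' n, f4 n) :=
    ((hs1.add (sum_vm.hasSum.mul_left K)).add (f3_summable u).hasSum).add f4_summable.hasSum
  have hF0' : ∀ n, 0 ≤ F n := by
    intro n
    have h4 := f3_nonneg u n
    have h5 := f4_nonneg n
    have h6 := vm_nonneg n
    have h7 : 0 ≤ (if n ∈ Finset.range (B + 1) then vonMangoldt n else 0) := by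
      split_ifs <;> positivity
    have h8 : 0 ≤ K * (vonMangoldt n / (n : ℝ) ^ 2) := by positivity
    simp only [hF]
    linarith
  have hb : ∀ n, ‖Set.indicator ((PP B ε L u : Set ℕ)ᶜ) g n‖ ≤ F n * wt T t := by
    intro n
    by_cases hn : n ∈ PP B ε L u
    · rw [Set.indicator_of_notMem (by simpa using hn), norm_zero]
      exact mul_nonneg (hF0' n) hw0
    · rw [Set.indicator_of_mem (by simpa using hn)]
      exact (hgn n).trans (mul_le_mul_of_nonneg_right (split B ε L u hε hu n hn) hw0)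
  refine (tsum_of_norm_bounded (hs.mul_right (wt T t)) hb).trans ?_
  refine mul_le_mul_of_nonneg_right ?_ hw0
  have := h3 u hu0
  linarith

end Rest

end Pool.Agent.N880.QF
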