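import Pool.Agent.N880.QF.Stm
import Pool.Agent.Y293.SF.SQF

/-!
Project QF (helper880), leaf L10: weights of the family (helper896).
-/

set_option autoImplicit false

open Finset Filter Topology

namespace Pool.Agent.N880.QF.Wgt

open Pool.Agent.N880.QF

/-- the rational majorant -/
noncomputable def Fm (X : ℝ) (m : ℤ) : ℝ := 1 / (1 + |(m : ℝ)| / X) ^ 2

/-- the Gaussian majorant -/
noncomputable def gm (X : ℝ) (m : ℤ) : ℝ := Real.exp (-(2 * ((m : ℝ) / X) ^ 2))

lemma Fm_nonneg (X : ℝ) (m : ℤ) : 0 ≤ Fm X m := by unfold Fm; positivity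

lemma gm_nonneg (X : ℝ) (m : ℤ) : 0 ≤ gm X m := (Real.exp_pos _).le

lemma gm_le_one (X : ℝ) (m : ℤ) : gm X m ≤ 1 := by
  unfold gm
  rw [Real.exp_le_one_iff]
  have := sq_nonneg ((m : ℝ) / X)
  linarith

lemma sq_div_eq (X : ℝ) (hX : 0 < X) (m : ℤ) : ((m : ℝ) / X) ^ 2 = (|(m : ℝ)| / X) ^ 2 := by
  rw [div_pow, div_pow, sq_abs]

lemma exp_le_Fm (X : ℝ) (hX : 0 < X) (m : ℤ) : Real.exp (-(((m : ℝ) / X) ^ 2)) ≤ 2 * Fm X m := by
  rw [sq_div_eq X hX]
  unfold Fm
  set y := |(m : ℝ)| / X with hy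
  have hy0 : 0 ≤ y := by positivity
  have h1 := Real.add_one_le_exp (y ^ 2)
  rw [Real.exp_neg, mul_one_div, inv_le_comm₀ (Real.exp_pos _) (by positivity), inv_div]
  rw [div_le_iff₀ (by norm_num)]
  nlinarith [sq_nonneg (1 - y)]

lemma tele (a : ℝ) (ha : 0 < a) (n : ℕ) :
    ∑ j ∈ range n, 1 / (1 + ((j : ℝ) + 1) * a) ^ 2 ≤ 1 / a - 1 / (a * (1 + n * a)) := by
  induction n with
  | zero => simp
  | succ n ih =>
    rw [sum_range_succ]
    have hn : (0 : ℝ) ≤ n := Nat.cast_nonneg n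
    have h1 : (0 : ℝ) < 1 + n * a := by positivity
    have h2 : (0 : ℝ) < 1 + (n + 1) * a := by positivity
    have h3 : 1 / (1 + ((n : ℝ) + 1) * a) ^ 2 ≤ 1 / (a * (1 + n * a)) - 1 / (a * (1 + (n + 1) * a)) := by
      have h4 : 1 / (a * (1 + n * a)) - 1 / (a * (1 + (n + 1) * a)) =
          1 / ((1 + n * a) * (1 + (n + 1) * a)) := by
        field_simp; ring
      rw [h4]
      apply one_div_le_one_div_of_le (by positivity)
      nlinarith
    push_cast
    linarith

lemma tele' (a : ℝ) (ha : 0 < a) (n : ℕ) :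
    ∑ j ∈ range n, 1 / (1 + ((j : ℝ) + 1) * a) ^ 2 ≤ 1 / a := by
  have h1 := tele a ha n
  have h2 : 0 ≤ 1 / (a * (1 + n * a)) := by positivity
  linarith

/-- sums over multiples of `q` -/
lemma gauss_dvd (X : ℝ) (hX : 0 < X) (q : ℕ) (hq : 1 ≤ q) (J : Finset ℤ)
    (hJ : ∀ m ∈ J, m ≠ 0 ∧ (q : ℤ) ∣ m) : ∑ m ∈ J, Fm X m ≤ 2 * X / q := by
  classical
  have hq0 : (0 : ℝ) < q := by exact_mod_cast hq
  set n : ℕ := J.sup Int.natAbs with hn
  set f : ℕ → ℤ := fun j => (q : ℤ) * ((j : ℤ) + 1) with hf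
  set g : ℕ → ℤ := fun j => -((q : ℤ) * ((j : ℤ) + 1)) with hg
  have hq' : (q : ℤ) ≠ 0 := by exact_mod_cast (by omega : q ≠ 0)
  have hfi : Function.Injective f := by
    intro a b h
    simp only [hf] at h
    have := mul_left_cancel₀ hq' h
    omega
  have hgi : Function.Injective g := by
    intro a b h
    simp only [hg] at h
    have := mul_left_cancel₀ hq' (neg_injective h)
    omega
  have hsub : J ⊆ (range n).image f ∪ (range n).image g := by
    intro m hm
    obtain ⟨h0, c, hc⟩ := hJ m hm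
    have h1 : m.natAbs ≤ n := Finset.le_sup (f := Int.natAbs) hm
    have hc0 : c ≠ 0 := by rintro rfl; simp at hc; exact h0 hc
    have h2 : m.natAbs = q * c.natAbs := by rw [hc, Int.natAbs_mul, Int.natAbs_natCast]
    have h3 : c.natAbs ≤ n := by
      have : c.natAbs ≤ q * c.natAbs := Nat.le_mul_of_pos_left _ (by omega)
      omega
    have h4 : 1 ≤ c.natAbs := Nat.one_le_iff_ne_zero.2 (Int.natAbs_ne_zero.2 hc0)
    rw [mem_union]
    rcases lt_or_gt_of_ne hc0 with h5 | h5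
    · right
      rw [mem_image]
      refine ⟨c.natAbs - 1, mem_range.2 (by omega), ?_⟩
      simp only [hg, hc]
      have h6 : ((c.natAbs - 1 : ℕ) : ℤ) + 1 = -c := by omega
      rw [h6]; ring
    · left
      rw [mem_image]
      refine ⟨c.natAbs - 1, mem_range.2 (by omega), ?_⟩
      simp only [hf, hc]
      have h6 : ((c.natAbs - 1 : ℕ) : ℤ) + 1 = c := by omega
      rw [h6]
  have e1 : ∀ j : ℕ, Fm X (f j) = 1 / (1 + ((j : ℝ) + 1) * (q / X)) ^ 2 := by
    intro j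
    unfold Fm
    simp only [hf]
    push_cast
    rw [abs_of_nonneg (by positivity)]
    congr 3
    ring
  have e2 : ∀ j : ℕ, Fm X (g j) = 1 / (1 + ((j : ℝ) + 1) * (q / X)) ^ 2 := by
    intro j
    unfold Fm
    simp only [hg]
    push_cast
    rw [abs_neg, abs_of_nonneg (by positivity)]
    congr 3
    ring
  have ha : 0 < (q : ℝ) / X := by positivity
  have h1 := tele' (q / X) ha n
  have e3 : 1 / ((q : ℝ) / X) = X / q := by rw [one_div_div]
  rw [e3] at h1
  calc ∑ m ∈ J, Fm X m ≤ ∑ m ∈ (range n).image f ∪ (range n).image g, Fm X m :=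
        sum_le_sum_of_subset_of_nonneg hsub (fun m _ _ => Fm_nonneg X m)
    _ ≤ ∑ m ∈ (range n).image f, Fm X m + ∑ m ∈ (range n).image g, Fm X m := by
        rw [← sum_union_inter]
        have := sum_nonneg (fun m (_ : m ∈ (range n).image f ∩ (range n).image g) => Fm_nonneg X m)
        linarith
    _ = ∑ j ∈ range n, Fm X (f j) + ∑ j ∈ range n, Fm X (g j) := by
        rw [sum_image (fun a _ b _ h => hfi h), sum_image (fun a _ b _ h => hgi h)]
    _ ≤ X / q + X / q := by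
        simp only [e1, e2]
        exact add_le_add h1 h1
    _ = 2 * X / q := by ring

lemma gauss_ne (X : ℝ) (hX : 0 < X) (J : Finset ℤ) (hJ : ∀ m ∈ J, m ≠ 0) :
    ∑ m ∈ J, Fm X m ≤ 2 * X := by
  have := gauss_dvd X hX 1 le_rfl J (fun m hm => ⟨hJ m hm, by simp⟩)
  simpa using this

/-- J2: numbers divisible by a large square -/
lemma W2 (X : ℝ) (hX : 0 < X) (B : ℕ) (hB : 1 ≤ B) (J : Finset ℤ)
    (hJ : ∀ m ∈ J, m ≠ 0 ∧ ∃ b : ℕ, B < b ∧ ((b ^ 2 : ℕ) : ℤ) ∣ m) :
    ∑ m ∈ J, gm X m ≤ 4 * X / B := by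
  classical
  have hB0 : (0 : ℝ) < B := by exact_mod_cast hB
  set M : ℕ := max B (J.sup Int.natAbs) with hM
  have h1 : ∀ m ∈ J, gm X m ≤ ∑ b ∈ Ioc B M, if ((b ^ 2 : ℕ) : ℤ) ∣ m then 2 * Fm X m else 0 := by
    intro m hm
    obtain ⟨h0, b, hb, hd⟩ := hJ m hm
    have h2 : gm X m ≤ 2 * Fm X m := by
      refine le_trans ?_ (exp_le_Fm X hX m)
      unfold gm
      apply Real.exp_le_exp.2
      have := sq_nonneg ((m : ℝ) / X)
      linarith
    refine h2.trans ?_
    have h3 : b ∈ Ioc B M := by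
      rw [mem_Ioc]
      refine ⟨hb, ?_⟩
      have h4 : b ^ 2 ≤ m.natAbs := Nat.le_of_dvd (Int.natAbs_pos.2 h0) (Int.natCast_dvd.1 hd)
      have h5 : b ≤ b ^ 2 := Nat.le_self_pow (by norm_num) b
      have h6 : m.natAbs ≤ J.sup Int.natAbs := Finset.le_sup (f := Int.natAbs) hm
      exact (h5.trans (h4.trans h6)).trans (le_max_right _ _)
    have h7 := single_le_sum (f := fun b : ℕ => if ((b ^ 2 : ℕ) : ℤ) ∣ m then 2 * Fm X m else 0)
      (s := Ioc B M) (fun i _ => by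
        split_ifs
        · exact mul_nonneg (by norm_num) (Fm_nonneg X m)
        · exact le_rfl) h3
    rw [if_pos hd] at h7
    exact h7
  have h2 : ∑ m ∈ J, gm X m ≤ ∑ b ∈ Ioc B M, 4 * X * ((b : ℝ) ^ 2)⁻¹ := by
    refine (sum_le_sum h1).trans ?_
    rw [sum_comm]
    apply sum_le_sum
    intro b hb
    rw [mem_Ioc] at hb
    rw [← sum_filter, ← mul_sum]
    have h3 := gauss_dvd X hX (b ^ 2) (Nat.one_le_pow _ _ (by omega))
      (J.filter (fun m => ((b ^ 2 : ℕ) : ℤ) ∣ m)) (fun m hm => by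
        rw [mem_filter] at hm
        exact ⟨(hJ m hm.1).1, hm.2⟩)
    have h4 : 2 * X / ((b ^ 2 : ℕ) : ℝ) = 2 * X * ((b : ℝ) ^ 2)⁻¹ := by push_cast; rw [div_eq_mul_inv]
    rw [h4] at h3
    linarith
  refine h2.trans ?_
  rw [← mul_sum]
  have h3 := sum_Ioc_inv_sq_le_sub (α := ℝ) (k := B) (n := M) (by omega) (le_max_left _ _)
  have h4 : (0 : ℝ) ≤ (M : ℝ)⁻¹ := by positivity
  have h5 : 4 * X * ∑ i ∈ Ioc B M, ((i : ℝ) ^ 2)⁻¹ ≤ 4 * X * (B : ℝ)⁻¹ :=
    mul_le_mul_of_nonneg_left (by linarith) (by positivity)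
  rw [div_eq_mul_inv]
  exact h5

/-- J1: the tail -/
lemma W1 (X : ℝ) (hX : 1 ≤ X) (J : Finset ℤ)
    (hJ : ∀ m ∈ J, m ≠ 0 ∧ X * Real.sqrt (Real.log X) < |(m : ℝ)|) : ∑ m ∈ J, gm X m ≤ 4 := by
  have hX0 : 0 < X := by linarith
  have hl : 0 ≤ Real.log X := Real.log_nonneg hX
  have h1 : ∀ m ∈ J, gm X m ≤ X⁻¹ * (2 * Fm X m) := by
    intro m hm
    have h2 := (hJ m hm).2
    have h3 : Real.log X ≤ ((m : ℝ) / X) ^ 2 := by
      rw [sq_div_eq X hX0]
      have h4 : Real.sqrt (Real.log X) ≤ |(m : ℝ)| / X := by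
        rw [le_div_iff₀ hX0]; linarith
      have h5 := pow_le_pow_left₀ (Real.sqrt_nonneg _) h4 2
      rwa [Real.sq_sqrt hl] at h5
    have h6 : gm X m ≤ X⁻¹ * Real.exp (-(((m : ℝ) / X) ^ 2)) := by
      unfold gm
      have h7 : X⁻¹ = Real.exp (-Real.log X) := by rw [Real.exp_neg, Real.exp_log hX0]
      rw [h7, ← Real.exp_add]
      apply Real.exp_le_exp.2
      linarith
    refine h6.trans ?_
    exact mul_le_mul_of_nonneg_left (exp_le_Fm X hX0 m) (by positivity)
  refine (sum_le_sum h1).trans ?_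
  rw [← mul_sum, ← mul_sum]
  have h2 := gauss_ne X hX0 J (fun m hm => (hJ m hm).1)
  have h3 : X⁻¹ * (2 * ∑ m ∈ J, Fm X m) ≤ X⁻¹ * (2 * (2 * X)) :=
    mul_le_mul_of_nonneg_left (by linarith) (by positivity)
  have h4 : X⁻¹ * (2 * (2 * X)) = 4 := by field_simp; norm_num
  linarith

/-- J3: few numbers -/
lemma W3 (X : ℝ) (B : ℕ) (Z : ℝ) (hZ : 1 ≤ Z) (J : Finset ℤ)
    (hJ : ∀ m ∈ J, ∃ (k : ℤ) (b : ℕ), 1 ≤ b ∧ b ≤ B ∧ |(k : ℝ)| ≤ Z ∧ m = k * (b : ℤ) ^ 2) :
    ∑ m ∈ J, gm X m ≤ 3 * B * Z := by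
  classical
  set K : ℕ := ⌊Z⌋₊ with hK
  have hKZ : (K : ℝ) ≤ Z := Nat.floor_le (by linarith)
  have h1 : J ⊆ (Icc (-(K : ℤ)) K ×ˢ Icc 1 B).image (fun p : ℤ × ℕ => p.1 * (p.2 : ℤ) ^ 2) := by
    intro m hm
    obtain ⟨k, b, h1, h2, h3, h4⟩ := hJ m hm
    rw [mem_image]
    refine ⟨(k, b), ?_, h4.symm⟩
    rw [mem_product, mem_Icc, mem_Icc]
    refine ⟨?_, h1, h2⟩
    have h5 : k.natAbs ≤ K := by
      apply Nat.le_floor
      rw [Nat.cast_natAbs]
      push_cast
      exact h3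
    dsimp only
    omega
  have h2 : (J.card : ℝ) ≤ (2 * K + 1) * B := by
    have h3 := (card_le_card h1).trans card_image_le
    rw [card_product, Int.card_Icc, Nat.card_Icc] at h3
    have h4 : ((K : ℤ) + 1 - -(K : ℤ)).toNat = 2 * K + 1 := by omega
    rw [h4] at h3
    have h5 : B + 1 - 1 = B := by omega
    rw [h5] at h3
    exact_mod_cast h3
  calc ∑ m ∈ J, gm X m ≤ ∑ _m ∈ J, (1 : ℝ) := sum_le_sum (fun m _ => gm_le_one X m)
    _ = J.card := by simp
    _ ≤ (2 * K + 1) * B := h2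
    _ ≤ (3 * Z) * B := by
        apply mul_le_mul_of_nonneg_right _ (Nat.cast_nonneg B)
        linarith
    _ = 3 * B * Z := by ring

/-- square part decomposition -/
lemma decomp (m : ℤ) (hm : m ≠ 0) : ∃ (k : ℤ) (b : ℕ), Squarefree k ∧ 1 ≤ b ∧ m = k * (b : ℤ) ^ 2 := by
  obtain ⟨a, b, h1, h2⟩ := Nat.sq_mul_squarefree m.natAbs
  have hb : b ≠ 0 := by
    rintro rfl
    simp at h1
    exact hm (Int.natAbs_eq_zero.1 h1.symm)
  have ha : (m.sign * (a : ℤ)).natAbs = a := by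
    rw [Int.natAbs_mul, Int.natAbs_sign_of_ne_zero hm, one_mul, Int.natAbs_natCast]
  refine ⟨m.sign * a, b, ?_, Nat.one_le_iff_ne_zero.2 hb, ?_⟩
  · rw [← Int.squarefree_natAbs, ha]; exact h2
  · have h3 : ((m.natAbs : ℕ) : ℤ) = (b : ℤ) ^ 2 * a := by rw [← h1]; push_cast; ring
    calc m = m.sign * (m.natAbs : ℤ) := (Int.sign_mul_natAbs m).symm
      _ = m.sign * a * (b : ℤ) ^ 2 := by rw [h3]; ring

/-- trichotomy for the numbers outside the main part -/
lemma trich (B : ℕ) (η X : ℝ) (hX : 1 ≤ X) (hη : η < 1) (m : ℤ) (hm : m ≠ 0)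
    (h : ¬ MainL B η X m) : X * Real.sqrt (Real.log X) < |(m : ℝ)| ∨
      (∃ b : ℕ, B < b ∧ ((b ^ 2 : ℕ) : ℤ) ∣ m) ∨
      ∃ (k : ℤ) (b : ℕ), 1 ≤ b ∧ b ≤ B ∧ |(k : ℝ)| ≤ X ^ (1 - η) ∧ m = k * (b : ℤ) ^ 2 := by
  by_cases h1 : X * Real.sqrt (Real.log X) < |(m : ℝ)|
  · exact Or.inl h1
  right
  obtain ⟨k, b, hk, hb, he⟩ := decomp m hm
  by_cases h2 : B < b
  · left
    exact ⟨b, h2, ⟨k, by rw [he]; push_cast; ring⟩⟩
  right
  refine ⟨k, b, hb, by omega, ?_, he⟩
  by_cases h3 : k = 1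
  · rw [h3]
    simp only [Int.cast_one, abs_one]
    exact Real.one_le_rpow hX (by linarith)
  · by_contra h4
    push Not at h4
    exact h ⟨by linarith, k, b, hk, h3, hb, by omega, he, h4.le⟩

lemma split3 (J : Finset ℤ) (f : ℤ → ℝ) (hf : ∀ m, 0 ≤ f m) (P1 P2 P3 : ℤ → Prop)
    [DecidablePred P1] [DecidablePred P2] [DecidablePred P3]
    (h : ∀ m ∈ J, P1 m ∨ P2 m ∨ P3 m) :
    ∑ m ∈ J, f m ≤ ∑ m ∈ J.filter P1, f m + ∑ m ∈ J.filter P2, f m + ∑ m ∈ J.filter P3, f m := by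
  rw [sum_filter, sum_filter, sum_filter, ← sum_add_distrib, ← sum_add_distrib]
  apply sum_le_sum
  intro m hm
  have h0 := hf m
  rcases h m hm with h1 | h1 | h1
  · rw [if_pos h1]
    split_ifs <;> linarith
  · rw [if_pos h1]
    split_ifs <;> linarith
  · rw [if_pos h1]
    split_ifs <;> linarith

/-- total weight outside the main part -/
lemma W (B : ℕ) (η X : ℝ) (hB : 1 ≤ B) (hX : 1 ≤ X) (hη : η < 1) (J : Finset ℤ)
    (hJ : ∀ m ∈ J, m ≠ 0 ∧ ¬ MainL B η X m) :
    ∑ m ∈ J, gm X m ≤ 4 + 4 * X / B + 3 * B * X ^ (1 - η) := by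
  classical
  refine (split3 J (gm X) (gm_nonneg X) _ _ _
    (fun m hm => trich B η X hX hη m (hJ m hm).1 (hJ m hm).2)).trans ?_
  refine add_le_add (add_le_add ?_ ?_) ?_
  · apply W1 X hX
    intro m hm
    rw [mem_filter] at hm
    exact ⟨(hJ m hm.1).1, hm.2⟩
  · apply W2 X (by linarith) B hB
    intro m hm
    rw [mem_filter] at hm
    exact ⟨(hJ m hm.1).1, hm.2⟩
  · apply W3 X B _ (Real.one_le_rpow hX (by linarith))
    intro m hm
    rw [mem_filter] at hm
    exact hm.2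

/-- total weight of the squarefree numbers outside the main part -/
lemma Wsf (η X : ℝ) (hX : 1 ≤ X) (hη : η < 1) (J : Finset ℤ)
    (hJ : ∀ m ∈ J, Squarefree m ∧ ¬ MainL 1 η X m) :
    ∑ m ∈ J, gm X m ≤ 4 + 3 * X ^ (1 - η) := by
  classical
  have h0 : ∀ m ∈ J, X * Real.sqrt (Real.log X) < |(m : ℝ)| ∨ False ∨
      ∃ (k : ℤ) (b : ℕ), 1 ≤ b ∧ b ≤ 1 ∧ |(k : ℝ)| ≤ X ^ (1 - η) ∧ m = k * (b : ℤ) ^ 2 := by
    intro m hm
    obtain ⟨hs, hn⟩ := hJ m hm
    by_cases h1 : X * Real.sqrt (Real.log X) < |(m : ℝ)|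
    · exact Or.inl h1
    right; right
    refine ⟨m, 1, le_rfl, le_rfl, ?_, by simp⟩
    by_cases h3 : m = 1
    · rw [h3]
      simp only [Int.cast_one, abs_one]
      exact Real.one_le_rpow hX (by linarith)
    · by_contra h4
      push Not at h4
      exact hn ⟨by linarith, m, 1, hs, h3, le_rfl, le_rfl, by simp, h4.le⟩
  refine (split3 J (gm X) (gm_nonneg X) _ _ _ h0).trans ?_
  have h2 : ∑ m ∈ J.filter (fun _ => False), gm X m = 0 := by simp
  rw [h2, add_zero]
  refine add_le_add ?_ ?_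
  · apply W1 X hX
    intro m hm
    rw [mem_filter] at hm
    exact ⟨(hJ m hm.1).1.ne_zero, hm.2⟩
  · have h4 : (3 : ℝ) * X ^ (1 - η) = 3 * ((1 : ℕ) : ℝ) * X ^ (1 - η) := by push_cast; ring
    rw [h4]
    apply W3 X 1 (X ^ (1 - η)) (Real.one_le_rpow hX (by linarith))
    intro m hm
    rw [mem_filter] at hm
    exact hm.2

/-- pointwise bound of the weighted terms -/
lemma pt (X : ℝ) (hX : 3 ≤ X) (m : ℤ) :
    om X m * (1 + Real.log (2 + |(m : ℝ)|)) ≤ 4 * Real.log X * gm X m := by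
  have hX0 : 0 < X := by linarith
  have hl : 1 ≤ Real.log X := by
    rw [Real.le_log_iff_exp_le hX0]
    have := Real.exp_one_lt_d9
    linarith
  unfold om gm
  rw [sq_div_eq X hX0]
  set y := |(m : ℝ)| / X with hy
  have hy0 : 0 ≤ y := by positivity
  have hm : |(m : ℝ)| = y * X := by rw [hy]; field_simp
  have h1 : Real.log (2 + |(m : ℝ)|) ≤ Real.log X + 2 / 3 + y - 1 := by
    have h2 : 2 + |(m : ℝ)| = X * ((2 + |(m : ℝ)|) / X) := by field_simp
    rw [h2, Real.log_mul hX0.ne' (by positivity)]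
    have h3 := Real.log_le_sub_one_of_pos (show 0 < (2 + |(m : ℝ)|) / X by positivity)
    have h4 : (2 + |(m : ℝ)|) / X = 2 / X + y := by rw [hy]; ring
    have h5 : 2 / X ≤ 2 / 3 := div_le_div_of_nonneg_left (by norm_num) (by norm_num) hX
    rw [h4] at h3 ⊢
    linarith
  have h2 : 1 + Real.log (2 + |(m : ℝ)|) ≤ 2 * Real.log X * (1 + y) := by nlinarith
  have h3 : 1 + y ≤ 2 * Real.exp (y ^ 2 / 2) := by
    have := Real.add_one_le_exp (y ^ 2 / 2)
    nlinarith [sq_nonneg (1 - y)]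
  have h4 : 1 + Real.log (2 + |(m : ℝ)|) ≤ 4 * Real.log X * Real.exp (y ^ 2 / 2) := by
    refine h2.trans ?_
    calc 2 * Real.log X * (1 + y) ≤ 2 * Real.log X * (2 * Real.exp (y ^ 2 / 2)) :=
          mul_le_mul_of_nonneg_left h3 (by positivity)
      _ = 4 * Real.log X * Real.exp (y ^ 2 / 2) := by ring
  calc Real.exp (-(Real.pi * y ^ 2)) * (1 + Real.log (2 + |(m : ℝ)|))
      ≤ Real.exp (-(Real.pi * y ^ 2)) * (4 * Real.log X * Real.exp (y ^ 2 / 2)) :=
        mul_le_mul_of_nonneg_left h4 (Real.exp_pos _).le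
    _ = 4 * Real.log X * Real.exp (-(Real.pi * y ^ 2) + y ^ 2 / 2) := by
        rw [Real.exp_add]; ring
    _ ≤ 4 * Real.log X * Real.exp (-(2 * y ^ 2)) := by
        apply mul_le_mul_of_nonneg_left _ (by positivity)
        apply Real.exp_le_exp.2
        have := Real.pi_gt_three
        nlinarith [sq_nonneg y]

lemma om_le_gm (X : ℝ) (m : ℤ) : om X m ≤ gm X m := by
  unfold om gm
  apply Real.exp_le_exp.2
  have := Real.pi_gt_three
  nlinarith [sq_nonneg ((m : ℝ) / X)]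

/-- `4 + 3 c X^(1-η) ≤ e X` for large `X` -/
lemma ev_small (c η e : ℝ) (hη : 0 < η) (he : 0 < e) :
    ∀ᶠ X : ℝ in atTop, c + c * X ^ (1 - η) ≤ e * X := by
  have h1 : Tendsto (fun X : ℝ => X ^ η) atTop atTop := tendsto_rpow_atTop hη
  filter_upwards [h1.eventually_ge_atTop (2 * |c| / e), eventually_ge_atTop (2 * |c| / e),
    eventually_ge_atTop 1] with X h2 h3 h4
  have hX : 0 < X := by linarith
  rw [div_le_iff₀ he] at h2 h3
  have h5 : X ^ (1 - η) * X ^ η = X := by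
    rw [← Real.rpow_add hX]; simp
  have h6 : 0 < X ^ (1 - η) := Real.rpow_pos_of_pos hX _
  have h7 : |c| * X ^ (1 - η) ≤ e * X / 2 := by
    have h8 : X ^ (1 - η) * (2 * |c|) ≤ X ^ (1 - η) * (X ^ η * e) :=
      mul_le_mul_of_nonneg_left h2 h6.le
    have h9 : X ^ (1 - η) * (X ^ η * e) = e * X := by rw [← mul_assoc, h5]; ring
    linarith
  have h8 : c ≤ |c| := le_abs_self c
  have h9 : c * X ^ (1 - η) ≤ |c| * X ^ (1 - η) := mul_le_mul_of_nonneg_right h8 h6.le
  linarith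

theorem wtA_main' : S_wtA := by
  refine ⟨20, by norm_num, ?_⟩
  intro B η hB hη hη1
  have hB0 : (0 : ℝ) < B := by exact_mod_cast hB
  obtain ⟨X0, hX0⟩ := eventually_atTop.1 (ev_small (4 * B) η (1 / B) hη (by positivity))
  refine ⟨max X0 3, le_max_right _ _, ?_⟩
  intro X J hX hJ
  have hX3 : 3 ≤ X := le_trans (le_max_right _ _) hX
  have hXpos : 0 < X := by linarith
  have h1 := hX0 X (le_trans (le_max_left _ _) hX)
  have hB1 : (1 : ℝ) ≤ B := by exact_mod_cast hB
  have hl : 0 ≤ Real.log X := Real.log_nonneg (by linarith)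
  have h2 := W B η X hB (by linarith) hη1 J hJ
  have hr : 0 < X ^ (1 - η) := Real.rpow_pos_of_pos hXpos _
  have h3 : 4 + 4 * X / B + 3 * B * X ^ (1 - η) ≤ 5 * X / B := by
    have h4 : 5 * X / B = 4 * X / B + 1 / B * X := by ring
    rw [h4]
    have h5 : 3 * B * X ^ (1 - η) ≤ 4 * B * X ^ (1 - η) :=
      mul_le_mul_of_nonneg_right (by linarith) hr.le
    linarith
  calc ∑ m ∈ J, om X m * (1 + Real.log (2 + |(m : ℝ)|)) ≤ ∑ m ∈ J, 4 * Real.log X * gm X m :=
        sum_le_sum (fun m _ => pt X hX3 m)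
    _ = 4 * Real.log X * ∑ m ∈ J, gm X m := by rw [mul_sum]
    _ ≤ 4 * Real.log X * (5 * X / B) :=
        mul_le_mul_of_nonneg_left (h2.trans h3) (by positivity)
    _ = 20 / B * X * Real.log X := by ring

/-! ### total weights -/

lemma om_nonneg (X : ℝ) (m : ℤ) : 0 ≤ om X m := (Real.exp_pos _).le

lemma om_le_Fm (X : ℝ) (hX : 0 < X) (m : ℤ) : om X m ≤ 2 * Fm X m := by
  refine le_trans ?_ (exp_le_Fm X hX m)
  unfold om
  apply Real.exp_le_exp.2
  have := Real.pi_gt_three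
  nlinarith [sq_nonneg ((m : ℝ) / X)]

lemma om_sum (X : ℝ) (hX : 0 < X) (J : Finset ℤ) : ∑ m ∈ J, om X m ≤ 1 + 4 * X := by
  classical
  have h1 : ∑ m ∈ J, om X m ≤ ∑ m ∈ J.filter (· ≠ 0), om X m + 1 := by
    rw [← sum_filter_add_sum_filter_not J (fun m => m ≠ 0)]
    have h2 : ∑ m ∈ J.filter (fun m => ¬ m ≠ 0), om X m ≤ ∑ m ∈ {(0 : ℤ)}, om X m := by
      apply sum_le_sum_of_subset_of_nonneg
      · intro m hm
        rw [mem_filter] at hm
        rw [mem_singleton]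
        simpa using hm.2
      · intro m _ _
        exact om_nonneg X m
    have h3 : ∑ m ∈ {(0 : ℤ)}, om X m = 1 := by simp [om]
    linarith
  have h2 : ∑ m ∈ J.filter (· ≠ 0), om X m ≤ 2 * ∑ m ∈ J.filter (· ≠ 0), Fm X m := by
    rw [mul_sum]
    exact sum_le_sum (fun m _ => om_le_Fm X hX m)
  have h3 := gauss_ne X hX (J.filter (· ≠ 0)) (fun m hm => (mem_filter.1 hm).2)
  linarith

lemma om_summable (X : ℝ) (hX : 0 < X) : Summable (om X) :=
  summable_of_sum_le (om_nonneg X) (om_sum X hX)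

lemma om_tsum (X : ℝ) (hX : 0 < X) : X ≤ ∑' m : ℤ, om X m := by
  have h1 := Real.tsum_exp_neg_mul_int_sq (a := 1 / X ^ 2) (by positivity)
  have h2 : ∀ n : ℤ, Real.exp (-Real.pi * (1 / X ^ 2) * (n : ℝ) ^ 2) = om X n := by
    intro n
    unfold om
    congr 1
    field_simp
  have h3 : ∀ n : ℤ, Real.exp (-Real.pi / (1 / X ^ 2) * (n : ℝ) ^ 2) = om (1 / X) n := by
    intro n
    unfold om
    congr 1
    field_simp
  simp only [h2, h3] at h1
  rw [h1]
  have h4 : (1 / X ^ 2) ^ (1 / 2 : ℝ) = 1 / X := by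
    rw [← Real.sqrt_eq_rpow, Real.sqrt_div' _ (by positivity), Real.sqrt_one, Real.sqrt_sq hX.le]
  rw [h4, one_div_one_div]
  have h5 : 1 ≤ ∑' n : ℤ, om (1 / X) n := by
    have h6 := (om_summable (1 / X) (by positivity)).le_tsum 0 (fun j _ => om_nonneg _ j)
    have h7 : om (1 / X) 0 = 1 := by simp [om]
    rwa [h7] at h6
  nlinarith

/-- the nonzero integers of absolute value at most `Y` -/
noncomputable def SY (Y : ℕ) : Finset ℤ := (Icc (-(Y : ℤ)) Y).filter (· ≠ 0)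

lemma mem_SY (Y : ℕ) (m : ℤ) : m ∈ SY Y ↔ |m| ≤ Y ∧ m ≠ 0 := by
  unfold SY
  rw [mem_filter, mem_Icc, abs_le]

lemma total (X : ℝ) (hX : 3 ≤ X) (Y : ℕ) (hY : X * Real.log X ≤ Y) :
    X - 5 ≤ ∑ m ∈ SY Y, om X m := by
  classical
  have hX0 : 0 < X := by linarith
  have hl : 1 ≤ Real.log X := by
    rw [Real.le_log_iff_exp_le hX0]
    have := Real.exp_one_lt_d9
    linarith
  have key : ∑' m : ℤ, om X m ≤ ∑ m ∈ SY Y, om X m + 5 := by
    apply (om_summable X hX0).tsum_le_of_sum_le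
    intro J
    rw [← sum_filter_add_sum_filter_not J (fun m => |m| ≤ (Y : ℤ))]
    have h1 : ∑ m ∈ J.filter (fun m => |m| ≤ (Y : ℤ)), om X m ≤ ∑ m ∈ insert 0 (SY Y), om X m := by
      apply sum_le_sum_of_subset_of_nonneg
      · intro m hm
        rw [mem_filter] at hm
        rw [mem_insert, mem_SY]
        by_cases h : m = 0
        · exact Or.inl h
        · exact Or.inr ⟨hm.2, h⟩
      · intro m _ _
        exact om_nonneg X m
    rw [sum_insert (by rw [mem_SY]; simp)] at h1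
    have h2 : om X 0 = 1 := by simp [om]
    rw [h2] at h1
    have h3 : ∑ m ∈ J.filter (fun m => ¬ |m| ≤ (Y : ℤ)), om X m ≤ 4 := by
      have h4 := W1 X (by linarith) (J.filter (fun m => ¬ |m| ≤ (Y : ℤ))) (by
        intro m hm
        rw [mem_filter, not_le] at hm
        have h5 : (Y : ℝ) < |(m : ℝ)| := by exact_mod_cast hm.2
        refine ⟨?_, ?_⟩
        · rintro rfl
          have := hm.2
          simp at this
          omega
        · have h6 : Real.sqrt (Real.log X) ≤ Real.log X := by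
            rw [Real.sqrt_le_left (by linarith)]
            nlinarith
          have h7 : X * Real.sqrt (Real.log X) ≤ X * Real.log X :=
            mul_le_mul_of_nonneg_left h6 hX0.le
          linarith)
      exact (sum_le_sum (fun m _ => om_le_gm X m)).trans h4
    linarith
  have := om_tsum X hX0
  linarith

theorem wtB_main' : S_wtB := by
  classical
  intro e he
  refine ⟨⌈10 / e⌉₊ + 1, ?_⟩
  intro B η hB hη hη1
  have hB1 : 1 ≤ B := by omega
  have hBr : (0 : ℝ) < B := by exact_mod_cast hB1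
  have hBe : 10 / e ≤ B := by
    refine (Nat.le_ceil _).trans ?_
    exact_mod_cast (by omega : ⌈10 / e⌉₊ ≤ B)
  have hBe' : 1 / (B : ℝ) ≤ e / 10 := by
    rw [div_le_iff₀ he] at hBe
    rw [div_le_div_iff₀ hBr (by norm_num)]
    linarith
  obtain ⟨X0, hX0⟩ := eventually_atTop.1 (ev_small (9 + 3 * B) η (e / 2) hη (by positivity))
  refine ⟨max X0 3, le_max_right _ _, ?_⟩
  intro X Y hX hY I hI
  have hX3 : 3 ≤ X := le_trans (le_max_right _ _) hX
  have hXpos : 0 < X := by linarith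
  have h1 := hX0 X (le_trans (le_max_left _ _) hX)
  have h2 := total X hX3 Y hY
  have h3 := W B η X hB1 (by linarith) hη1 ((SY Y).filter (fun m => ¬ MainL B η X m)) (by
    intro m hm
    rw [mem_filter, mem_SY] at hm
    exact ⟨hm.1.2, hm.2⟩)
  have h4 : ∑ m ∈ SY Y, om X m ≤ ∑ m ∈ I, om X m +
      ∑ m ∈ (SY Y).filter (fun m => ¬ MainL B η X m), om X m := by
    rw [← sum_filter_add_sum_filter_not (SY Y) (fun m => MainL B η X m)]
    apply add_le_add_left
    apply sum_le_sum_of_subset_of_nonneg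
    · intro m hm
      rw [mem_filter, mem_SY] at hm
      exact (hI m).2 ⟨hm.1.1, hm.2⟩
    · intro m _ _
      exact om_nonneg X m
  have h5 : ∑ m ∈ (SY Y).filter (fun m => ¬ MainL B η X m), om X m ≤
      ∑ m ∈ (SY Y).filter (fun m => ¬ MainL B η X m), gm X m :=
    sum_le_sum (fun m _ => om_le_gm X m)
  have hr : 0 < X ^ (1 - η) := Real.rpow_pos_of_pos hXpos _
  have h6 : 4 * X / B ≤ 4 * X * (e / 10) := by
    have : 4 * X / B = 4 * X * (1 / B) := by ring
    rw [this]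
    exact mul_le_mul_of_nonneg_left hBe' (by positivity)
  have h7 : (9 + 3 * (B : ℝ)) * X ^ (1 - η) ≥ 3 * B * X ^ (1 - η) :=
    mul_le_mul_of_nonneg_right (by linarith) hr.le
  nlinarith

/-- Abel summation with a decreasing weight -/
lemma abel (a f : ℕ → ℝ) (c K : ℝ) (hf : ∀ n, 1 ≤ n → f (n + 1) ≤ f n) (hf0 : ∀ n, 0 ≤ f n)
    (hA : ∀ n, c * n - K ≤ ∑ i ∈ Icc 1 n, a i) (n : ℕ) :
    c * ∑ i ∈ Icc 1 n, f i - K * f 1 ≤ ∑ i ∈ Icc 1 n, a i * f i := by
  have hK : 0 ≤ K := by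
    have := hA 0
    simp at this
    exact this
  have key : ∀ n, 1 ≤ n → -(K * f 1) ≤ ∑ i ∈ Icc 1 n, (a i - c) * f i -
      (∑ i ∈ Icc 1 n, a i - c * n + K) * f n := by
    intro n hn
    induction n, hn using Nat.le_induction with
    | base =>
      simp only [Icc_self, sum_singleton, Nat.cast_one]
      linarith
    | succ n hn ih =>
      rw [sum_Icc_succ_top (by omega), sum_Icc_succ_top (by omega)]
      have h1 := hA n
      have h2 := hf n hn
      have h3 : (∑ i ∈ Icc 1 n, a i - c * n + K) * f (n + 1) ≤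
          (∑ i ∈ Icc 1 n, a i - c * n + K) * f n :=
        mul_le_mul_of_nonneg_left h2 (by linarith)
      push_cast
      nlinarith
  rcases Nat.eq_zero_or_pos n with rfl | hn
  · simp
    exact mul_nonneg hK (hf0 1)
  · have h1 := key n hn
    have h2 := hA n
    have h3 : 0 ≤ (∑ i ∈ Icc 1 n, a i - c * n + K) * f n := mul_nonneg (by linarith) (hf0 n)
    have h4 : ∑ i ∈ Icc 1 n, (a i - c) * f i = ∑ i ∈ Icc 1 n, a i * f i - c * ∑ i ∈ Icc 1 n, f i := by
      rw [mul_sum, ← sum_sub_distrib]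
      exact sum_congr rfl (fun i _ => by ring)
    linarith

/-- sums of even functions -/
lemma even_sum (g : ℤ → ℝ) (hg : ∀ m, g (-m) = g m) (Y : ℕ) :
    ∑ m ∈ SY Y, g m = 2 * ∑ n ∈ Icc 1 Y, g n := by
  classical
  have h1 : SY Y = (Icc 1 Y).image (fun n : ℕ => (n : ℤ)) ∪ (Icc 1 Y).image (fun n : ℕ => -(n : ℤ)) := by
    ext m
    rw [mem_SY, mem_union, mem_image, mem_image]
    constructor
    · rintro ⟨h1, h2⟩
      rw [abs_le] at h1
      rcases lt_or_gt_of_ne h2 with h3 | h3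
      · right
        exact ⟨m.natAbs, mem_Icc.2 (by omega), by omega⟩
      · left
        exact ⟨m.natAbs, mem_Icc.2 (by omega), by omega⟩
    · rintro (⟨n, hn, rfl⟩ | ⟨n, hn, rfl⟩)
      · rw [mem_Icc] at hn
        rw [abs_le]
        omega
      · rw [mem_Icc] at hn
        rw [abs_le]
        omega
  rw [h1, sum_union, sum_image, sum_image]
  · have : ∑ n ∈ Icc 1 Y, g (-(n : ℤ)) = ∑ n ∈ Icc 1 Y, g n := sum_congr rfl (fun n _ => hg n)
    rw [this]; ring
  · intro a _ b _ h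
    simpa using h
  · intro a _ b _ h
    simpa using h
  · rw [disjoint_left]
    intro m h2 h3
    rw [mem_image] at h2 h3
    obtain ⟨a, ha, rfl⟩ := h2
    obtain ⟨b, hb, h4⟩ := h3
    rw [mem_Icc] at ha hb
    omega

lemma sf_count (e : ℝ) (he : 0 < e) : ∃ K : ℝ, ∀ n : ℕ, (6 / Real.pi ^ 2 - e) * n - K ≤
    ∑ i ∈ Icc 1 n, (if Squarefree i then (1 : ℝ) else 0) := by
  have h1 := Pool.Agent.Y293.SF.t_SQF
  unfold Pool.Agent.Y859.SF.S_SQF at h1
  have h2 := h1.eventually (lt_mem_nhds (show 6 / Real.pi ^ 2 - e < 6 / Real.pi ^ 2 by linarith))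
  obtain ⟨N, hN⟩ := eventually_atTop.1 h2
  refine ⟨|6 / Real.pi ^ 2 - e| * (N + 1), fun n => ?_⟩
  have e1 : ∑ i ∈ Icc 1 n, (if Squarefree i then (1 : ℝ) else 0) =
      (((Icc 1 n).filter (fun m => Squarefree m)).card : ℝ) := by
    rw [← sum_filter, sum_const, nsmul_eq_mul, mul_one]
  rw [e1]
  have hpos : (0 : ℝ) ≤ |6 / Real.pi ^ 2 - e| * (N + 1) := by positivity
  by_cases hn : N + 1 ≤ n
  · have h3 := hN n (by omega)
    have hn0 : (0 : ℝ) < n := by exact_mod_cast (by omega : 0 < n)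
    rw [lt_div_iff₀ hn0] at h3
    have h4 : (6 / Real.pi ^ 2 - e) * n - |6 / Real.pi ^ 2 - e| * (N + 1) ≤
        (6 / Real.pi ^ 2 - e) * n := by linarith
    refine h4.trans (h3.le.trans (le_of_eq ?_))
    congr!
  · have h3 : (6 / Real.pi ^ 2 - e) * n ≤ |6 / Real.pi ^ 2 - e| * (N + 1) := by
      refine (mul_le_mul_of_nonneg_right (le_abs_self _) (Nat.cast_nonneg n)).trans ?_
      apply mul_le_mul_of_nonneg_left _ (abs_nonneg _)
      have : (n : ℝ) ≤ N := by exact_mod_cast (by omega : n ≤ N)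
      linarith
    have h4 : (0 : ℝ) ≤ (((Icc 1 n).filter (fun m => Squarefree m)).card : ℝ) := Nat.cast_nonneg _
    linarith

theorem wtC_main' : S_wtC := by
  classical
  intro e η he hη hη1
  obtain ⟨K, hK⟩ := sf_count (e / 2) (by linarith)
  have hK0 : 0 ≤ K := by
    have := hK 0
    simp at this
    exact this
  obtain ⟨X0, hX0⟩ := eventually_atTop.1 (ev_small (16 + 2 * K) η (min (e / 8) (e / 2)) hη
    (by positivity))
  refine ⟨max X0 3, le_max_right _ _, ?_⟩
  intro X Y hX hY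
  have hX3 : 3 ≤ X := le_trans (le_max_right _ _) hX
  have hXpos : 0 < X := by linarith
  have h1 := hX0 X (le_trans (le_max_left _ _) hX)
  have hr : 0 < X ^ (1 - η) := Real.rpow_pos_of_pos hXpos _
  have hl : 0 ≤ Real.log X := Real.log_nonneg (by linarith)
  have hmin1 : min (e / 8) (e / 2) * X ≤ e / 8 * X :=
    mul_le_mul_of_nonneg_right (min_le_left _ _) hXpos.le
  have hmin2 : min (e / 8) (e / 2) * X ≤ e / 2 * X :=
    mul_le_mul_of_nonneg_right (min_le_right _ _) hXpos.le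
  have hr2 : (16 + 2 * K) * X ^ (1 - η) ≥ 16 * X ^ (1 - η) :=
    mul_le_mul_of_nonneg_right (by linarith) hr.le
  constructor
  · intro I hI
    have h2 := total X hX3 Y hY
    -- squarefree numbers up to Y
    set S : Finset ℤ := (SY Y).filter (fun m => Squarefree m) with hS
    have h3 := Wsf η X (by linarith) hη1 (S.filter (fun m => ¬ MainL 1 η X m)) (by
      intro m hm
      rw [mem_filter, hS, mem_filter] at hm
      exact ⟨hm.1.2, hm.2⟩)
    have h4 : ∑ m ∈ S, om X m ≤ ∑ m ∈ I, om X m +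
        ∑ m ∈ S.filter (fun m => ¬ MainL 1 η X m), om X m := by
      rw [← sum_filter_add_sum_filter_not S (fun m => MainL 1 η X m)]
      apply add_le_add_left
      apply sum_le_sum_of_subset_of_nonneg
      · intro m hm
        rw [mem_filter, hS, mem_filter, mem_SY] at hm
        exact (hI m).2 ⟨hm.1.1.1, hm.1.2, hm.2⟩
      · intro m _ _
        exact om_nonneg X m
    have h5 : ∑ m ∈ S.filter (fun m => ¬ MainL 1 η X m), om X m ≤
        ∑ m ∈ S.filter (fun m => ¬ MainL 1 η X m), gm X m :=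
      sum_le_sum (fun m _ => om_le_gm X m)
    have hom : ∀ m : ℤ, om X (-m) = om X m := by
      intro m
      unfold om
      congr 1
      push_cast
      ring
    have h6 : ∑ m ∈ S, om X m = 2 * ∑ n ∈ Icc 1 Y, (if Squarefree n then (1 : ℝ) else 0) * om X n := by
      rw [hS, sum_filter]
      have := even_sum (fun m => if Squarefree m then om X m else 0) (by
        intro m
        have e0 : Squarefree (-m) ↔ Squarefree m := by
          rw [← Int.squarefree_natAbs, Int.natAbs_neg, Int.squarefree_natAbs]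
        simp only [hom, e0]) Y
      rw [this]
      congr 1
      apply sum_congr rfl
      intro n _
      have : Squarefree (n : ℤ) ↔ Squarefree n := Int.squarefree_natCast
      by_cases h : Squarefree n
      · rw [if_pos (this.2 h), if_pos h, one_mul]
      · rw [if_neg (fun hh => h (this.1 hh)), if_neg h, zero_mul]
    have h7 : ∑ m ∈ SY Y, om X m = 2 * ∑ n ∈ Icc 1 Y, om X n := even_sum (om X) hom Y
    have h8 := abel (fun n => if Squarefree n then (1 : ℝ) else 0) (fun n => om X n)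
      (6 / Real.pi ^ 2 - e / 2) K (by
        intro n hn
        unfold om
        apply Real.exp_le_exp.2
        push_cast
        have h9 : ((n : ℝ) / X) ^ 2 ≤ (((n : ℝ) + 1) / X) ^ 2 := by
          apply pow_le_pow_left₀ (by positivity)
          apply div_le_div_of_nonneg_right _ hXpos.le
          linarith
        have := Real.pi_pos
        nlinarith) (fun n => om_nonneg X n) hK Y
    have h9 : om X ((1 : ℕ) : ℤ) ≤ 1 := by
      unfold om
      rw [Real.exp_le_one_iff]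
      have := Real.pi_pos
      have := sq_nonneg ((((1 : ℕ) : ℤ) : ℝ) / X)
      nlinarith
    have h10 : K * om X ((1 : ℕ) : ℤ) ≤ K := by
      have := mul_le_mul_of_nonneg_left h9 hK0
      linarith
    have hupper : ∑ m ∈ SY Y, om X m ≤ 4 * X := by
      refine (sum_le_sum (fun m _ => om_le_Fm X hXpos m)).trans ?_
      rw [← mul_sum]
      have := gauss_ne X hXpos (SY Y) (fun m hm => ((mem_SY Y m).1 hm).2)
      linarith
    have hpi : 6 / Real.pi ^ 2 ≤ 1 := by
      rw [div_le_one (by positivity)]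
      have := Real.pi_gt_three
      nlinarith
    have hfin : (6 / Real.pi ^ 2 - e / 2) * ∑ m ∈ SY Y, om X m ≥ (6 / Real.pi ^ 2 - e / 2) * X - 5 ∨
        6 / Real.pi ^ 2 - e / 2 < 0 := by
      by_cases hc : 0 ≤ 6 / Real.pi ^ 2 - e / 2
      · left
        have h11 := mul_le_mul_of_nonneg_left h2 hc
        have h12 : (6 / Real.pi ^ 2 - e / 2) ≤ 1 := by linarith
        nlinarith
      · right
        push Not at hc
        exact hc
    rcases hfin with h11 | h11
    · have h12 : ∑ m ∈ S, om X m ≥ (6 / Real.pi ^ 2 - e / 2) * X - 5 - 2 * K := by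
        rw [h6]
        rw [h7] at h11
        set c := 6 / Real.pi ^ 2 - e / 2 with hc
        set T := ∑ n ∈ Icc 1 Y, om X n with hT
        set A := ∑ n ∈ Icc 1 Y, (if Squarefree n then (1 : ℝ) else 0) * om X n with hA
        have h13 : c * T - K ≤ A := le_trans (by linarith) h8
        have h14 : c * (2 * T) = 2 * (c * T) := by ring
        rw [h14] at h11
        linarith
      nlinarith
    · have h12 : (6 / Real.pi ^ 2 - e) * X ≤ 0 := by nlinarith
      exact h12.trans (sum_nonneg (fun m _ => om_nonneg X m))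
  · intro J hJ
    have h2 := Wsf η X (by linarith) hη1 J hJ
    calc ∑ m ∈ J, om X m * (1 + Real.log (2 + |(m : ℝ)|)) ≤ ∑ m ∈ J, 4 * Real.log X * gm X m :=
          sum_le_sum (fun m _ => pt X hX3 m)
      _ = 4 * Real.log X * ∑ m ∈ J, gm X m := by rw [mul_sum]
      _ ≤ 4 * Real.log X * (e / 8 * X) := by
          apply mul_le_mul_of_nonneg_left _ (by positivity)
          refine h2.trans ?_
          linarith
      _ ≤ e * X * Real.log X := by
          have : 0 ≤ e * X * Real.log X := by positivity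
          nlinarith

end Pool.Agent.N880.QF.Wgt

namespace Pool.Agent.N880.QF

theorem wtA_main : S_wtA := Wgt.wtA_main'

theorem wtB_main : S_wtB := Wgt.wtB_main'

theorem wtC_main : S_wtC := Wgt.wtC_main'

end Pool.Agent.N880.QF
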