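import Pool.Agent.N880.QF.Stm2

set_option autoImplicit false

open Complex Filter Topology MeasureTheory Set
open Pool.Agent.H306R2.RZ (js)

namespace Pool.Agent.N880.QF.Wsum

/-! ### the sieve identity -/

/-- general sieve identity over the divisors of a squarefree number -/
theorem sieve_gen (Q : ℕ) (hQ : Squarefree Q) (P : ℕ → Prop) [DecidablePred P] (h1 : P 1)
    (hmul : ∀ a b : ℕ, a ≠ 0 → b ≠ 0 → Nat.Coprime a b → (P (a * b) ↔ P a ∧ P b)) :
    (∑ d ∈ Q.divisors, (if P d then ((ArithmeticFunction.moebius d : ℤ) : ℝ) else 0)) =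
      (open Classical in if (∀ p : ℕ, p.Prime → p ∣ Q → ¬ P p) then 1 else 0) := by
  classical
  let f : ArithmeticFunction ℝ := ⟨fun d => if d = 0 then 0 else if P d then 1 else 0, by simp⟩
  have hf0 : ∀ d : ℕ, f d = if d = 0 then 0 else if P d then 1 else 0 := fun d => rfl
  have hf : f.IsMultiplicative := by
    rw [ArithmeticFunction.IsMultiplicative.iff_ne_zero]
    refine ⟨by simp [hf0, h1], ?_⟩
    intro a b ha hb hab
    have hab0 : a * b ≠ 0 := mul_ne_zero ha hb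
    simp only [hf0, if_neg ha, if_neg hb, if_neg hab0]
    by_cases hPa : P a
    · by_cases hPb : P b
      · rw [if_pos ((hmul a b ha hb hab).2 ⟨hPa, hPb⟩), if_pos hPa, if_pos hPb]; norm_num
      · rw [if_neg (fun h => hPb ((hmul a b ha hb hab).1 h).2), if_neg hPb]; norm_num
    · rw [if_neg (fun h => hPa ((hmul a b ha hb hab).1 h).1), if_neg hPa]; norm_num
  have key := ArithmeticFunction.IsMultiplicative.prodPrimeFactors_one_sub_of_squarefree f hf hQ
  have hQ0 : Q ≠ 0 := hQ.ne_zero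
  have e1 : (∑ d ∈ Q.divisors, (if P d then ((ArithmeticFunction.moebius d : ℤ) : ℝ) else 0)) =
      ∑ d ∈ Q.divisors, ((ArithmeticFunction.moebius d : ℤ) : ℝ) * f d := by
    refine Finset.sum_congr rfl fun d hd => ?_
    have hd0 : d ≠ 0 := (Nat.pos_of_mem_divisors hd).ne'
    rw [hf0, if_neg hd0]
    by_cases h : P d <;> simp [h]
  rw [e1, ← key]
  by_cases h : ∀ p : ℕ, p.Prime → p ∣ Q → ¬ P p
  · rw [if_pos h]
    refine Finset.prod_eq_one fun p hp => ?_
    have hpp := Nat.prime_of_mem_primeFactors hp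
    rw [hf0, if_neg hpp.ne_zero, if_neg (h p hpp (Nat.dvd_of_mem_primeFactors hp))]; norm_num
  · rw [if_neg h]
    push Not at h
    obtain ⟨p, hp, hpQ, hPp⟩ := h
    refine Finset.prod_eq_zero (Nat.mem_primeFactors.2 ⟨hp, hpQ, hQ0⟩) ?_
    rw [hf0, if_neg hp.ne_zero, if_pos hPp]; norm_num

/-- L12e: the sieve identity -/
theorem sieve_main : S_sieve := by
  classical
  intro Q hQ m
  have := sieve_gen Q hQ (fun d => ((d : ℤ) ^ 2 ∣ m)) (by simp) ?_
  · simp only [Free]
    rw [this]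
    congr
  · intro a b ha hb hab
    push_cast
    rw [mul_pow]
    constructor
    · intro h
      exact ⟨(Dvd.intro _ rfl).trans h, (Dvd.intro_left _ rfl).trans h⟩
    · rintro ⟨h1, h2⟩
      refine IsCoprime.mul_dvd ?_ h1 h2
      exact (Nat.isCoprime_iff_coprime.2 hab).pow

/-- coprimality with a squarefree number -/
theorem sieve_coprime (Q : ℕ) (hQ : Squarefree Q) (b : ℕ) :
    (∑ d ∈ Q.divisors, if (d ∣ b) then ((ArithmeticFunction.moebius d : ℤ) : ℝ) else 0) =
      (if b.Coprime Q then 1 else 0) := by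
  classical
  have := sieve_gen Q hQ (fun d => (d ∣ b)) (by simp) ?_
  · rw [this]
    refine if_congr ?_ rfl rfl
    constructor
    · intro h
      refine Nat.coprime_of_dvd fun p hp hpb hpQ => h p hp hpQ hpb
    · intro h p hp hpQ hpb
      exact Nat.not_coprime_of_dvd_of_dvd hp.one_lt hpb hpQ h
  · intro a b' ha hb hab
    constructor
    · intro h
      exact ⟨(Dvd.intro _ rfl).trans h, (Dvd.intro_left _ rfl).trans h⟩
    · rintro ⟨h1, h2⟩
      exact Nat.Coprime.mul_dvd_of_dvd_of_dvd hab h1 h2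

/-- the density of the `Free Q` integers as a sum over divisors -/
theorem fQ_eq (Q : ℕ) (hQ : Squarefree Q) :
    fQ Q = ∑ d ∈ Q.divisors, ((ArithmeticFunction.moebius d : ℤ) : ℝ) / (d : ℝ) ^ 2 := by
  let f : ArithmeticFunction ℝ := ⟨fun d => 1 / (d : ℝ) ^ 2, by simp⟩
  have hf0 : ∀ d : ℕ, f d = 1 / (d : ℝ) ^ 2 := fun d => rfl
  have hf : f.IsMultiplicative := by
    rw [ArithmeticFunction.IsMultiplicative.iff_ne_zero]
    refine ⟨by simp [hf0], ?_⟩
    intro a b ha hb hab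
    simp only [hf0]
    push_cast
    rw [mul_pow]
    have ha' : (a : ℝ) ≠ 0 := by exact_mod_cast ha
    have hb' : (b : ℝ) ≠ 0 := by exact_mod_cast hb
    field_simp
  have key := ArithmeticFunction.IsMultiplicative.prodPrimeFactors_one_sub_of_squarefree f hf hQ
  rw [fQ]
  simp only [hf0] at key
  rw [key]
  refine Finset.sum_congr rfl fun d _ => ?_
  ring

/-! ### Gaussian sums over multiples -/

/-- the Gaussian -/
noncomputable def G (Y : ℝ) (k : ℤ) : ℝ := Real.exp (-(Real.pi * (k * Y) ^ 2))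

theorem G_pos (Y : ℝ) (k : ℤ) : 0 < G Y k := Real.exp_pos _

theorem G_le_one (Y : ℝ) (k : ℤ) : G Y k ≤ 1 := by
  unfold G
  rw [Real.exp_le_one_iff]
  have := Real.pi_pos
  have : 0 ≤ Real.pi * (k * Y) ^ 2 := by positivity
  linarith

theorem he_eq (X r : ℝ) (m : ℤ) : he (m / X) r = G (Real.exp (-r) / X) m := by
  unfold he G
  congr 3
  ring

theorem sum_mult (D : ℕ) (hD : 1 ≤ D) (Y : ℝ) :
    (∑' m : ℤ, (if m ≠ 0 ∧ (D : ℤ) ∣ m then G Y m else 0)) =
      ∑' k : ℤ, (if k = 0 then 0 else G (D * Y) k) := by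
  have hD0 : (D : ℤ) ≠ 0 := by exact_mod_cast (by omega : D ≠ 0)
  have hinj : Function.Injective (fun k : ℤ => (D : ℤ) * k) := fun a b h =>
    mul_left_cancel₀ hD0 h
  rw [← hinj.tsum_eq]
  · refine tsum_congr fun k => ?_
    by_cases hk : k = 0
    · simp [hk]
    · rw [if_pos ⟨mul_ne_zero hD0 hk, Dvd.intro _ rfl⟩, if_neg hk]
      unfold G
      congr 3
      push_cast
      ring
  · intro m hm
    rw [Function.mem_support] at hm
    by_cases h : m ≠ 0 ∧ (D : ℤ) ∣ m
    · obtain ⟨k, hk⟩ := h.2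
      exact ⟨k, hk.symm⟩
    · rw [if_neg h] at hm
      exact absurd rfl hm

theorem summable_G (hgs : S_gs) (Y : ℝ) (hY : 0 < Y) : Summable (G Y) := (hgs.1 Y hY).1

theorem summable_ite {ι : Type*} (g : ι → ℝ) (hg : Summable g) (hg0 : ∀ i, 0 ≤ g i) (P : ι → Prop)
    [DecidablePred P] : Summable (fun i => if P i then g i else 0) := by
  refine Summable.of_nonneg_of_le (fun i => ?_) (fun i => ?_) hg
  · split_ifs
    · exact hg0 i
    · exact le_refl _
  · split_ifs
    · exact le_refl _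
    · exact hg0 i

theorem sum_mult_le (hgs : S_gs) (D : ℕ) (hD : 1 ≤ D) (Y : ℝ) (hY : 0 < Y) :
    (∑' m : ℤ, (if m ≠ 0 ∧ (D : ℤ) ∣ m then G Y m else 0)) ≤ 1 / (D * Y) := by
  rw [sum_mult D hD Y]
  have hD0 : (0 : ℝ) < D := by exact_mod_cast (by omega : 0 < D)
  exact (hgs.1 (D * Y) (by positivity)).2.1

theorem sum_mult_ge (hgs : S_gs) (D : ℕ) (hD : 1 ≤ D) (Y : ℝ) (hY : 0 < Y) :
    1 / (D * Y) - 1 ≤ (∑' m : ℤ, (if m ≠ 0 ∧ (D : ℤ) ∣ m then G Y m else 0)) := by
  rw [sum_mult D hD Y]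
  have hD0 : (0 : ℝ) < D := by exact_mod_cast (by omega : 0 < D)
  exact (hgs.1 (D * Y) (by positivity)).2.2

/-- the sieve: Gaussian sum over the `Free Q` integers -/
theorem sum_free (hgs : S_gs) (Q : ℕ) (hQ : Squarefree Q) (Y : ℝ) (hY : 0 < Y) :
    (∑' m : ℤ, (open Classical in if m ≠ 0 ∧ Free Q m then G Y m else 0)) ≤
      fQ Q / Y + Q.divisors.card := by
  classical
  have hmu : ∀ d : ℕ, |((ArithmeticFunction.moebius d : ℤ) : ℝ)| ≤ 1 := by
    intro d
    have := ArithmeticFunction.abs_moebius_le_one (n := d)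
    exact_mod_cast this
  have e1 : ∀ m : ℤ, (if m ≠ 0 ∧ Free Q m then G Y m else 0) =
      ∑ d ∈ Q.divisors, ((ArithmeticFunction.moebius d : ℤ) : ℝ) *
        (if m ≠ 0 ∧ ((d ^ 2 : ℕ) : ℤ) ∣ m then G Y m else 0) := by
    intro m
    by_cases hm : m = 0
    · simp [hm]
    · have h := sieve_main Q hQ m
      have : (if m ≠ 0 ∧ Free Q m then G Y m else 0) = (if Free Q m then 1 else 0) * G Y m := by
        by_cases hF : Free Q m
        · rw [if_pos ⟨hm, hF⟩, if_pos hF, one_mul]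
        · rw [if_neg (fun h => hF h.2), if_neg hF, zero_mul]
      rw [this]
      have h' : (if Free Q m then (1 : ℝ) else 0) = ∑ d ∈ Q.divisors, if ((d : ℤ) ^ 2 ∣ m) then ((ArithmeticFunction.moebius d : ℤ) : ℝ) else 0 := by
        rw [h]
      rw [h', Finset.sum_mul]
      refine Finset.sum_congr rfl fun d _ => ?_
      push_cast
      by_cases hd : (d : ℤ) ^ 2 ∣ m
      · rw [if_pos hd, if_pos ⟨hm, hd⟩]
      · rw [if_neg hd, if_neg (fun h => hd h.2)]; ring
  have e2 : (∑' m : ℤ, (if m ≠ 0 ∧ Free Q m then G Y m else 0)) =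
      ∑ d ∈ Q.divisors, ((ArithmeticFunction.moebius d : ℤ) : ℝ) *
        ∑' m : ℤ, (if m ≠ 0 ∧ ((d ^ 2 : ℕ) : ℤ) ∣ m then G Y m else 0) := by
    rw [tsum_congr e1, Summable.tsum_finsetSum]
    · refine Finset.sum_congr rfl fun d _ => ?_
      rw [tsum_mul_left]
    · intro d _
      exact (summable_ite _ (summable_G hgs Y hY) (fun i => (G_pos Y i).le) _).mul_left _
  rw [e2, fQ_eq Q hQ, Finset.sum_div]
  have : (Q.divisors.card : ℝ) = ∑ d ∈ Q.divisors, (1 : ℝ) := by simp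
  rw [this, ← Finset.sum_add_distrib]
  refine Finset.sum_le_sum fun d hd => ?_
  have hd0 : 0 < d := Nat.pos_of_mem_divisors hd
  have hd1 : 1 ≤ d ^ 2 := Nat.one_le_pow _ _ hd0
  have hA := sum_mult_le hgs (d ^ 2) hd1 Y hY
  have hB := sum_mult_ge hgs (d ^ 2) hd1 Y hY
  set S := ∑' m : ℤ, (if m ≠ 0 ∧ ((d ^ 2 : ℕ) : ℤ) ∣ m then G Y m else 0)
  set M := ((ArithmeticFunction.moebius d : ℤ) : ℝ)
  have hM := hmu d
  have hdR : (0 : ℝ) < d := by exact_mod_cast hd0
  have e3 : M / (d : ℝ) ^ 2 / Y = M * (1 / (((d ^ 2 : ℕ) : ℝ) * Y)) := by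
    push_cast
    field_simp
  rw [e3]
  have : M * (S - 1 / (((d ^ 2 : ℕ) : ℝ) * Y)) ≤ 1 := by
    have h1 : |S - 1 / (((d ^ 2 : ℕ) : ℝ) * Y)| ≤ 1 := by
      rw [abs_le]; constructor <;> linarith
    calc M * (S - 1 / (((d ^ 2 : ℕ) : ℝ) * Y)) ≤ |M * (S - 1 / (((d ^ 2 : ℕ) : ℝ) * Y))| := le_abs_self _
      _ = |M| * |S - 1 / (((d ^ 2 : ℕ) : ℝ) * Y)| := abs_mul _ _
      _ ≤ 1 * 1 := mul_le_mul hM h1 (abs_nonneg _) zero_le_one
      _ = 1 := one_mul 1
  linarith

/-- integration of an upper bound against the Gaussian density -/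
theorem int_le (hex : S_exch) (hgd : S_gd) (τ X : ℝ) (hτ : 0 < τ) (hX : 0 < X) (f : ℤ → ℝ)
    (hf : ∀ m, |f m| ≤ 1) (a c : ℝ)
    (h : ∀ r : ℝ, ∑' m : ℤ, he (m / X) r * f m ≤ a * Real.exp r + c) :
    ∑' m : ℤ, Wt τ (m / X) * f m ≤ (a + c) * Real.exp (1 / (4 * τ ^ 2)) := by
  obtain ⟨-, hint, heq⟩ := hex τ X f hτ hX hf
  rw [heq]
  obtain ⟨i1, v1⟩ := hgd τ (1 / 2) hτ
  obtain ⟨i2, v2⟩ := hgd τ (-(1 / 2)) hτ
  have hgd0 : ∀ r, 0 ≤ gd τ r := fun r => by unfold gd; positivity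
  have i3 : Integrable (fun r => a * (gd τ r * Real.exp (1 / 2 * r)) + c * (gd τ r * Real.exp (-(1 / 2) * r))) :=
    (i1.const_mul a).add (i2.const_mul c)
  have hv : ∫ r : ℝ, (a * (gd τ r * Real.exp (1 / 2 * r)) + c * (gd τ r * Real.exp (-(1 / 2) * r))) =
      (a + c) * Real.exp (1 / (4 * τ ^ 2)) := by
    rw [integral_add (i1.const_mul a) (i2.const_mul c), integral_const_mul, integral_const_mul, v1, v2]
    have e1 : ((1 / 2 : ℝ)) ^ 2 / τ ^ 2 = 1 / (4 * τ ^ 2) := by field_simp; norm_num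
    have e2 : (-(1 / 2 : ℝ)) ^ 2 / τ ^ 2 = 1 / (4 * τ ^ 2) := by field_simp; norm_num
    rw [e1, e2]; ring
  rw [← hv]
  refine integral_mono hint i3 fun r => ?_
  have h1 := h r
  have e1 : Real.exp (1 / 2 * r) = Real.exp (-(r / 2)) * Real.exp r := by
    rw [← Real.exp_add]; congr 1; ring
  have e2 : Real.exp (-(1 / 2) * r) = Real.exp (-(r / 2)) := by congr 1; ring
  have h2 : gd τ r * (Real.exp (-(r / 2)) * ∑' m : ℤ, he (m / X) r * f m) ≤
      gd τ r * (Real.exp (-(r / 2)) * (a * Real.exp r + c)) :=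
    mul_le_mul_of_nonneg_left (mul_le_mul_of_nonneg_left h1 (Real.exp_pos _).le) (hgd0 r)
  dsimp only
  rw [e1, e2]
  refine h2.trans (le_of_eq ?_)
  ring

/-- L12d -/
theorem Dup_main (hex : S_exch) (hgd : S_gd) (hgs : S_gs) : S_Dup := by
  classical
  constructor
  · intro Q hQ
    refine ⟨Q.divisors.card, ?_, ?_⟩
    · have : 0 < Q.divisors.card := Finset.card_pos.2 (Nat.nonempty_divisors.2 hQ.ne_zero)
      exact_mod_cast this
    intro τ X hτ hX f hf0 hf1 hfs
    refine int_le hex hgd τ X (by linarith) (by linarith) f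
      (fun m => by rw [abs_of_nonneg (hf0 m)]; exact hf1 m) (fQ Q * X) _ ?_
    intro r
    have hY : 0 < Real.exp (-r) / X := div_pos (Real.exp_pos _) (by linarith)
    have h1 := sum_free hgs Q hQ _ hY
    have e1 : fQ Q / (Real.exp (-r) / X) = fQ Q * X * Real.exp r := by
      rw [Real.exp_neg]; field_simp
    rw [e1] at h1
    refine le_trans ?_ h1
    have hs := summable_G hgs _ hY
    have hle : ∀ m : ℤ, he (m / X) r * f m ≤ (if m ≠ 0 ∧ Free Q m then G (Real.exp (-r) / X) m else 0) := by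
      intro m
      rw [he_eq]
      by_cases h : m ≠ 0 ∧ Free Q m
      · rw [if_pos h]
        calc G (Real.exp (-r) / X) m * f m ≤ G (Real.exp (-r) / X) m * 1 :=
              mul_le_mul_of_nonneg_left (hf1 m) (G_pos _ _).le
          _ = _ := mul_one _
      · rw [if_neg h]
        have : f m = 0 := by
          by_contra hne
          exact h (hfs m hne)
        rw [this, mul_zero]
    refine Summable.tsum_le_tsum hle ?_ (summable_ite _ hs (fun i => (G_pos _ i).le) _)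
    refine Summable.of_nonneg_of_le (fun m => ?_) hle (summable_ite _ hs (fun i => (G_pos _ i).le) _)
    rw [he_eq]
    exact mul_nonneg (G_pos _ _).le (hf0 m)
  · intro τ X D hτ hX hD f hf0 hf1 hfs
    have key := int_le hex hgd τ X (by linarith) (by linarith) f
      (fun m => by rw [abs_of_nonneg (hf0 m)]; exact hf1 m) (X / D) 0 ?_
    · simpa using key
    intro r
    have hY : 0 < Real.exp (-r) / X := div_pos (Real.exp_pos _) (by linarith)
    have h1 := sum_mult_le hgs D hD _ hY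
    have hD0 : (0 : ℝ) < D := by exact_mod_cast (by omega : 0 < D)
    have e1 : 1 / (D * (Real.exp (-r) / X)) = X / D * Real.exp r + 0 := by
      rw [Real.exp_neg]; field_simp; ring
    rw [e1] at h1
    refine le_trans ?_ h1
    have hs := summable_G hgs _ hY
    have hle : ∀ m : ℤ, he (m / X) r * f m ≤ (if m ≠ 0 ∧ (D : ℤ) ∣ m then G (Real.exp (-r) / X) m else 0) := by
      intro m
      rw [he_eq]
      by_cases h : m ≠ 0 ∧ (D : ℤ) ∣ m
      · rw [if_pos h]
        calc G (Real.exp (-r) / X) m * f m ≤ G (Real.exp (-r) / X) m * 1 :=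
              mul_le_mul_of_nonneg_left (hf1 m) (G_pos _ _).le
          _ = _ := mul_one _
      · rw [if_neg h]
        have : f m = 0 := by
          by_contra hne
          exact h (hfs m hne)
        rw [this, mul_zero]
    refine Summable.tsum_le_tsum hle ?_ (summable_ite _ hs (fun i => (G_pos _ i).le) _)
    refine Summable.of_nonneg_of_le (fun m => ?_) hle (summable_ite _ hs (fun i => (G_pos _ i).le) _)
    rw [he_eq]
    exact mul_nonneg (G_pos _ _).le (hf0 m)

/-! ### Gaussian sums over squares -/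

/-- the summand `exp(-π (b² z)²)` -/
noncomputable def H (z : ℝ) (b : ℕ) : ℝ := Real.exp (-(Real.pi * ((b : ℝ) ^ 2 * z) ^ 2))

theorem H_pos (z : ℝ) (b : ℕ) : 0 < H z b := Real.exp_pos _

theorem H_le_one (z : ℝ) (b : ℕ) : H z b ≤ 1 := by
  unfold H
  rw [Real.exp_le_one_iff]
  have := Real.pi_pos
  have : 0 ≤ Real.pi * ((b : ℝ) ^ 2 * z) ^ 2 := by positivity
  linarith

theorem summable_H (z : ℝ) (hz : 0 < z) : Summable (H z) := by
  have hq : Summable (fun b : ℕ => Real.exp (-(Real.pi * z ^ 2)) ^ b) := by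
    refine summable_geometric_of_lt_one (Real.exp_pos _).le ?_
    rw [Real.exp_lt_one_iff]
    have := Real.pi_pos
    have : 0 < Real.pi * z ^ 2 := by positivity
    linarith
  refine Summable.of_nonneg_of_le (fun b => (H_pos z b).le) (fun b => ?_) hq
  unfold H
  rw [← Real.exp_nat_mul, Real.exp_le_exp]
  have h1 : (b : ℝ) ≤ (b : ℝ) ^ 4 := by
    have : b ≤ b ^ 4 := Nat.le_self_pow (by norm_num) b
    exact_mod_cast this
  have := Real.pi_pos
  have h2 : Real.pi * z ^ 2 * b ≤ Real.pi * z ^ 2 * (b : ℝ) ^ 4 :=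
    mul_le_mul_of_nonneg_left h1 (by positivity)
  have h3 : Real.pi * ((b : ℝ) ^ 2 * z) ^ 2 = Real.pi * z ^ 2 * (b : ℝ) ^ 4 := by ring
  rw [h3]
  linarith

/-- sum over the positive multiples of `d` -/
theorem sumH_mult (hsq : S_sq) (d : ℕ) (hd : 1 ≤ d) (z : ℝ) (hz : 0 < z) :
    (∑' b : ℕ, (if 0 < b ∧ d ∣ b then H z b else 0)) =
      I2 / Real.sqrt z / d - phi ((d : ℝ) ^ 2 * z) := by
  have hd0 : (0 : ℝ) < d := by exact_mod_cast (by omega : 0 < d)
  have hinj : Function.Injective (fun j : ℕ => d * (j + 1)) := fun a b h => by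
    have : a + 1 = b + 1 := Nat.eq_of_mul_eq_mul_left (by omega) h
    omega
  have e1 : (∑' b : ℕ, (if 0 < b ∧ d ∣ b then H z b else 0)) =
      ∑' j : ℕ, Real.exp (-(Real.pi * (((j : ℝ) + 1) ^ 2 * ((d : ℝ) ^ 2 * z)) ^ 2)) := by
    rw [← hinj.tsum_eq]
    · refine tsum_congr fun j => ?_
      rw [if_pos ⟨by positivity, Dvd.intro _ rfl⟩]
      unfold H
      congr 3
      push_cast
      ring
    · intro b hb
      rw [Function.mem_support] at hb
      by_cases h : 0 < b ∧ d ∣ b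
      · obtain ⟨j, hj⟩ := h.2
        have hj0 : j ≠ 0 := by
          rintro rfl
          omega
        refine ⟨j - 1, ?_⟩
        dsimp only
        rw [hj, Nat.sub_add_cancel (Nat.one_le_iff_ne_zero.2 hj0)]
      · rw [if_neg h] at hb
        exact absurd rfl hb
  obtain ⟨hI, -, -⟩ := hsq.2.2 ((d : ℝ) ^ 2 * z) (by positivity)
  have e2 : I2 / Real.sqrt ((d : ℝ) ^ 2 * z) = I2 / Real.sqrt z / d := by
    rw [Real.sqrt_mul (by positivity), Real.sqrt_sq hd0.le]
    field_simp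
  rw [e1, ← e2, ← hI, phi]
  ring

theorem abs_mu_le (d : ℕ) : |((ArithmeticFunction.moebius d : ℤ) : ℝ)| ≤ 1 := by
  have := ArithmeticFunction.abs_moebius_le_one (n := d)
  exact_mod_cast this

/-- sum over the positive integers coprime to `Q` -/
theorem sumH_cop (hsq : S_sq) (Q : ℕ) (hQ : Squarefree Q) (z : ℝ) (hz : 0 < z) :
    rhoQ Q * (I2 / Real.sqrt z) - Q.divisors.card ≤
      ∑' b : ℕ, (if 0 < b ∧ b.Coprime Q then H z b else 0) := by
  have e1 : ∀ b : ℕ, (if 0 < b ∧ b.Coprime Q then H z b else 0) =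
      ∑ d ∈ Q.divisors, ((ArithmeticFunction.moebius d : ℤ) : ℝ) *
        (if 0 < b ∧ d ∣ b then H z b else 0) := by
    intro b
    by_cases hb : 0 < b
    · have h := sieve_coprime Q hQ b
      have : (if 0 < b ∧ b.Coprime Q then H z b else 0) = (if b.Coprime Q then 1 else 0) * H z b := by
        by_cases hF : b.Coprime Q
        · rw [if_pos ⟨hb, hF⟩, if_pos hF, one_mul]
        · rw [if_neg (fun h => hF h.2), if_neg hF, zero_mul]
      rw [this, ← h, Finset.sum_mul]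
      refine Finset.sum_congr rfl fun d _ => ?_
      by_cases hd : d ∣ b
      · rw [if_pos hd, if_pos ⟨hb, hd⟩]
      · rw [if_neg hd, if_neg (fun h => hd h.2)]; ring
    · rw [if_neg (fun h => hb h.1)]
      symm
      refine Finset.sum_eq_zero fun d _ => ?_
      rw [if_neg (fun h => hb h.1), mul_zero]
  have e2 : (∑' b : ℕ, (if 0 < b ∧ b.Coprime Q then H z b else 0)) =
      ∑ d ∈ Q.divisors, ((ArithmeticFunction.moebius d : ℤ) : ℝ) *
        ∑' b : ℕ, (if 0 < b ∧ d ∣ b then H z b else 0) := by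
    rw [tsum_congr e1, Summable.tsum_finsetSum]
    · refine Finset.sum_congr rfl fun d _ => ?_
      rw [tsum_mul_left]
    · intro d _
      exact (summable_ite _ (summable_H z hz) (fun i => (H_pos z i).le) _).mul_left _
  rw [e2, rhoQ, Finset.sum_mul]
  have : (Q.divisors.card : ℝ) = ∑ d ∈ Q.divisors, (1 : ℝ) := by simp
  rw [this, ← Finset.sum_sub_distrib]
  refine Finset.sum_le_sum fun d hd => ?_
  have hd0 : 0 < d := Nat.pos_of_mem_divisors hd
  have hdR : (0 : ℝ) < d := by exact_mod_cast hd0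
  rw [sumH_mult hsq d hd0 z hz]
  obtain ⟨-, hp0, hp1⟩ := hsq.2.2 ((d : ℝ) ^ 2 * z) (by positivity)
  have hM := abs_mu_le d
  set M := ((ArithmeticFunction.moebius d : ℤ) : ℝ)
  have h1 : M * phi ((d : ℝ) ^ 2 * z) ≤ 1 := by
    calc M * phi ((d : ℝ) ^ 2 * z) ≤ |M * phi ((d : ℝ) ^ 2 * z)| := le_abs_self _
      _ = |M| * |phi ((d : ℝ) ^ 2 * z)| := abs_mul _ _
      _ ≤ 1 * 1 := mul_le_mul hM (by rw [abs_of_nonneg hp0]; exact hp1) (abs_nonneg _) zero_le_one
      _ = 1 := one_mul 1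
  have h2 : M / d * (I2 / Real.sqrt z) = M * (I2 / Real.sqrt z / d) := by ring
  rw [h2]
  linarith [mul_sub M (I2 / Real.sqrt z / d) (phi ((d : ℝ) ^ 2 * z))]

/-- removing the first `B` terms -/
theorem sumH_large (hsq : S_sq) (Q B : ℕ) (hQ : Squarefree Q) (z : ℝ) (hz : 0 < z) :
    rhoQ Q * (I2 / Real.sqrt z) - (Q.divisors.card + B) ≤
      ∑' b : ℕ, (if B < b ∧ b.Coprime Q then H z b else 0) := by
  have h1 := sumH_cop hsq Q hQ z hz
  have hs := summable_H z hz
  have e1 : ∀ b : ℕ, (if 0 < b ∧ b.Coprime Q then H z b else 0) ≤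
      (if B < b ∧ b.Coprime Q then H z b else 0) + (if b ∈ Finset.Icc 1 B then 1 else 0) := by
    intro b
    by_cases hc : b.Coprime Q
    · by_cases hb : 0 < b
      · by_cases hB : B < b
        · rw [if_pos ⟨hb, hc⟩, if_pos ⟨hB, hc⟩, if_neg]
          · linarith
          · rw [Finset.mem_Icc]; omega
        · rw [if_pos ⟨hb, hc⟩, if_neg (fun h => hB h.1), if_pos]
          · linarith [H_le_one z b]
          · rw [Finset.mem_Icc]; omega
      · rw [if_neg (fun h => hb h.1), if_neg (fun h => by omega), if_neg]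
        · linarith
        · rw [Finset.mem_Icc]; omega
    · rw [if_neg (fun h => hc h.2), if_neg (fun h => hc h.2)]
      split_ifs <;> norm_num
  have s1 : Summable (fun b : ℕ => (if B < b ∧ b.Coprime Q then H z b else 0)) :=
    summable_ite _ hs (fun i => (H_pos z i).le) _
  have s2 : Summable (fun b : ℕ => (if b ∈ Finset.Icc 1 B then (1 : ℝ) else 0)) :=
    summable_of_ne_finset_zero (s := Finset.Icc 1 B) (fun b hb => if_neg hb)
  have e2 : ∑' b : ℕ, (if b ∈ Finset.Icc 1 B then (1 : ℝ) else 0) = B := by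
    rw [tsum_eq_sum (s := Finset.Icc 1 B) (fun b hb => if_neg hb)]
    rw [Finset.sum_congr rfl (fun b hb => if_pos hb)]
    simp
  have e3 := Summable.tsum_le_tsum e1 (summable_ite _ hs (fun i => (H_pos z i).le) _) (s1.add s2)
  rw [s1.tsum_add s2, e2] at e3
  linarith

/-- integration of a lower bound against the Gaussian density -/
theorem int_ge (hex : S_exch) (hgd : S_gd) (τ X : ℝ) (hτ : 1 ≤ τ) (hX : 0 < X) (f : ℤ → ℝ)
    (hf : ∀ m, |f m| ≤ 1) (a c : ℝ) (hc : 0 ≤ c)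
    (h : ∀ r : ℝ, a * Real.exp (r / 2) - c ≤ ∑' m : ℤ, he (m / X) r * f m) :
    a - 2 * c ≤ ∑' m : ℤ, Wt τ (m / X) * f m := by
  have hτ0 : 0 < τ := by linarith
  obtain ⟨-, hint, heq⟩ := hex τ X f hτ0 hX hf
  rw [heq]
  obtain ⟨i1, v1⟩ := hgd τ 0 hτ0
  obtain ⟨i2, v2⟩ := hgd τ (-(1 / 2)) hτ0
  have hgd0 : ∀ r, 0 ≤ gd τ r := fun r => by unfold gd; positivity
  have i3 : Integrable (fun r => a * (gd τ r * Real.exp (0 * r)) - c * (gd τ r * Real.exp (-(1 / 2) * r))) :=
    (i1.const_mul a).sub (i2.const_mul c)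
  have hv : ∫ r : ℝ, (a * (gd τ r * Real.exp (0 * r)) - c * (gd τ r * Real.exp (-(1 / 2) * r))) =
      a - c * Real.exp (1 / (4 * τ ^ 2)) := by
    rw [integral_sub (i1.const_mul a) (i2.const_mul c), integral_const_mul, integral_const_mul, v1, v2]
    have e1 : ((0 : ℝ)) ^ 2 / τ ^ 2 = 0 := by simp
    have e2 : (-(1 / 2 : ℝ)) ^ 2 / τ ^ 2 = 1 / (4 * τ ^ 2) := by field_simp; norm_num
    rw [e1, e2]; simp
  have hexp : Real.exp (1 / (4 * τ ^ 2)) ≤ 2 := by
    have h1 : 1 / (4 * τ ^ 2) ≤ 1 / 4 := by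
      apply one_div_le_one_div_of_le (by norm_num)
      nlinarith
    have h2 : Real.exp (1 / 4) ≤ 2 := by
      have h3 : Real.exp (1 / 4) ≤ Real.exp (Real.log 2) := by
        apply Real.exp_le_exp.2
        linarith [Real.log_two_gt_d9]
      rwa [Real.exp_log (by norm_num)] at h3
    exact (Real.exp_le_exp.2 h1).trans h2
  have hle : a - 2 * c ≤ a - c * Real.exp (1 / (4 * τ ^ 2)) := by nlinarith
  refine hle.trans ?_
  rw [← hv]
  refine integral_mono i3 hint fun r => ?_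
  have h1 := h r
  have e1 : Real.exp (0 * r) = Real.exp (-(r / 2)) * Real.exp (r / 2) := by
    rw [← Real.exp_add]; congr 1; ring
  have e2 : Real.exp (-(1 / 2) * r) = Real.exp (-(r / 2)) := by congr 1; ring
  have h2 : gd τ r * (Real.exp (-(r / 2)) * (a * Real.exp (r / 2) - c)) ≤
      gd τ r * (Real.exp (-(r / 2)) * ∑' m : ℤ, he (m / X) r * f m) :=
    mul_le_mul_of_nonneg_left (mul_le_mul_of_nonneg_left h1 (Real.exp_pos _).le) (hgd0 r)
  dsimp only
  rw [e1, e2]
  refine le_trans (le_of_eq ?_) h2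
  ring

/-- L12c -/
theorem Alow_main (hex : S_exch) (hgd : S_gd) (hsq : S_sq) : S_Alow := by
  classical
  intro Q B hQ
  have hcard : 0 < (Q.divisors.card : ℝ) := by
    have : 0 < Q.divisors.card := Finset.card_pos.2 (Nat.nonempty_divisors.2 hQ.ne_zero)
    exact_mod_cast this
  have hB0 : (0 : ℝ) ≤ B := Nat.cast_nonneg B
  refine ⟨2 * (Q.divisors.card + B), by positivity, ?_⟩
  intro τ X k hτ hX hk
  have hX0 : 0 < X := by linarith
  have hk0 : (0 : ℝ) < |(k : ℝ)| := abs_pos.2 (by exact_mod_cast hk)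
  let f : ℤ → ℝ := fun m => if ∃ b : ℕ, B < b ∧ b.Coprime Q ∧ m = k * (b : ℤ) ^ 2 then 1 else 0
  have hinj : Function.Injective (fun b : ℕ => k * (b : ℤ) ^ 2) := by
    intro a b h
    have h1 : (a : ℤ) ^ 2 = (b : ℤ) ^ 2 := mul_left_cancel₀ hk h
    have h2 : a ^ 2 = b ^ 2 := by exact_mod_cast h1
    exact Nat.pow_left_injective (by norm_num : 2 ≠ 0) h2
  have hfk : ∀ b : ℕ, f (k * (b : ℤ) ^ 2) = if B < b ∧ b.Coprime Q then 1 else 0 := by
    intro b
    show (if ∃ b' : ℕ, B < b' ∧ b'.Coprime Q ∧ k * (b : ℤ) ^ 2 = k * (b' : ℤ) ^ 2 then (1 : ℝ) else 0) = _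
    refine if_congr ?_ rfl rfl
    constructor
    · rintro ⟨b', h1, h2, h3⟩
      have : b = b' := hinj h3
      subst this
      exact ⟨h1, h2⟩
    · rintro ⟨h1, h2⟩
      exact ⟨b, h1, h2, rfl⟩
  have hsupp : ∀ g : ℤ → ℝ, (∑' m : ℤ, g m * f m) =
      ∑' b : ℕ, (if B < b ∧ b.Coprime Q then g (k * (b : ℤ) ^ 2) else 0) := by
    intro g
    rw [← hinj.tsum_eq]
    · refine tsum_congr fun b => ?_
      rw [hfk b]
      split_ifs <;> simp
    · intro m hm
      rw [Function.mem_support] at hm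
      have hfm : f m ≠ 0 := right_ne_zero_of_mul hm
      have : ∃ b : ℕ, B < b ∧ b.Coprime Q ∧ m = k * (b : ℤ) ^ 2 := by
        by_contra hne
        exact hfm (if_neg hne)
      obtain ⟨b, -, -, h3⟩ := this
      exact ⟨b, h3.symm⟩
  have hf1 : ∀ m, |f m| ≤ 1 := by
    intro m
    show |(if ∃ b : ℕ, B < b ∧ b.Coprime Q ∧ m = k * (b : ℤ) ^ 2 then (1 : ℝ) else 0)| ≤ 1
    split_ifs <;> norm_num
  have key := int_ge hex hgd τ X hτ hX0 f hf1 (rhoQ Q * I2 * Real.sqrt (X / |(k : ℝ)|))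
    (Q.divisors.card + B) (by positivity) ?_
  · rw [hsupp (fun m => Wt τ (m / X))] at key
    exact key
  · intro r
    rw [hsupp (fun m => he (m / X) r)]
    have hz : 0 < |(k : ℝ)| * Real.exp (-r) / X := by positivity
    have h1 := sumH_large hsq Q B hQ _ hz
    have e1 : rhoQ Q * (I2 / Real.sqrt (|(k : ℝ)| * Real.exp (-r) / X)) =
        rhoQ Q * I2 * Real.sqrt (X / |(k : ℝ)|) * Real.exp (r / 2) := by
      have : Real.sqrt (X / |(k : ℝ)|) * Real.exp (r / 2) = 1 / Real.sqrt (|(k : ℝ)| * Real.exp (-r) / X) := by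
        have e3 : Real.exp (r / 2) = Real.sqrt (Real.exp r) := by
          rw [Real.sqrt_eq_rpow, ← Real.exp_mul]; congr 1; ring
        rw [e3, ← Real.sqrt_mul (by positivity), one_div, ← Real.sqrt_inv]
        congr 1
        rw [Real.exp_neg]
        field_simp
      rw [mul_assoc (rhoQ Q * I2), this]
      ring
    rw [e1] at h1
    refine h1.trans (le_of_eq (tsum_congr fun b => ?_))
    by_cases hb : B < b ∧ b.Coprime Q
    · rw [if_pos hb, if_pos hb]
      rw [he_eq]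
      unfold H G
      congr 2
      push_cast
      have : |(k : ℝ)| ^ 2 = (k : ℝ) ^ 2 := sq_abs _
      have e4 : ((b : ℝ) ^ 2 * (|(k : ℝ)| * Real.exp (-r) / X)) ^ 2 =
        (b : ℝ) ^ 4 * |(k : ℝ)| ^ 2 * (Real.exp (-r) / X) ^ 2 := by ring
      rw [e4, this]
      ring
    · rw [if_neg hb, if_neg hb]

end Pool.Agent.N880.QF.Wsum

namespace Pool.Agent.N880.QF

theorem sieve_main : S_sieve := Wsum.sieve_main

theorem Dup_main (hex : S_exch) (hgd : S_gd) (hgs : S_gs) : S_Dup := Wsum.Dup_main hex hgd hgs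

theorem Alow_main (hex : S_exch) (hgd : S_gd) (hsq : S_sq) : S_Alow := Wsum.Alow_main hex hgd hsq

end Pool.Agent.N880.QF
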