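import Pool.Agent.N880.QF.Ms
import Pool.Agent.N880.QF.Char
import Pool.Agent.N880.QF.Gsum
import Pool.Agent.N880.QF.Phi
import Pool.Agent.N880.QF.PhiQ
import Pool.Agent.N880.QF.Good
import Pool.Agent.N880.QF.Rest
import Pool.Agent.N880.QF.Wgt
import Pool.Agent.N880.QF.Wsum
import Pool.Agent.N880.QF.Core
import Pool.Agent.N880.QF.Fin
import Pool.Agent.N767.QF.Win
import Pool.Agent.N253.QF.Small

/-! # Assembly: zeros of the L-functions of all quadratic fields -/

set_option autoImplicit false

namespace Pool.Agent.N880.QF

open Pool.Agent.N253.QF in
theorem star_all : S_star :=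
  star_main gd_main pois_main exch_main sieve_main (Dup_main exch_main gd_main gs_main)
    gs_main sq_main phi_main phiQ_main (Alow_main exch_main gd_main sq_main) Wt_lower_main

theorem ms_all : S_ms :=
  ms_main star_all Pool.Agent.N767.QF.win_main Rest.rest_main char_main gs_main

theorem core_all : S_core := core_main ms_all char_main

theorem finA_all : S_finA := finA_main core_all char_main good_main wtA_main wtB_main

theorem finB_all : S_finB := finB_main core_all char_main good_main wtC_main

end Pool.Agent.N880.QF
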