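import Pool.Agent.N880.QF.Star4
import Pool.Agent.H385R2.Cut

/-! # The mean square over the family -/

set_option autoImplicit false

open Complex Filter Topology MeasureTheory Set
open H385 (bt wt Rw LF bt_norm wt_nonneg wt_le_one bt_sq_int wt_sq_int bt_cont)
open Pool.Agent.H306R2.RZ (js)
open Pool.Agent.H413R2.RZ4HP (js_mul js_sq js_abs_le)
open Pool.Agent.TH560.QT (Attached)

namespace Pool.Agent.N880.QF

lemma main_nz {B : ℕ} {X : ℝ} {m : ℤ} (h : Main B X m) : m ≠ 0 ∧ ¬ IsSquare m := by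
  obtain ⟨_, k, b, h1, h2, h3, _, h5⟩ := h
  have hm : m ≠ 0 := by rw [h5]; exact sq_ne h1 h3
  refine ⟨hm, ?_⟩
  rintro ⟨c, hc⟩
  have hc0 : c ≠ 0 := by
    rintro rfl
    exact hm (by rw [hc]; ring)
  have h6 : k * (b : ℤ) ^ 2 = 1 * ((c.natAbs : ℕ) : ℤ) ^ 2 := by
    rw [← h5, hc, one_mul, Int.natAbs_sq, pow_two]
  exact h2 (sq_unique h1 squarefree_one h3 (Int.natAbs_pos.2 hc0) h6).1

/-- a number and its squarefree part have the same attached characters -/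
lemma att_sqf {k : ℤ} {b : ℕ} (hb : 1 ≤ b) {N : ℕ} {χ : DirichletCharacter ℂ N}
    (h : Attached (k * (b : ℤ) ^ 2) χ) : Attached k χ := by
  obtain ⟨B0, h⟩ := h
  refine ⟨max B0 (b + 1), fun p hp hpB => ?_⟩
  rw [h p hp ((le_max_left _ _).trans hpB)]
  have hpb : b < p := lt_of_lt_of_le (Nat.lt_succ_self b) ((le_max_right _ _).trans hpB)
  have hcop : b.Coprime p := by
    rw [Nat.coprime_comm, hp.coprime_iff_not_dvd]
    intro hd
    have := Nat.le_of_dvd (by omega) hd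
    omega
  have h1 : js (k * (b : ℤ) ^ 2) p = js k p := by
    rw [js_mul, js_sq _ _ hp.ne_zero, if_pos hcop, mul_one]
  unfold js at h1
  exact_mod_cast h1

/-- the coefficient at the main primes -/
lemma chi_val (hchar : S_char) {N : ℤ → ℕ} {χ : (m : ℤ) → DirichletCharacter ℂ (N m)} (hD : QData N χ)
    {B : ℕ} {X : ℝ} {m : ℤ} (hm : Main B X m) {p : ℕ} (hp : p.Prime) (hp2 : p ≠ 2) (hpB : B < p) :
    χ m (p : ZMod (N m)) = ((js m p : ℝ) : ℂ) := by
  obtain ⟨hm0, hsq⟩ := main_nz hm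
  obtain ⟨_, k, b, h1, h2, h3, h4, h5⟩ := hm
  have hatt := hD.att m hm0 hsq
  have hatt2 : Attached (k * (b : ℤ) ^ 2) (χ m) := by
    rw [← h5]; exact hatt
  have hk : Attached k (χ m) := att_sqf h3 hatt2
  have : NeZero (N m) := ⟨hD.ne m⟩
  obtain ⟨h6, _⟩ := (hchar k h1 h2).2 (N m) ⟨hD.ne m⟩ (χ m) (hD.prim m hm0 hsq) hk
  rw [h6 p hp hp2]
  have hcop : b.Coprime p := by
    rw [Nat.coprime_comm, hp.coprime_iff_not_dvd]
    intro hd
    have := Nat.le_of_dvd (by omega) hd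
    omega
  have h7 : js m p = js k p := by
    rw [h5, js_mul, js_sq _ _ hp.ne_zero, if_pos hcop, mul_one]
  rw [h7]
  unfold js
  push_cast
  rfl

lemma om_pos (X : ℝ) (m : ℤ) : 0 < om X m := Real.exp_pos _

/-- total weight -/
lemma om_total (hgs : S_gs) {X : ℝ} (hX : 0 < X) (I : Finset ℤ) (hI : ∀ m ∈ I, m ≠ 0) :
    ∑ m ∈ I, om X m ≤ X := by
  have hY : 0 < 1 / X := by positivity
  obtain ⟨h1, h2, _⟩ := hgs.1 (1 / X) hY
  have e : ∀ m : ℤ, om X m = Real.exp (-(Real.pi * (m * (1 / X)) ^ 2)) := by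
    intro m
    unfold om
    congr 4
    ring
  rw [one_div_one_div] at h2
  refine le_trans ?_ h2
  have hs : Summable (fun k : ℤ => if k = 0 then 0 else Real.exp (-(Real.pi * (k * (1 / X)) ^ 2))) := by
    refine Summable.of_nonneg_of_le (fun k => ?_) (fun k => ?_) h1
    · split_ifs
      · exact le_rfl
      · exact (Real.exp_pos _).le
    · split_ifs
      · exact (Real.exp_pos _).le
      · exact le_rfl
  refine le_trans (Finset.sum_le_sum fun m hm => ?_) (hs.sum_le_tsum I fun m _ => ?_)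
  · rw [if_neg (hI m hm), e]
  · split_ifs
    · exact le_rfl
    · exact (Real.exp_pos _).le

lemma mem_PP {B : ℕ} {ε L u : ℝ} {p : ℕ} (h : p ∈ PP B ε L u) :
    p.Prime ∧ B < p ∧ |Real.log p - u| ≤ ε * L := (Finset.mem_filter.1 h).2

/-- the weights of the primes -/
noncomputable def yy (p : ℕ) : ℝ := ArithmeticFunction.vonMangoldt p / Real.sqrt p

lemma yy_sq (p : ℕ) : yy p ^ 2 = ArithmeticFunction.vonMangoldt p ^ 2 / p := by
  unfold yy
  rw [div_pow, Real.sq_sqrt (Nat.cast_nonneg p)]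

lemma yy_abs (p : ℕ) : |yy p| ≤ 2 := by
  unfold yy
  rw [abs_div, abs_of_nonneg ArithmeticFunction.vonMangoldt_nonneg, abs_of_nonneg (Real.sqrt_nonneg _)]
  rcases Nat.eq_zero_or_pos p with rfl | hp
  · simp
  · have hp0 : (0 : ℝ) < p := by exact_mod_cast hp
    rw [div_le_iff₀ (Real.sqrt_pos.2 hp0)]
    have h1 : Real.log p ≤ 2 * Real.sqrt p := by
      have h2 := Real.log_le_sub_one_of_pos (Real.sqrt_pos.2 hp0)
      rw [Real.log_sqrt hp0.le] at h2
      linarith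
    exact ArithmeticFunction.vonMangoldt_le_log.trans h1

lemma sq_add_le {δ : ℝ} (hδ : 0 < δ) (a b : ℝ) :
    (a + b) ^ 2 ≤ (1 + δ) * a ^ 2 + (1 + 1 / δ) * b ^ 2 := by
  have h : (1 + δ) * a ^ 2 + (1 + 1 / δ) * b ^ 2 - (a + b) ^ 2 = (1 / δ) * (δ * a - b) ^ 2 := by
    field_simp
    ring
  have : 0 ≤ (1 / δ) * (δ * a - b) ^ 2 := by positivity
  linarith

lemma main_sum_integrable (P : Finset ℕ) (z : ℕ → ℝ) {T κ u : ℝ} (hκ : 1 ≤ κ) (hT : 1 ≤ T)
    (hTκ : T ≤ Real.exp (κ ^ 2)) : Integrable (fun t : ℝ =>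
      ‖∑ p ∈ P, ((z p : ℝ) : ℂ) * bt T u t (Real.log p)‖ ^ 2) := by
  obtain ⟨C, _, h⟩ := bt_sq_int
  have h1 : Integrable (fun t : ℝ => (P.card : ℝ) * ∑ p ∈ P, z p ^ 2 * ‖bt T u t (Real.log p)‖ ^ 2) :=
    (integrable_finsetSum P fun (p : ℕ) _ =>
      (h T κ u (Real.log (p : ℝ)) hκ hT hTκ).1.const_mul (z p ^ 2)).const_mul (P.card : ℝ)
  have hcont : Continuous (fun t : ℝ => ‖∑ p ∈ P, ((z p : ℝ) : ℂ) * bt T u t (Real.log p)‖ ^ 2) := by
    apply Continuous.pow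
    apply Continuous.norm
    refine continuous_finsetSum _ fun p _ => continuous_const.mul ?_
    exact (bt_cont T (Real.log p)).comp (continuous_const.prodMk continuous_id)
  refine h1.mono' hcont.aestronglyMeasurable (Eventually.of_forall fun t => ?_)
  rw [Real.norm_eq_abs, abs_of_nonneg (by positivity)]
  have h2 : ‖∑ p ∈ P, ((z p : ℝ) : ℂ) * bt T u t (Real.log p)‖ ≤
      ∑ p ∈ P, |z p| * ‖bt T u t (Real.log p)‖ := by
    refine (norm_sum_le _ _).trans (le_of_eq (Finset.sum_congr rfl fun p _ => ?_))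
    rw [norm_mul, Complex.norm_real, Real.norm_eq_abs]
  calc _ ≤ (∑ p ∈ P, |z p| * ‖bt T u t (Real.log p)‖) ^ 2 := pow_le_pow_left₀ (norm_nonneg _) h2 2
    _ ≤ (P.card : ℝ) * ∑ p ∈ P, (|z p| * ‖bt T u t (Real.log p)‖) ^ 2 := sq_sum_le_card_mul_sum_sq
    _ = _ := by
        congr 1
        refine Finset.sum_congr rfl fun p _ => ?_
        rw [mul_pow, sq_abs]

lemma card_PP {B : ℕ} {ε L u X : ℝ} (hX : 1 ≤ X) (hu : u + ε * L ≤ Real.log X) :
    ((PP B ε L u).card : ℝ) ≤ X := by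
  refine card_le hX fun p hp => ?_
  obtain ⟨h1, _, h3⟩ := mem_PP hp
  refine ⟨h1.pos, ?_⟩
  have := (abs_le.1 h3).2
  linarith

lemma num_ms {δ s f X Tp I1 C2 C5 Cw L u T W E16 CR C3 : ℝ} (hδ : 0 < δ) (hs : 0 < s)
    (hδs : 10 * δ ≤ s) (hδ1 : 10 * δ ≤ 1) (hf : 0 < f) (hf1 : f ≤ 1) (hX : 0 < X) (hTp : 0 ≤ Tp)
    (hI1 : 0 ≤ I1) (hC2 : 0 < C2) (hC5 : 0 < C5) (hL : 0 < L) (hu : 0 ≤ u) (hT : 1 ≤ T)
    (hW0 : 0 ≤ W) (hW : W ≤ X) (hE : 0 ≤ E16) (hE1 : E16 ≤ Cw) (hCw : 0 < Cw) (hCR : 0 < CR)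
    (hC3 : 0 < C3) :
    (1 + δ) * ((1 + δ) * ((1 + δ) * (f * X)) * Tp * I1 + C2 * ((1 + δ) * (f * X)) * L * (C5 * (u + 1)) +
      C2 * W * T * E16) + (1 + 1 / δ) * (CR ^ 2 * W) * (T + C3) ≤
    (1 + s) * (f * X) * Tp * I1 +
      (4 * C2 * C5 + 2 * C2 * Cw + (1 + 1 / δ) * CR ^ 2 * (1 + C3)) * X * (T + L * (u + 1)) := by
  have hfX : f * X ≤ X := by nlinarith
  have hfX0 : 0 < f * X := by positivity
  have hd2 : δ ≤ 1 / 10 := by linarith
  -- main term
  have h1 : (1 + δ) * ((1 + δ) * ((1 + δ) * (f * X)) * Tp * I1) ≤ (1 + s) * (f * X) * Tp * I1 := by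
    have h2 : (1 + δ) * ((1 + δ) * (1 + δ)) ≤ 1 + s := by
      have e1 : δ * δ ≤ δ * (1 / 10) := mul_le_mul_of_nonneg_left hd2 hδ.le
      have e2 : δ * δ * δ ≤ δ * (1 / 10) * (1 / 10) := by
        refine mul_le_mul e1 hd2 hδ.le (by positivity)
      nlinarith
    have h3 : 0 ≤ f * X * Tp * I1 := by positivity
    calc _ = ((1 + δ) * ((1 + δ) * (1 + δ))) * (f * X * Tp * I1) := by ring
      _ ≤ (1 + s) * (f * X * Tp * I1) := mul_le_mul_of_nonneg_right h2 h3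
      _ = _ := by ring
  have h4 : (1 + δ) * (C2 * ((1 + δ) * (f * X)) * L * (C5 * (u + 1))) ≤
      (4 * C2 * C5) * X * (L * (u + 1)) := by
    have h5 : (1 + δ) * (1 + δ) ≤ 4 := by nlinarith
    have h6 : 0 ≤ C2 * L * (C5 * (u + 1)) := by positivity
    calc _ = ((1 + δ) * (1 + δ)) * (f * X) * (C2 * L * (C5 * (u + 1))) := by ring
      _ ≤ 4 * X * (C2 * L * (C5 * (u + 1))) := by
          refine mul_le_mul_of_nonneg_right ?_ h6
          exact mul_le_mul h5 hfX hfX0.le (by norm_num)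
      _ = _ := by ring
  have h7 : (1 + δ) * (C2 * W * T * E16) ≤ (2 * C2 * Cw) * X * T := by
    calc _ ≤ 2 * (C2 * X * T * Cw) := by
          refine mul_le_mul (by linarith) ?_ (by positivity) (by norm_num)
          gcongr
      _ = _ := by ring
  have h8 : (1 + 1 / δ) * (CR ^ 2 * W) * (T + C3) ≤ ((1 + 1 / δ) * CR ^ 2 * (1 + C3)) * X * T := by
    have h9 : T + C3 ≤ (1 + C3) * T := by nlinarith
    calc _ ≤ (1 + 1 / δ) * (CR ^ 2 * X) * ((1 + C3) * T) := by gcongr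
      _ = _ := by ring
  have a1 : 0 ≤ (4 * C2 * C5) * X * T := by positivity
  have a2 : 0 ≤ (2 * C2 * Cw) * X * (L * (u + 1)) := by positivity
  have a3 : 0 ≤ ((1 + 1 / δ) * CR ^ 2 * (1 + C3)) * X * (L * (u + 1)) := by positivity
  nlinarith

theorem ms_main (hstar : S_star) (hwin : S_win) (hrest : S_rest) (hchar : S_char) (hgs : S_gs) :
    S_ms := by
  intro Q hQ s ε B hs hε hε1 hB
  set δ : ℝ := min s 1 / 10 with hδ
  have hδ0 : 0 < δ := by rw [hδ]; positivity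
  have hδs : 10 * δ ≤ s := by
    have := min_le_left s 1
    rw [hδ]; linarith
  have hδ1 : 10 * δ ≤ 1 := by
    have := min_le_right s 1
    rw [hδ]; linarith
  set ε2 : ℝ := min (ε / 2) (1 / 20) with hε2
  have hε20 : 0 < ε2 := by rw [hε2]; positivity
  have hε2a : ε2 ≤ ε / 2 := min_le_left _ _
  have hε2b : ε2 ≤ 1 / 20 := min_le_right _ _
  set B' : ℕ := B + Q + 2 with hB'
  obtain ⟨X1, hX1, hst⟩ := hstar Q hQ δ (ε / 2) B hδ0 (by linarith) (by linarith)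
  obtain ⟨C2, κ0, hC2, hκ0, hw⟩ := hwin δ hδ0
  obtain ⟨CR, hCR, hr⟩ := hrest B' ε2 hε20
  obtain ⟨C3, hC3, hwt⟩ := wt_sq_int
  obtain ⟨C5, hC5, hcr⟩ := H385.lam_sq_crude
  refine ⟨4 * C2 * C5 + 2 * C2 * (4 * Real.exp 16) + (1 + 1 / δ) * CR ^ 2 * (1 + C3),
    max X1 (Real.exp κ0), by positivity, hX1.trans (le_max_left _ _), ?_⟩
  intro N χ hD X T u I hX hT1 hT2 hu0 hu hI
  have hXX1 : X1 ≤ X := (le_max_left _ _).trans hX
  have hX3 : 3 ≤ X := hX1.trans hXX1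
  have hX0 : 0 < X := by linarith
  set L := Real.log X with hL
  have hLκ : κ0 ≤ L := by
    rw [hL, Real.le_log_iff_exp_le hX0]
    exact (le_max_right _ _).trans hX
  have hL1 : 1 ≤ L := hκ0.trans hLκ
  have hL0 : 0 < L := by linarith
  have hT1' : 1 ≤ T := by nlinarith
  have hT0 : 0 ≤ T := by linarith
  have hXe : X = Real.exp L := (Real.exp_log hX0).symm
  have hTκ : T ≤ Real.exp (L ^ 2) := by
    refine hT2.trans ?_
    rw [hXe]
    apply Real.exp_le_exp.2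
    nlinarith
  set P := PP B' ε2 L u with hP
  have hPm : ∀ p ∈ P, p.Prime ∧ B' < p ∧ |Real.log p - u| ≤ ε2 * L := fun p hp => mem_PP hp
  have hPS : PSet Q P := by
    intro p hp
    obtain ⟨h1, h2, _⟩ := hPm p hp
    refine ⟨h1, by omega, fun hd => ?_⟩
    have hQ0 : 0 < Q := Nat.pos_of_ne_zero hQ.1.ne_zero
    have := Nat.le_of_dvd hQ0 hd
    omega
  have hreg : (∀ p ∈ P, Real.log p ≤ 45 / 100 * Real.log X) ∨
      (∀ p ∈ P, 3 / 10 * Real.log X ≤ Real.log p ∧ Real.log p ≤ (1 - ε / 2) * Real.log X) := by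
    rcases le_or_gt u (3 / 8 * L) with h | h
    · left
      intro p hp
      have h1 := (abs_le.1 (hPm p hp).2.2).2
      have h2 : ε2 * L ≤ 1 / 20 * L := mul_le_mul_of_nonneg_right hε2b hL0.le
      linarith
    · right
      intro p hp
      have h1 := abs_le.1 (hPm p hp).2.2
      have h2 : ε2 * L ≤ 1 / 20 * L := mul_le_mul_of_nonneg_right hε2b hL0.le
      have h3 : ε2 * L ≤ ε / 2 * L := mul_le_mul_of_nonneg_right hε2a hL0.le
      constructor
      · linarith [h1.1]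
      · have : (1 - ε) * L + ε / 2 * L = (1 - ε / 2) * L := by ring
        linarith [h1.2]
  have hm0 : ∀ m ∈ I, m ≠ 0 ∧ ¬ IsSquare m := fun m hm => main_nz (hI m hm).1
  have hW : ∑ m ∈ I, om X m ≤ X := om_total hgs hX0 I fun m hm => (hm0 m hm).1
  have hW0 : 0 ≤ ∑ m ∈ I, om X m := Finset.sum_nonneg fun m _ => (om_pos X m).le
  set W := ∑ m ∈ I, om X m with hWd
  -- the pointwise bound
  set M : ℤ → ℝ → ℂ := fun m t => ∑ p ∈ P, ((js m p * yy p : ℝ) : ℂ) * bt T u t (Real.log p) with hM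
  have hpt : ∀ t : ℝ, ∑ m ∈ I, om X m * ‖∑' n : ℕ, (χ m (n : ZMod (N m)) *
        (ArithmeticFunction.vonMangoldt n : ℂ)) * ((Real.sqrt n : ℂ)⁻¹ * bt T u t (Real.log n))‖ ^ 2 ≤
      (1 + δ) * ∑ m ∈ I, om X m * ‖M m t‖ ^ 2 + (1 + 1 / δ) * (CR ^ 2 * W) * wt T t ^ 2 := by
    intro t
    have hwn := wt_nonneg T t hT0
    have hk : ∀ m ∈ I, om X m * ‖∑' n : ℕ, (χ m (n : ZMod (N m)) *
        (ArithmeticFunction.vonMangoldt n : ℂ)) * ((Real.sqrt n : ℂ)⁻¹ * bt T u t (Real.log n))‖ ^ 2 ≤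
        om X m * ((1 + δ) * ‖M m t‖ ^ 2 + (1 + 1 / δ) * (CR * wt T t) ^ 2) := by
      intro m hm
      refine mul_le_mul_of_nonneg_left ?_ (om_pos X m).le
      have : NeZero (N m) := ⟨hD.ne m⟩
      have h1 := hr L u T t (fun n => χ m (n : ZMod (N m)) * (ArithmeticFunction.vonMangoldt n : ℂ))
        hL1 hu0 (by nlinarith) hT0 (fun n => by
          rw [norm_mul, Complex.norm_real, Real.norm_eq_abs,
            abs_of_nonneg ArithmeticFunction.vonMangoldt_nonneg]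
          exact mul_le_of_le_one_left ArithmeticFunction.vonMangoldt_nonneg
            (DirichletCharacter.norm_le_one _ _))
      have h2 : ∑ p ∈ PP B' ε2 L u, (χ m (p : ZMod (N m)) * (ArithmeticFunction.vonMangoldt p : ℂ)) *
          ((Real.sqrt p : ℂ)⁻¹ * bt T u t (Real.log p)) = M m t := by
        simp only [hM]
        refine Finset.sum_congr rfl fun p hp => ?_
        obtain ⟨q1, q2, _⟩ := hPm p hp
        rw [chi_val hchar hD (hI m hm).1 q1 (by omega) (by omega)]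
        unfold yy
        push_cast
        rw [div_eq_mul_inv]
        ring
      rw [h2] at h1
      have h3 := norm_le_norm_add_norm_sub' (∑' n : ℕ, (χ m (n : ZMod (N m)) *
        (ArithmeticFunction.vonMangoldt n : ℂ)) * ((Real.sqrt n : ℂ)⁻¹ * bt T u t (Real.log n))) (M m t)
      exact (pow_le_pow_left₀ (norm_nonneg _) (h3.trans (add_le_add le_rfl h1)) 2).trans
        (sq_add_le hδ0 _ _)
    refine (Finset.sum_le_sum hk).trans (le_of_eq ?_)
    rw [Finset.mul_sum, hWd, Finset.mul_sum, Finset.mul_sum, Finset.sum_mul, ← Finset.sum_add_distrib]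
    refine Finset.sum_congr rfl fun m _ => ?_
    ring
  -- integrability
  have hMi : ∀ m : ℤ, Integrable (fun t => ‖M m t‖ ^ 2) := by
    intro m
    exact main_sum_integrable P (fun p => js m p * yy p) hL1 hT1' hTκ
  have hi1 : Integrable (fun t => ∑ m ∈ I, om X m * ‖M m t‖ ^ 2) :=
    integrable_finsetSum _ fun m _ => (hMi m).const_mul _
  have hi2 : Integrable (fun t => wt T t ^ 2) := (hwt T hT0).1
  have hint : Integrable (fun t => (1 + δ) * ∑ m ∈ I, om X m * ‖M m t‖ ^ 2 +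
      (1 + 1 / δ) * (CR ^ 2 * W) * wt T t ^ 2) := (hi1.const_mul _).add (hi2.const_mul _)
  refine (integral_mono_of_nonneg (Eventually.of_forall fun t =>
    Finset.sum_nonneg fun m _ => mul_nonneg (om_pos X m).le (by positivity)) hint
    (Eventually.of_forall hpt)).trans ?_
  rw [integral_add (hi1.const_mul _) (hi2.const_mul _), integral_const_mul, integral_const_mul]
  -- the window lemma
  have hwin1 := hw I (om X) (fun m p => js m p) P yy ((1 + δ) * (fQ Q * X)) L T u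
    (fun m _ => (om_pos X m).le) (fun m p => js_abs_le m p) (fun p hp => (hPm p hp).1.pos) hLκ hT1
    (by have := fQ_pos Q; positivity)
    (fun x a => hst X P I x a hXX1 hPS hreg hI)
  have s1 : ∑ p ∈ P, yy p ^ 2 * Real.exp (-(u - Real.log p) ^ 2) ≤ Pool.Agent.N7.MainC.inner 1 u := by
    have h1 := (Pool.Agent.N7.MainC.inner_summable (c := 1) one_pos u).sum_le_tsum P
      (fun n _ => by positivity)
    unfold Pool.Agent.N7.MainC.inner
    rw [one_pow, one_mul]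
    refine le_trans (le_of_eq (Finset.sum_congr rfl fun p _ => ?_)) h1
    rw [yy_sq, one_mul]
  have s2 : ∑ p ∈ P, yy p ^ 2 * Real.exp (-(u - Real.log p) ^ 2 / 2) ≤ C5 * (u + 1) := by
    obtain ⟨h1, h2⟩ := hcr u hu0
    refine le_trans ?_ h2
    refine le_trans (le_of_eq (Finset.sum_congr rfl fun p _ => ?_)) (h1.sum_le_tsum P
      (fun n _ => by positivity))
    rw [yy_sq]
  have s3 : Real.exp (-L ^ 2 / 16) * (∑ p ∈ P, |yy p|) ^ 2 ≤ 4 * Real.exp 16 := by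
    have h1 : ∑ p ∈ P, |yy p| ≤ 2 * X := by
      have h2 : ∑ p ∈ P, |yy p| ≤ ∑ _p ∈ P, (2 : ℝ) := Finset.sum_le_sum fun p _ => yy_abs p
      rw [Finset.sum_const, nsmul_eq_mul] at h2
      have h3 : (P.card : ℝ) ≤ X := by
        refine card_PP (by linarith) ?_
        have : ε2 * L ≤ ε / 2 * L := mul_le_mul_of_nonneg_right hε2a hL0.le
        nlinarith
      linarith
    have h4 : (∑ p ∈ P, |yy p|) ^ 2 ≤ (2 * X) ^ 2 :=
      pow_le_pow_left₀ (Finset.sum_nonneg fun p _ => abs_nonneg _) h1 2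
    calc _ ≤ Real.exp (-L ^ 2 / 16) * (2 * X) ^ 2 := mul_le_mul_of_nonneg_left h4 (Real.exp_pos _).le
      _ = 4 * Real.exp (-L ^ 2 / 16 + (L + L)) := by
          rw [Real.exp_add, Real.exp_add, ← hXe]; ring
      _ ≤ _ := by
          refine mul_le_mul_of_nonneg_left (Real.exp_le_exp.2 ?_) (by norm_num)
          nlinarith [sq_nonneg (L - 16)]
  have hwtI := (hwt T hT0).2
  have hf := fQ_pos Q
  have hTp : 0 ≤ T / (2 * Real.pi) := by positivity
  have hI1n := Pool.Agent.N7.MainC.inner_nonneg 1 u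
  have hwin2 : ∫ t : ℝ, ∑ m ∈ I, om X m * ‖M m t‖ ^ 2 ≤
      (1 + δ) * ((1 + δ) * (fQ Q * X)) * (T / (2 * Real.pi)) * Pool.Agent.N7.MainC.inner 1 u +
      C2 * ((1 + δ) * (fQ Q * X)) * L * (C5 * (u + 1)) + C2 * W * T * (4 * Real.exp 16) := by
    refine hwin1.trans ?_
    have b1 := mul_le_mul_of_nonneg_left s1 (show 0 ≤ (1 + δ) * ((1 + δ) * (fQ Q * X)) *
      (T / (2 * Real.pi)) by positivity)
    have b2 := mul_le_mul_of_nonneg_left s2 (show 0 ≤ C2 * ((1 + δ) * (fQ Q * X)) * L by positivity)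
    have b3 := mul_le_mul_of_nonneg_left s3 (show 0 ≤ C2 * W * T by positivity)
    rw [← hWd]
    have b4 : C2 * W * T * Real.exp (-L ^ 2 / 16) * (∑ p ∈ P, |yy p|) ^ 2 =
      C2 * W * T * (Real.exp (-L ^ 2 / 16) * (∑ p ∈ P, |yy p|) ^ 2) := by ring
    rw [b4]
    linarith
  have hfin := num_ms (δ := δ) (s := s) (f := fQ Q) (X := X) (Tp := T / (2 * Real.pi))
    (I1 := Pool.Agent.N7.MainC.inner 1 u) (C2 := C2) (C5 := C5) (Cw := 4 * Real.exp 16) (L := L)
    (u := u) (T := T) (W := W) (E16 := 4 * Real.exp 16) (CR := CR) (C3 := C3)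
    hδ0 hs hδs hδ1 hf (fQ_le Q) hX0 hTp hI1n hC2 hC5 hL0 hu0 hT1' hW0 hW (by positivity) le_rfl
    (by positivity) hCR hC3
  refine le_trans ?_ hfin
  refine add_le_add (mul_le_mul_of_nonneg_left hwin2 (by linarith)) ?_
  exact mul_le_mul_of_nonneg_left hwtI (by positivity)

end Pool.Agent.N880.QF
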