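import Pool.Agent.H385R2.Defs
import Pool.Agent.H306R2.RZ.Defs
import Pool.Agent.TH560.QT.Att
import Pool.Agent.N7.MainC

/-!
Project QF (helper880): zeros of the L-functions of all quadratic fields.
Definitions and statements of the leaves.
-/

set_option autoImplicit false

open Complex Filter Topology MeasureTheory Set
open H385 (bt wt Rw LF)
open H370 (NN Nd Ns)
open Pool.Agent.H306R2.RZ (js)
open Pool.Agent.TH560.QT (Attached)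

namespace Pool.Agent.N880.QF

/-! ### definitions -/

/-- Gaussian probability density of variance `2/τ²` -/
noncomputable def gd (τ r : ℝ) : ℝ :=
  τ / (2 * Real.sqrt Real.pi) * Real.exp (-(τ ^ 2 * r ^ 2 / 4))

/-- the Gaussian `exp(-π (x e^{-r})²)` -/
noncomputable def he (x r : ℝ) : ℝ := Real.exp (-(Real.pi * (x * Real.exp (-r)) ^ 2))

/-- log-smoothed Gaussian weight -/
noncomputable def Wt (τ x : ℝ) : ℝ := ∫ r : ℝ, gd τ r * (Real.exp (-(r / 2)) * he x r)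

/-- quadratic form with the kernel `cos(a(log p - log p')) exp(-τ²(log p - log p')²/4)` -/
noncomputable def GG (P : Finset ℕ) (y : ℕ → ℝ) (a τ : ℝ) (z : ℕ → ℝ) : ℝ :=
  ∑ p ∈ P, ∑ p' ∈ P, y p * y p' * (z p * z p') *
    (Real.cos (a * (Real.log p - Real.log p')) *
      Real.exp (-(τ ^ 2 * (Real.log p - Real.log p') ^ 2 / 4)))

/-- defect of the right Riemann sum of `exp(-π (x² z)²)` -/
noncomputable def phi (z : ℝ) : ℝ :=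
  (∫ x in Ioi (0 : ℝ), Real.exp (-(Real.pi * (x ^ 2 * z) ^ 2))) -
    ∑' j : ℕ, Real.exp (-(Real.pi * (((j : ℝ) + 1) ^ 2 * z) ^ 2))

/-- `∑_{d | Q} μ(d) {d y} / d²` -/
noncomputable def DD (Q : ℕ) (y : ℝ) : ℝ :=
  ∑ d ∈ Q.divisors, ((ArithmeticFunction.moebius d : ℤ) : ℝ) / (d : ℝ) ^ 2 * Int.fract (d * y)

/-- sieving moduli for which the method works -/
def GoodQ (Q : ℕ) : Prop := Squarefree Q ∧ ∃ c : ℝ, 0 < c ∧ ∀ y : ℝ, c * Int.fract y ≤ DD Q y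

/-- `m` is not divisible by `p²` for the primes `p | Q` -/
def Free (Q : ℕ) (m : ℤ) : Prop := ∀ p : ℕ, p.Prime → p ∣ Q → ¬ ((p : ℤ) ^ 2 ∣ m)

/-- density of the integers which are `Free Q` -/
noncomputable def fQ (Q : ℕ) : ℝ := ∏ p ∈ Q.primeFactors, (1 - 1 / (p : ℝ) ^ 2)

/-- Gaussian weight -/
noncomputable def om (X : ℝ) (m : ℤ) : ℝ := Real.exp (-(Real.pi * ((m : ℝ) / X) ^ 2))

/-- main part of the family: bounded square part, `|m| ≤ X √(log X)` -/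
def Main (B : ℕ) (X : ℝ) (m : ℤ) : Prop :=
  |(m : ℝ)| ≤ X * Real.sqrt (Real.log X) ∧
    ∃ (k : ℤ) (b : ℕ), Squarefree k ∧ k ≠ 1 ∧ 1 ≤ b ∧ b ≤ B ∧ m = k * (b : ℤ) ^ 2

/-- main part of the family, large conductors -/
def MainL (B : ℕ) (η X : ℝ) (m : ℤ) : Prop :=
  |(m : ℝ)| ≤ X * Real.sqrt (Real.log X) ∧
    ∃ (k : ℤ) (b : ℕ), Squarefree k ∧ k ≠ 1 ∧ 1 ≤ b ∧ b ≤ B ∧ m = k * (b : ℤ) ^ 2 ∧
      X ^ (1 - η) ≤ |(k : ℝ)|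

/-- the main primes: `B < p`, `|log p - u| ≤ ε L` -/
noncomputable def PP (B : ℕ) (ε L u : ℝ) : Finset ℕ :=
  (Finset.range (⌊Real.exp (u + ε * L)⌋₊ + 1)).filter
    (fun p => p.Prime ∧ B < p ∧ |Real.log p - u| ≤ ε * L)

/-- the primitive characters of the fields `ℚ(√m)` -/
structure QData (N : ℤ → ℕ) (χ : (m : ℤ) → DirichletCharacter ℂ (N m)) : Prop where
  ne : ∀ m, N m ≠ 0
  prim : ∀ m, m ≠ 0 → ¬ IsSquare m → (χ m).IsPrimitive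
  att : ∀ m, m ≠ 0 → ¬ IsSquare m → Attached m (χ m)

/-! ### leaves -/

/-- L1: right Riemann sums of `exp(-π (x² z)²)` -/
def S_phi : Prop := ∃ c0 : ℝ, 0 < c0 ∧ ∀ z : ℝ, 0 < z →
  Summable (fun j : ℕ => Real.exp (-(Real.pi * (((j : ℝ) + 1) ^ 2 * z) ^ 2))) ∧
  IntegrableOn (fun x : ℝ => Real.exp (-(Real.pi * (x ^ 2 * z) ^ 2))) (Ioi 0) ∧
  c0 * min 1 (1 / Real.sqrt z) ≤ phi z

/-- L1b: `φ` as an integral of the fractional part, and the sieved version -/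
def S_phiQ : Prop := ∀ Q : ℕ, GoodQ Q → ∃ c : ℝ, 0 < c ∧ ∀ z : ℝ, 0 < z →
  c * phi z ≤ ∑ d ∈ Q.divisors, ((ArithmeticFunction.moebius d : ℤ) : ℝ) / (d : ℝ) ^ 2 *
    phi (z / (d : ℝ) ^ 2)

/-- L1c: the moduli 1 and 210 -/
def S_good : Prop := GoodQ 1 ∧ GoodQ 210

/-- L2: from Gaussian windows to the mean square of the smoothed sums -/
def S_win : Prop := ∀ δ : ℝ, 0 < δ → ∃ C κ0 : ℝ, 0 < C ∧ 1 ≤ κ0 ∧
  ∀ (I : Finset ℤ) (ω : ℤ → ℝ) (z : ℤ → ℕ → ℝ) (P : Finset ℕ) (y : ℕ → ℝ) (A κ T u : ℝ),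
    (∀ i ∈ I, 0 ≤ ω i) → (∀ i p, |z i p| ≤ 1) → (∀ p ∈ P, 1 ≤ p) → κ0 ≤ κ → κ ^ 2 ≤ T → 0 ≤ A →
    (∀ (x : ℕ → ℝ) (a : ℝ), ∑ i ∈ I, ω i * GG P x a κ (z i) ≤ A * ∑ p ∈ P, x p ^ 2) →
    ∫ t : ℝ, ∑ i ∈ I, ω i *
        ‖∑ p ∈ P, ((z i p * y p : ℝ) : ℂ) * bt T u t (Real.log p)‖ ^ 2 ≤
      (1 + δ) * A * (T / (2 * Real.pi)) *
          ∑ p ∈ P, y p ^ 2 * Real.exp (-(u - Real.log p) ^ 2) +
        C * A * κ * ∑ p ∈ P, y p ^ 2 * Real.exp (-(u - Real.log p) ^ 2 / 2) +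
        C * (∑ i ∈ I, ω i) * T * Real.exp (-κ ^ 2 / 16) * (∑ p ∈ P, |y p|) ^ 2

/-- L3: the other prime powers -/
def S_rest : Prop := ∀ (B : ℕ) (ε : ℝ), 0 < ε → ∃ C : ℝ, 0 < C ∧ ∀ (L u T t : ℝ) (a : ℕ → ℂ),
  1 ≤ L → 0 ≤ u → u ≤ L → 0 ≤ T → (∀ n, ‖a n‖ ≤ ArithmeticFunction.vonMangoldt n) →
  ‖(∑' n : ℕ, a n * ((Real.sqrt n : ℂ)⁻¹ * bt T u t (Real.log n))) -
      ∑ p ∈ PP B ε L u, a p * ((Real.sqrt p : ℂ)⁻¹ * bt T u t (Real.log p))‖ ≤ C * wt T t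

/-- L4: the primitive character attached to a squarefree number -/
def S_char : Prop := ∀ k : ℤ, Squarefree k → k ≠ 1 →
  (∃ (N : ℕ) (_ : NeZero N) (χ : DirichletCharacter ℂ N), χ.IsPrimitive ∧ Attached k χ) ∧
  ∀ (N : ℕ) (_ : NeZero N) (χ : DirichletCharacter ℂ N), χ.IsPrimitive → Attached k χ →
    (∀ p : ℕ, p.Prime → p ≠ 2 → χ (p : ZMod N) = ((jacobiSym k p : ℤ) : ℂ)) ∧
    k.natAbs ≤ N ∧ N ≤ 4 * k.natAbs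

/-- L5: moments of the Gaussian density -/
def S_gd : Prop := ∀ (τ c : ℝ), 0 < τ →
  Integrable (fun r => gd τ r * Real.exp (c * r)) ∧
  ∫ r : ℝ, gd τ r * Real.exp (c * r) = Real.exp (c ^ 2 / τ ^ 2)

/-- L6: the weight is at least a slightly narrower Gaussian -/
def S_Wt_lower : Prop := ∀ (τ x : ℝ), 0 < τ →
  Real.exp (-(Real.pi * x ^ 2 * Real.exp (4 / τ ^ 2))) ≤ Wt τ x

/-- L7: exchange of the sum over `m` and the integral over `r` -/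
def S_exch : Prop := ∀ (τ X : ℝ) (f : ℤ → ℝ), 0 < τ → 0 < X → (∀ m, |f m| ≤ 1) →
  Summable (fun m : ℤ => Wt τ (m / X) * f m) ∧
  Integrable (fun r : ℝ => gd τ r * (Real.exp (-(r / 2)) * ∑' m : ℤ, he (m / X) r * f m)) ∧
  ∑' m : ℤ, Wt τ (m / X) * f m =
    ∫ r : ℝ, gd τ r * (Real.exp (-(r / 2)) * ∑' m : ℤ, he (m / X) r * f m)

/-- L8: Poisson summation for the product of two odd primes -/
def S_pois : Prop := ∀ (p p' : ℕ) (X r : ℝ), p.Prime → p'.Prime → p ≠ 2 → p' ≠ 2 → p ≠ p' → 0 < X →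
  ∑' m : ℤ, he (m / X) r * js m (p * p') =
    X * Real.exp r / Real.sqrt (p * p' : ℝ) *
      ∑' k : ℤ, Real.exp (-(Real.pi * (k * (X * Real.exp r) / (p * p' : ℝ)) ^ 2)) * js k (p * p')

/-- the mean square over the family (helper880) -/
def S_ms : Prop := ∀ Q : ℕ, GoodQ Q → ∀ (s ε : ℝ) (B : ℕ), 0 < s → 0 < ε → ε < 1 / 2 → 1 ≤ B →
  ∃ C X0 : ℝ, 0 < C ∧ 3 ≤ X0 ∧
  ∀ (N : ℤ → ℕ) (χ : (m : ℤ) → DirichletCharacter ℂ (N m)), QData N χ →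
  ∀ (X T u : ℝ) (I : Finset ℤ), X0 ≤ X → (Real.log X) ^ 2 ≤ T → T ≤ X → 0 ≤ u →
    u ≤ (1 - ε) * Real.log X → (∀ m ∈ I, Main B X m ∧ Free Q m) →
    ∫ t : ℝ, ∑ m ∈ I, om X m * ‖∑' n : ℕ, (χ m (n : ZMod (N m)) *
        (ArithmeticFunction.vonMangoldt n : ℂ)) * ((Real.sqrt n : ℂ)⁻¹ * bt T u t (Real.log n))‖ ^ 2 ≤
      (1 + s) * (fQ Q * X) * (T / (2 * Real.pi)) * Pool.Agent.N7.MainC.inner 1 u +
        C * X * (T + Real.log X * (u + 1))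

/-- L9: the main inequality for a part of the family -/
def S_core : Prop := ∀ Q : ℕ, GoodQ Q → ∀ (w κ0 : ℝ), 0 < w →
  Rw 1.414 0 + 2 * (fQ Q / w) * (∫ α in (0 : ℝ)..1, α * Rw 1.414 α) < κ0 →
  ∃ e η : ℝ, 0 < e ∧ 0 < η ∧ η < 1 / 10 ∧ ∀ B : ℕ, 1 ≤ B → ∃ X0 : ℝ, 3 ≤ X0 ∧
  ∀ (N : ℤ → ℕ) (χ : (m : ℤ) → DirichletCharacter ℂ (N m)), QData N χ →
  ∀ (X T : ℝ) (I : Finset ℤ), X0 ≤ X → (Real.log X) ^ 2 ≤ T → T ≤ X ^ η →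
    (∀ m ∈ I, MainL B η X m ∧ Free Q m) → w * X ≤ ∑ m ∈ I, om X m →
    ∑ m ∈ I, om X m * (2 * (NN (LF (N m) (χ m)) T (2 * T) : ℝ) -
        (Ns (LF (N m) (χ m)) T (2 * T) : ℝ)) + e * (X * T * Real.log X) ≤
      κ0 * ∑ m ∈ I, om X m * (NN (LF (N m) (χ m)) T (2 * T) : ℝ) ∧
    ∑ m ∈ I, om X m * (3 * (NN (LF (N m) (χ m)) T (2 * T) : ℝ) -
        2 * (Nd (LF (N m) (χ m)) T (2 * T) : ℝ)) + e * (X * T * Real.log X) ≤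
      κ0 * ∑ m ∈ I, om X m * (NN (LF (N m) (χ m)) T (2 * T) : ℝ)

/-- L10a: weight of the non-squares outside the main part -/
def S_wtA : Prop := ∃ C : ℝ, 0 < C ∧ ∀ (B : ℕ) (η : ℝ), 1 ≤ B → 0 < η → η < 1 → ∃ X0 : ℝ, 3 ≤ X0 ∧
  ∀ (X : ℝ) (J : Finset ℤ), X0 ≤ X → (∀ m ∈ J, m ≠ 0 ∧ ¬ MainL B η X m) →
    ∑ m ∈ J, om X m * (1 + Real.log (2 + |(m : ℝ)|)) ≤ C / B * X * Real.log X

/-- L10b: weight of the main part -/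
def S_wtB : Prop := ∀ e : ℝ, 0 < e → ∃ B0 : ℕ, ∀ (B : ℕ) (η : ℝ), B0 ≤ B → 0 < η → η < 1 →
  ∃ X0 : ℝ, 3 ≤ X0 ∧ ∀ (X : ℝ) (Y : ℕ), X0 ≤ X → X * Real.log X ≤ Y →
  ∀ I : Finset ℤ, (∀ m : ℤ, m ∈ I ↔ (|m| ≤ Y ∧ MainL B η X m)) → (1 - e) * X ≤ ∑ m ∈ I, om X m

/-- L10c: weights of the squarefree numbers -/
def S_wtC : Prop := ∀ (e η : ℝ), 0 < e → 0 < η → η < 1 →
  ∃ X0 : ℝ, 3 ≤ X0 ∧ ∀ (X : ℝ) (Y : ℕ), X0 ≤ X → X * Real.log X ≤ Y →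
  (∀ I : Finset ℤ, (∀ m : ℤ, m ∈ I ↔ (|m| ≤ Y ∧ Squarefree m ∧ MainL 1 η X m)) →
    (6 / Real.pi ^ 2 - e) * X ≤ ∑ m ∈ I, om X m) ∧
  (∀ J : Finset ℤ, (∀ m ∈ J, Squarefree m ∧ ¬ MainL 1 η X m) →
    ∑ m ∈ J, om X m * (1 + Real.log (2 + |(m : ℝ)|)) ≤ e * X * Real.log X)

/-- final statement: all non-squares, at least `67.25 %` -/
def S_finA : Prop := ∃ η X0 : ℝ, 0 < η ∧ 3 ≤ X0 ∧
  ∀ (N : ℤ → ℕ) (χ : (m : ℤ) → DirichletCharacter ℂ (N m)), QData N χ →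
  ∀ (X T : ℝ) (Y : ℕ), X0 ≤ X → (Real.log X) ^ 2 ≤ T → T ≤ X ^ η → X * Real.log X ≤ Y →
  ∀ S : Finset ℤ, (∀ m : ℤ, m ∈ S ↔ (|m| ≤ Y ∧ m ≠ 0 ∧ ¬ IsSquare m)) →
    ∑ m ∈ S, om X m * (2 * (NN (LF (N m) (χ m)) T (2 * T) : ℝ) -
        (Ns (LF (N m) (χ m)) T (2 * T) : ℝ)) ≤
      1.3275 * ∑ m ∈ S, om X m * (NN (LF (N m) (χ m)) T (2 * T) : ℝ) ∧
    ∑ m ∈ S, om X m * (3 * (NN (LF (N m) (χ m)) T (2 * T) : ℝ) -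
        2 * (Nd (LF (N m) (χ m)) T (2 * T) : ℝ)) ≤
      1.3275 * ∑ m ∈ S, om X m * (NN (LF (N m) (χ m)) T (2 * T) : ℝ) ∧
    X * T * Real.log X / 7 ≤ ∑ m ∈ S, om X m * (NN (LF (N m) (χ m)) T (2 * T) : ℝ)

/-- final statement: squarefree numbers (every quadratic field once), at least `66.2 %` -/
def S_finB : Prop := ∃ η X0 : ℝ, 0 < η ∧ 3 ≤ X0 ∧
  ∀ (N : ℤ → ℕ) (χ : (m : ℤ) → DirichletCharacter ℂ (N m)), QData N χ →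
  ∀ (X T : ℝ) (Y : ℕ), X0 ≤ X → (Real.log X) ^ 2 ≤ T → T ≤ X ^ η → X * Real.log X ≤ Y →
  ∀ S : Finset ℤ, (∀ m : ℤ, m ∈ S ↔ (|m| ≤ Y ∧ Squarefree m ∧ m ≠ 1)) →
    ∑ m ∈ S, om X m * (2 * (NN (LF (N m) (χ m)) T (2 * T) : ℝ) -
        (Ns (LF (N m) (χ m)) T (2 * T) : ℝ)) ≤
      1.338 * ∑ m ∈ S, om X m * (NN (LF (N m) (χ m)) T (2 * T) : ℝ) ∧
    ∑ m ∈ S, om X m * (3 * (NN (LF (N m) (χ m)) T (2 * T) : ℝ) -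
        2 * (Nd (LF (N m) (χ m)) T (2 * T) : ℝ)) ≤
      1.338 * ∑ m ∈ S, om X m * (NN (LF (N m) (χ m)) T (2 * T) : ℝ) ∧
    X * T * Real.log X / 11 ≤ ∑ m ∈ S, om X m * (NN (LF (N m) (χ m)) T (2 * T) : ℝ)

end Pool.Agent.N880.QF
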