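import Pool.Agent.N880.QF.Stm
import Pool.Agent.H385R2.FinA0
import Pool.Agent.H385R2.FamAbs
import Pool.Agent.H385R2.NLow

/-!
Project QF: arithmetic of the members of the family and lower bound for the number of zeros.
-/

set_option autoImplicit false

open Complex Filter Topology MeasureTheory Set
open H385 (bt wt Rw LF)
open H370 (NN Nd Ns)
open Pool.Agent.TH560.QT (Attached)

namespace Pool.Agent.N880.QF

theorem LF_eq' (q : ℕ) [NeZero q] (χ : DirichletCharacter ℂ q) :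
    LF q χ = DirichletCharacter.LFunction χ := by
  unfold LF
  rw [dif_neg (NeZero.ne q)]

lemma main_ne {k : ℤ} {b : ℕ} (hk : Squarefree k) (hb : 1 ≤ b) : k * (b : ℤ) ^ 2 ≠ 0 := by
  have h1 : (b : ℤ) ≠ 0 := by exact_mod_cast (by omega : b ≠ 0)
  exact mul_ne_zero hk.ne_zero (pow_ne_zero 2 h1)

lemma main_nsq {k : ℤ} {b : ℕ} (hk : Squarefree k) (hk1 : k ≠ 1) (hb : 1 ≤ b) :
    ¬ IsSquare (k * (b : ℤ) ^ 2) := by
  rintro ⟨r, hr⟩
  have h1 : (b : ℤ) ≠ 0 := by exact_mod_cast (by omega : b ≠ 0)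
  have h2 : (b : ℤ) ^ 2 ∣ r ^ 2 := ⟨k, by rw [sq r, ← hr]; ring⟩
  have h3 : (b : ℤ) ∣ r := (Int.pow_dvd_pow_iff two_ne_zero).1 h2
  obtain ⟨t, rfl⟩ := h3
  have h4 : k = t * t := by
    have h5 : (b : ℤ) ^ 2 * k = (b : ℤ) ^ 2 * (t * t) := by rw [mul_comm, hr]; ring
    exact mul_left_cancel₀ (pow_ne_zero 2 h1) h5
  have h6 : IsUnit t := hk t ⟨1, by rw [h4]; ring⟩
  rcases Int.isUnit_iff.1 h6 with h | h
  · rw [h] at h4; exact hk1 (by rw [h4]; norm_num)
  · rw [h] at h4; exact hk1 (by rw [h4]; norm_num)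

lemma att_of {k : ℤ} {b : ℕ} (hb : 1 ≤ b) {N : ℕ} {χ : DirichletCharacter ℂ N}
    (h : Attached (k * (b : ℤ) ^ 2) χ) : Attached k χ := by
  obtain ⟨B, hB⟩ := h
  refine ⟨max B (b + 1), fun p hp hBp => ?_⟩
  rw [hB p hp ((le_max_left _ _).trans hBp), jacobiSym.mul_left, sq, jacobiSym.mul_left]
  have hbp : b < p := lt_of_lt_of_le (Nat.lt_succ_self b) ((le_max_right _ _).trans hBp)
  have hcop : IsCoprime (b : ℤ) (p : ℤ) := by
    rw [Nat.isCoprime_iff_coprime]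
    exact (Nat.coprime_of_lt_prime (by omega) hbp hp).symm
  have h1 : jacobiSym (b : ℤ) p * jacobiSym (b : ℤ) p = 1 := by
    rw [← jacobiSym.mul_left, ← sq]
    exact jacobiSym.sq_one' (Int.isCoprime_iff_gcd_eq_one.1 hcop)
  rw [h1, mul_one]

/-- bounds for `log (N m T)` -/
theorem per_m (hchar : S_char) {A : ℝ} (hgood : ∀ (q : ℕ) [NeZero q] (χ : DirichletCharacter ℂ q),
      χ.IsPrimitive → H385.GoodU A q (DirichletCharacter.LFunction χ)
      (fun n => χ (n : ZMod q) * (ArithmeticFunction.vonMangoldt n : ℂ)))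
    (B : ℕ) (η : ℝ) (hη : 0 < η) (hη1 : η < 1 / 10)
    (N : ℤ → ℕ) (χ : (m : ℤ) → DirichletCharacter ℂ (N m)) (hq : QData N χ)
    (X T : ℝ) (m : ℤ) (hX : Real.exp (4 / η ^ 2 + 4 / η + 1) ≤ X) (hT1 : 1 ≤ T)
    (hT : T ≤ X ^ η) (hm : MainL B η X m) :
    1 ≤ (N m : ℝ) ∧
    H385.GoodU A (N m) (LF (N m) (χ m))
      (fun n => χ m (n : ZMod (N m)) * (ArithmeticFunction.vonMangoldt n : ℂ)) ∧
    Real.log (N m * T) ≤ (1 + 2 * η) * Real.log X ∧
    (1 - η) * Real.log X ≤ Real.log (N m * T) := by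
  obtain ⟨hmX, k, b, hk, hk1, hb, hbB, rfl, hkX⟩ := hm
  have hX0 : 0 < X := lt_of_lt_of_le (Real.exp_pos _) hX
  have hL0 : 4 / η ^ 2 + 4 / η + 1 ≤ Real.log X := by
    rwa [Real.le_log_iff_exp_le hX0]
  have hT0 : 0 < T := by linarith
  set m : ℤ := k * (b : ℤ) ^ 2 with hmdef
  have hm0 : m ≠ 0 := main_ne hk hb
  have hmsq : ¬ IsSquare m := main_nsq hk hk1 hb
  have : NeZero (N m) := ⟨hq.ne m⟩
  have hprim := hq.prim m hm0 hmsq
  have hatt : Attached k (χ m) := att_of hb (hq.att m hm0 hmsq)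
  obtain ⟨-, h2⟩ := hchar k hk hk1
  obtain ⟨-, hkN, hNk⟩ := h2 (N m) inferInstance (χ m) hprim hatt
  have hkabs : ((k.natAbs : ℕ) : ℝ) = |(k : ℝ)| := by
    rw [Nat.cast_natAbs, Int.cast_abs]
  have hkN' : |(k : ℝ)| ≤ N m := by rw [← hkabs]; exact_mod_cast hkN
  have hNk' : (N m : ℝ) ≤ 4 * |(k : ℝ)| := by rw [← hkabs]; exact_mod_cast hNk
  have hN1 : 1 ≤ (N m : ℝ) := by exact_mod_cast NeZero.one_le
  have hN0 : 0 < (N m : ℝ) := by linarith
  have hb1 : (1 : ℝ) ≤ (b : ℝ) := by exact_mod_cast hb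
  have hkm : |(k : ℝ)| ≤ |(m : ℝ)| := by
    rw [hmdef]; push_cast
    rw [abs_mul, abs_of_nonneg (sq_nonneg (b : ℝ))]
    have h1 : (1 : ℝ) ≤ (b : ℝ) ^ 2 := one_le_pow₀ hb1
    have h3 := abs_nonneg (k : ℝ)
    nlinarith
  have hη2 : 0 < 4 / η ^ 2 := by positivity
  have hη3 : 0 < 4 / η := by positivity
  obtain ⟨L, hL⟩ : ∃ L, L = Real.log X := ⟨_, rfl⟩
  rw [← hL] at hL0 hmX ⊢
  have hL1 : 1 ≤ L := by linarith
  have hlogT : Real.log T ≤ η * L := by
    have := Real.log_le_log hT0 hT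
    rwa [Real.log_rpow hX0, ← hL] at this
  have hlogT0 : 0 ≤ Real.log T := Real.log_nonneg hT1
  have hsqL : 0 < Real.sqrt L := Real.sqrt_pos.2 (by linarith)
  refine ⟨hN1, ?_, ?_, ?_⟩
  · rw [LF_eq']
    exact hgood (N m) (χ m) hprim
  · have h1 : (N m : ℝ) ≤ 4 * (X * Real.sqrt L) := by linarith
    have h3 : Real.log (N m) ≤ Real.log 4 + (L + Real.log (Real.sqrt L)) := by
      have := Real.log_le_log hN0 h1
      rwa [Real.log_mul (by norm_num) (by positivity), Real.log_mul hX0.ne' hsqL.ne', ← hL] at this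
    have h4 : Real.log 4 ≤ 2 := by
      have : Real.log 4 = 2 * Real.log 2 := by
        rw [show (4 : ℝ) = 2 ^ 2 by norm_num, Real.log_pow]; norm_num
      rw [this]
      linarith [Real.log_two_lt_d9]
    have h5 : Real.log (Real.sqrt L) ≤ Real.sqrt L := by
      have := Real.log_le_sub_one_of_pos hsqL
      linarith
    have h6 : Real.sqrt L ≤ η * L / 2 := by
      have h7 : 2 / η ≤ Real.sqrt L := by
        apply Real.le_sqrt_of_sq_le
        have : (2 / η) ^ 2 = 4 / η ^ 2 := by rw [div_pow]; norm_num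
        linarith
      have h8 : Real.sqrt L * Real.sqrt L = L := Real.mul_self_sqrt (by linarith)
      rw [div_le_iff₀ hη] at h7
      nlinarith
    have h9 : 2 ≤ η * L / 2 := by
      have : 4 / η ≤ L := by linarith
      rw [div_le_iff₀ hη] at this
      linarith
    rw [Real.log_mul hN0.ne' hT0.ne']
    linarith
  · have h1 : X ^ (1 - η) ≤ N m * T := by
      calc X ^ (1 - η) ≤ |(k : ℝ)| := hkX
        _ ≤ N m := hkN'
        _ = N m * 1 := (mul_one _).symm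
        _ ≤ N m * T := mul_le_mul_of_nonneg_left hT1 hN0.le
    have h2 := Real.log_le_log (Real.rpow_pos_of_pos hX0 _) h1
    rwa [Real.log_rpow hX0, ← hL] at h2

/-- lower bound for the number of zeros of a member of the family -/
theorem per_low (hchar : S_char) : ∃ C : ℝ, 0 < C ∧ ∀ (B : ℕ) (η : ℝ), 0 < η → η < 1 / 10 →
    ∀ (N : ℤ → ℕ) (χ : (m : ℤ) → DirichletCharacter ℂ (N m)), QData N χ →
    ∀ (X T : ℝ) (m : ℤ), Real.exp (4 / η ^ 2 + 4 / η + 12) ≤ X → (Real.log X) ^ 2 ≤ T →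
      T ≤ X ^ η → MainL B η X m →
      (1 - η) * (T / (2 * Real.pi) * Real.log X) - C * T ≤ (NN (LF (N m) (χ m)) T (2 * T) : ℝ) := by
  obtain ⟨A, hA, hgood⟩ := H385.good_dirichlet_U
  obtain ⟨C2, hC2, hlow⟩ := H385.N_lower A hA
  refine ⟨5 * C2, by positivity, ?_⟩
  intro B η hη hη1 N χ hq X T m hX hT1 hT2 hm
  have hX' : Real.exp (4 / η ^ 2 + 4 / η + 1) ≤ X :=
    (Real.exp_le_exp.2 (by linarith)).trans hX
  have hX0 : 0 < X := lt_of_lt_of_le (Real.exp_pos _) hX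
  have hη2 : 0 < 4 / η ^ 2 := by positivity
  have hη3 : 0 < 4 / η := by positivity
  have hL12 : 12 ≤ Real.log X := by
    have : 4 / η ^ 2 + 4 / η + 12 ≤ Real.log X := by rwa [Real.le_log_iff_exp_le hX0]
    linarith
  have hTT : 1 ≤ T := by nlinarith
  have hT0 : 0 < T := by linarith
  obtain ⟨g1, g2, g3, g4⟩ := per_m hchar hgood B η hη hη1 N χ hq X T m hX' hTT hT2 hm
  set L : ℝ := Real.log X with hL
  have hT2' : T ≤ Real.exp (η * L) := by
    rw [mul_comm, ← Real.rpow_def_of_pos hX0]; exact hT2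
  obtain ⟨p1, p2, p3, p4, p5, p6⟩ := H385.param_ok 1 L T η one_pos (by linarith)
    (by linarith) (by linarith) hT1 hT2'
  have hl := hlow (N m) (LF (N m) (χ m)) _ g1 g2 T L p1 p2
  refine le_trans ?_ hl
  have hpi := Real.pi_pos
  have hlog2 : Real.log (N m * T) ≤ 3 * L := by
    refine g3.trans ?_
    nlinarith
  have hlog0 : 0 ≤ Real.log (N m * T) := by
    refine le_trans ?_ g4
    exact mul_nonneg (by linarith) (by linarith)
  have a1 : T / (2 * Real.pi) * ((1 - η) * L) ≤ T / (2 * Real.pi) * Real.log (N m * T) :=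
    mul_le_mul_of_nonneg_left g4 (by positivity)
  have a2 : L * Real.log (N m * T) ≤ 3 * T := by
    have : L * Real.log (N m * T) ≤ L * (3 * L) := mul_le_mul_of_nonneg_left hlog2 (by linarith)
    linarith [show L * (3 * L) = 3 * L ^ 2 by ring]
  have a3 : T * Real.log (N m * T) ^ 2 * Real.exp (-L ^ 2 / 2) ≤ T := by
    have b1 : Real.log (N m * T) ^ 2 ≤ (3 * L) ^ 2 := pow_le_pow_left₀ hlog0 hlog2 2
    have b2 : Real.log (N m * T) ^ 2 * Real.exp (-L ^ 2 / 2) ≤ 1 := by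
      refine le_trans (mul_le_mul_of_nonneg_right b1 (Real.exp_pos _).le) ?_
      rw [show (3 * L) ^ 2 = 9 * L ^ 2 by ring]; exact p6
    calc _ = T * (Real.log (N m * T) ^ 2 * Real.exp (-L ^ 2 / 2)) := by ring
      _ ≤ T * 1 := mul_le_mul_of_nonneg_left b2 hT0.le
      _ = T := mul_one T
  have a4 : C2 * (T + L * Real.log (N m * T) +
      T * Real.log (N m * T) ^ 2 * Real.exp (-L ^ 2 / 2)) ≤ C2 * (5 * T) :=
    mul_le_mul_of_nonneg_left (by linarith) hC2.le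
  have a5 : (1 - η) * (T / (2 * Real.pi) * L) = T / (2 * Real.pi) * ((1 - η) * L) := by ring
  linarith

end Pool.Agent.N880.QF
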