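import Pool.Agent.N880.QF.Stm3
import Pool.Agent.Y125.XT.Res
import Pool.Agent.V11306.CnfA
import Pool.Agent.H332R2.PIT.Bound

/-!
The Dedekind zeta function of a quadratic field is the product of the Riemann zeta function and of
the `L`-function of the primitive quadratic character.
-/

set_option autoImplicit false

open Complex Filter Topology Set NumberField H300.HW IsCyclotomicExtension.Rat
open Pool.Agent.TH560.QT (Attached)
open Pool.Agent.H921R2.TatePole (ZK aK dedekindZeta_real)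
open IntermediateField Module

namespace Pool.Agent.N880.QF

/-! ### square roots in cyclotomic fields -/

section sqrt
variable {L : Type*} [Field L] [CharZero L]

lemma dz_sq_odd {p : ℕ} (hp : p.Prime) (h2 : p ≠ 2) {ζ : L} (hζ : IsPrimitiveRoot ζ p) :
    ∃ e : ℤ, (e = 1 ∨ e = -1) ∧ IsSquare ((e : L) * (p : L)) := by
  have : Fact p.Prime := ⟨hp⟩
  set χ : MulChar (ZMod p) L := (quadraticChar (ZMod p)).ringHomComp (Int.castRingHom L) with hχ
  have h1 : quadraticChar (ZMod p) ≠ 1 := quadraticChar_ne_one (by rwa [ZMod.ringChar_zmod_n])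
  have h3 : χ ≠ 1 := (MulChar.ringHomComp_ne_one_iff (Int.cast_injective)).2 h1
  have h4 : χ.IsQuadratic := (quadraticChar_isQuadratic (ZMod p)).comp _
  have h5 := AddChar.zmodChar_primitive_of_primitive_root p hζ
  have h6 := gaussSum_sq h3 h4 h5
  rw [ZMod.card] at h6
  refine ⟨quadraticChar (ZMod p) (-1), ?_, ?_⟩
  · exact quadraticChar_dichotomy (by simp)
  · refine ⟨gaussSum χ (AddChar.zmodChar p ((IsPrimitiveRoot.iff_def ζ p).mp hζ).left), ?_⟩
    rw [← sq, h6]
    rfl

lemma dz_sq_dvd {n : ℕ} (hn0 : n ≠ 0) (h8 : 8 ∣ n) {ζ : L} (hζ : IsPrimitiveRoot ζ n) :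
    IsSquare (-1 : L) ∧ ∀ k : ℕ, k ∣ n → IsSquare (k : L) := by
  obtain ⟨r, hr⟩ := h8
  have hr0 : r ≠ 0 := by rintro rfl; simp at hr; exact hn0 hr
  have h8' : IsPrimitiveRoot (ζ ^ r) 8 := by
    refine hζ.pow (Nat.pos_of_ne_zero hn0) ?_
    rw [hr, mul_comm]
  set z := ζ ^ r with hz
  have hz4 : z ^ 4 = -1 := by
    have h1 : IsPrimitiveRoot (z ^ 4) 2 := h8'.pow (by norm_num) (by norm_num)
    exact h1.eq_neg_one_of_two_right
  have hm1 : IsSquare (-1 : L) := ⟨z ^ 2, by rw [← hz4]; ring⟩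
  have h2 : IsSquare (2 : L) := by
    refine ⟨z - z ^ 3, ?_⟩
    have : (z - z ^ 3) * (z - z ^ 3) = z ^ 2 * (1 + z ^ 4) - 2 * z ^ 4 := by ring
    rw [this, hz4]
    ring
  refine ⟨hm1, ?_⟩
  intro k
  induction k using Nat.recOnMul with
  | zero => intro h; exact absurd (Nat.eq_zero_of_zero_dvd h) hn0
  | one => intro _; exact ⟨1, by simp⟩
  | prime p hp =>
    intro h
    by_cases hp2 : p = 2
    · rw [hp2]; exact_mod_cast h2
    · obtain ⟨t, ht⟩ := h
      have hζp : IsPrimitiveRoot (ζ ^ t) p := hζ.pow (Nat.pos_of_ne_zero hn0) (by rw [ht, mul_comm])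
      obtain ⟨e, he, hs⟩ := dz_sq_odd hp hp2 hζp
      rcases he with rfl | rfl
      · simpa using hs
      · have := hm1.mul hs
        simpa using this
  | mul a b iha ihb =>
    intro h
    rw [Nat.cast_mul]
    exact (iha (dvd_of_mul_right_dvd h)).mul (ihb (dvd_of_mul_left_dvd h))

lemma dz_sqrt {n : ℕ} (hn0 : n ≠ 0) {m : ℤ} (h8 : 8 * m.natAbs ∣ n) {ζ : L}
    (hζ : IsPrimitiveRoot ζ n) : ∃ α : L, α ^ 2 = (m : L) := by
  obtain ⟨h1, h2⟩ := dz_sq_dvd hn0 (dvd_of_mul_right_dvd h8) hζ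
  have h3 := h2 m.natAbs (dvd_of_mul_left_dvd h8)
  have h4 : IsSquare (m : L) := by
    rcases Int.natAbs_eq m with h | h
    · rw [h]; simpa using h3
    · rw [h]
      have := h1.mul h3
      simpa using this
  obtain ⟨α, hα⟩ := h4
  exact ⟨α, by rw [hα, sq]⟩

end sqrt

/-! ### the Frobenius elements and the square root -/

section frob
variable (n : ℕ) [NeZero n] (L : Type) [Field L] [NumberField L] [IsCyclotomicExtension {n} ℚ L]

lemma dz_frob {m : ℤ} {α : 𝓞 L} (hα : α ^ 2 = (m : 𝓞 L)) {p : ℕ} (hp : p.Prime) (hp2 : p ≠ 2)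
    (hpn : p.Coprime n) (hpm : ¬ (p : ℤ) ∣ m) (σ : Gal(L/ℚ))
    (hσ : (galEquivZMod n L σ : ZMod n) = (p : ZMod n)) :
    (σ • α = α → jacobiSym m p = 1) ∧ (σ • α = -α → jacobiSym m p = -1) := by
  have : Fact p.Prime := ⟨hp⟩
  let Ω := AlgebraicClosure (ZMod p)
  have : CharP Ω p := charP_of_injective_algebraMap (algebraMap (ZMod p) Ω).injective p
  obtain ⟨ψ⟩ := exists_point L (Ω := Ω)
  have hσ' : σ = (galEquivZMod n L).symm (ZMod.unitOfCoprime p hpn) := by
    apply (galEquivZMod n L).injective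
    rw [MulEquiv.apply_symm_apply]
    apply Units.ext
    rw [hσ, ZMod.coe_unitOfCoprime]
  have h1 := frob_eq n L p hpn (frobenius Ω p) (fun x => frobenius_def p x) ψ
  rw [← hσ'] at h1
  have h2 := DFunLike.congr_fun h1 α
  simp only [RingHom.coe_comp, Function.comp_apply, MulSemiringAction.toRingHom_apply] at h2
  rw [frobenius_def] at h2
  have hodd : p % 2 = 1 := (hp.eq_two_or_odd).resolve_left hp2
  have hψ2 : ψ α ^ 2 = (m : Ω) := by rw [← map_pow, hα, map_intCast]
  have h3 : ψ α ^ p = ψ α * ((legendreSym p m : ℤ) : Ω) := by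
    have h4 : (m : Ω) ^ (p / 2) = ((legendreSym p m : ℤ) : Ω) := by
      have := legendreSym.eq_pow p m
      have h5 := congrArg (algebraMap (ZMod p) Ω) this
      rw [map_pow, map_intCast, map_intCast] at h5
      exact h5.symm
    have h6 : p = 2 * (p / 2) + 1 := by omega
    calc ψ α ^ p = ψ α ^ (2 * (p / 2) + 1) := by rw [← h6]
      _ = (ψ α ^ 2) ^ (p / 2) * ψ α := by rw [pow_succ, pow_mul]
      _ = _ := by rw [hψ2, h4, mul_comm]
  have hm0 : (m : Ω) ≠ 0 := by
    rw [Ne, CharP.intCast_eq_zero_iff Ω p]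
    exact hpm
  have hψ0 : ψ α ≠ 0 := by
    intro h
    rw [h] at hψ2
    apply hm0
    rw [← hψ2]
    simp
  have hmz : ((m : ℤ) : ZMod p) ≠ 0 := by
    rw [Ne, ZMod.intCast_zmod_eq_zero_iff_dvd]
    exact hpm
  have hleg := legendreSym.eq_one_or_neg_one p hmz
  have h20 : (2 : Ω) ≠ 0 := by
    intro h
    have : ((2 : ℕ) : Ω) = 0 := by exact_mod_cast h
    rw [CharP.cast_eq_zero_iff Ω p] at this
    exact hp2 ((Nat.prime_dvd_prime_iff_eq hp Nat.prime_two).1 this)
  rw [← jacobiSym.legendreSym.to_jacobiSym]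
  rw [h3] at h2
  constructor
  · intro h
    rw [h] at h2
    rcases hleg with h5 | h5
    · exact h5
    · exfalso
      rw [h5] at h2
      push_cast at h2
      apply h20
      have : 2 * ψ α = 0 := by linear_combination -h2
      exact (mul_eq_zero.1 this).resolve_right hψ0
  · intro h
    rw [h, map_neg] at h2
    rcases hleg with h5 | h5
    · exfalso
      rw [h5] at h2
      push_cast at h2
      apply h20
      have : 2 * ψ α = 0 := by linear_combination h2
      exact (mul_eq_zero.1 this).resolve_right hψ0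
    · exact h5

end frob

/-! ### the quadratic character -/

section chi
variable (n : ℕ) [NeZero n] (L : Type) [Field L] [NumberField L] [IsCyclotomicExtension {n} ℚ L]

lemma dz_chi {m : ℤ} (hm : ¬ IsSquare m) {α : 𝓞 L} (hα : α ^ 2 = (m : 𝓞 L)) {N : ℕ} [NeZero N]
    (hN : N ∣ n) {χ : DirichletCharacter ℂ N} (hχ : Attached m χ) (σ : Gal(L/ℚ)) :
    (σ • α = α → DirichletCharacter.changeLevel hN χ (galEquivZMod n L σ : ZMod n) = 1) ∧
      (σ • α = -α → DirichletCharacter.changeLevel hN χ (galEquivZMod n L σ : ZMod n) = -1) := by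
  obtain ⟨B, hB⟩ := hχ
  obtain ⟨p, hp, hpp, hpu⟩ := Nat.forall_exists_prime_gt_and_eq_mod (galEquivZMod n L σ).isUnit
    (B + n + m.natAbs + 2)
  have hn0 : 0 < n := Nat.pos_of_ne_zero (NeZero.ne n)
  have hm0 : m ≠ 0 := by rintro rfl; exact hm (IsSquare.zero)
  have hpn : p.Coprime n := by
    rw [hpp.coprime_iff_not_dvd]
    intro h
    have := Nat.le_of_dvd hn0 h
    omega
  have hpm : ¬ (p : ℤ) ∣ m := by
    intro h
    have h1 : p ∣ m.natAbs := Int.natCast_dvd.1 h
    have := Nat.le_of_dvd (Int.natAbs_pos.2 hm0) h1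
    omega
  obtain ⟨h1, h2⟩ := dz_frob n L hα hpp (by omega) hpn hpm σ hpu.symm
  have h3 : DirichletCharacter.changeLevel hN χ (galEquivZMod n L σ : ZMod n) =
      ((jacobiSym m p : ℤ) : ℂ) := by
    rw [DirichletCharacter.changeLevel_eq_cast_of_dvd, ← hpu, ZMod.cast_natCast hN,
      hB p hpp (by omega)]
  rw [h3]
  constructor
  · intro h; rw [h1 h]; simp
  · intro h; rw [h2 h]; simp

open Pool.Agent.Y125.XT (Lp ZK_eq) in
lemma dz_Lp {N : ℕ} [NeZero N] (hN : N ∣ n) {χ : DirichletCharacter ℂ N} (hχ : χ.IsPrimitive)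
    (s : ℂ) : Lp n (DirichletCharacter.changeLevel hN χ) s = DirichletCharacter.LFunction χ s := by
  have key : ∀ (M : ℕ) [NeZero M] (hM : M ∣ n) (ψ : DirichletCharacter ℂ M), M = N →
      DirichletCharacter.changeLevel hM ψ = DirichletCharacter.changeLevel hN χ →
      DirichletCharacter.LFunction ψ s = DirichletCharacter.LFunction χ s := by
    intro M _ hM ψ e h
    subst e
    rw [DirichletCharacter.changeLevel_injective hM h]
  refine key _ _ _ ?_ (DirichletCharacter.changeLevel_primitiveCharacter _)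
  rw [DirichletCharacter.conductor_changeLevel]
  exact hχ

end chi

/-! ### quadratic fields -/

section quad
variable {K : Type*} [Field K] [NumberField K]

lemma dz_not_sq {m : ℤ} (hm : ¬ IsSquare m) (q : ℚ) : q ^ 2 ≠ (m : ℚ) := by
  intro h
  apply hm
  have h1 : IsSquare ((m : ℤ) : ℚ) := ⟨q, by rw [← h, sq]⟩
  exact Rat.isSquare_intCast_iff.1 h1

lemma dz_minpoly {m : ℤ} (hm : ¬ IsSquare m) {β : K} (hβ : β ^ 2 = (m : K)) :
    minpoly ℚ β = Polynomial.X ^ 2 - Polynomial.C (m : ℚ) := by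
  symm
  apply minpoly.eq_of_irreducible_of_monic
  · have h3 : (Polynomial.X ^ 2 - Polynomial.C (m : ℚ)).natDegree = 2 := by compute_degree!
    have hmo : (Polynomial.X ^ 2 - Polynomial.C (m : ℚ)).Monic := by monicity!
    rw [Polynomial.irreducible_iff_roots_eq_zero_of_degree_le_three (by omega) (by omega)]
    rw [Multiset.eq_zero_iff_forall_notMem]
    intro q hq
    rw [Polynomial.mem_roots hmo.ne_zero, Polynomial.IsRoot.def] at hq
    simp only [Polynomial.eval_sub, Polynomial.eval_pow, Polynomial.eval_X,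
      Polynomial.eval_C] at hq
    exact dz_not_sq hm q (by linarith)
  · simp [hβ]
  · monicity!

end quad

section field
variable (n : ℕ) [NeZero n] (L : Type) [Field L] [NumberField L] [IsCyclotomicExtension {n} ℚ L]

open Pool.Agent.Y125.XT (Lp ZK_eq) in
open scoped Classical in
lemma dz_field {m : ℤ} (hm : ¬ IsSquare m) {α : L} (hα : α ^ 2 = (m : L)) {N : ℕ} [NeZero N]
    (hN : N ∣ n) {χ : DirichletCharacter ℂ N} (hprim : χ.IsPrimitive) (hχ : Attached m χ) :
    finrank ℚ ℚ⟮α⟯ = 2 ∧ ∀ x : ℝ, 1 < x →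
      ((ZK ℚ⟮α⟯ x : ℝ) : ℂ) = riemannZeta x * DirichletCharacter.LFunction χ x := by
  have hGal : IsGalois ℚ L := IsCyclotomicExtension.isGalois {n} ℚ L
  have hint : IsIntegral ℚ α := Algebra.IsIntegral.isIntegral α
  have hfin : finrank ℚ ℚ⟮α⟯ = 2 := by
    rw [adjoin.finrank hint, dz_minpoly hm hα]
    compute_degree!
  refine ⟨hfin, ?_⟩
  have hαi : IsIntegral ℤ α := by
    refine ⟨Polynomial.X ^ 2 - Polynomial.C m, by monicity!, ?_⟩
    rw [Polynomial.eval₂_sub, Polynomial.eval₂_X_pow, Polynomial.eval₂_C, hα]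
    simp
  set αi : 𝓞 L := ⟨α, hαi⟩ with hαi'
  have hαi2 : αi ^ 2 = (m : 𝓞 L) := by
    apply RingOfIntegers.ext
    show α ^ 2 = _
    rw [hα]
    simp
  have hsm : ∀ σ : Gal(L/ℚ), σ α = α → σ • αi = αi := by
    intro σ h
    apply RingOfIntegers.ext
    exact h
  have hsm' : ∀ σ : Gal(L/ℚ), σ α = -α → σ • αi = -αi := by
    intro σ h
    apply RingOfIntegers.ext
    exact h
  set χ' := DirichletCharacter.changeLevel hN χ with hχ'
  have hmem : χ' ∈ YY n L ℚ⟮α⟯ := by
    rw [mem_YY]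
    intro σ hσ
    have h1 : σ α = α := (IntermediateField.mem_fixingSubgroup_iff _ _).1 hσ α
      (mem_adjoin_simple_self ℚ α)
    exact (dz_chi n L hm hαi2 hN hχ σ).1 (hsm σ h1)
  have hne : χ' ≠ 1 := by
    intro h
    have h1 : ∃ σ : Gal(L/ℚ), σ α ≠ α := by
      by_contra hcon
      push Not at hcon
      have h2 : α ∈ (⊥ : IntermediateField ℚ L) := by
        rw [IsGalois.mem_bot_iff_fixed]
        exact hcon
      obtain ⟨q, hq⟩ := IntermediateField.mem_bot.1 h2
      apply dz_not_sq hm q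
      have h3 : algebraMap ℚ L (q ^ 2) = algebraMap ℚ L (m : ℚ) := by
        rw [map_pow, hq, hα]; simp
      exact (algebraMap ℚ L).injective h3
    obtain ⟨σ, hσ⟩ := h1
    have h2 : σ α = -α := by
      have h3 : σ α ^ 2 = α ^ 2 := by
        rw [← map_pow, hα]; simp
      rcases sq_eq_sq_iff_eq_or_eq_neg.1 h3 with h4 | h4
      · exact absurd h4 hσ
      · exact h4
    have h5 := (dz_chi n L hm hαi2 hN hχ σ).2 (hsm' σ h2)
    rw [← hχ', h, MulChar.one_apply_coe] at h5
    norm_num at h5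
  have hcard : Nat.card (YY n L ℚ⟮α⟯) = 2 := by
    rw [card_YY, ← IntermediateField.finrank_eq_fixingSubgroup_index, hfin]
  intro x hx
  rw [ZK_eq n L ℚ⟮α⟯ hx]
  have hun : (Finset.univ : Finset (YY n L ℚ⟮α⟯)).erase 1 = {⟨χ', hmem⟩} := by
    symm
    apply Finset.eq_of_subset_of_card_le
    · intro y hy
      rw [Finset.mem_singleton] at hy
      rw [hy, Finset.mem_erase]
      exact ⟨fun h => hne (congrArg Subtype.val h), Finset.mem_univ _⟩
    · rw [Finset.card_erase_of_mem (Finset.mem_univ _), Finset.card_univ, Finset.card_singleton,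
        ← Nat.card_eq_fintype_card, hcard]
  rw [← Finset.mul_prod_erase Finset.univ _ (Finset.mem_univ (1 : YY n L ℚ⟮α⟯)), hun,
    Finset.prod_singleton, dz_Lp n hN hprim]
  congr 1
  have h1 : ((1 : YY n L ℚ⟮α⟯) : DirichletCharacter ℂ n) =
      DirichletCharacter.changeLevel (one_dvd n) (1 : DirichletCharacter ℂ 1) := by
    rw [DirichletCharacter.changeLevel_one]
    rfl
  rw [h1, dz_Lp n (one_dvd n) (DirichletCharacter.isPrimitive_one_level_one),
    DirichletCharacter.LFunction_modOne_eq]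

end field

section fin
variable {K : Type} [Field K] [NumberField K]

lemma dz_iso {m : ℤ} (hm : ¬ IsSquare m) {L : Type} [Field L] [NumberField L] {α : L}
    (hα : α ^ 2 = (m : L)) (hfin : finrank ℚ ℚ⟮α⟯ = 2) (hK : finrank ℚ K = 2) {β : K}
    (hβ : β ^ 2 = (m : K)) : Nonempty (K ≃+* ℚ⟮α⟯) := by
  set pb : PowerBasis ℚ ℚ⟮α⟯ := IntermediateField.adjoin.powerBasis
    (Algebra.IsIntegral.isIntegral α)
  have hg : Polynomial.aeval β (minpoly ℚ pb.gen) = 0 := by
    have hgen : pb.gen ^ 2 = ((m : ℤ) : ℚ⟮α⟯) := by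
      rw [adjoin.powerBasis_gen]
      apply Subtype.ext
      push_cast
      exact hα
    rw [dz_minpoly hm hgen]
    simp [hβ]
  have hinj : Function.Injective (pb.lift β hg) := (pb.lift β hg).toRingHom.injective
  have hsur : Function.Surjective (pb.lift β hg) := by
    have := LinearMap.injective_iff_surjective_of_finrank_eq_finrank
      (f := (pb.lift β hg).toLinearMap) (by rw [hK, hfin])
    exact this.1 hinj
  exact ⟨(AlgEquiv.ofBijective (pb.lift β hg) ⟨hinj, hsur⟩).symm.toRingEquiv⟩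

end fin

theorem dz_main : S_dz := by
  intro K _ _ hK m a ha hm N _ χ hprim hatt
  have hm0 : m ≠ 0 := by rintro rfl; exact hm (IsSquare.zero)
  have hN0 : N ≠ 0 := NeZero.ne N
  set n : ℕ := N * (8 * m.natAbs) with hn
  have hn0 : n ≠ 0 := Nat.mul_ne_zero hN0 (Nat.mul_ne_zero (by norm_num) (Int.natAbs_ne_zero.2 hm0))
  have : NeZero n := ⟨hn0⟩
  have : NeZero ((n : ℕ) : ℚ) := ⟨by exact_mod_cast hn0⟩
  have hcyc : IsCyclotomicExtension {n} ℚ (CyclotomicField n ℚ) := by
    have h0 := CyclotomicField.isCyclotomicExtension n ℚ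
    have e : (DivisionRing.toRatAlgebra : Algebra ℚ (CyclotomicField n ℚ)) =
      CyclotomicField.algebra n ℚ := Subsingleton.elim _ _
    rw [e]
    exact h0
  obtain ⟨α, hα⟩ := dz_sqrt (L := CyclotomicField n ℚ) hn0 (m := m) (Dvd.intro_left N rfl)
    (IsCyclotomicExtension.zeta_spec n ℚ (CyclotomicField n ℚ))
  obtain ⟨hfin, hZ⟩ := dz_field n (CyclotomicField n ℚ) hm hα (Dvd.intro (8 * m.natAbs) rfl)
    hprim hatt
  obtain ⟨e⟩ := dz_iso hm hα hfin hK ha
  have hreal : ∀ x : ℝ, 1 < x →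
      dedekindZeta K (x : ℂ) = riemannZeta x * DirichletCharacter.LFunction χ x := by
    intro x hx
    rw [← hZ x hx, dedekindZeta_real]
    congr 1
    unfold ZK
    refine tsum_congr fun k => ?_
    rw [Pool.Agent.V11306.CnfA.aK_congr e]
  have hU : IsOpen {s : ℂ | 1 < s.re} := isOpen_lt continuous_const Complex.continuous_re
  have hf : AnalyticOnNhd ℂ (dedekindZeta K) {s : ℂ | 1 < s.re} :=
    DifferentiableOn.analyticOnNhd
      (fun s hs => (H332.PIT.zeta_diffAt hs).differentiableWithinAt) hU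
  have hg : AnalyticOnNhd ℂ (fun s => riemannZeta s * DirichletCharacter.LFunction χ s)
      {s : ℂ | 1 < s.re} := by
    refine DifferentiableOn.analyticOnNhd (fun s hs => ?_) hU
    have hs1 : s ≠ 1 := by
      rintro rfl
      simp at hs
    exact ((differentiableAt_riemannZeta hs1).mul
      (DirichletCharacter.differentiableAt_LFunction χ s (Or.inl hs1))).differentiableWithinAt
  have hconn : IsPreconnected {s : ℂ | 1 < s.re} := (convex_halfSpace_re_gt 1).isPreconnected
  have hfr : ∃ᶠ z : ℂ in 𝓝[≠] (2 : ℂ), dedekindZeta K z =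
      riemannZeta z * DirichletCharacter.LFunction χ z := by
    have hto : Tendsto (fun x : ℝ => (x : ℂ)) (𝓝[>] 2) (𝓝[≠] (2 : ℂ)) := by
      refine tendsto_nhdsWithin_iff.2 ⟨?_, ?_⟩
      · have := (Complex.continuous_ofReal.tendsto (2 : ℝ)).mono_left
          (nhdsWithin_le_nhds (s := Set.Ioi (2 : ℝ)))
        simpa using this
      · filter_upwards [self_mem_nhdsWithin] with x hx
        have hx' : (2 : ℝ) < x := hx
        show (x : ℂ) ∈ ({2}ᶜ : Set ℂ)
        rw [Set.mem_compl_singleton_iff]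
        exact_mod_cast hx'.ne'
    refine hto.frequently ?_
    refine Filter.Eventually.frequently ?_
    filter_upwards [self_mem_nhdsWithin] with x hx
    exact hreal x (by have : (2 : ℝ) < x := hx; linarith)
  intro s hs
  exact hf.eqOn_of_preconnected_of_frequently_eq hg hconn (z₀ := 2) (by simp) hfr hs

theorem quad_main : S_quad := by
  intro K _ _ hK
  obtain ⟨β, hβ⟩ : ∃ β : K, β ∉ (algebraMap ℚ K).range := by
    by_contra hcon
    push Not at hcon
    have h1 : (⊥ : Subalgebra ℚ K) = ⊤ :=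
      eq_top_iff.2 (fun x _ => Algebra.mem_bot.2 (hcon x))
    have h2 := Subalgebra.bot_eq_top_iff_finrank_eq_one.1 h1
    omega
  have hint : IsIntegral ℚ β := Algebra.IsIntegral.isIntegral β
  have hd1 : (minpoly ℚ β).natDegree ≠ 1 := fun h => hβ (minpoly.natDegree_eq_one_iff.1 h)
  have hd0 : 0 < (minpoly ℚ β).natDegree := minpoly.natDegree_pos hint
  have hd2 : (minpoly ℚ β).natDegree ≤ 2 := hK ▸ minpoly.natDegree_le β
  have hd : (minpoly ℚ β).natDegree = 2 := by omega
  have hlc : (minpoly ℚ β).coeff 2 = 1 := by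
    have := minpoly.monic hint
    rw [Polynomial.Monic, Polynomial.leadingCoeff, hd] at this
    exact this
  set c1 := (minpoly ℚ β).coeff 1 with hc1
  set c0 := (minpoly ℚ β).coeff 0 with hc0
  have he : (c0 : K) + (c1 : K) * β + β ^ 2 = 0 := by
    have h1 := minpoly.aeval ℚ β
    rw [Polynomial.aeval_eq_sum_range, hd, Finset.sum_range_succ, Finset.sum_range_succ,
      Finset.sum_range_one, hlc, ← hc1, ← hc0] at h1
    simpa [Algebra.smul_def] using h1
  set q : ℚ := c1 ^ 2 - 4 * c0 with hq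
  have hγ : (2 * β + (c1 : K)) ^ 2 = (q : K) := by
    rw [hq]
    push_cast
    linear_combination 4 * he
  have hqd : q * (q.den : ℚ) = (q.num : ℚ) := Rat.mul_den_eq_num q
  have hqd' : (q : K) * (q.den : K) = (q.num : K) := by
    have := congrArg (Rat.cast : ℚ → K) hqd
    push_cast at this
    exact this
  have hd0K : (q.den : K) ≠ 0 := by exact_mod_cast q.den_ne_zero
  have ha : ((q.den : K) * (2 * β + (c1 : K))) ^ 2 = ((q.num * q.den : ℤ) : K) := by
    rw [mul_pow, hγ]
    push_cast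
    rw [← hqd']
    ring
  refine ⟨q.num * q.den, (q.den : K) * (2 * β + (c1 : K)), ha, ?_⟩
  rintro ⟨r, hr⟩
  rw [hr] at ha
  have h5 : ((q.den : K) * (2 * β + (c1 : K))) ^ 2 = (r : K) ^ 2 := by
    rw [ha]; push_cast; ring
  apply hβ
  rcases sq_eq_sq_iff_eq_or_eq_neg.1 h5 with h | h
  · refine ⟨((r : ℚ) / q.den - c1) / 2, ?_⟩
    rw [eq_ratCast]
    push_cast
    rw [← h]
    field_simp
    ring
  · refine ⟨(-(r : ℚ) / q.den - c1) / 2, ?_⟩
    rw [eq_ratCast]
    push_cast
    rw [← h]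
    field_simp
    ring

end Pool.Agent.N880.QF

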