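import Pool.Agent.N880.QF.Stm3

/-!
Project QF: zeros of a product.
-/

set_option autoImplicit false

open Complex Filter Topology Set
open H370 (NN Nd Ns zset mult)

namespace Pool.Agent.N880.QF

namespace PrAux

/-- the upper half plane -/
def UH : Set ℂ := {s : ℂ | 0 < s.im}

lemma UH_preconn : IsPreconnected UH := (convex_halfSpace_im_gt 0).isPreconnected

lemma not_ev {F : ℂ → ℂ} (hF : ∀ s : ℂ, 0 < s.im → AnalyticAt ℂ F s)
    (hne : ∃ s : ℂ, 0 < s.im ∧ F s ≠ 0) {s : ℂ} (hs : 0 < s.im) :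
    ¬ ∃ᶠ z in 𝓝[≠] s, F z = 0 := by
  intro h
  obtain ⟨w, hw, hFw⟩ := hne
  have h1 : AnalyticOnNhd ℂ F UH := fun z hz => hF z hz
  exact hFw (h1.eqOn_zero_of_preconnected_of_frequently_eq_zero UH_preconn hs h hw)

lemma ord_ne_top {F : ℂ → ℂ} (hF : ∀ s : ℂ, 0 < s.im → AnalyticAt ℂ F s)
    (hne : ∃ s : ℂ, 0 < s.im ∧ F s ≠ 0) {s : ℂ} (hs : 0 < s.im) : analyticOrderAt F s ≠ ⊤ := by
  intro h
  rw [analyticOrderAt_eq_top] at h
  exact not_ev hF hne hs ((h.filter_mono nhdsWithin_le_nhds).frequently)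

lemma fin {F : ℂ → ℂ} (hF : ∀ s : ℂ, 0 < s.im → AnalyticAt ℂ F s)
    (hne : ∃ s : ℂ, 0 < s.im ∧ F s ≠ 0) {T1 T2 : ℝ} (hT : 0 < T1) : (zset F T1 T2).Finite := by
  by_contra hcon
  have hK : IsCompact (Icc (0 : ℝ) 1 ×ℂ Icc T1 T2) := isCompact_Icc.reProdIm isCompact_Icc
  obtain ⟨x, hx, hacc⟩ := Set.Infinite.exists_accPt_of_subset_isCompact hcon hK (by
    intro s hs
    rw [Complex.mem_reProdIm]
    exact ⟨⟨hs.1.le, hs.2.1.le⟩, ⟨hs.2.2.1.le, hs.2.2.2.1⟩⟩)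
  rw [Complex.mem_reProdIm] at hx
  have hx0 : 0 < x.im := lt_of_lt_of_le hT hx.2.1
  rw [accPt_iff_frequently_nhdsNE] at hacc
  exact not_ev hF hne hx0 (hacc.mono fun z hz => hz.2.2.2.2)

lemma NN_eq {F : ℂ → ℂ} {T1 T2 : ℝ} (hfin : (zset F T1 T2).Finite) (Z : Finset ℂ)
    (hZ : zset F T1 T2 ⊆ Z) (hZ' : ∀ s ∈ Z, s ∉ zset F T1 T2 → F s ≠ 0) :
    NN F T1 T2 = ∑ s ∈ Z, mult F s := by
  unfold NN
  rw [finsum_mem_eq_finite_toFinset_sum _ hfin]
  refine Finset.sum_subset (fun s hs => hZ (hfin.mem_toFinset.1 hs)) ?_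
  intro s hs hs'
  by_contra h
  exact hZ' s hs (fun hh => hs' (hfin.mem_toFinset.2 hh))
    (apply_eq_zero_of_analyticOrderNatAt_ne_zero h)

end PrAux

open PrAux

theorem prod_main : S_prod := by
  intro F G T1 T2 _ _ hF hG hFne hGne hT
  classical
  have fF := fin hF hFne (T2 := T2) hT
  have fG := fin hG hGne (T2 := T2) hT
  have hU : zset (fun s => F s * G s) T1 T2 = zset F T1 T2 ∪ zset G T1 T2 := by
    ext s
    constructor
    · rintro ⟨h1, h2, h3, h4, h5⟩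
      rcases mul_eq_zero.1 h5 with h | h
      · exact Or.inl ⟨h1, h2, h3, h4, h⟩
      · exact Or.inr ⟨h1, h2, h3, h4, h⟩
    · rintro (⟨h1, h2, h3, h4, h5⟩ | ⟨h1, h2, h3, h4, h5⟩)
      · exact ⟨h1, h2, h3, h4, by show F s * G s = 0; rw [h5, zero_mul]⟩
      · exact ⟨h1, h2, h3, h4, by show F s * G s = 0; rw [h5, mul_zero]⟩
  have fFG : (zset (fun s => F s * G s) T1 T2).Finite := by rw [hU]; exact fF.union fG
  have hmult : ∀ s : ℂ, 0 < s.im → mult (fun s => F s * G s) s = mult F s + mult G s := by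
    intro s hs
    exact analyticOrderNatAt_mul (hF s hs) (hG s hs) (ord_ne_top hF hFne hs)
      (ord_ne_top hG hGne hs)
  have hpos : ∀ s ∈ zset F T1 T2, 1 ≤ mult F s := by
    intro s hs
    have hs0 : 0 < s.im := hT.trans hs.2.2.1
    have h1 : analyticOrderAt F s ≠ 0 := (hF s hs0).analyticOrderAt_ne_zero.2 hs.2.2.2.2
    have h2 := Nat.cast_analyticOrderNatAt (ord_ne_top hF hFne hs0)
    have h3 : analyticOrderNatAt F s ≠ 0 := by
      intro h
      rw [h] at h2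
      exact h1 h2.symm
    exact Nat.one_le_iff_ne_zero.2 h3
  set Z := fFG.toFinset with hZ
  have hZs : ∀ s ∈ Z, 0 < s.re ∧ s.re < 1 ∧ T1 < s.im ∧ s.im ≤ T2 := by
    intro s hs
    have h := fFG.mem_toFinset.1 hs
    exact ⟨h.1, h.2.1, h.2.2.1, h.2.2.2.1⟩
  have hNN1 : NN (fun s => F s * G s) T1 T2 = ∑ s ∈ Z, mult (fun s => F s * G s) s :=
    NN_eq fFG Z (fun s hs => by rw [hZ, fFG.coe_toFinset]; exact hs)
      (fun s hs hs' => absurd (fFG.mem_toFinset.1 hs) hs')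
  have hNNF : NN F T1 T2 = ∑ s ∈ Z, mult F s := by
    refine NN_eq fF Z (fun s hs => ?_) (fun s hs hs' h0 => ?_)
    · rw [hZ, fFG.coe_toFinset, hU]; exact Or.inl hs
    · obtain ⟨h1, h2, h3, h4⟩ := hZs s hs
      exact hs' ⟨h1, h2, h3, h4, h0⟩
  have hNNG : NN G T1 T2 = ∑ s ∈ Z, mult G s := by
    refine NN_eq fG Z (fun s hs => ?_) (fun s hs hs' h0 => ?_)
    · rw [hZ, fFG.coe_toFinset, hU]; exact Or.inr hs
    · obtain ⟨h1, h2, h3, h4⟩ := hZs s hs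
      exact hs' ⟨h1, h2, h3, h4, h0⟩
  refine ⟨fF, fG, fFG, ?_, ?_, ?_⟩
  · rw [hNN1, hNNF, hNNG, ← Finset.sum_add_distrib]
    exact Finset.sum_congr rfl fun s hs => hmult s (hT.trans (hZs s hs).2.2.1)
  · have h1 : {s : ℂ | s ∈ zset G T1 T2 ∧ s.re = 1 / 2 ∧ mult G s = 1} ⊆
        {s : ℂ | s ∈ zset (fun s => F s * G s) T1 T2 ∧ s.re = 1 / 2 ∧
          mult (fun s => F s * G s) s = 1} ∪ zset F T1 T2 := by
      rintro s ⟨hs, hre, hm⟩
      by_cases hsF : s ∈ zset F T1 T2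
      · exact Or.inr hsF
      · left
        refine ⟨by rw [hU]; exact Or.inr hs, hre, ?_⟩
        rw [hmult s (hT.trans hs.2.2.1), hm]
        have h2 : F s ≠ 0 := fun h0 => hsF ⟨hs.1, hs.2.1, hs.2.2.1, hs.2.2.2.1, h0⟩
        have h3 : mult F s = 0 := by
          by_contra h
          exact h2 (apply_eq_zero_of_analyticOrderNatAt_ne_zero h)
        rw [h3]
    have h2 : (zset F T1 T2).ncard ≤ NN F T1 T2 := by
      unfold NN
      rw [finsum_mem_eq_finite_toFinset_sum _ fF, Set.ncard_eq_toFinset_card _ fF,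
        Finset.card_eq_sum_ones]
      exact Finset.sum_le_sum fun s hs => hpos s (fF.mem_toFinset.1 hs)
    have h3 : ({s : ℂ | s ∈ zset (fun s => F s * G s) T1 T2 ∧ s.re = 1 / 2 ∧
          mult (fun s => F s * G s) s = 1} ∪ zset F T1 T2).Finite :=
      (fFG.subset fun s hs => hs.1).union fF
    unfold Ns
    calc _ ≤ _ := Set.ncard_le_ncard h1 h3
      _ ≤ _ := Set.ncard_union_le _ _
      _ ≤ _ := Nat.add_le_add_left h2 _
  · unfold Nd
    exact Set.ncard_le_ncard (by rw [hU]; exact subset_union_right) fFG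

end Pool.Agent.N880.QF
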