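import Pool.Agent.N880.QF.FinA2
import Pool.Agent.N880.QF.Dz
import Pool.Agent.N880.QF.Prod
import Pool.Agent.N880.QF.All

/-!
Project QF: zeros of the Dedekind zeta functions of all quadratic fields.
-/

set_option autoImplicit false

open Complex Filter Topology MeasureTheory Set
open H385 (LF)
open H370 (NN Nd Ns zset mult)
open Pool.Agent.TH560.QT (Attached)

namespace Pool.Agent.N880.QF

theorem finA2_all : S_finA2 := finA2_main core_all char_main good_main wtA_main wtB_main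

lemma att_to {k : ℤ} {b : ℕ} (hb : 1 ≤ b) {N : ℕ} {χ : DirichletCharacter ℂ N}
    (h : Attached k χ) : Attached (k * (b : ℤ) ^ 2) χ := by
  obtain ⟨B, hB⟩ := h
  refine ⟨max B (b + 1), fun p hp hBp => ?_⟩
  rw [hB p hp ((le_max_left _ _).trans hBp), jacobiSym.mul_left, sq, jacobiSym.mul_left]
  have hbp : b < p := lt_of_lt_of_le (Nat.lt_succ_self b) ((le_max_right _ _).trans hBp)
  have hcop : IsCoprime (b : ℤ) (p : ℤ) := by
    rw [Nat.isCoprime_iff_coprime]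
    exact (Nat.coprime_of_lt_prime (by omega) hbp hp).symm
  have h1 : jacobiSym (b : ℤ) p * jacobiSym (b : ℤ) p = 1 := by
    rw [← jacobiSym.mul_left, ← sq]
    exact jacobiSym.sq_one' (Int.isCoprime_iff_gcd_eq_one.1 hcop)
  rw [h1, mul_one]

lemma exists_char (m : ℤ) (hm : ¬ IsSquare m) :
    ∃ (N : ℕ) (_ : NeZero N) (χ : DirichletCharacter ℂ N), χ.IsPrimitive ∧ Attached m χ := by
  have h0 : m ≠ 0 := by rintro rfl; exact hm IsSquare.zero
  obtain ⟨k, b, hk, hk1, hb, hmk⟩ := decomp m h0 hm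
  obtain ⟨⟨N, hN, χ, hp, ha⟩, -⟩ := char_main k hk hk1
  exact ⟨N, hN, χ, hp, hmk ▸ att_to hb ha⟩

/-- the upper half plane part of a continuation -/
lemma Z_eq {K : Type} [Field K] [NumberField K] (hK : Module.finrank ℚ K = 2) {m : ℤ} {a : K}
    (ha : a ^ 2 = (m : K)) (hm : ¬ IsSquare m) {Z : ℂ → ℂ}
    (hZ : ∀ s : ℂ, s ≠ 1 → AnalyticAt ℂ Z s)
    (hZ' : ∀ s : ℂ, 1 < s.re → Z s = NumberField.dedekindZeta K s)
    {N : ℕ} [NeZero N] {χ : DirichletCharacter ℂ N} (hp : χ.IsPrimitive) (hatt : Attached m χ)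
    (s : ℂ) (hs : s ≠ 1) : Z s = riemannZeta s * DirichletCharacter.LFunction χ s := by
  have h1 : AnalyticOnNhd ℂ Z {1}ᶜ := fun s hs => hZ s hs
  have h2 : AnalyticOnNhd ℂ (fun s => riemannZeta s * DirichletCharacter.LFunction χ s) {1}ᶜ := by
    refine DifferentiableOn.analyticOnNhd (fun s hs => ?_) isOpen_compl_singleton
    exact ((differentiableAt_riemannZeta hs).mul
      (DirichletCharacter.differentiableAt_LFunction χ s (Or.inl hs))).differentiableWithinAt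
  have hconn : IsPreconnected ({1}ᶜ : Set ℂ) := by
    have hr : 1 < Module.rank ℝ ℂ := by rw [Complex.rank_real_complex]; norm_num
    exact (isConnected_compl_singleton_of_one_lt_rank hr (1 : ℂ)).isPreconnected
  have hev : Z =ᶠ[𝓝 (2 : ℂ)] fun s => riemannZeta s * DirichletCharacter.LFunction χ s := by
    have hU : {s : ℂ | 1 < s.re} ∈ 𝓝 (2 : ℂ) :=
      (isOpen_lt continuous_const Complex.continuous_re).mem_nhds (by simp)
    filter_upwards [hU] with s hs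
    rw [hZ' s hs]
    exact dz_main K hK m a ha hm N inferInstance χ hp hatt s hs
  exact h1.eqOn_of_preconnected_of_eventuallyEq h2 hconn (z₀ := 2) (by simp) hev hs

lemma congr_upper {F G : ℂ → ℂ} (h : ∀ s : ℂ, 0 < s.im → F s = G s) {T1 T2 : ℝ} (hT : 0 ≤ T1) :
    zset F T1 T2 = zset G T1 T2 ∧ NN F T1 T2 = NN G T1 T2 ∧ Ns F T1 T2 = Ns G T1 T2 ∧
      Nd F T1 T2 = Nd G T1 T2 := by
  have hz : zset F T1 T2 = zset G T1 T2 := by
    ext s
    constructor
    · rintro ⟨h1, h2, h3, h4, h5⟩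
      exact ⟨h1, h2, h3, h4, by rw [← h s (hT.trans_lt h3)]; exact h5⟩
    · rintro ⟨h1, h2, h3, h4, h5⟩
      exact ⟨h1, h2, h3, h4, by rw [h s (hT.trans_lt h3)]; exact h5⟩
  have hm : ∀ s ∈ zset G T1 T2, mult F s = mult G s := by
    intro s hs
    have hs0 : 0 < s.im := hT.trans_lt hs.2.2.1
    have hev : F =ᶠ[𝓝 s] G := by
      have hU : {s : ℂ | 0 < s.im} ∈ 𝓝 s :=
        (isOpen_lt continuous_const Complex.continuous_im).mem_nhds hs0
      filter_upwards [hU] with z hz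
      exact h z hz
    unfold mult analyticOrderNatAt
    rw [analyticOrderAt_congr hev]
  refine ⟨hz, ?_, ?_, ?_⟩
  · unfold NN
    rw [hz]
    exact finsum_mem_congr rfl hm
  · unfold Ns
    congr 1
    ext s
    rw [Set.mem_setOf_eq, Set.mem_setOf_eq, hz]
    constructor
    · rintro ⟨h1, h2, h3⟩
      exact ⟨h1, h2, by rw [← hm s h1]; exact h3⟩
    · rintro ⟨h1, h2, h3⟩
      exact ⟨h1, h2, by rw [hm s h1]; exact h3⟩
  · unfold Nd
    rw [hz]

lemma zeta_count : ∃ C : ℝ, 0 < C ∧ ∀ T : ℝ, 3 ≤ T →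
    (NN riemannZeta T (2 * T) : ℝ) ≤ C * T * Real.log (2 * T) := by
  obtain ⟨A, hA, hgood⟩ := H385.good_dirichlet_U
  obtain ⟨C5, hC5, hz⟩ := H385.zcount_long A hA
  refine ⟨C5, hC5, fun T hT => ?_⟩
  have hp : (1 : DirichletCharacter ℂ 1).IsPrimitive := by
    rw [DirichletCharacter.isPrimitive_def]
    exact DirichletCharacter.conductor_one
  have h1 := hz (1 : ℕ) _ _ (by norm_num) (hgood 1 1 hp) T (2 * T) hT (by linarith)
  have e : DirichletCharacter.LFunction (1 : DirichletCharacter ℂ 1) = riemannZeta :=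
    DirichletCharacter.LFunction_modOne_eq
  rw [e] at h1
  simpa [show 2 * T - T = T by ring] using h1

/-- zeros of the Dedekind zeta functions of all quadratic fields -/
theorem ded_main : ∃ η X0 : ℝ, 0 < η ∧ 3 ≤ X0 ∧
    ∀ (K : ℤ → Type) [∀ m, Field (K m)] [∀ m, NumberField (K m)] (Z : ℤ → ℂ → ℂ),
    (∀ m : ℤ, ¬ IsSquare m → Module.finrank ℚ (K m) = 2 ∧ (∃ a : K m, a ^ 2 = (m : K m)) ∧
      (∀ s : ℂ, s ≠ 1 → AnalyticAt ℂ (Z m) s) ∧
      ∀ s : ℂ, 1 < s.re → Z m s = NumberField.dedekindZeta (K m) s) →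
    ∀ (X T : ℝ) (Y : ℕ), X0 ≤ X → (Real.log X) ^ 2 ≤ T → T ≤ X ^ η → X * Real.log X ≤ Y →
    ∀ S : Finset ℤ, (∀ m : ℤ, m ∈ S ↔ (|m| ≤ Y ∧ ¬ IsSquare m)) →
    (∀ m ∈ S, (zset (Z m) T (2 * T)).Finite ∧
      ∀ s : ℂ, T < s.im → Z m s = 0 → 0 < s.re ∧ s.re < 1) ∧
    ∑ m ∈ S, om X m * (2 * (NN (Z m) T (2 * T) : ℝ) - (Ns (Z m) T (2 * T) : ℝ)) ≤
      1.3275 * ∑ m ∈ S, om X m * (NN (Z m) T (2 * T) : ℝ) ∧
    ∑ m ∈ S, om X m * (3 * (NN (Z m) T (2 * T) : ℝ) - 2 * (Nd (Z m) T (2 * T) : ℝ)) ≤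
      1.3275 * ∑ m ∈ S, om X m * (NN (Z m) T (2 * T) : ℝ) ∧
    X * T * Real.log X / 7 ≤ ∑ m ∈ S, om X m * (NN (Z m) T (2 * T) : ℝ) := by
  classical
  obtain ⟨κ, η1, hκ0, hκ1, hη1, hfin⟩ := finA2_all
  obtain ⟨C, hC, hzeta⟩ := zeta_count
  obtain ⟨A, hA, hgood⟩ := H385.good_dirichlet_U
  obtain ⟨η, hη, hηη1, hηC⟩ : ∃ η : ℝ, 0 < η ∧ η ≤ η1 ∧ 210 * C * η ≤ 1.3275 - κ := by
    refine ⟨min η1 ((1.3275 - κ) / (210 * C)), ?_, min_le_left _ _, ?_⟩
    · have : 0 < 1.3275 - κ := by linarith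
      positivity
    · have h1 : min η1 ((1.3275 - κ) / (210 * C)) ≤ (1.3275 - κ) / (210 * C) := min_le_right _ _
      rw [le_div_iff₀ (by positivity)] at h1
      linarith
  obtain ⟨X1, hX1, hfin⟩ := hfin η hη hηη1
  refine ⟨η, max X1 (max (Real.exp (1 / η)) (Real.exp 3)), hη, hX1.trans (le_max_left _ _), ?_⟩
  intro K _ _ Z hKZ X T Y hX hT1 hT2 hY S hS
  simp only [max_le_iff] at hX
  obtain ⟨hX1', hXη, hX3⟩ := hX
  have hX0 : 0 < X := lt_of_lt_of_le (Real.exp_pos _) hX3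
  have hL3 : 3 ≤ Real.log X := by rwa [Real.le_log_iff_exp_le hX0]
  have hLη : 1 ≤ η * Real.log X := by
    have h1 : 1 / η ≤ Real.log X := by rwa [Real.le_log_iff_exp_le hX0]
    rw [div_le_iff₀ hη] at h1
    linarith
  have hT3 : 3 ≤ T := by nlinarith
  have hT0 : 0 < T := by linarith
  -- characters
  have hex : ∀ m : ℤ, ∃ (N : ℕ) (_ : NeZero N) (χ : DirichletCharacter ℂ N),
      (¬ IsSquare m → χ.IsPrimitive ∧ Attached m χ) := by
    intro m
    by_cases hm : IsSquare m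
    · exact ⟨1, inferInstance, 1, fun h => absurd hm h⟩
    · obtain ⟨N, hN, χ, h1, h2⟩ := exists_char m hm
      exact ⟨N, hN, χ, fun _ => ⟨h1, h2⟩⟩
  choose N hN χ hχ using hex
  have hq : QData N χ := ⟨fun m => (hN m).out, fun m _ hm => (hχ m hm).1,
    fun m _ hm => (hχ m hm).2⟩
  have hS' : ∀ m : ℤ, m ∈ S ↔ (|m| ≤ Y ∧ m ≠ 0 ∧ ¬ IsSquare m) := by
    intro m
    rw [hS]
    refine ⟨fun h => ⟨h.1, ?_, h.2⟩, fun h => ⟨h.1, h.2.2⟩⟩
    rintro rfl
    exact h.2 IsSquare.zero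
  obtain ⟨f1, f2, f3⟩ := hfin N χ hq X T Y hX1' hT1 hT2 hY S hS'
  -- the product
  have hprod : ∀ m ∈ S, ((zset (Z m) T (2 * T)).Finite ∧
      ∀ s : ℂ, T < s.im → Z m s = 0 → 0 < s.re ∧ s.re < 1) ∧
      (NN (Z m) T (2 * T) : ℝ) = NN riemannZeta T (2 * T) + NN (LF (N m) (χ m)) T (2 * T) ∧
      (Ns (LF (N m) (χ m)) T (2 * T) : ℝ) ≤ Ns (Z m) T (2 * T) + NN riemannZeta T (2 * T) ∧
      (Nd (LF (N m) (χ m)) T (2 * T) : ℝ) ≤ Nd (Z m) T (2 * T) := by
    intro m hm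
    have hmsq := ((hS m).1 hm).2
    obtain ⟨hK2, ⟨a, ha⟩, hZ1, hZ2⟩ := hKZ m hmsq
    have hNm := hN m
    have hne1 : ∀ s : ℂ, 0 < s.im → s ≠ 1 := by
      rintro s hs rfl
      simp at hs
    have hZeq : ∀ s : ℂ, 0 < s.im → Z m s = riemannZeta s * LF (N m) (χ m) s := by
      intro s hs
      rw [LF_eq']
      exact Z_eq hK2 ha hmsq hZ1 hZ2 (hχ m hmsq).1 (hχ m hmsq).2 s (hne1 s hs)
    obtain ⟨c1, c2, c3, c4⟩ := congr_upper hZeq (T2 := 2 * T) hT0.le
    have hFan : ∀ s : ℂ, 0 < s.im → AnalyticAt ℂ riemannZeta s := by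
      intro s hs
      have hd : DifferentiableOn ℂ riemannZeta {1}ᶜ := fun z hz =>
        (differentiableAt_riemannZeta hz).differentiableWithinAt
      exact hd.analyticAt (isOpen_compl_singleton.mem_nhds (hne1 s hs))
    have hGan : ∀ s : ℂ, 0 < s.im → AnalyticAt ℂ (LF (N m) (χ m)) s := by
      intro s hs
      rw [LF_eq']
      have hd : DifferentiableOn ℂ (DirichletCharacter.LFunction (χ m)) {1}ᶜ := fun z hz =>
        (DirichletCharacter.differentiableAt_LFunction (χ m) z (Or.inl hz)).differentiableWithinAt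
      exact hd.analyticAt (isOpen_compl_singleton.mem_nhds (hne1 s hs))
    have hFne : ∃ s : ℂ, 0 < s.im ∧ riemannZeta s ≠ 0 :=
      ⟨⟨2, 1⟩, by norm_num, riemannZeta_ne_zero_of_one_le_re (by norm_num)⟩
    have hGne : ∃ s : ℂ, 0 < s.im ∧ LF (N m) (χ m) s ≠ 0 := by
      refine ⟨⟨2, 1⟩, by norm_num, ?_⟩
      rw [LF_eq']
      exact DirichletCharacter.LFunction_ne_zero_of_one_le_re (χ m)
        (Or.inr (by intro h; have := congrArg Complex.im h; norm_num at this)) (by norm_num)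
    obtain ⟨p1, p2, p3, p4, p5, p6⟩ := prod_main riemannZeta (LF (N m) (χ m)) T (2 * T) hT0.le
      (by linarith) hFan hGan hFne hGne hT0
    refine ⟨⟨by rw [c1]; exact p3, ?_⟩, ?_, ?_, ?_⟩
    · intro s hs hZs
      have hs1 : 1 ≤ s.im := by linarith
      have hp : (1 : DirichletCharacter ℂ 1).IsPrimitive := by
        rw [DirichletCharacter.isPrimitive_def]
        exact DirichletCharacter.conductor_one
      have g1 := hgood 1 1 hp
      rw [show DirichletCharacter.LFunction (1 : DirichletCharacter ℂ 1) = riemannZeta from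
        DirichletCharacter.LFunction_modOne_eq] at g1
      have g2 := hgood (N m) (χ m) (hχ m hmsq).1
      rw [hZeq s (by linarith), LF_eq'] at hZs
      constructor
      · by_contra h
        push Not at h
        rcases mul_eq_zero.1 hZs with h1 | h1
        · exact g1.nzl s h hs1 h1
        · exact g2.nzl s h hs1 h1
      · by_contra h
        push Not at h
        rcases mul_eq_zero.1 hZs with h1 | h1
        · exact g1.nzr s h hs1 h1
        · exact g2.nzr s h hs1 h1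
    · rw [c2, p4]; push_cast; ring
    · rw [c3]; exact_mod_cast p5
    · rw [c4]; exact_mod_cast p6
  -- the zeros of the Riemann zeta function
  obtain ⟨z, hz⟩ : ∃ z : ℝ, z = NN riemannZeta T (2 * T) := ⟨_, rfl⟩
  have hz0 : 0 ≤ z := by rw [hz]; exact Nat.cast_nonneg _
  have hzle : z ≤ C * T * (2 * (η * Real.log X)) := by
    rw [hz]
    refine (hzeta T hT3).trans (mul_le_mul_of_nonneg_left ?_ (by positivity))
    have h1 := Real.log_le_log hT0 hT2
    rw [Real.log_rpow hX0] at h1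
    rw [Real.log_mul (by norm_num) hT0.ne']
    have := Real.log_two_lt_d9
    linarith
  have hom : ∀ m, 0 ≤ om X m := fun m => (Real.exp_pos _).le
  have hA5 : ∑ m ∈ S, om X m ≤ 5 * X := by
    have h1 := Wgt.om_sum X hX0 S
    have : 1 ≤ X := by linarith
    linarith
  have hA0 : 0 ≤ ∑ m ∈ S, om X m := Finset.sum_nonneg fun m _ => hom m
  obtain ⟨NL, hNL⟩ : ∃ NL : ℝ, NL = ∑ m ∈ S, om X m * (NN (LF (N m) (χ m)) T (2 * T) : ℝ) :=
    ⟨_, rfl⟩
  have habs : 3 * z * ∑ m ∈ S, om X m ≤ (1.3275 - κ) * NL := by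
    have hκ' : 0 ≤ 1.3275 - κ := by linarith
    calc 3 * z * ∑ m ∈ S, om X m ≤ 3 * (C * T * (2 * (η * Real.log X))) * (5 * X) := by
          refine mul_le_mul (by linarith) hA5 hA0 ?_
          have : 0 ≤ C * T * (2 * (η * Real.log X)) := hz0.trans hzle
          linarith
      _ = (210 * C * η) * (X * T * Real.log X / 7) := by ring
      _ ≤ (1.3275 - κ) * (X * T * Real.log X / 7) :=
          mul_le_mul_of_nonneg_right hηC (by positivity)
      _ ≤ (1.3275 - κ) * NL := by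
          rw [hNL]
          exact mul_le_mul_of_nonneg_left f3 hκ'
  have hNZ : ∑ m ∈ S, om X m * (NN (Z m) T (2 * T) : ℝ) = z * ∑ m ∈ S, om X m + NL := by
    rw [hNL, Finset.mul_sum, ← Finset.sum_add_distrib]
    refine Finset.sum_congr rfl fun m hm => ?_
    rw [(hprod m hm).2.1, ← hz]
    ring
  have hzA : 0 ≤ z * ∑ m ∈ S, om X m := mul_nonneg hz0 hA0
  refine ⟨fun m hm => (hprod m hm).1, ?_, ?_, ?_⟩
  · have h1 : ∑ m ∈ S, om X m * (2 * (NN (Z m) T (2 * T) : ℝ) - (Ns (Z m) T (2 * T) : ℝ)) ≤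
        3 * z * ∑ m ∈ S, om X m + ∑ m ∈ S, om X m * (2 * (NN (LF (N m) (χ m)) T (2 * T) : ℝ) -
          (Ns (LF (N m) (χ m)) T (2 * T) : ℝ)) := by
      rw [Finset.mul_sum, ← Finset.sum_add_distrib]
      refine Finset.sum_le_sum fun m hm => ?_
      obtain ⟨-, q1, q2, -⟩ := hprod m hm
      rw [← hz] at q1 q2
      have : 2 * (NN (Z m) T (2 * T) : ℝ) - (Ns (Z m) T (2 * T) : ℝ) ≤
          3 * z + (2 * (NN (LF (N m) (χ m)) T (2 * T) : ℝ) -
          (Ns (LF (N m) (χ m)) T (2 * T) : ℝ)) := by linarith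
      have := mul_le_mul_of_nonneg_left this (hom m)
      linarith
    rw [hNZ]
    rw [← hNL] at f1
    nlinarith
  · have h1 : ∑ m ∈ S, om X m * (3 * (NN (Z m) T (2 * T) : ℝ) - 2 * (Nd (Z m) T (2 * T) : ℝ)) ≤
        3 * z * ∑ m ∈ S, om X m + ∑ m ∈ S, om X m * (3 * (NN (LF (N m) (χ m)) T (2 * T) : ℝ) -
          2 * (Nd (LF (N m) (χ m)) T (2 * T) : ℝ)) := by
      rw [Finset.mul_sum, ← Finset.sum_add_distrib]
      refine Finset.sum_le_sum fun m hm => ?_
      obtain ⟨-, q1, -, q2⟩ := hprod m hm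
      rw [← hz] at q1
      have : 3 * (NN (Z m) T (2 * T) : ℝ) - 2 * (Nd (Z m) T (2 * T) : ℝ) ≤
          3 * z + (3 * (NN (LF (N m) (χ m)) T (2 * T) : ℝ) -
          2 * (Nd (LF (N m) (χ m)) T (2 * T) : ℝ)) := by linarith
      have := mul_le_mul_of_nonneg_left this (hom m)
      linarith
    rw [hNZ]
    rw [← hNL] at f2
    nlinarith
  · rw [hNZ]
    rw [← hNL] at f3
    linarith

end Pool.Agent.N880.QF
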