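import Pool.Agent.N880.QF.Quad
import Pool.Agent.H413R2.RZ4_HPa

/-! # Duality -/

set_option autoImplicit false

open Complex Filter Topology MeasureTheory Set
open Pool.Agent.H306R2.RZ (js)
open Pool.Agent.H413R2.RZ4HP (js_mul js_sq js_abs_le)

namespace Pool.Agent.N880.QF

/-- admissible sets of primes -/
def PSet (Q : ℕ) (P : Finset ℕ) : Prop := ∀ p ∈ P, p.Prime ∧ p ≠ 2 ∧ ¬ p ∣ Q

lemma js_prod (m : ℤ) (p p' : ℕ) (hp : p.Prime) (hp' : p'.Prime) : js m (p * p') = js m p * js m p' := by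
  have : NeZero p := ⟨hp.ne_zero⟩
  have : NeZero p' := ⟨hp'.ne_zero⟩
  unfold js
  rw [jacobiSym.mul_right]
  push_cast
  rfl

/-- theta sum -/
noncomputable def Th (Y s : ℝ) (n : ℕ) : ℝ :=
  ∑' k : ℤ, Real.exp (-(Real.pi * (k * (Y * Real.exp (-s))) ^ 2)) * js k n

/-- Möbius as a real number -/
noncomputable def mu (d : ℕ) : ℝ := ((ArithmeticFunction.moebius d : ℤ) : ℝ)

lemma mu_abs (d : ℕ) : |mu d| ≤ 1 := by
  unfold mu
  exact_mod_cast ArithmeticFunction.abs_moebius_le_one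

/-- indicator of `Free Q` -/
noncomputable def fr (Q : ℕ) (m : ℤ) : ℝ := open Classical in if Free Q m then 1 else 0

lemma fr_nonneg (Q : ℕ) (m : ℤ) : 0 ≤ fr Q m := by
  unfold fr; split_ifs <;> norm_num

lemma fr_le (Q : ℕ) (m : ℤ) : fr Q m ≤ 1 := by
  unfold fr; split_ifs <;> norm_num

lemma D1 (hpois : S_pois) (hex : S_exch) {τ Y : ℝ} (hτ : 0 < τ) (hY : 0 < Y) {p p' : ℕ} (hp : p.Prime)
    (hp' : p'.Prime) (h2 : p ≠ 2) (h2' : p' ≠ 2) (hne : p ≠ p') :
    Integrable (fun s => gd τ (Real.log p + Real.log p' - s) *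
      (Y * Real.exp (-(s / 2)) * Th Y s (p * p'))) ∧
    ∑' m : ℤ, Wt τ (m / Y) * js m (p * p') = ∫ s : ℝ, gd τ (Real.log p + Real.log p' - s) *
      (Y * Real.exp (-(s / 2)) * Th Y s (p * p')) := by
  obtain ⟨_, e2, e3⟩ := hex τ Y (fun m => js m (p * p')) hτ hY (fun m => js_abs_le m _)
  set σ := Real.log p + Real.log p' with hσ
  have hp0 : (0 : ℝ) < p := by exact_mod_cast hp.pos
  have hp0' : (0 : ℝ) < p' := by exact_mod_cast hp'.pos
  have hσe : Real.exp σ = p * p' := by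
    rw [hσ, Real.exp_add, Real.exp_log hp0, Real.exp_log hp0']
  have key : (fun r : ℝ => gd τ r * (Real.exp (-(r / 2)) * ∑' m : ℤ, he (m / Y) r * js m (p * p'))) =
      fun r : ℝ => (fun s => gd τ (σ - s) * (Y * Real.exp (-(s / 2)) * Th Y s (p * p'))) (σ - r) := by
    funext r
    simp only
    rw [hpois p p' Y r hp hp' h2 h2' hne hY, sub_sub_cancel]
    have e4 : (∑' k : ℤ, Real.exp (-(Real.pi * (k * (Y * Real.exp r) / (p * p' : ℝ)) ^ 2)) *
        js k (p * p')) = Th Y (σ - r) (p * p') := by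
      unfold Th
      refine tsum_congr fun k => ?_
      congr 5
      rw [neg_sub, Real.exp_sub, hσe]
      ring
    rw [e4]
    have e5 : Real.sqrt (p * p' : ℝ) = Real.exp (σ / 2) := by
      rw [← hσe, Real.exp_half]
    rw [e5]
    have e6 : Real.exp (-((σ - r) / 2)) = Real.exp (-(r / 2)) * Real.exp r / Real.exp (σ / 2) := by
      rw [← Real.exp_add, ← Real.exp_sub]
      congr 1
      ring
    rw [e6]
    ring
  constructor
  · have h := e2
    rw [key] at h
    have h3 := h.comp_sub_left σ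
    simpa using h3
  · rw [e3, key]
    exact integral_sub_left_eq_self (μ := volume)
      (fun s => gd τ (σ - s) * (Y * Real.exp (-(s / 2)) * Th Y s (p * p'))) σ

/-- the sum over multiples of `d²` -/
lemma D1b (hpois : S_pois) (hex : S_exch) {τ X : ℝ} (hτ : 0 < τ) (hX : 0 < X) {p p' d : ℕ} (hp : p.Prime)
    (hp' : p'.Prime) (h2 : p ≠ 2) (h2' : p' ≠ 2) (hne : p ≠ p') (hd : d ≠ 0) (hdp : d.Coprime p)
    (hdp' : d.Coprime p') :
    Integrable (fun s => gd τ (Real.log p + Real.log p' - s) *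
      (X / (d : ℝ) ^ 2 * Real.exp (-(s / 2)) * Th (X / (d : ℝ) ^ 2) s (p * p'))) ∧
    ∑' m : ℤ, (if ((d : ℤ) ^ 2 ∣ m) then Wt τ (m / X) * js m (p * p') else 0) =
      ∫ s : ℝ, gd τ (Real.log p + Real.log p' - s) *
      (X / (d : ℝ) ^ 2 * Real.exp (-(s / 2)) * Th (X / (d : ℝ) ^ 2) s (p * p')) := by
  have hd0 : (0 : ℝ) < d := by exact_mod_cast Nat.pos_of_ne_zero hd
  have hY : 0 < X / (d : ℝ) ^ 2 := by positivity
  obtain ⟨h1, h3⟩ := D1 hpois hex hτ hY hp hp' h2 h2' hne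
  refine ⟨h1, ?_⟩
  rw [← h3]
  have hinj : Function.Injective (fun m : ℤ => (d : ℤ) ^ 2 * m) := by
    intro a b hab
    have hdz : ((d : ℤ) ^ 2) ≠ 0 := by positivity
    exact mul_left_cancel₀ hdz hab
  have hsupp : Function.support (fun m : ℤ => (if ((d : ℤ) ^ 2 ∣ m) then
      Wt τ (m / X) * js m (p * p') else 0)) ⊆ Set.range (fun m : ℤ => (d : ℤ) ^ 2 * m) := by
    intro m hm
    rw [Function.mem_support] at hm
    by_cases h : (d : ℤ) ^ 2 ∣ m
    · obtain ⟨c, hc⟩ := h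
      exact ⟨c, hc.symm⟩
    · rw [if_neg h] at hm
      exact absurd rfl hm
  rw [← hinj.tsum_eq hsupp]
  refine tsum_congr fun m => ?_
  rw [if_pos (Dvd.intro _ rfl), js_mul]
  have hn0 : p * p' ≠ 0 := Nat.mul_ne_zero hp.ne_zero hp'.ne_zero
  have h4 : js ((d : ℤ) ^ 2) (p * p') = 1 := by
    rw [js_sq _ _ hn0, if_pos (Nat.Coprime.mul_right hdp hdp')]
  rw [h4, one_mul]
  congr 2
  push_cast
  field_simp

/-- coefficients on the dual side -/
noncomputable def Fs (Q : ℕ) (X s : ℝ) (k : ℤ) : ℝ :=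
  Real.exp (-(s / 2)) * ∑ d ∈ Q.divisors, mu d * (X / (d : ℝ) ^ 2) *
    Real.exp (-(Real.pi * (k * (X / (d : ℝ) ^ 2 * Real.exp (-s))) ^ 2))

lemma cop_of {Q p d : ℕ} (hp : p.Prime) (hpQ : ¬ p ∣ Q) (hd : d ∈ Q.divisors) : d.Coprime p := by
  rw [Nat.coprime_comm, hp.coprime_iff_not_dvd]
  intro h
  exact hpQ (h.trans (Nat.dvd_of_mem_divisors hd))

lemma div_ne {Q d : ℕ} (hd : d ∈ Q.divisors) : d ≠ 0 := (Nat.pos_of_mem_divisors hd).ne'

/-- the off-diagonal weights of a pair -/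
lemma D1c (hpois : S_pois) (hex : S_exch) (hsv : S_sieve) {Q : ℕ} (hQ : Squarefree Q) {τ X : ℝ}
    (hτ : 0 < τ) (hX : 0 < X) {p p' : ℕ} (hp : p.Prime)
    (hp' : p'.Prime) (h2 : p ≠ 2) (h2' : p' ≠ 2) (hne : p ≠ p') (hpQ : ¬ p ∣ Q) (hpQ' : ¬ p' ∣ Q) :
    ∑' m : ℤ, fr Q m * Wt τ (m / X) * js m (p * p') =
      ∑ d ∈ Q.divisors, mu d * ∫ s : ℝ, gd τ (Real.log p + Real.log p' - s) *
      (X / (d : ℝ) ^ 2 * Real.exp (-(s / 2)) * Th (X / (d : ℝ) ^ 2) s (p * p')) := by
  have hs := (hex τ X (fun m => js m (p * p')) hτ hX (fun m => js_abs_le m _)).1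
  have h1 : ∀ m : ℤ, fr Q m * Wt τ (m / X) * js m (p * p') =
      ∑ d ∈ Q.divisors, mu d * (if ((d : ℤ) ^ 2 ∣ m) then Wt τ (m / X) * js m (p * p') else 0) := by
    intro m
    have h := hsv Q hQ m
    have e : fr Q m = ∑ d ∈ Q.divisors, (if ((d : ℤ) ^ 2 ∣ m) then mu d else 0) := by
      unfold fr mu
      rw [h]
    rw [e, mul_assoc, Finset.sum_mul]
    refine Finset.sum_congr rfl fun d _ => ?_
    split_ifs
    · rfl
    · simp
  simp_rw [h1]
  have hsd : ∀ d ∈ Q.divisors, Summable (fun m : ℤ => mu d *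
      (if ((d : ℤ) ^ 2 ∣ m) then Wt τ (m / X) * js m (p * p') else 0)) := by
    intro d _
    apply Summable.mul_left
    refine Summable.of_norm_bounded hs.norm fun m => ?_
    split_ifs
    · exact le_rfl
    · rw [norm_zero]
      exact norm_nonneg _
  rw [Summable.tsum_finsetSum hsd]
  refine Finset.sum_congr rfl fun d hd => ?_
  rw [tsum_mul_left, (D1b hpois hex hτ hX hp hp' h2 h2' hne (div_ne hd) (cop_of hp hpQ hd)
    (cop_of hp' hpQ' hd)).2]

/-- the off-diagonal integrand -/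
noncomputable def Ph (Q : ℕ) (P : Finset ℕ) (y : ℕ → ℝ) (a τ X s : ℝ) : ℝ :=
  ∑ p ∈ P, ∑ p' ∈ P, if p = p' then 0 else y p * y p' * KK a τ p p' *
    ∑ d ∈ Q.divisors, mu d * (gd τ (Real.log p + Real.log p' - s) *
      (X / (d : ℝ) ^ 2 * Real.exp (-(s / 2)) * Th (X / (d : ℝ) ^ 2) s (p * p')))

/-- the diagonal weight -/
noncomputable def Dg (Q : ℕ) (τ X : ℝ) (p : ℕ) : ℝ := ∑' m : ℤ, fr Q m * Wt τ (m / X) * js m p ^ 2

lemma abs_fr_js (Q : ℕ) (m : ℤ) (a b : ℕ) : |fr Q m * (js m a * js m b)| ≤ 1 := by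
  rw [abs_mul, abs_mul, abs_of_nonneg (fr_nonneg Q m)]
  have h1 := js_abs_le m a
  have h2 := js_abs_le m b
  have h3 := fr_le Q m
  have h4 := fr_nonneg Q m
  calc fr Q m * (|js m a| * |js m b|) ≤ 1 * (1 * 1) := by gcongr
    _ = 1 := by norm_num

lemma frsum (hex : S_exch) (Q : ℕ) {τ X : ℝ} (hτ : 0 < τ) (hX : 0 < X) (p p' : ℕ) :
    Summable (fun m : ℤ => fr Q m * Wt τ (m / X) * (js m p * js m p')) := by
  have := (hex τ X (fun m => fr Q m * (js m p * js m p')) hτ hX (fun m => abs_fr_js Q m p p')).1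
  refine this.congr fun m => ?_
  ring

/-- the total mass -/
theorem D2 (hpois : S_pois) (hex : S_exch) (hsv : S_sieve) {Q : ℕ} (hQ : Squarefree Q)
    {P : Finset ℕ} (hP : PSet Q P) (y : ℕ → ℝ) (a : ℝ) {τ X : ℝ} (hτ : 0 < τ) (hX : 0 < X) :
    Summable (fun m : ℤ => fr Q m * Wt τ (m / X) * GG P y a τ (js m)) ∧
    Integrable (fun s => Ph Q P y a τ X s) ∧
    ∑' m : ℤ, fr Q m * Wt τ (m / X) * GG P y a τ (js m) =
      ∑ p ∈ P, y p ^ 2 * Dg Q τ X p + ∫ s : ℝ, Ph Q P y a τ X s := by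
  have h1 : ∀ m : ℤ, fr Q m * Wt τ (m / X) * GG P y a τ (js m) =
      ∑ p ∈ P, ∑ p' ∈ P, (y p * y p' * KK a τ p p') *
        (fr Q m * Wt τ (m / X) * (js m p * js m p')) := by
    intro m
    rw [GG_eq, Finset.mul_sum]
    refine Finset.sum_congr rfl fun p _ => ?_
    rw [Finset.mul_sum]
    refine Finset.sum_congr rfl fun p' _ => ?_
    ring
  have hs : ∀ p p' : ℕ, Summable (fun m : ℤ => (y p * y p' * KK a τ p p') *
      (fr Q m * Wt τ (m / X) * (js m p * js m p'))) := fun p p' => (frsum hex Q hτ hX p p').mul_left _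
  have hs2 : ∀ p ∈ P, Summable (fun m : ℤ => ∑ p' ∈ P, (y p * y p' * KK a τ p p') *
      (fr Q m * Wt τ (m / X) * (js m p * js m p'))) := fun p _ => summable_sum fun p' _ => hs p p'
  have hint : ∀ p ∈ P, ∀ p' ∈ P, p ≠ p' → ∀ d ∈ Q.divisors,
      Integrable (fun s => gd τ (Real.log p + Real.log p' - s) *
      (X / (d : ℝ) ^ 2 * Real.exp (-(s / 2)) * Th (X / (d : ℝ) ^ 2) s (p * p'))) := by
    intro p hp p' hp' hne d hd
    obtain ⟨a1, a2, a3⟩ := hP p hp
    obtain ⟨b1, b2, b3⟩ := hP p' hp'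
    exact (D1b hpois hex hτ hX a1 b1 a2 b2 hne (div_ne hd) (cop_of a1 a3 hd) (cop_of b1 b3 hd)).1
  have hint2 : ∀ p ∈ P, ∀ p' ∈ P, Integrable (fun s => if p = p' then 0 else y p * y p' * KK a τ p p' *
    ∑ d ∈ Q.divisors, mu d * (gd τ (Real.log p + Real.log p' - s) *
      (X / (d : ℝ) ^ 2 * Real.exp (-(s / 2)) * Th (X / (d : ℝ) ^ 2) s (p * p')))) := by
    intro p hp p' hp'
    by_cases hne : p = p'
    · simp [hne]
    · simp only [if_neg hne]
      exact (integrable_finsetSum _ fun d hd => (hint p hp p' hp' hne d hd).const_mul _).const_mul _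
  refine ⟨?_, ?_, ?_⟩
  · refine (summable_sum hs2).congr fun m => ?_
    exact (h1 m).symm
  · unfold Ph
    exact integrable_finsetSum _ fun p hp => integrable_finsetSum _ fun p' hp' => hint2 p hp p' hp'
  · simp_rw [h1]
    rw [Summable.tsum_finsetSum hs2]
    have h3 : ∀ p ∈ P, ∑' m : ℤ, ∑ p' ∈ P, (y p * y p' * KK a τ p p') *
        (fr Q m * Wt τ (m / X) * (js m p * js m p')) =
        ∑ p' ∈ P, (y p * y p' * KK a τ p p') * ∑' m : ℤ,
          (fr Q m * Wt τ (m / X) * (js m p * js m p')) := by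
      intro p _
      rw [Summable.tsum_finsetSum (fun p' _ => hs p p')]
      exact Finset.sum_congr rfl fun p' _ => tsum_mul_left
    rw [Finset.sum_congr rfl h3]
    have h4 : ∫ s : ℝ, Ph Q P y a τ X s = ∑ p ∈ P, ∑ p' ∈ P, if p = p' then 0 else
        y p * y p' * KK a τ p p' * ∑' m : ℤ, (fr Q m * Wt τ (m / X) * (js m p * js m p')) := by
      unfold Ph
      rw [integral_finsetSum _ (fun p hp => integrable_finsetSum _ fun p' hp' => hint2 p hp p' hp')]
      refine Finset.sum_congr rfl fun p hp => ?_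
      rw [integral_finsetSum _ (fun p' hp' => hint2 p hp p' hp')]
      refine Finset.sum_congr rfl fun p' hp' => ?_
      by_cases hne : p = p'
      · simp [hne]
      · simp only [if_neg hne]
        obtain ⟨a1, a2, a3⟩ := hP p hp
        obtain ⟨b1, b2, b3⟩ := hP p' hp'
        rw [integral_const_mul, integral_finsetSum _
          (fun d hd => (hint p hp p' hp' hne d hd).const_mul _)]
        congr 1
        have h5 := D1c hpois hex hsv hQ hτ hX a1 b1 a2 b2 hne a3 b3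
        simp_rw [js_prod _ _ _ a1 b1] at h5
        rw [h5]
        exact Finset.sum_congr rfl fun d _ => integral_const_mul _ _
    rw [h4, ← Finset.sum_add_distrib]
    refine Finset.sum_congr rfl fun p hp => ?_
    have h6 : ∀ p' ∈ P, (y p * y p' * KK a τ p p') * ∑' m : ℤ,
          (fr Q m * Wt τ (m / X) * (js m p * js m p')) =
        (if p = p' then y p ^ 2 * Dg Q τ X p else 0) + (if p = p' then 0 else
        y p * y p' * KK a τ p p' * ∑' m : ℤ, (fr Q m * Wt τ (m / X) * (js m p * js m p'))) := by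
      intro p' _
      by_cases hne : p = p'
      · subst hne
        rw [if_pos rfl, if_pos rfl, add_zero, KK_self, mul_one, Dg, pow_two]
        congr 1
        exact tsum_congr fun m => by rw [pow_two]
      · rw [if_neg hne, if_neg hne, zero_add]
    rw [Finset.sum_congr rfl h6, Finset.sum_add_distrib, Finset.sum_ite_eq, if_pos hp]

/-- expansion of the integrand over the dual variable -/
theorem D3 (hgs : S_gs) {Q : ℕ} {P : Finset ℕ} (hP : PSet Q P) (y : ℕ → ℝ) (a : ℝ) {τ X : ℝ}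
    (hX : 0 < X) (s : ℝ) :
    Summable (fun k : ℤ => |Fs Q X s k|) ∧
    Ph Q P y a τ X s = ∑' k : ℤ, Fs Q X s k * (qq P y a τ (js k) s -
      ∑ p ∈ P, y p ^ 2 * js k p ^ 2 * gd τ (2 * Real.log p - s)) := by
  have hY : ∀ d ∈ Q.divisors, 0 < X / (d : ℝ) ^ 2 * Real.exp (-s) := by
    intro d hd
    have : (0 : ℝ) < d := by exact_mod_cast Nat.pos_of_mem_divisors hd
    positivity
  have hg : ∀ d ∈ Q.divisors, Summable (fun k : ℤ =>
      Real.exp (-(Real.pi * (k * (X / (d : ℝ) ^ 2 * Real.exp (-s))) ^ 2))) :=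
    fun d hd => (hgs.1 _ (hY d hd)).1
  have hFs : Summable (fun k : ℤ => |Fs Q X s k|) := by
    have h1 : Summable (fun k : ℤ => Real.exp (-(s / 2)) * ∑ d ∈ Q.divisors, (X / (d : ℝ) ^ 2) *
        Real.exp (-(Real.pi * (k * (X / (d : ℝ) ^ 2 * Real.exp (-s))) ^ 2))) :=
      (summable_sum fun d hd => (hg d hd).mul_left _).mul_left _
    refine Summable.of_nonneg_of_le (fun k => abs_nonneg _) (fun k => ?_) h1
    unfold Fs
    rw [abs_mul, Real.abs_exp]
    refine mul_le_mul_of_nonneg_left ?_ (Real.exp_pos _).le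
    refine (Finset.abs_sum_le_sum_abs _ _).trans (Finset.sum_le_sum fun d hd => ?_)
    have h2 : 0 ≤ X / (d : ℝ) ^ 2 := by positivity
    rw [abs_mul, abs_mul, Real.abs_exp, abs_of_nonneg h2]
    have := mu_abs d
    calc |mu d| * (X / (d : ℝ) ^ 2) * _ ≤ 1 * (X / (d : ℝ) ^ 2) * _ := by gcongr
      _ = _ := by rw [one_mul]
  refine ⟨hFs, ?_⟩
  -- expand the right side
  have hq : ∀ k : ℤ, qq P y a τ (js k) s - ∑ p ∈ P, y p ^ 2 * js k p ^ 2 * gd τ (2 * Real.log p - s) =
      ∑ p ∈ P, ∑ p' ∈ P, if p = p' then 0 else y p * y p' * KK a τ p p' *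
        gd τ (Real.log p + Real.log p' - s) * js k (p * p') := by
    intro k
    unfold qq
    rw [← Finset.sum_sub_distrib]
    refine Finset.sum_congr rfl fun p hp => ?_
    have h6 : ∀ p' ∈ P, y p * y p' * (js k p * js k p') *
        (KK a τ p p' * gd τ (Real.log p + Real.log p' - s)) =
        (if p = p' then y p ^ 2 * js k p ^ 2 * gd τ (2 * Real.log p - s) else 0) +
        (if p = p' then 0 else y p * y p' * KK a τ p p' *
        gd τ (Real.log p + Real.log p' - s) * js k (p * p')) := by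
      intro p' hp'
      by_cases hne : p = p'
      · subst hne
        rw [if_pos rfl, if_pos rfl, add_zero, KK_self, two_mul]
        ring
      · rw [if_neg hne, if_neg hne, zero_add, js_prod _ _ _ (hP p hp).1 (hP p' hp').1]
        ring
    rw [Finset.sum_congr rfl h6, Finset.sum_add_distrib, Finset.sum_ite_eq, if_pos hp]
    ring
  have hsj : ∀ n : ℕ, Summable (fun k : ℤ => Fs Q X s k * js k n) := by
    intro n
    refine Summable.of_norm_bounded hFs fun k => ?_
    rw [norm_mul, Real.norm_eq_abs, Real.norm_eq_abs]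
    exact mul_le_of_le_one_right (abs_nonneg _) (js_abs_le k n)
  have hTh : ∀ n : ℕ, ∑' k : ℤ, Fs Q X s k * js k n = ∑ d ∈ Q.divisors, mu d *
      (X / (d : ℝ) ^ 2 * Real.exp (-(s / 2)) * Th (X / (d : ℝ) ^ 2) s n) := by
    intro n
    have e1 : ∀ k : ℤ, Fs Q X s k * js k n = ∑ d ∈ Q.divisors, (mu d *
      (X / (d : ℝ) ^ 2 * Real.exp (-(s / 2)))) *
        (Real.exp (-(Real.pi * (k * (X / (d : ℝ) ^ 2 * Real.exp (-s))) ^ 2)) * js k n) := by
      intro k
      unfold Fs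
      rw [Finset.mul_sum, Finset.sum_mul]
      exact Finset.sum_congr rfl fun d _ => by ring
    simp_rw [e1]
    rw [Summable.tsum_finsetSum]
    · refine Finset.sum_congr rfl fun d _ => ?_
      rw [tsum_mul_left]
      unfold Th
      ring
    · intro d hd
      apply Summable.mul_left
      refine Summable.of_norm_bounded (hg d hd) fun k => ?_
      rw [norm_mul, Real.norm_eq_abs, Real.abs_exp, Real.norm_eq_abs]
      exact mul_le_of_le_one_right (Real.exp_pos _).le (js_abs_le k n)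
  have e2 : ∀ k : ℤ, Fs Q X s k * (qq P y a τ (js k) s -
      ∑ p ∈ P, y p ^ 2 * js k p ^ 2 * gd τ (2 * Real.log p - s)) =
      ∑ p ∈ P, ∑ p' ∈ P, if p = p' then 0 else (y p * y p' * KK a τ p p' *
        gd τ (Real.log p + Real.log p' - s)) * (Fs Q X s k * js k (p * p')) := by
    intro k
    rw [hq, Finset.mul_sum]
    refine Finset.sum_congr rfl fun p _ => ?_
    rw [Finset.mul_sum]
    refine Finset.sum_congr rfl fun p' _ => ?_
    split_ifs
    · simp
    · ring
  simp_rw [e2]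
  have hsum : ∀ p p' : ℕ, Summable (fun k : ℤ => if p = p' then 0 else (y p * y p' * KK a τ p p' *
        gd τ (Real.log p + Real.log p' - s)) * (Fs Q X s k * js k (p * p'))) := by
    intro p p'
    split_ifs
    · exact summable_zero
    · exact (hsj _).mul_left _
  rw [Summable.tsum_finsetSum (fun p _ => summable_sum fun p' _ => hsum p p')]
  unfold Ph
  refine Finset.sum_congr rfl fun p _ => ?_
  rw [Summable.tsum_finsetSum (fun p' _ => hsum p p')]
  refine Finset.sum_congr rfl fun p' _ => ?_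
  by_cases hne : p = p'
  · simp [hne]
  · simp only [if_neg hne]
    rw [tsum_mul_left, hTh, mul_assoc (y p * y p' * KK a τ p p')]
    congr 1
    rw [Finset.mul_sum]
    refine Finset.sum_congr rfl fun d _ => ?_
    ring

end Pool.Agent.N880.QF
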