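import Pool.Agent.N880.QF.Fin
import Pool.Agent.N880.QF.Wgt

/-!
Project QF: the final statement with a smaller constant, for all small exponents.
-/

set_option autoImplicit false

open Complex Filter Topology MeasureTheory Set
open H385 (bt wt Rw LF Rw_nonneg)
open H370 (NN Nd Ns)
open Pool.Agent.TH560.QT (Attached)

namespace Pool.Agent.N880.QF

/-- all non-squares, a constant smaller than `1.3275`, all small exponents -/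
def S_finA2 : Prop := ∃ κ η1 : ℝ, 0 ≤ κ ∧ κ < 1.3275 ∧ 0 < η1 ∧ ∀ η : ℝ, 0 < η → η ≤ η1 →
  ∃ X0 : ℝ, 3 ≤ X0 ∧
  ∀ (N : ℤ → ℕ) (χ : (m : ℤ) → DirichletCharacter ℂ (N m)), QData N χ →
  ∀ (X T : ℝ) (Y : ℕ), X0 ≤ X → (Real.log X) ^ 2 ≤ T → T ≤ X ^ η → X * Real.log X ≤ Y →
  ∀ S : Finset ℤ, (∀ m : ℤ, m ∈ S ↔ (|m| ≤ Y ∧ m ≠ 0 ∧ ¬ IsSquare m)) →
    ∑ m ∈ S, om X m * (2 * (NN (LF (N m) (χ m)) T (2 * T) : ℝ) -
        (Ns (LF (N m) (χ m)) T (2 * T) : ℝ)) ≤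
      κ * ∑ m ∈ S, om X m * (NN (LF (N m) (χ m)) T (2 * T) : ℝ) ∧
    ∑ m ∈ S, om X m * (3 * (NN (LF (N m) (χ m)) T (2 * T) : ℝ) -
        2 * (Nd (LF (N m) (χ m)) T (2 * T) : ℝ)) ≤
      κ * ∑ m ∈ S, om X m * (NN (LF (N m) (χ m)) T (2 * T) : ℝ) ∧
    X * T * Real.log X / 7 ≤ ∑ m ∈ S, om X m * (NN (LF (N m) (χ m)) T (2 * T) : ℝ)

theorem finA2_main (hcore : S_core) (hchar : S_char) (hgood : S_good) (hA : S_wtA)
    (hB : S_wtB) : S_finA2 := by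
  classical
  obtain ⟨CA, hCA, hA⟩ := hA
  obtain ⟨C5, C, hC5, hC, hcom⟩ := fin_common hchar
  obtain ⟨J, hJ⟩ : ∃ J, J = ∫ α in (0:ℝ)..1, α * Rw 1.414 α := ⟨_, rfl⟩
  have hJ0 : 0 ≤ J := hJ ▸ J_nonneg
  have hd2 : Rw 1.414 0 + 2 * J < 1.3275 := by rw [hJ]; exact H385.Rw_const_d2
  have hR0 : 0 ≤ Rw 1.414 0 := Rw_nonneg 1.414 (by norm_num) (by linarith [Real.pi_gt_three]) 0
  obtain ⟨κ, hκd⟩ : ∃ κ, κ = (1.3275 + (Rw 1.414 0 + 2 * J)) / 2 := ⟨_, rfl⟩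
  have hκ0 : 0 ≤ κ := by rw [hκd]; linarith
  have hκ1 : κ < 1.3275 := by rw [hκd]; linarith
  obtain ⟨δ, hδ⟩ : ∃ δ, δ = κ - (Rw 1.414 0 + 2 * J) := ⟨_, rfl⟩
  have hδ0 : 0 < δ := by rw [hδ, hκd]; linarith
  obtain ⟨e', he0, he1, he2⟩ : ∃ e' : ℝ, 0 < e' ∧ e' ≤ 1 / 1000 ∧ e' * (4 * J) < δ := by
    refine ⟨min (1 / 1000) (δ / (4 * (J + 1))), by positivity, min_le_left _ _, ?_⟩
    have h1 : min (1 / 1000) (δ / (4 * (J + 1))) ≤ δ / (4 * (J + 1)) := min_le_right _ _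
    calc min (1 / 1000) (δ / (4 * (J + 1))) * (4 * J) ≤ δ / (4 * (J + 1)) * (4 * J) :=
          mul_le_mul_of_nonneg_right h1 (by positivity)
      _ < δ := by
        rw [div_mul_eq_mul_div, div_lt_iff₀ (by positivity)]
        exact mul_lt_mul_of_pos_left (by linarith) hδ0
  have hκ : Rw 1.414 0 + 2 * (fQ 1 / (1 - e')) * (∫ α in (0 : ℝ)..1, α * Rw 1.414 α) < κ := by
    rw [fQ_one, ← hJ]
    have h1 : 1 / (1 - e') ≤ 1 + 2 * e' := by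
      rw [div_le_iff₀ (by linarith)]
      nlinarith
    have h2 : 2 * (1 / (1 - e')) * J ≤ 2 * (1 + 2 * e') * J := by gcongr
    linarith [show 2 * (1 + 2 * e') * J = 2 * J + e' * (4 * J) by ring]
  obtain ⟨e, η0, he, hη0, hη01, hc⟩ := hcore 1 hgood.1 (1 - e') κ (by linarith) hκ
  obtain ⟨B0, hB0⟩ := hB e' he0
  obtain ⟨B, hB1, hBB0, hBe⟩ : ∃ B : ℕ, 1 ≤ B ∧ B0 ≤ B ∧ 3 * (C5 * (CA / B)) ≤ e := by
    have hb : (1 : ℕ) ≤ max (max B0 1) ⌈3 * C5 * CA / e⌉₊ :=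
      (le_max_right _ _).trans (le_max_left _ _)
    refine ⟨max (max B0 1) ⌈3 * C5 * CA / e⌉₊, hb,
      (le_max_left _ _).trans (le_max_left _ _), ?_⟩
    have h1 : 3 * C5 * CA / e ≤ ((max (max B0 1) ⌈3 * C5 * CA / e⌉₊ : ℕ) : ℝ) :=
      (Nat.le_ceil _).trans (by exact_mod_cast le_max_right _ _)
    have h2 : (0 : ℝ) < ((max (max B0 1) ⌈3 * C5 * CA / e⌉₊ : ℕ) : ℝ) := by
      exact_mod_cast hb
    have e1 : 3 * (C5 * (CA / ((max (max B0 1) ⌈3 * C5 * CA / e⌉₊ : ℕ) : ℝ))) =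
      3 * C5 * CA / ((max (max B0 1) ⌈3 * C5 * CA / e⌉₊ : ℕ) : ℝ) := by ring
    rw [e1, div_le_iff₀ h2]
    rw [div_le_iff₀ he] at h1
    linarith
  have hBpos : (0 : ℝ) < B := by exact_mod_cast hB1
  refine ⟨κ, min η0 (1 / 50), hκ0, hκ1, by positivity, ?_⟩
  intro η hη hηm
  have hηη0 : η ≤ η0 := hηm.trans (min_le_left _ _)
  have hη50 : η ≤ 1 / 50 := hηm.trans (min_le_right _ _)
  obtain ⟨X1, hX1, h1⟩ := hc B hB1
  obtain ⟨X2, hX2, h2⟩ := hA B η hB1 hη (by linarith)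
  obtain ⟨X3, hX3, h3⟩ := hB0 B η hBB0 hη (by linarith)
  obtain ⟨X0, hX0, hXX⟩ := exists_X0 X1 X2 X3 η (CA / B) C hX1 (by positivity)
  refine ⟨X0, hX0, ?_⟩
  intro N χ hq X T Y hX hT1 hT2 hY S hS
  obtain ⟨g1, g2, g3, g4, g5, g6⟩ := hXX X hX
  have hX1' : 1 ≤ X := by linarith
  have hWI : (1 - e') * X ≤ ∑ m ∈ S.filter (MainL B η X), om X m := by
    refine h3 X Y g3 hY _ (fun m => ?_)
    rw [Finset.mem_filter, hS]
    exact ⟨fun h => ⟨h.1.1, h.2⟩, fun h => ⟨⟨h.1, mainL_ne h.2⟩, h.2⟩⟩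
  have hWJ : ∑ m ∈ S.filter (fun m => ¬ MainL B η X m),
      om X m * (1 + Real.log (2 + |(m : ℝ)|)) ≤ CA / B * X * Real.log X := by
    refine h2 X _ g2 (fun m hm => ?_)
    rw [Finset.mem_filter, hS] at hm
    exact ⟨hm.1.2.1, hm.2⟩
  have hTη : T ≤ X ^ η0 := hT2.trans (Real.rpow_le_rpow_of_exponent_le hX1' hηη0)
  have hI := h1 N χ hq X T (S.filter (MainL B η X)) g1 hT1 hTη
    (fun m hm => ⟨mainL_mono hX1' hηη0 (Finset.mem_filter.1 hm).2, free_one m⟩) hWI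
  have hpi := Real.pi_pos
  have hfin := hcom N χ hq B η (1 - e') κ (1 / 7) e (CA / B) X T S g4 g5 g6 hT1 hT2 hη
    hη50 hBe (by linarith) (by linarith) hκ0
    (by
      rw [le_div_iff₀ (by positivity)]
      have := Real.pi_lt_d2
      linarith)
    (fun m hm => ((hS m).1 hm).2) hWI hWJ hI
  obtain ⟨f1, f2, f3⟩ := hfin
  exact ⟨f1, f2, by linarith⟩

end Pool.Agent.N880.QF
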