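import Pool.Agent.N880.QF.Pw2

/-! # The primal side -/

set_option autoImplicit false

open Complex Filter Topology MeasureTheory Set
open Pool.Agent.H306R2.RZ (js)
open Pool.Agent.H413R2.RZ4HP (js_mul js_sq js_abs_le sqf_unique_int)

namespace Pool.Agent.N880.QF

lemma Wt_nonneg {τ : ℝ} (hτ : 0 ≤ τ) (x : ℝ) : 0 ≤ Wt τ x := by
  unfold Wt
  refine integral_nonneg fun r => ?_
  have := gd_nonneg hτ r
  unfold he
  positivity

/-- indicator of `p² | m` -/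
noncomputable def ip (p : ℕ) (m : ℤ) : ℝ := if (p : ℤ) ^ 2 ∣ m then 1 else 0

lemma ip_nonneg (p : ℕ) (m : ℤ) : 0 ≤ ip p m := by unfold ip; split_ifs <;> norm_num

lemma free_sq {Q : ℕ} {k : ℤ} {b : ℕ} (hk : Squarefree k) (hb : b.Coprime Q) :
    Free Q (k * (b : ℤ) ^ 2) := by
  intro p hp hpQ hdvd
  have hpb : ¬ p ∣ b := by
    intro h
    have := Nat.dvd_gcd h hpQ
    rw [hb] at this
    exact hp.one_lt.ne' (Nat.dvd_one.1 this)
  have hcop : IsCoprime ((p : ℤ) ^ 2) ((b : ℤ) ^ 2) := by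
    apply IsCoprime.pow
    rw [Nat.isCoprime_iff_coprime, hp.coprime_iff_not_dvd]
    exact hpb
  have h2 : (p : ℤ) ^ 2 ∣ k := hcop.dvd_of_dvd_mul_right hdvd
  rw [pow_two] at h2
  have h3 := hk _ h2
  rw [Int.isUnit_iff] at h3
  have := hp.one_lt
  omega

/-- pairs of primes -/
lemma pair_bd (hDup : S_Dup) {Q : ℕ} {P : Finset ℕ} (hP : PSet Q P) (hex : S_exch) {τ X : ℝ}
    (hτ : 1 ≤ τ)
    (hX : 1 ≤ X) (M : Finset ℤ) (hM : ∀ m ∈ M, m ≠ 0) {p p' : ℕ} (hp : p ∈ P) (hp' : p' ∈ P) :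
    ∑ m ∈ M, Wt τ (m / X) * (ip p m * ip p' m) ≤ X * Real.exp (1 / (4 * τ ^ 2)) *
      ((if p = p' then 1 / (p : ℝ) ^ 2 else 0) + 1 / (p : ℝ) ^ 2 * (1 / (p' : ℝ) ^ 2)) := by
  have hτ0 : 0 < τ := by linarith
  have hX0 : 0 < X := by linarith
  classical
  obtain ⟨D, hD1, hDdvd, hDle⟩ : ∃ D : ℕ, 1 ≤ D ∧ (∀ m : ℤ, (p : ℤ) ^ 2 ∣ m → (p' : ℤ) ^ 2 ∣ m →
      (D : ℤ) ∣ m) ∧ 1 / (D : ℝ) ≤ (if p = p' then 1 / (p : ℝ) ^ 2 else 0) +
        1 / (p : ℝ) ^ 2 * (1 / (p' : ℝ) ^ 2) := by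
    by_cases h : p = p'
    · subst h
      refine ⟨p ^ 2, Nat.one_le_pow _ _ (hP p hp).1.pos, fun m h1 _ => by exact_mod_cast h1, ?_⟩
      rw [if_pos rfl]
      push_cast
      have : 0 ≤ 1 / (p : ℝ) ^ 2 * (1 / (p : ℝ) ^ 2) := by positivity
      linarith
    · refine ⟨p ^ 2 * p' ^ 2, Nat.mul_pos (Nat.pow_pos (hP p hp).1.pos)
        (Nat.pow_pos (hP p' hp').1.pos), ?_, ?_⟩
      · intro m h1 h2
        have hcop : IsCoprime ((p : ℤ) ^ 2) ((p' : ℤ) ^ 2) := by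
          apply IsCoprime.pow
          rw [Nat.isCoprime_iff_coprime, Nat.coprime_primes (hP p hp).1 (hP p' hp').1]
          exact h
        push_cast
        exact hcop.mul_dvd h1 h2
      · rw [if_neg h, zero_add]
        push_cast
        rw [one_div_mul_one_div]
  have h1 := hDup.2 τ X D hτ hX hD1 (fun m => if m ≠ 0 ∧ (D : ℤ) ∣ m then 1 else 0)
    (fun m => by split_ifs <;> norm_num) (fun m => by split_ifs <;> norm_num)
    (fun m hm => by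
      by_contra hcon
      apply hm
      rw [if_neg hcon])
  have hs := (hex τ X (fun m => if m ≠ 0 ∧ (D : ℤ) ∣ m then 1 else 0) hτ0 hX0
    (fun m => by split_ifs <;> simp)).1
  calc ∑ m ∈ M, Wt τ (m / X) * (ip p m * ip p' m) ≤
      ∑ m ∈ M, Wt τ (m / X) * (if m ≠ 0 ∧ (D : ℤ) ∣ m then 1 else 0) := by
        refine Finset.sum_le_sum fun m hm => mul_le_mul_of_nonneg_left ?_ (Wt_nonneg hτ0.le _)
        unfold ip
        by_cases a1 : (p : ℤ) ^ 2 ∣ m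
        · by_cases a2 : (p' : ℤ) ^ 2 ∣ m
          · rw [if_pos a1, if_pos a2, if_pos ⟨hM m hm, hDdvd m a1 a2⟩]
            norm_num
          · rw [if_neg a2, mul_zero]
            split_ifs <;> norm_num
        · rw [if_neg a1, zero_mul]
          split_ifs <;> norm_num
    _ ≤ ∑' m : ℤ, Wt τ (m / X) * (if m ≠ 0 ∧ (D : ℤ) ∣ m then 1 else 0) := by
        refine hs.sum_le_tsum _ fun m _ => mul_nonneg (Wt_nonneg hτ0.le _) ?_
        split_ifs <;> norm_num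
    _ ≤ X / D * Real.exp (1 / (4 * τ ^ 2)) := h1
    _ = X * Real.exp (1 / (4 * τ ^ 2)) * (1 / D) := by ring
    _ ≤ _ := mul_le_mul_of_nonneg_left hDle (by positivity)

lemma sum_inv_sq (P : Finset ℕ) : ∑ p ∈ P, 1 / (p : ℝ) ^ 2 ≤ 2 := by
  have h := hasSum_zeta_two
  have h1 : ∑ p ∈ P, 1 / (p : ℝ) ^ 2 ≤ Real.pi ^ 2 / 6 := by
    rw [← h.tsum_eq]
    exact h.summable.sum_le_tsum P fun p _ => by positivity
  have h3 : Real.pi ^ 2 ≤ 10 := by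
    have := Real.pi_lt_d2
    have := Real.pi_pos
    nlinarith
  linarith

lemma cs_bd (P : Finset ℕ) (y : ℕ → ℝ) : (∑ p ∈ P, |y p| * (1 / (p : ℝ) ^ 2)) ^ 2 ≤
    2 * ∑ p ∈ P, y p ^ 2 * (1 / (p : ℝ) ^ 2) := by
  have h1 : (∑ p ∈ P, |y p| * (1 / (p : ℝ) ^ 2)) ^ 2 ≤
      (∑ p ∈ P, (1 / (p : ℝ)) ^ 2) * ∑ p ∈ P, (|y p| * (1 / (p : ℝ))) ^ 2 := by
    refine le_trans (le_of_eq ?_) (Finset.sum_mul_sq_le_sq_mul_sq P _ _)
    congr 1
    exact Finset.sum_congr rfl fun p _ => by ring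
  have h2 : ∑ p ∈ P, (1 / (p : ℝ)) ^ 2 ≤ 2 := by
    refine le_trans (le_of_eq ?_) (sum_inv_sq P)
    exact Finset.sum_congr rfl fun p _ => by rw [one_div_pow]
  have h3 : ∑ p ∈ P, (|y p| * (1 / (p : ℝ))) ^ 2 = ∑ p ∈ P, y p ^ 2 * (1 / (p : ℝ) ^ 2) := by
    refine Finset.sum_congr rfl fun p _ => ?_
    rw [mul_pow, sq_abs, one_div_pow]
  rw [h3] at h1
  refine h1.trans (mul_le_mul_of_nonneg_right h2 ?_)
  exact Finset.sum_nonneg fun p _ => by positivity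

/-- the weight of a square class -/
noncomputable def Aw (τ X : ℝ) (Bs : Finset ℕ) (k : ℤ) : ℝ :=
  ∑ b ∈ Bs, Wt τ ((k * (b : ℤ) ^ 2 : ℤ) / X)

theorem PSide (hgd : S_gd) (hex : S_exch) (hpois : S_pois) (hsv : S_sieve) (hDup : S_Dup)
    {Q : ℕ} (hQ : Squarefree Q) {P : Finset ℕ} (hP : PSet Q P) (y : ℕ → ℝ) (a : ℝ) {τ X K δ : ℝ}
    (hτ : 1 ≤ τ) (hX : 1 ≤ X) (hδ : 0 < δ) {B : ℕ} (I : Finset ℤ)
    (hI : ∀ m ∈ I, (∃ (k : ℤ) (b : ℕ), Squarefree k ∧ 1 ≤ b ∧ b ≤ B ∧ m = k * (b : ℤ) ^ 2) ∧ Free Q m)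
    (Bs : Finset ℕ) (hBs : ∀ b ∈ Bs, B < b ∧ b.Coprime Q) :
    ∑ m ∈ I, Wt τ (m / X) * GG P y a τ (js m) +
      (1 - δ) * ∑ k' ∈ Kset K, Aw τ X Bs k' * GG P y a τ (js k') ≤
    ∑' m : ℤ, fr Q m * Wt τ (m / X) * GG P y a τ (js m) +
      (1 + 1 / δ) * (X * Real.exp (1 / (4 * τ ^ 2)) * (3 * ∑ p ∈ P, y p ^ 2 * (1 / (p : ℝ) ^ 2))) := by
  have hτ0 : 0 < τ := by linarith
  have hX0 : 0 < X := by linarith
  classical
  set M2 : Finset ℤ := ((Kset K) ×ˢ Bs).image (fun x => x.1 * (x.2 : ℤ) ^ 2) with hM2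
  have hinj : Set.InjOn (fun x : ℤ × ℕ => x.1 * (x.2 : ℤ) ^ 2) ((Kset K) ×ˢ Bs : Finset (ℤ × ℕ)) := by
    rintro ⟨k, b⟩ hx ⟨k', b'⟩ hx' h
    rw [Finset.mem_coe, Finset.mem_product] at hx hx'
    simp only at h hx hx'
    have b1 : 1 ≤ b := by have := (hBs b hx.2).1; omega
    have b2 : 1 ≤ b' := by have := (hBs b' hx'.2).1; omega
    obtain ⟨e1, e2⟩ := sq_unique (mem_Kset.1 hx.1).1 (mem_Kset.1 hx'.1).1 b1 b2 h
    rw [e1, e2]
  have hdisj : Disjoint I M2 := by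
    rw [Finset.disjoint_left]
    intro m hm hm2
    obtain ⟨⟨k, b, h1, h2, h3, h4⟩, _⟩ := hI m hm
    rw [hM2, Finset.mem_image] at hm2
    obtain ⟨⟨k', b'⟩, hx, hxe⟩ := hm2
    rw [Finset.mem_product] at hx
    simp only at hx hxe
    have b2 := (hBs b' hx.2).1
    obtain ⟨_, e2⟩ := sq_unique (mem_Kset.1 hx.1).1 h1 (by omega : 1 ≤ b') h2 (hxe.trans h4)
    omega
  obtain ⟨hs, _, _⟩ := D2 hpois hex hsv hQ hP y a hτ0 hX0
  have hGG : ∀ m : ℤ, 0 ≤ GG P y a τ (js m) := fun m => GG_nonneg hgd P y a hτ0 _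
  have hW : ∀ m : ℤ, 0 ≤ Wt τ (m / X) := fun m => Wt_nonneg hτ0.le _
  have h1 : ∑ m ∈ I ∪ M2, fr Q m * Wt τ (m / X) * GG P y a τ (js m) ≤
      ∑' m : ℤ, fr Q m * Wt τ (m / X) * GG P y a τ (js m) :=
    hs.sum_le_tsum _ fun m _ => mul_nonneg (mul_nonneg (fr_nonneg Q m) (hW m)) (hGG m)
  rw [Finset.sum_union hdisj] at h1
  have h2 : ∑ m ∈ I, fr Q m * Wt τ (m / X) * GG P y a τ (js m) =
      ∑ m ∈ I, Wt τ (m / X) * GG P y a τ (js m) := by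
    refine Finset.sum_congr rfl fun m hm => ?_
    unfold fr
    rw [if_pos (hI m hm).2, one_mul]
  have h3 : ∑ m ∈ M2, fr Q m * Wt τ (m / X) * GG P y a τ (js m) =
      ∑ x ∈ (Kset K) ×ˢ Bs, Wt τ ((x.1 * (x.2 : ℤ) ^ 2 : ℤ) / X) *
        GG P y a τ (js (x.1 * (x.2 : ℤ) ^ 2)) := by
    rw [hM2, Finset.sum_image hinj]
    refine Finset.sum_congr rfl fun x hx => ?_
    rw [Finset.mem_product] at hx
    unfold fr
    rw [if_pos (free_sq (mem_Kset.1 hx.1).1 (hBs x.2 hx.2).2), one_mul]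
  -- lower bound of each term
  have h4 : ∀ x ∈ (Kset K) ×ˢ Bs, (1 - δ) * (Wt τ ((x.1 * (x.2 : ℤ) ^ 2 : ℤ) / X) *
      GG P y a τ (js x.1)) - (1 + 1 / δ) * (Wt τ ((x.1 * (x.2 : ℤ) ^ 2 : ℤ) / X) *
        (∑ p ∈ P, |y p| * ip p (x.1 * (x.2 : ℤ) ^ 2)) ^ 2) ≤
      Wt τ ((x.1 * (x.2 : ℤ) ^ 2 : ℤ) / X) * GG P y a τ (js (x.1 * (x.2 : ℤ) ^ 2)) := by
    intro x _
    have a1 := GG_lower hgd P y a hτ0 hδ (js (x.1 * (x.2 : ℤ) ^ 2)) (js x.1)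
    have a2 := GG_le P y a τ (fun p => js (x.1 * (x.2 : ℤ) ^ 2) p - js x.1 p)
    have a3 : (∑ p ∈ P, |y p| * |js (x.1 * (x.2 : ℤ) ^ 2) p - js x.1 p|) ^ 2 ≤
        (∑ p ∈ P, |y p| * ip p (x.1 * (x.2 : ℤ) ^ 2)) ^ 2 := by
      refine pow_le_pow_left₀ (Finset.sum_nonneg fun p _ => by positivity) ?_ 2
      exact Finset.sum_le_sum fun p hp =>
        mul_le_mul_of_nonneg_left (js_diff (hP p hp).1) (abs_nonneg _)
    have a4 : (1 + 1 / δ) * GG P y a τ (fun p => js (x.1 * (x.2 : ℤ) ^ 2) p - js x.1 p) ≤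
        (1 + 1 / δ) * (∑ p ∈ P, |y p| * ip p (x.1 * (x.2 : ℤ) ^ 2)) ^ 2 :=
      mul_le_mul_of_nonneg_left (a2.trans a3) (by positivity)
    have a5 : (1 - δ) * GG P y a τ (js x.1) - (1 + 1 / δ) *
        (∑ p ∈ P, |y p| * ip p (x.1 * (x.2 : ℤ) ^ 2)) ^ 2 ≤
        GG P y a τ (js (x.1 * (x.2 : ℤ) ^ 2)) := by linarith
    have a6 := mul_le_mul_of_nonneg_left a5 (hW (x.1 * (x.2 : ℤ) ^ 2))
    refine le_trans (le_of_eq ?_) a6
    ring
  have h5 := Finset.sum_le_sum h4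
  rw [Finset.sum_sub_distrib, ← Finset.mul_sum, ← Finset.mul_sum] at h5
  have h6 : ∑ x ∈ (Kset K) ×ˢ Bs, Wt τ ((x.1 * (x.2 : ℤ) ^ 2 : ℤ) / X) * GG P y a τ (js x.1) =
      ∑ k' ∈ Kset K, Aw τ X Bs k' * GG P y a τ (js k') := by
    rw [Finset.sum_product]
    refine Finset.sum_congr rfl fun k' _ => ?_
    unfold Aw
    rw [Finset.sum_mul]
  have h7 : ∑ x ∈ (Kset K) ×ˢ Bs, Wt τ ((x.1 * (x.2 : ℤ) ^ 2 : ℤ) / X) *
        (∑ p ∈ P, |y p| * ip p (x.1 * (x.2 : ℤ) ^ 2)) ^ 2 ≤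
      X * Real.exp (1 / (4 * τ ^ 2)) * (3 * ∑ p ∈ P, y p ^ 2 * (1 / (p : ℝ) ^ 2)) := by
    have e1 : ∑ x ∈ (Kset K) ×ˢ Bs, Wt τ ((x.1 * (x.2 : ℤ) ^ 2 : ℤ) / X) *
        (∑ p ∈ P, |y p| * ip p (x.1 * (x.2 : ℤ) ^ 2)) ^ 2 =
        ∑ m ∈ M2, Wt τ (m / X) * (∑ p ∈ P, |y p| * ip p m) ^ 2 := by
      rw [hM2, Finset.sum_image hinj]
    have e2 : ∑ m ∈ M2, Wt τ (m / X) * (∑ p ∈ P, |y p| * ip p m) ^ 2 =
        ∑ p ∈ P, ∑ p' ∈ P, |y p| * |y p'| * ∑ m ∈ M2, Wt τ (m / X) * (ip p m * ip p' m) := by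
      have e3 : ∀ m ∈ M2, Wt τ (m / X) * (∑ p ∈ P, |y p| * ip p m) ^ 2 =
          ∑ p ∈ P, ∑ p' ∈ P, |y p| * |y p'| * (Wt τ (m / X) * (ip p m * ip p' m)) := by
        intro m _
        rw [pow_two, Finset.sum_mul_sum, Finset.mul_sum]
        refine Finset.sum_congr rfl fun p _ => ?_
        rw [Finset.mul_sum]
        exact Finset.sum_congr rfl fun p' _ => by ring
      rw [Finset.sum_congr rfl e3, Finset.sum_comm]
      refine Finset.sum_congr rfl fun p _ => ?_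
      rw [Finset.sum_comm]
      exact Finset.sum_congr rfl fun p' _ => (Finset.mul_sum _ _ _).symm
    have hM0 : ∀ m ∈ M2, m ≠ 0 := by
      intro m hm
      rw [hM2, Finset.mem_image] at hm
      obtain ⟨⟨k', b'⟩, hx, rfl⟩ := hm
      rw [Finset.mem_product] at hx
      simp only at hx ⊢
      have b2 := (hBs b' hx.2).1
      exact sq_ne (mem_Kset.1 hx.1).1 (by omega)
    rw [e1, e2]
    set E := X * Real.exp (1 / (4 * τ ^ 2)) with hE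
    have hE0 : 0 ≤ E := by positivity
    calc _ ≤ ∑ p ∈ P, ∑ p' ∈ P, |y p| * |y p'| * (E *
          ((if p = p' then 1 / (p : ℝ) ^ 2 else 0) + 1 / (p : ℝ) ^ 2 * (1 / (p' : ℝ) ^ 2))) := by
          refine Finset.sum_le_sum fun p hp => Finset.sum_le_sum fun p' hp' => ?_
          exact mul_le_mul_of_nonneg_left (pair_bd hDup hP hex hτ hX M2 hM0 hp hp') (by positivity)
      _ = E * (∑ p ∈ P, y p ^ 2 * (1 / (p : ℝ) ^ 2) + (∑ p ∈ P, |y p| * (1 / (p : ℝ) ^ 2)) ^ 2) := by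
          rw [pow_two (∑ p ∈ P, |y p| * (1 / (p : ℝ) ^ 2)), Finset.sum_mul_sum,
            ← Finset.sum_add_distrib, Finset.mul_sum]
          refine Finset.sum_congr rfl fun p hp => ?_
          have e4 : ∀ p' ∈ P, |y p| * |y p'| * (E *
              ((if p = p' then 1 / (p : ℝ) ^ 2 else 0) + 1 / (p : ℝ) ^ 2 * (1 / (p' : ℝ) ^ 2))) =
              (if p = p' then E * (y p ^ 2 * (1 / (p : ℝ) ^ 2)) else 0) +
              E * (|y p| * (1 / (p : ℝ) ^ 2) * (|y p'| * (1 / (p' : ℝ) ^ 2))) := by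
            intro p' _
            by_cases h : p = p'
            · subst h
              rw [if_pos rfl, if_pos rfl, ← sq_abs (y p)]
              ring
            · rw [if_neg h, if_neg h]
              ring
          rw [Finset.sum_congr rfl e4, Finset.sum_add_distrib, Finset.sum_ite_eq, if_pos hp,
            ← Finset.mul_sum]
          ring
      _ ≤ E * (3 * ∑ p ∈ P, y p ^ 2 * (1 / (p : ℝ) ^ 2)) := by
          refine mul_le_mul_of_nonneg_left ?_ hE0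
          have := cs_bd P y
          linarith
  have h8 := mul_le_mul_of_nonneg_left h7 (show 0 ≤ 1 + 1 / δ by positivity)
  rw [h2, h3] at h1
  rw [h6] at h5
  linarith

end Pool.Agent.N880.QF
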