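import Pool.Agent.N880.QF.Sqc

/-! # Pointwise bound on the dual side -/

set_option autoImplicit false

open Complex Filter Topology MeasureTheory Set
open Pool.Agent.H306R2.RZ (js)
open Pool.Agent.H413R2.RZ4HP (js_mul js_sq js_abs_le sqf_unique_int)

namespace Pool.Agent.N880.QF

/-- number of divisors -/
noncomputable def nQ (Q : ℕ) : ℝ := (Q.divisors.card : ℝ)

lemma nQ_nonneg (Q : ℕ) : 0 ≤ nQ Q := Nat.cast_nonneg _

/-- the Gaussians -/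
noncomputable def ga (X s : ℝ) (d : ℕ) (k : ℤ) : ℝ :=
  Real.exp (-(Real.pi * (k * (X / (d : ℝ) ^ 2 * Real.exp (-s))) ^ 2))

lemma ga_nonneg (X s : ℝ) (d : ℕ) (k : ℤ) : 0 ≤ ga X s d k := (Real.exp_pos _).le

lemma Fs_eq (Q : ℕ) (X s : ℝ) (k : ℤ) : Fs Q X s k = Real.exp (-(s / 2)) * ∑ d ∈ Q.divisors,
    mu d * (X / (d : ℝ) ^ 2) * ga X s d k := rfl

lemma Fs_abs (Q : ℕ) {X : ℝ} (hX : 0 < X) (s : ℝ) (k : ℤ) : |Fs Q X s k| ≤
    Real.exp (-(s / 2)) * ∑ d ∈ Q.divisors, (X / (d : ℝ) ^ 2) * ga X s d k := by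
  rw [Fs_eq, abs_mul, Real.abs_exp]
  refine mul_le_mul_of_nonneg_left ?_ (Real.exp_pos _).le
  refine (Finset.abs_sum_le_sum_abs _ _).trans (Finset.sum_le_sum fun d hd => ?_)
  have h2 : 0 ≤ X / (d : ℝ) ^ 2 := by positivity
  rw [abs_mul, abs_mul, abs_of_nonneg (ga_nonneg X s d k), abs_of_nonneg h2]
  have h1 := mu_abs d
  have h3 := ga_nonneg X s d k
  calc |mu d| * (X / (d : ℝ) ^ 2) * _ ≤ 1 * (X / (d : ℝ) ^ 2) * _ := by gcongr
    _ = _ := by rw [one_mul]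

lemma Yd_pos {Q d : ℕ} {X : ℝ} (hX : 0 < X) (s : ℝ) (hd : d ∈ Q.divisors) :
    0 < X / (d : ℝ) ^ 2 * Real.exp (-s) := by
  have : (0 : ℝ) < d := by exact_mod_cast Nat.pos_of_mem_divisors hd
  positivity

lemma ga_summable (hgs : S_gs) {Q d : ℕ} {X : ℝ} (hX : 0 < X) (s : ℝ) (hd : d ∈ Q.divisors) :
    Summable (fun k : ℤ => ga X s d k) := (hgs.1 _ (Yd_pos hX s hd)).1

/-- general bound of a part of the dual sum -/
lemma Bgen (hgs : S_gs) {Q : ℕ} {X : ℝ} (hX : 0 < X) (s : ℝ) (S : ℤ → Prop) [DecidablePred S] :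
    Summable (fun k : ℤ => if S k then |Fs Q X s k| else 0) ∧
    ∑' k : ℤ, (if S k then |Fs Q X s k| else 0) ≤ Real.exp (-(s / 2)) *
      ∑ d ∈ Q.divisors, (X / (d : ℝ) ^ 2) * ∑' k : ℤ, (if S k then ga X s d k else 0) := by
  have hsd : ∀ d ∈ Q.divisors, Summable (fun k : ℤ => if S k then ga X s d k else 0) := by
    intro d hd
    refine Summable.of_nonneg_of_le (fun k => ?_) (fun k => ?_) (ga_summable hgs hX s hd)
    · split_ifs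
      · exact ga_nonneg X s d k
      · exact le_rfl
    · split_ifs
      · exact le_rfl
      · exact ga_nonneg X s d k
  have hs1 : Summable (fun k : ℤ => Real.exp (-(s / 2)) * ∑ d ∈ Q.divisors, (X / (d : ℝ) ^ 2) *
      (if S k then ga X s d k else 0)) := (summable_sum fun d hd => (hsd d hd).mul_left _).mul_left _
  have hle : ∀ k : ℤ, (if S k then |Fs Q X s k| else 0) ≤ Real.exp (-(s / 2)) *
      ∑ d ∈ Q.divisors, (X / (d : ℝ) ^ 2) * (if S k then ga X s d k else 0) := by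
    intro k
    split_ifs
    · exact Fs_abs Q hX s k
    · simp
  have hs2 : Summable (fun k : ℤ => if S k then |Fs Q X s k| else 0) := by
    refine Summable.of_nonneg_of_le (fun k => ?_) hle hs1
    split_ifs
    · exact abs_nonneg _
    · exact le_rfl
  refine ⟨hs2, (Summable.tsum_le_tsum hle hs2 hs1).trans (le_of_eq ?_)⟩
  rw [tsum_mul_left, Summable.tsum_finsetSum (fun d hd => (hsd d hd).mul_left _)]
  congr 1
  exact Finset.sum_congr rfl fun d _ => tsum_mul_left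

lemma B1 (hgs : S_gs) {Q : ℕ} {X : ℝ} (hX : 0 < X) (s : ℝ) :
    ∑' k : ℤ, (if k ≠ 0 then |Fs Q X s k| else 0) ≤ nQ Q * Real.exp (1 / 2 * s) := by
  refine (Bgen hgs hX s (fun k => k ≠ 0)).2.trans ?_
  have h1 : ∀ d ∈ Q.divisors, (X / (d : ℝ) ^ 2) * ∑' k : ℤ, (if k ≠ 0 then ga X s d k else 0) ≤
      Real.exp s := by
    intro d hd
    have hY := Yd_pos hX s hd
    have h2 := (hgs.1 _ hY).2.1
    have h3 : ∑' k : ℤ, (if k ≠ 0 then ga X s d k else 0) ≤ 1 / (X / (d : ℝ) ^ 2 * Real.exp (-s)) := by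
      refine le_trans (le_of_eq ?_) h2
      refine tsum_congr fun k => ?_
      by_cases h : k = 0
      · simp [h]
      · rw [if_pos h, if_neg h]; rfl
    have hd0 : (0 : ℝ) < d := by exact_mod_cast Nat.pos_of_mem_divisors hd
    calc _ ≤ (X / (d : ℝ) ^ 2) * (1 / (X / (d : ℝ) ^ 2 * Real.exp (-s))) := by gcongr
      _ = Real.exp s := by
        rw [Real.exp_neg]
        field_simp
  have h4 := Finset.sum_le_sum h1
  rw [Finset.sum_const, nsmul_eq_mul] at h4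
  refine (mul_le_mul_of_nonneg_left h4 (Real.exp_pos _).le).trans (le_of_eq ?_)
  unfold nQ
  rw [show (1 : ℝ) / 2 * s = -(s / 2) + s by ring, Real.exp_add]
  ring

lemma pow_alg {X s C : ℝ} (hX : 0 < X) {d N : ℕ} (hd : 0 < (d : ℝ)) (hN : 1 ≤ N) :
    (X / (d : ℝ) ^ 2) * (C / (X / (d : ℝ) ^ 2 * Real.exp (-s)) ^ N) =
      C * ((d : ℝ) ^ 2) ^ (N - 1) * (X / X ^ N) * Real.exp (N * s) := by
  obtain ⟨n, rfl⟩ : ∃ n, N = n + 1 := ⟨N - 1, by omega⟩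
  rw [Nat.add_sub_cancel]
  have h1 : Real.exp (((n + 1 : ℕ) : ℝ) * s) = (Real.exp s) ^ (n + 1) := by
    rw [Real.exp_nat_mul]
  rw [h1, Real.exp_neg, mul_pow, div_pow, inv_pow]
  have h2 := Real.exp_pos s
  field_simp
  ring

/-- the constant in the tails -/
noncomputable def CQ (Q N : ℕ) (C : ℝ) : ℝ := nQ Q * (C * ((Q : ℝ) ^ 2) ^ (N - 1))

lemma Btail {Q : ℕ} (hQ : Q ≠ 0) {X : ℝ} (hX : 0 < X) (s : ℝ) {N : ℕ} (hN : 2 ≤ N) {C R : ℝ}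
    (hC : 0 < C) (hR : 0 ≤ R)
    (f : ℕ → ℝ) (hf : ∀ d ∈ Q.divisors, f d ≤ C / (X / (d : ℝ) ^ 2 * Real.exp (-s)) ^ N * R) :
    Real.exp (-(s / 2)) * ∑ d ∈ Q.divisors, (X / (d : ℝ) ^ 2) * f d ≤
      CQ Q N C * (X / X ^ N) * Real.exp ((N - 1 / 2) * s) * R := by
  have h1 : ∀ d ∈ Q.divisors, (X / (d : ℝ) ^ 2) * f d ≤
      C * ((Q : ℝ) ^ 2) ^ (N - 1) * (X / X ^ N) * Real.exp (N * s) * R := by
    intro d hd
    have hd0 : (0 : ℝ) < d := by exact_mod_cast Nat.pos_of_mem_divisors hd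
    have hdQ : (d : ℝ) ≤ Q := by
      exact_mod_cast Nat.le_of_dvd (Nat.pos_of_ne_zero hQ) (Nat.dvd_of_mem_divisors hd)
    calc _ ≤ (X / (d : ℝ) ^ 2) * (C / (X / (d : ℝ) ^ 2 * Real.exp (-s)) ^ N * R) := by
          gcongr
          exact hf d hd
      _ = C * ((d : ℝ) ^ 2) ^ (N - 1) * (X / X ^ N) * Real.exp (N * s) * R := by
          rw [← mul_assoc, pow_alg hX hd0 (by omega)]
      _ ≤ _ := by gcongr
  have h4 := Finset.sum_le_sum h1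
  rw [Finset.sum_const, nsmul_eq_mul] at h4
  refine (mul_le_mul_of_nonneg_left h4 (Real.exp_pos _).le).trans (le_of_eq ?_)
  unfold CQ nQ
  rw [show ((N : ℝ) - 1 / 2) * s = -(s / 2) + N * s by ring, Real.exp_add]
  ring

lemma B2 (hgs : S_gs) {Q : ℕ} (hQ : Q ≠ 0) {N : ℕ} (hN : 2 ≤ N) : ∃ C : ℝ, 0 < C ∧
    (∀ (X s K : ℝ), 0 < X → 1 ≤ K →
      ∑' k : ℤ, (if K ≤ |(k : ℝ)| then |Fs Q X s k| else 0) ≤
        CQ Q N C * (X / X ^ N) * Real.exp ((N - 1 / 2) * s) * (K ^ 2 / K ^ N)) ∧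
    (∀ (X s : ℝ) (D : ℕ), 0 < X → 1 ≤ D →
      ∑' k : ℤ, (if k ≠ 0 ∧ (D : ℤ) ∣ k then |Fs Q X s k| else 0) ≤
        CQ Q N C * (X / X ^ N) * Real.exp ((N - 1 / 2) * s) * (1 / (D : ℝ) ^ N)) := by
  obtain ⟨C, hC, h1, h2⟩ := hgs.2 N hN
  refine ⟨C, hC, ?_, ?_⟩
  · intro X s K hX hK
    refine (Bgen hgs hX s (fun k => K ≤ |(k : ℝ)|)).2.trans ?_
    refine Btail hQ hX s hN hC (by positivity) _ fun d hd => ?_
    refine (h1 _ K (Yd_pos hX s hd) hK).trans (le_of_eq ?_)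
    ring
  · intro X s D hX hD
    refine (Bgen hgs hX s (fun k => k ≠ 0 ∧ (D : ℤ) ∣ k)).2.trans ?_
    refine Btail hQ hX s hN hC (by positivity) _ fun d hd => ?_
    refine (h2 _ D (Yd_pos hX s hd) hD).trans (le_of_eq ?_)
    rw [mul_pow]
    have : (0 : ℝ) < D := by exact_mod_cast hD
    have := Yd_pos hX s hd
    field_simp

lemma ga_sq (X s : ℝ) (d : ℕ) (k : ℤ) (j : ℕ) : ga X s d (k * (((j + 1 : ℕ)) : ℤ) ^ 2) =
    Real.exp (-(Real.pi * (((j : ℝ) + 1) ^ 2 * (|(k : ℝ)| * (X / (d : ℝ) ^ 2 * Real.exp (-s)))) ^ 2)) := by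
  unfold ga
  congr 3
  push_cast
  rw [mul_pow, mul_pow, mul_pow _ (|(k : ℝ)| * (X / (d : ℝ) ^ 2 * Real.exp (-s))),
    mul_pow |(k : ℝ)|, sq_abs]
  ring

lemma I2_alg {k' : ℤ} (hk : k' ≠ 0) {X : ℝ} (hX : 0 < X) (s : ℝ) {d : ℕ} (hd : 0 < (d : ℝ)) :
    Real.exp (-(s / 2)) * ((X / (d : ℝ) ^ 2) *
      (I2 / Real.sqrt (|(k' : ℝ)| * (X / (d : ℝ) ^ 2 * Real.exp (-s))))) =
      I2 * Real.sqrt (X / |(k' : ℝ)|) / d := by
  have hk0 : 0 < |(k' : ℝ)| := abs_pos.2 (by exact_mod_cast hk)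
  have e1 : |(k' : ℝ)| * (X / (d : ℝ) ^ 2 * Real.exp (-s)) =
      (|(k' : ℝ)| * X) * ((Real.exp (-(s / 2)) / d) ^ 2) := by
    have : Real.exp (-s) = Real.exp (-(s / 2)) ^ 2 := by
      rw [← Real.exp_nat_mul]
      congr 1
      push_cast
      ring
    rw [this]
    field_simp
  have hE := Real.exp_pos (-(s / 2))
  rw [e1, Real.sqrt_mul (by positivity), Real.sqrt_sq (by positivity), Real.sqrt_div hX.le,
    Real.sqrt_mul hk0.le]
  have h1 : 0 < Real.sqrt X := Real.sqrt_pos.2 hX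
  have h2 : 0 < Real.sqrt |(k' : ℝ)| := Real.sqrt_pos.2 hk0
  field_simp
  rw [Real.sq_sqrt hX.le]
  ring

section
variable (hsq : S_sq) (hphi : S_phi)
include hsq hphi

lemma ga_sum {Q : ℕ} {k' : ℤ} (hk : k' ≠ 0) {X : ℝ} (hX : 0 < X) (s : ℝ) {d : ℕ}
    (hd : d ∈ Q.divisors) :
    Summable (fun j : ℕ => ga X s d (k' * (((j + 1 : ℕ)) : ℤ) ^ 2)) ∧
    ∑' j : ℕ, ga X s d (k' * (((j + 1 : ℕ)) : ℤ) ^ 2) =
      I2 / Real.sqrt (|(k' : ℝ)| * (X / (d : ℝ) ^ 2 * Real.exp (-s))) -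
        phi (|(k' : ℝ)| * (X / (d : ℝ) ^ 2 * Real.exp (-s))) := by
  obtain ⟨c0, hc0, h⟩ := hphi
  have hk0 : 0 < |(k' : ℝ)| := abs_pos.2 (by exact_mod_cast hk)
  have hz : 0 < |(k' : ℝ)| * (X / (d : ℝ) ^ 2 * Real.exp (-s)) := mul_pos hk0 (Yd_pos hX s hd)
  have h1 := (h _ hz).1
  simp_rw [ga_sq]
  refine ⟨h1, ?_⟩
  have h2 := (hsq.2.2 _ hz).1
  have h3 : phi (|(k' : ℝ)| * (X / (d : ℝ) ^ 2 * Real.exp (-s))) =
    (∫ x in Ioi (0 : ℝ), Real.exp (-(Real.pi * (x ^ 2 *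
      (|(k' : ℝ)| * (X / (d : ℝ) ^ 2 * Real.exp (-s)))) ^ 2))) -
    ∑' j : ℕ, Real.exp (-(Real.pi * (((j : ℝ) + 1) ^ 2 *
      (|(k' : ℝ)| * (X / (d : ℝ) ^ 2 * Real.exp (-s)))) ^ 2)) := rfl
  rw [h2] at h3
  linarith

lemma Fs_sq {Q : ℕ} {k' : ℤ} (hk : k' ≠ 0) {X : ℝ} (hX : 0 < X) (s : ℝ) :
    Summable (fun j : ℕ => |Fs Q X s (k' * (((j + 1 : ℕ)) : ℤ) ^ 2)|) ∧
    ∑' j : ℕ, Fs Q X s (k' * (((j + 1 : ℕ)) : ℤ) ^ 2) = rhoQ Q * I2 * Real.sqrt (X / |(k' : ℝ)|) -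
      X * Real.exp (-(s / 2)) * ∑ d ∈ Q.divisors, mu d / (d : ℝ) ^ 2 *
        phi (|(k' : ℝ)| * (X * Real.exp (-s)) / (d : ℝ) ^ 2) ∧
    ∑' j : ℕ, |Fs Q X s (k' * (((j + 1 : ℕ)) : ℤ) ^ 2)| ≤
      nQ Q * I2 * Real.sqrt (X / |(k' : ℝ)|) := by
  have hsum : ∀ d ∈ Q.divisors, Summable (fun j : ℕ => ga X s d (k' * (((j + 1 : ℕ)) : ℤ) ^ 2)) :=
    fun d hd => (ga_sum hsq hphi hk hX s hd).1
  have hs1 : Summable (fun j : ℕ => Real.exp (-(s / 2)) * ∑ d ∈ Q.divisors, (X / (d : ℝ) ^ 2) *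
      ga X s d (k' * (((j + 1 : ℕ)) : ℤ) ^ 2)) :=
    (summable_sum fun d hd => (hsum d hd).mul_left _).mul_left _
  have hs2 : Summable (fun j : ℕ => |Fs Q X s (k' * (((j + 1 : ℕ)) : ℤ) ^ 2)|) :=
    Summable.of_nonneg_of_le (fun j => abs_nonneg _) (fun j => Fs_abs Q hX s _) hs1
  refine ⟨hs2, ?_, ?_⟩
  · simp_rw [Fs_eq]
    rw [tsum_mul_left, Summable.tsum_finsetSum (fun d hd => (hsum d hd).mul_left _)]
    unfold rhoQ
    rw [Finset.sum_mul, Finset.sum_mul, Finset.mul_sum, Finset.mul_sum, ← Finset.sum_sub_distrib]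
    refine Finset.sum_congr rfl fun d hd => ?_
    have hd0 : (0 : ℝ) < d := by exact_mod_cast Nat.pos_of_mem_divisors hd
    rw [tsum_mul_left, (ga_sum hsq hphi hk hX s hd).2]
    have h1 := I2_alg hk hX s hd0
    have e1 : |(k' : ℝ)| * (X / (d : ℝ) ^ 2 * Real.exp (-s)) =
        |(k' : ℝ)| * (X * Real.exp (-s)) / (d : ℝ) ^ 2 := by ring
    rw [mul_sub, mul_sub]
    have e2 : Real.exp (-(s / 2)) * (mu d * (X / (d : ℝ) ^ 2) *
        (I2 / Real.sqrt (|(k' : ℝ)| * (X / (d : ℝ) ^ 2 * Real.exp (-s))))) =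
        mu d * (I2 * Real.sqrt (X / |(k' : ℝ)|) / d) := by
      rw [← h1]; ring
    rw [e2, e1]
    unfold mu
    field_simp
  · refine (Summable.tsum_le_tsum (fun j => Fs_abs Q hX s _) hs2 hs1).trans ?_
    rw [tsum_mul_left, Summable.tsum_finsetSum (fun d hd => (hsum d hd).mul_left _), Finset.mul_sum]
    have h1 : ∀ d ∈ Q.divisors, Real.exp (-(s / 2)) * ∑' j : ℕ, X / (d : ℝ) ^ 2 *
        ga X s d (k' * (((j + 1 : ℕ)) : ℤ) ^ 2) ≤ I2 * Real.sqrt (X / |(k' : ℝ)|) := by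
      intro d hd
      have hd0 : (0 : ℝ) < d := by exact_mod_cast Nat.pos_of_mem_divisors hd
      have hd1 : (1 : ℝ) ≤ d := by exact_mod_cast Nat.pos_of_mem_divisors hd
      have hk0 : 0 < |(k' : ℝ)| := abs_pos.2 (by exact_mod_cast hk)
      have hph := (hsq.2.2 _ (mul_pos hk0 (Yd_pos hX s hd))).2.1
      have hI := hsq.1
      rw [tsum_mul_left, (ga_sum hsq hphi hk hX s hd).2]
      calc _ ≤ Real.exp (-(s / 2)) * ((X / (d : ℝ) ^ 2) *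
            (I2 / Real.sqrt (|(k' : ℝ)| * (X / (d : ℝ) ^ 2 * Real.exp (-s))))) := by
            gcongr
            linarith
        _ = I2 * Real.sqrt (X / |(k' : ℝ)|) / d := I2_alg hk hX s hd0
        _ ≤ _ := div_le_self (by positivity) hd1
    have h4 := Finset.sum_le_sum h1
    rw [Finset.sum_const, nsmul_eq_mul] at h4
    refine h4.trans (le_of_eq ?_)
    unfold nQ
    ring

end

end Pool.Agent.N880.QF
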