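import Pool.Agent.N880.QF.Pw

/-! # Pointwise bound on the dual side, second part -/

set_option autoImplicit false

open Complex Filter Topology MeasureTheory Set
open Pool.Agent.H306R2.RZ (js)
open Pool.Agent.H413R2.RZ4HP (js_mul js_sq js_abs_le sqf_unique_int)

namespace Pool.Agent.N880.QF

/-- the diagonal density -/
noncomputable def dg1 (P : Finset ℕ) (y : ℕ → ℝ) (τ s : ℝ) : ℝ :=
  ∑ p ∈ P, y p ^ 2 * gd τ (2 * Real.log p - s)

lemma dg1_nonneg (P : Finset ℕ) (y : ℕ → ℝ) {τ : ℝ} (hτ : 0 ≤ τ) (s : ℝ) : 0 ≤ dg1 P y τ s :=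
  Finset.sum_nonneg fun p _ => mul_nonneg (sq_nonneg _) (gd_nonneg hτ _)

lemma qq_le_dg (P : Finset ℕ) (y : ℕ → ℝ) (a : ℝ) {τ : ℝ} (hτ : 0 ≤ τ) (z : ℕ → ℝ)
    (hz : ∀ p, |z p| ≤ 1) (s : ℝ) : qq P y a τ z s ≤ (P.card : ℝ) * dg1 P y τ s := by
  refine (qq_le P y a hτ z s).trans ?_
  refine mul_le_mul_of_nonneg_left (Finset.sum_le_sum fun p _ => ?_) (Nat.cast_nonneg _)
  have h1 : z p ^ 2 ≤ 1 := by
    rw [← sq_abs]
    exact pow_le_one₀ (abs_nonneg _) (hz p)
  have h2 := gd_nonneg hτ (2 * Real.log p - s)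
  have h3 : y p ^ 2 * z p ^ 2 ≤ y p ^ 2 * 1 := mul_le_mul_of_nonneg_left h1 (sq_nonneg _)
  calc _ ≤ (y p ^ 2 * 1) * gd τ (2 * Real.log p - s) := mul_le_mul_of_nonneg_right h3 h2
    _ = _ := by rw [mul_one]

/-- the error function of one prime -/
noncomputable def Ep (Q : ℕ) (C : ℝ) (N : ℕ) (δ X K n s0 : ℝ) (p : ℕ) (s : ℝ) : ℝ :=
  nQ Q * Real.exp (1 / 2 * s) + n * (CQ Q N C * (X / X ^ N) * Real.exp ((N - 1 / 2) * s) *
    (K ^ 2 / K ^ N + (1 + 1 / δ) * (1 / ((p ^ 2 : ℕ) : ℝ) ^ N))) +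
    5 * K * (2 * nQ Q * Real.sqrt X) * n * (Real.exp (N * s) * Real.exp (-(N * s0)))

lemma real_bd {F qz qw qd G δ : ℝ} (h : |qz - qw| ≤ δ * qw + (1 + 1 / δ) * qd) :
    F * (qz - G) ≤ |F| * |G| + ((F + δ * |F|) * qw + (1 + 1 / δ) * (|F| * qd)) := by
  have h1 : -(F * G) ≤ |F| * |G| := by
    rw [← abs_mul]
    exact neg_le_abs _
  have h2 : F * (qz - qw) ≤ |F| * (δ * qw + (1 + 1 / δ) * qd) := by
    calc F * (qz - qw) ≤ |F * (qz - qw)| := le_abs_self _
      _ = |F| * |qz - qw| := abs_mul _ _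
      _ ≤ _ := mul_le_mul_of_nonneg_left h (abs_nonneg F)
  have h3 : F * (qz - G) = F * (qz - qw) + F * qw + -(F * G) := by ring
  rw [h3]
  linarith

theorem PW (hgs : S_gs) (hsq : S_sq) (hphi : S_phi) {Q : ℕ} (hQ : Q ≠ 0) {N : ℕ} (hN : 2 ≤ N)
    {c1 : ℝ} (hc : ∀ z : ℝ, 0 < z → c1 * min 1 (1 / Real.sqrt z) ≤
      ∑ d ∈ Q.divisors, mu d / (d : ℝ) ^ 2 * phi (z / (d : ℝ) ^ 2)) :
    ∃ C : ℝ, 0 < C ∧ ∀ (P : Finset ℕ) (y : ℕ → ℝ) (a τ X K δ s0 : ℝ) (A : ℤ → ℝ),
      PSet Q P → 0 < τ → 1 ≤ X → 1 ≤ K → 0 < δ → δ ≤ 1 → (∀ k' ∈ Kset K, 0 ≤ A k') →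
      (∀ k' ∈ Kset K, ∀ s ≤ s0, rhoQ Q * I2 * Real.sqrt (X / |(k' : ℝ)|) -
        c1 * (X * Real.exp (-(s / 2)) * min 1 (1 / Real.sqrt (|(k' : ℝ)| * (X * Real.exp (-s))))) +
        δ * (nQ Q * I2 * Real.sqrt (X / |(k' : ℝ)|)) ≤ (1 - δ) * A k') →
      ∀ s : ℝ, Ph Q P y a τ X s ≤ (1 - δ) * ∑ k' ∈ Kset K, A k' * qq P y a τ (js k') s +
        ∑ p ∈ P, y p ^ 2 * gd τ (2 * Real.log p - s) * Ep Q C N δ X K P.card s0 p s := by
  obtain ⟨C, hC, hB2, hB3⟩ := B2 hgs hQ hN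
  refine ⟨C, hC, ?_⟩
  intro P y a τ X K δ s0 A hP hτ hX1 hK hδ hδ1 hA0 hA s
  have hX : 0 < X := by linarith
  set n : ℝ := (P.card : ℝ) with hn
  have hn0 : 0 ≤ n := Nat.cast_nonneg _
  obtain ⟨hFs, hPh⟩ := D3 hgs hP y a (τ := τ) hX s
  set G1 := dg1 P y τ s with hG1
  have hG10 : 0 ≤ G1 := dg1_nonneg P y hτ.le s
  rw [hPh]
  classical
  -- the four parts of the majorant
  set U1 : ℤ → ℝ := fun k => (if k ≠ 0 then |Fs Q X s k| else 0) * G1 with hU1
  set U2 : ℤ → ℝ := fun k => (if K ≤ |(k : ℝ)| then |Fs Q X s k| else 0) * (n * G1) with hU2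
  set U3 : ℤ → ℝ := fun k => ∑ p ∈ P, (if k ≠ 0 ∧ ((p ^ 2 : ℕ) : ℤ) ∣ k then |Fs Q X s k| else 0) *
    ((1 + 1 / δ) * (n * (y p ^ 2 * gd τ (2 * Real.log p - s)))) with hU3
  set U4 : ℤ → ℝ := fun k => if k = 0 ∨ K ≤ |((dec k).1 : ℝ)| then 0 else
    (Fs Q X s k + δ * |Fs Q X s k|) * qq P y a τ (js (dec k).1) s with hU4
  have hFF : ∀ k, 0 ≤ |Fs Q X s k| := fun k => abs_nonneg _
  have hqb : ∀ k : ℤ, qq P y a τ (js k) s ≤ n * G1 := fun k =>
    qq_le_dg P y a hτ.le (js k) (fun p => js_abs_le k p) s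
  have hdgb : ∀ k : ℤ, |∑ p ∈ P, y p ^ 2 * js k p ^ 2 * gd τ (2 * Real.log p - s)| ≤ G1 := by
    intro k
    have h0 : 0 ≤ ∑ p ∈ P, y p ^ 2 * js k p ^ 2 * gd τ (2 * Real.log p - s) :=
      Finset.sum_nonneg fun p _ => mul_nonneg (by positivity) (gd_nonneg hτ.le _)
    rw [abs_of_nonneg h0]
    refine Finset.sum_le_sum fun p _ => ?_
    have h1 : js k p ^ 2 ≤ 1 := by
      rw [← sq_abs]
      exact pow_le_one₀ (abs_nonneg _) (js_abs_le k p)
    have h2 := gd_nonneg hτ.le (2 * Real.log p - s)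
    have h3 : y p ^ 2 * js k p ^ 2 ≤ y p ^ 2 * 1 := mul_le_mul_of_nonneg_left h1 (sq_nonneg _)
    calc _ ≤ (y p ^ 2 * 1) * gd τ (2 * Real.log p - s) := mul_le_mul_of_nonneg_right h3 h2
      _ = _ := by rw [mul_one]
  have hU1n : ∀ k, 0 ≤ U1 k := by
    intro k
    simp only [hU1]
    split_ifs
    · exact mul_nonneg (hFF k) hG10
    · simp
  have hU2n : ∀ k, 0 ≤ U2 k := by
    intro k
    simp only [hU2]
    split_ifs
    · exact mul_nonneg (hFF k) (by positivity)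
    · simp
  have hU3n : ∀ k, 0 ≤ U3 k := by
    intro k
    simp only [hU3]
    refine Finset.sum_nonneg fun p _ => ?_
    have := gd_nonneg hτ.le (2 * Real.log p - s)
    split_ifs
    · exact mul_nonneg (hFF k) (by positivity)
    · simp
  have hle : ∀ k : ℤ, Fs Q X s k * (qq P y a τ (js k) s -
      ∑ p ∈ P, y p ^ 2 * js k p ^ 2 * gd τ (2 * Real.log p - s)) ≤ U1 k + U2 k + U3 k + U4 k := by
    intro k
    by_cases hk : k = 0
    · subst hk
      have h1 : qq P y a τ (js 0) s = 0 := by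
        unfold qq
        refine Finset.sum_eq_zero fun p hp => Finset.sum_eq_zero fun p' _ => ?_
        rw [js_zero (hP p hp).1]
        simp
      have h2 : ∑ p ∈ P, y p ^ 2 * js 0 p ^ 2 * gd τ (2 * Real.log p - s) = 0 := by
        refine Finset.sum_eq_zero fun p hp => ?_
        rw [js_zero (hP p hp).1]
        simp
      rw [h1, h2, sub_self, mul_zero]
      have h3 : U4 0 = 0 := by simp [hU4]
      rw [h3]
      have := hU1n 0
      have := hU2n 0
      have := hU3n 0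
      linarith
    · have hU1k : U1 k = |Fs Q X s k| * G1 := by simp [hU1, hk]
      have hg : |Fs Q X s k| * |∑ p ∈ P, y p ^ 2 * js k p ^ 2 * gd τ (2 * Real.log p - s)| ≤ U1 k := by
        rw [hU1k]
        exact mul_le_mul_of_nonneg_left (hdgb k) (hFF k)
      by_cases hkK : K ≤ |((dec k).1 : ℝ)|
      · have hkK2 : K ≤ |(k : ℝ)| := hkK.trans (dec_le hk)
        have h4 : U4 k = 0 := by simp [hU4, hkK]
        have h2 : U2 k = |Fs Q X s k| * (n * G1) := by simp [hU2, hkK2]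
        have h3 : Fs Q X s k * qq P y a τ (js k) s ≤ |Fs Q X s k| * (n * G1) := by
          calc _ ≤ |Fs Q X s k| * qq P y a τ (js k) s :=
                mul_le_mul_of_nonneg_right (le_abs_self _) (qq_nonneg P y a hτ.le _ s)
            _ ≤ _ := mul_le_mul_of_nonneg_left (hqb k) (hFF k)
        have h5 : -(Fs Q X s k * ∑ p ∈ P, y p ^ 2 * js k p ^ 2 * gd τ (2 * Real.log p - s)) ≤
            |Fs Q X s k| * |∑ p ∈ P, y p ^ 2 * js k p ^ 2 * gd τ (2 * Real.log p - s)| := by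
          rw [← abs_mul]
          exact neg_le_abs _
        rw [mul_sub, h4, h2]
        have := hU3n k
        linarith
      · have hdk := dec_spec hk
        have h4 : U4 k = (Fs Q X s k + δ * |Fs Q X s k|) * qq P y a τ (js (dec k).1) s := by
          simp only [hU4]
          rw [if_neg]
          push Not
          exact ⟨hk, not_le.1 hkK⟩
        have hd := qq_diff P y a hτ.le hδ (js k) (js (dec k).1) s
        have h5 := real_bd (F := Fs Q X s k)
          (G := ∑ p ∈ P, y p ^ 2 * js k p ^ 2 * gd τ (2 * Real.log p - s)) hd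
        refine h5.trans ?_
        rw [h4]
        have h6 : (1 + 1 / δ) * (|Fs Q X s k| * qq P y a τ (fun p => js k p - js (dec k).1 p) s) ≤
            U3 k := by
          have h7 := qq_le P y a hτ.le (fun p => js k p - js (dec k).1 p) s
          have h8 : ∑ p ∈ P, y p ^ 2 * (js k p - js (dec k).1 p) ^ 2 * gd τ (2 * Real.log p - s) ≤
              ∑ p ∈ P, (if k ≠ 0 ∧ ((p ^ 2 : ℕ) : ℤ) ∣ k then (1 : ℝ) else 0) *
                (y p ^ 2 * gd τ (2 * Real.log p - s)) := by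
            refine Finset.sum_le_sum fun p hp => ?_
            have h9 := js_diff (k := (dec k).1) (b := (dec k).2) (hP p hp).1
            rw [← hdk.2.2] at h9
            have h10 : (js k p - js (dec k).1 p) ^ 2 ≤
                (if k ≠ 0 ∧ ((p ^ 2 : ℕ) : ℤ) ∣ k then (1 : ℝ) else 0) := by
              have e1 : (((p ^ 2 : ℕ) : ℤ) ∣ k) = ((p : ℤ) ^ 2 ∣ k) := by push_cast; rfl
              simp only [e1]
              split_ifs with hc1
              · rw [if_pos hc1.2] at h9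
                rw [← sq_abs]
                exact pow_le_one₀ (abs_nonneg _) h9
              · have hc2 : ¬ ((p : ℤ) ^ 2 ∣ k) := fun h => hc1 ⟨hk, h⟩
                rw [if_neg hc2] at h9
                have : js k p - js (dec k).1 p = 0 := abs_eq_zero.1 (le_antisymm h9 (abs_nonneg _))
                rw [this]
                norm_num
            have hgdp := gd_nonneg hτ.le (2 * Real.log p - s)
            calc _ = (js k p - js (dec k).1 p) ^ 2 * (y p ^ 2 * gd τ (2 * Real.log p - s)) := by ring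
              _ ≤ _ := mul_le_mul_of_nonneg_right h10 (by positivity)
          have hδ' : 0 ≤ 1 + 1 / δ := by positivity
          calc _ ≤ (1 + 1 / δ) * (|Fs Q X s k| * (n * ∑ p ∈ P,
                (if k ≠ 0 ∧ ((p ^ 2 : ℕ) : ℤ) ∣ k then (1 : ℝ) else 0) *
                (y p ^ 2 * gd τ (2 * Real.log p - s)))) := by
                refine mul_le_mul_of_nonneg_left (mul_le_mul_of_nonneg_left (h7.trans ?_) (hFF k)) hδ'
                exact mul_le_mul_of_nonneg_left h8 hn0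
            _ = U3 k := by
                simp only [hU3]
                rw [Finset.mul_sum, Finset.mul_sum, Finset.mul_sum]
                refine Finset.sum_congr rfl fun p _ => ?_
                split_ifs
                · ring
                · simp
        have := hU2n k
        linarith
  -- summability
  have hB := fun (S : ℤ → Prop) [DecidablePred S] => (Bgen hgs hX (Q := Q) s S).1
  have hsU1 : Summable U1 := (hB (fun k => k ≠ 0)).mul_right _
  have hsU2 : Summable U2 := (hB (fun k => K ≤ |(k : ℝ)|)).mul_right _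
  have hsU3 : Summable U3 := summable_sum fun p _ =>
    (hB (fun k => k ≠ 0 ∧ ((p ^ 2 : ℕ) : ℤ) ∣ k)).mul_right _
  have hsU4 : Summable U4 := by
    refine Summable.of_norm_bounded (g := fun k => (2 * (n * G1)) * |Fs Q X s k|) (hFs.mul_left _)
      fun k => ?_
    simp only [hU4]
    split_ifs
    · rw [norm_zero]
      positivity
    · rw [norm_mul, Real.norm_eq_abs, Real.norm_eq_abs,
        abs_of_nonneg (qq_nonneg P y a hτ.le (js (dec k).1) s)]
      have h1 : |(Fs Q X s k + δ * |Fs Q X s k|)| ≤ 2 * |Fs Q X s k| := by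
        refine (abs_add_le _ _).trans ?_
        rw [abs_mul, abs_abs, abs_of_pos hδ]
        have := mul_le_mul_of_nonneg_right hδ1 (hFF k)
        linarith
      have h2 := hqb (dec k).1
      calc _ ≤ (2 * |Fs Q X s k|) * (n * G1) :=
            mul_le_mul h1 h2 (qq_nonneg P y a hτ.le _ s) (by positivity)
        _ = _ := by ring
  have hsR : Summable (fun k : ℤ => Fs Q X s k * (qq P y a τ (js k) s -
      ∑ p ∈ P, y p ^ 2 * js k p ^ 2 * gd τ (2 * Real.log p - s))) := by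
    refine Summable.of_norm_bounded (g := fun k => (n * G1 + G1) * |Fs Q X s k|) (hFs.mul_left _)
      fun k => ?_
    rw [norm_mul, Real.norm_eq_abs, Real.norm_eq_abs, mul_comm]
    refine mul_le_mul_of_nonneg_right ?_ (hFF k)
    refine (abs_sub _ _).trans ?_
    rw [abs_of_nonneg (qq_nonneg P y a hτ.le (js k) s)]
    exact add_le_add (hqb k) (hdgb k)
  have hsU : Summable (fun k => U1 k + U2 k + U3 k + U4 k) := ((hsU1.add hsU2).add hsU3).add hsU4
  refine (Summable.tsum_le_tsum hle hsR hsU).trans ?_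
  rw [(((hsU1.add hsU2).add hsU3).tsum_add hsU4), ((hsU1.add hsU2).tsum_add hsU3),
    (hsU1.tsum_add hsU2)]
  -- the first three parts
  have t1 : ∑' k, U1 k ≤ nQ Q * Real.exp (1 / 2 * s) * G1 := by
    simp only [hU1]
    rw [tsum_mul_right]
    exact mul_le_mul_of_nonneg_right (B1 hgs hX s) hG10
  have t2 : ∑' k, U2 k ≤ CQ Q N C * (X / X ^ N) * Real.exp ((N - 1 / 2) * s) * (K ^ 2 / K ^ N) *
      (n * G1) := by
    simp only [hU2]
    rw [tsum_mul_right]
    exact mul_le_mul_of_nonneg_right (hB2 X s K hX hK) (by positivity)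
  have t3 : ∑' k, U3 k ≤ ∑ p ∈ P, CQ Q N C * (X / X ^ N) * Real.exp ((N - 1 / 2) * s) *
      (1 / ((p ^ 2 : ℕ) : ℝ) ^ N) * ((1 + 1 / δ) * (n * (y p ^ 2 * gd τ (2 * Real.log p - s)))) := by
    simp only [hU3]
    rw [Summable.tsum_finsetSum (fun p _ =>
      (hB (fun k => k ≠ 0 ∧ ((p ^ 2 : ℕ) : ℤ) ∣ k)).mul_right _)]
    refine Finset.sum_le_sum fun p hp => ?_
    rw [tsum_mul_right]
    have h1 : 1 ≤ p ^ 2 := Nat.one_le_pow _ _ (hP p hp).1.pos
    have hgdp := gd_nonneg hτ.le (2 * Real.log p - s)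
    exact mul_le_mul_of_nonneg_right (hB3 X s (p ^ 2) hX h1) (by positivity)
  -- the main part
  have t4 : ∑' k, U4 k ≤ (1 - δ) * ∑ k' ∈ Kset K, A k' * qq P y a τ (js k') s +
      5 * K * (2 * nQ Q * Real.sqrt X) * n * (Real.exp (N * s) * Real.exp (-(N * s0))) * G1 := by
    rw [sum_classes K U4 hsU4 (fun k hk => by simp only [hU4]; rw [if_pos hk])]
    have e1 : ∀ k' ∈ Kset K, ∑' j : ℕ, U4 (k' * (((j + 1 : ℕ)) : ℤ) ^ 2) =
        (∑' j : ℕ, Fs Q X s (k' * (((j + 1 : ℕ)) : ℤ) ^ 2) +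
          δ * ∑' j : ℕ, |Fs Q X s (k' * (((j + 1 : ℕ)) : ℤ) ^ 2)|) * qq P y a τ (js k') s := by
      intro k' hk'
      obtain ⟨a1, a2⟩ := mem_Kset.1 hk'
      have hs1 := (Fs_sq hsq hphi (Q := Q) a1.ne_zero hX s).1
      have e2 : ∀ j : ℕ, U4 (k' * (((j + 1 : ℕ)) : ℤ) ^ 2) =
          (Fs Q X s (k' * (((j + 1 : ℕ)) : ℤ) ^ 2) +
            δ * |Fs Q X s (k' * (((j + 1 : ℕ)) : ℤ) ^ 2)|) * qq P y a τ (js k') s := by
        intro j
        obtain ⟨b1, b2⟩ := dec_eq a1 (by omega : 1 ≤ j + 1)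
        simp only [hU4]
        rw [b1, if_neg]
        push Not
        exact ⟨sq_ne a1 (by omega), a2⟩
      simp_rw [e2]
      rw [tsum_mul_right, Summable.tsum_add (Summable.of_abs hs1) (hs1.mul_left _), tsum_mul_left]
    rw [Finset.sum_congr rfl e1]
    have hnQ := nQ_nonneg Q
    have hEx : 0 < Real.exp (N * s) * Real.exp (-(N * s0)) := by positivity
    have e3 : ∀ k' ∈ Kset K, (∑' j : ℕ, Fs Q X s (k' * (((j + 1 : ℕ)) : ℤ) ^ 2) +
          δ * ∑' j : ℕ, |Fs Q X s (k' * (((j + 1 : ℕ)) : ℤ) ^ 2)|) * qq P y a τ (js k') s ≤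
        (1 - δ) * (A k' * qq P y a τ (js k') s) +
        (2 * nQ Q * Real.sqrt X) * (n * G1) * (Real.exp (N * s) * Real.exp (-(N * s0))) := by
      intro k' hk'
      obtain ⟨a1, a2⟩ := mem_Kset.1 hk'
      obtain ⟨f1, f2, f3⟩ := Fs_sq hsq hphi (Q := Q) a1.ne_zero hX s
      have hq0 := qq_nonneg P y a hτ.le (js k') s
      have hA0k := hA0 k' hk'
      have hk1 : 1 ≤ |(k' : ℝ)| := by
        have : (1 : ℤ) ≤ |k'| := Int.one_le_abs a1.ne_zero
        have h2 : ((1 : ℤ) : ℝ) ≤ ((|k'| : ℤ) : ℝ) := by exact_mod_cast this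
        push_cast at h2
        exact h2
      have hk0 : 0 < |(k' : ℝ)| := by linarith
      rcases le_or_gt s s0 with hs | hs
      · have h1 := hA k' hk' s hs
        have h2 := hc (|(k' : ℝ)| * (X * Real.exp (-s))) (by positivity)
        have h3 : X * Real.exp (-(s / 2)) * (c1 * min 1
            (1 / Real.sqrt (|(k' : ℝ)| * (X * Real.exp (-s))))) ≤
            X * Real.exp (-(s / 2)) * ∑ d ∈ Q.divisors, mu d / (d : ℝ) ^ 2 *
              phi (|(k' : ℝ)| * (X * Real.exp (-s)) / (d : ℝ) ^ 2) :=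
          mul_le_mul_of_nonneg_left h2 (by positivity)
        have h4 : (∑' j : ℕ, Fs Q X s (k' * (((j + 1 : ℕ)) : ℤ) ^ 2) +
          δ * ∑' j : ℕ, |Fs Q X s (k' * (((j + 1 : ℕ)) : ℤ) ^ 2)|) ≤ (1 - δ) * A k' := by
          rw [f2]
          have h5 := mul_le_mul_of_nonneg_left f3 hδ.le
          have h6 : c1 * (X * Real.exp (-(s / 2)) * min 1
            (1 / Real.sqrt (|(k' : ℝ)| * (X * Real.exp (-s))))) = X * Real.exp (-(s / 2)) * (c1 * min 1
            (1 / Real.sqrt (|(k' : ℝ)| * (X * Real.exp (-s))))) := by ring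
          rw [h6] at h1
          linarith
        have h7 := mul_le_mul_of_nonneg_right h4 hq0
        have h8 : 0 ≤ (2 * nQ Q * Real.sqrt X) * (n * G1) *
            (Real.exp (N * s) * Real.exp (-(N * s0))) := by positivity
        linarith
      · have h1 : 1 ≤ Real.exp (N * s) * Real.exp (-(N * s0)) := by
          rw [← Real.exp_add]
          apply Real.one_le_exp
          have : (0 : ℝ) ≤ N := Nat.cast_nonneg _
          nlinarith
        have h2 : Real.sqrt (X / |(k' : ℝ)|) ≤ Real.sqrt X :=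
          Real.sqrt_le_sqrt (div_le_self hX.le hk1)
        have h3 : ∑' j : ℕ, Fs Q X s (k' * (((j + 1 : ℕ)) : ℤ) ^ 2) ≤
            ∑' j : ℕ, |Fs Q X s (k' * (((j + 1 : ℕ)) : ℤ) ^ 2)| :=
          Summable.tsum_le_tsum (fun j => le_abs_self _) (Summable.of_abs f1) f1
        have h4 : ∑' j : ℕ, |Fs Q X s (k' * (((j + 1 : ℕ)) : ℤ) ^ 2)| ≤ nQ Q * Real.sqrt X := by
          refine f3.trans ?_
          have hI := hsq.1
          have hI1 := hsq.2.1
          calc nQ Q * I2 * Real.sqrt (X / |(k' : ℝ)|) ≤ nQ Q * 1 * Real.sqrt X := by gcongr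
            _ = _ := by ring
        have h5 : (∑' j : ℕ, Fs Q X s (k' * (((j + 1 : ℕ)) : ℤ) ^ 2) +
          δ * ∑' j : ℕ, |Fs Q X s (k' * (((j + 1 : ℕ)) : ℤ) ^ 2)|) ≤ 2 * nQ Q * Real.sqrt X := by
          have h6 : 0 ≤ ∑' j : ℕ, |Fs Q X s (k' * (((j + 1 : ℕ)) : ℤ) ^ 2)| :=
            tsum_nonneg fun j => abs_nonneg _
          nlinarith
        have h7 : (∑' j : ℕ, Fs Q X s (k' * (((j + 1 : ℕ)) : ℤ) ^ 2) +
          δ * ∑' j : ℕ, |Fs Q X s (k' * (((j + 1 : ℕ)) : ℤ) ^ 2)|) * qq P y a τ (js k') s ≤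
          2 * nQ Q * Real.sqrt X * (n * G1) := by
          calc _ ≤ (2 * nQ Q * Real.sqrt X) * qq P y a τ (js k') s :=
                mul_le_mul_of_nonneg_right h5 hq0
            _ ≤ _ := mul_le_mul_of_nonneg_left (hqb k') (by positivity)
        have h8 : 2 * nQ Q * Real.sqrt X * (n * G1) ≤ 2 * nQ Q * Real.sqrt X * (n * G1) *
            (Real.exp (N * s) * Real.exp (-(N * s0))) :=
          le_mul_of_one_le_right (by positivity) h1
        have h9 : 0 ≤ (1 - δ) * (A k' * qq P y a τ (js k') s) :=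
          mul_nonneg (by linarith) (mul_nonneg hA0k hq0)
        linarith
    refine (Finset.sum_le_sum e3).trans ?_
    rw [Finset.sum_add_distrib, ← Finset.mul_sum, Finset.sum_const, nsmul_eq_mul]
    have h1 := Kset_card hK
    have h2 : ((Kset K).card : ℝ) * (2 * nQ Q * Real.sqrt X * (n * G1) *
        (Real.exp (N * s) * Real.exp (-(N * s0)))) ≤ 5 * K * (2 * nQ Q * Real.sqrt X * (n * G1) *
        (Real.exp (N * s) * Real.exp (-(N * s0)))) :=
      mul_le_mul_of_nonneg_right h1 (by positivity)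
    have h3 : 5 * K * (2 * nQ Q * Real.sqrt X * (n * G1) *
        (Real.exp (N * s) * Real.exp (-(N * s0)))) = 5 * K * (2 * nQ Q * Real.sqrt X) * n *
        (Real.exp (N * s) * Real.exp (-(N * s0))) * G1 := by ring
    linarith
  -- collect
  have e5 : ∑ p ∈ P, y p ^ 2 * gd τ (2 * Real.log p - s) * Ep Q C N δ X K n s0 p s =
      nQ Q * Real.exp (1 / 2 * s) * G1 + CQ Q N C * (X / X ^ N) * Real.exp ((N - 1 / 2) * s) *
        (K ^ 2 / K ^ N) * (n * G1) + ∑ p ∈ P, CQ Q N C * (X / X ^ N) * Real.exp ((N - 1 / 2) * s) *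
      (1 / ((p ^ 2 : ℕ) : ℝ) ^ N) * ((1 + 1 / δ) * (n * (y p ^ 2 * gd τ (2 * Real.log p - s)))) +
      5 * K * (2 * nQ Q * Real.sqrt X) * n * (Real.exp (N * s) * Real.exp (-(N * s0))) * G1 := by
    rw [hG1]
    unfold dg1
    rw [Finset.mul_sum, Finset.mul_sum, Finset.mul_sum, Finset.mul_sum, ← Finset.sum_add_distrib,
      ← Finset.sum_add_distrib, ← Finset.sum_add_distrib]
    refine Finset.sum_congr rfl fun p _ => ?_
    unfold Ep
    ring
  rw [e5]
  linarith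

end Pool.Agent.N880.QF
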