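import Pool.Agent.N880.QF.Stm2

/-! # Quadratic forms -/

set_option autoImplicit false

open Complex Filter Topology MeasureTheory Set
open Pool.Agent.H306R2.RZ (js)

namespace Pool.Agent.N880.QF

/-- the kernel -/
noncomputable def KK (a τ : ℝ) (p p' : ℕ) : ℝ :=
  Real.cos (a * (Real.log p - Real.log p')) *
      Real.exp (-(τ ^ 2 * (Real.log p - Real.log p') ^ 2 / 4))

lemma KK_self (a τ : ℝ) (p : ℕ) : KK a τ p p = 1 := by simp [KK]

lemma KK_le (a τ : ℝ) (p p' : ℕ) : |KK a τ p p'| ≤ 1 := by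
  unfold KK
  rw [abs_mul, Real.abs_exp]
  have h1 := Real.abs_cos_le_one (a * (Real.log p - Real.log p'))
  have h2 : Real.exp (-(τ ^ 2 * (Real.log p - Real.log p') ^ 2 / 4)) ≤ 1 := by
    rw [Real.exp_le_one_iff]
    have : 0 ≤ τ ^ 2 * (Real.log p - Real.log p') ^ 2 / 4 := by positivity
    linarith
  calc _ ≤ 1 * 1 := mul_le_mul h1 h2 (Real.exp_pos _).le (by norm_num)
    _ = 1 := one_mul 1

lemma GG_eq (P : Finset ℕ) (y : ℕ → ℝ) (a τ : ℝ) (z : ℕ → ℝ) :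
    GG P y a τ z = ∑ p ∈ P, ∑ p' ∈ P, y p * y p' * (z p * z p') * KK a τ p p' := rfl

/-- the quadratic form localised at `s` -/
noncomputable def qq (P : Finset ℕ) (y : ℕ → ℝ) (a τ : ℝ) (z : ℕ → ℝ) (s : ℝ) : ℝ :=
  ∑ p ∈ P, ∑ p' ∈ P, y p * y p' * (z p * z p') *
    (KK a τ p p' * gd τ (Real.log p + Real.log p' - s))

/-- the local Gaussian factor -/
noncomputable def gf (τ s : ℝ) (p : ℕ) : ℝ := Real.exp (-(τ ^ 2 * (Real.log p - s / 2) ^ 2 / 2))

/-- linear forms -/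
noncomputable def Lc (P : Finset ℕ) (y : ℕ → ℝ) (a τ : ℝ) (z : ℕ → ℝ) (s : ℝ) : ℝ :=
  ∑ p ∈ P, y p * z p * Real.cos (a * Real.log p) * gf τ s p

noncomputable def Ls (P : Finset ℕ) (y : ℕ → ℝ) (a τ : ℝ) (z : ℕ → ℝ) (s : ℝ) : ℝ :=
  ∑ p ∈ P, y p * z p * Real.sin (a * Real.log p) * gf τ s p

lemma gf_mul (τ s : ℝ) (p p' : ℕ) : Real.exp (-(τ ^ 2 * (Real.log p - Real.log p') ^ 2 / 4)) *
    gd τ (Real.log p + Real.log p' - s) = τ / (2 * Real.sqrt Real.pi) * (gf τ s p * gf τ s p') := by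
  unfold gd gf
  rw [← Real.exp_add, mul_comm, mul_assoc, ← Real.exp_add]
  congr 2
  ring

lemma qq_eq (P : Finset ℕ) (y : ℕ → ℝ) (a τ : ℝ) (z : ℕ → ℝ) (s : ℝ) :
    qq P y a τ z s = τ / (2 * Real.sqrt Real.pi) *
      (Lc P y a τ z s ^ 2 + Ls P y a τ z s ^ 2) := by
  unfold Lc Ls qq
  rw [pow_two, pow_two, Finset.sum_mul_sum, Finset.sum_mul_sum, ← Finset.sum_add_distrib,
    Finset.mul_sum]
  refine Finset.sum_congr rfl fun p _ => ?_
  rw [← Finset.sum_add_distrib, Finset.mul_sum]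
  refine Finset.sum_congr rfl fun p' _ => ?_
  unfold KK
  rw [mul_assoc (Real.cos _), gf_mul]
  have hc : Real.cos (a * (Real.log p - Real.log p')) =
      Real.cos (a * Real.log p) * Real.cos (a * Real.log p') +
        Real.sin (a * Real.log p) * Real.sin (a * Real.log p') := by
    rw [mul_sub, Real.cos_sub]
  rw [hc]
  ring

lemma qq_nonneg (P : Finset ℕ) (y : ℕ → ℝ) (a : ℝ) {τ : ℝ} (hτ : 0 ≤ τ) (z : ℕ → ℝ) (s : ℝ) :
    0 ≤ qq P y a τ z s := by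
  rw [qq_eq]
  positivity

lemma Lc_sub (P : Finset ℕ) (y : ℕ → ℝ) (a τ : ℝ) (z w : ℕ → ℝ) (s : ℝ) :
    Lc P y a τ (fun p => z p - w p) s = Lc P y a τ z s - Lc P y a τ w s := by
  unfold Lc
  rw [← Finset.sum_sub_distrib]
  exact Finset.sum_congr rfl fun p _ => by ring

lemma Ls_sub (P : Finset ℕ) (y : ℕ → ℝ) (a τ : ℝ) (z w : ℕ → ℝ) (s : ℝ) :
    Ls P y a τ (fun p => z p - w p) s = Ls P y a τ z s - Ls P y a τ w s := by
  unfold Ls
  rw [← Finset.sum_sub_distrib]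
  exact Finset.sum_congr rfl fun p _ => by ring

lemma sq_diff {δ : ℝ} (hδ : 0 < δ) (A B : ℝ) : |A ^ 2 - B ^ 2| ≤ δ * B ^ 2 + (1 + 1 / δ) * (A - B) ^ 2 := by
  have h1 : A ^ 2 - B ^ 2 = (A - B) ^ 2 + 2 * B * (A - B) := by ring
  have h2 : |2 * B * (A - B)| ≤ δ * B ^ 2 + 1 / δ * (A - B) ^ 2 := by
    have e1 : δ * B ^ 2 + 1 / δ * (A - B) ^ 2 - 2 * B * (A - B) = (1 / δ) * (δ * B - (A - B)) ^ 2 := by
      field_simp; ring
    have e2 : δ * B ^ 2 + 1 / δ * (A - B) ^ 2 + 2 * B * (A - B) = (1 / δ) * (δ * B + (A - B)) ^ 2 := by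
      field_simp; ring
    have p1 : 0 ≤ (1 / δ) * (δ * B - (A - B)) ^ 2 := by positivity
    have p2 : 0 ≤ (1 / δ) * (δ * B + (A - B)) ^ 2 := by positivity
    rw [abs_le]
    constructor <;> linarith
  rw [h1]
  calc _ ≤ |(A - B) ^ 2| + |2 * B * (A - B)| := abs_add_le _ _
    _ ≤ (A - B) ^ 2 + (δ * B ^ 2 + 1 / δ * (A - B) ^ 2) := by
      rw [abs_of_nonneg (sq_nonneg (A - B))]
      linarith
    _ = _ := by ring

/-- perturbation of the quadratic form -/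
lemma qq_diff (P : Finset ℕ) (y : ℕ → ℝ) (a : ℝ) {τ δ : ℝ} (hτ : 0 ≤ τ) (hδ : 0 < δ) (z w : ℕ → ℝ)
    (s : ℝ) : |qq P y a τ z s - qq P y a τ w s| ≤ δ * qq P y a τ w s +
      (1 + 1 / δ) * qq P y a τ (fun p => z p - w p) s := by
  rw [qq_eq, qq_eq, qq_eq, Lc_sub, Ls_sub]
  have hc : 0 ≤ τ / (2 * Real.sqrt Real.pi) := by positivity
  have h1 := sq_diff hδ (Lc P y a τ z s) (Lc P y a τ w s)
  have h2 := sq_diff hδ (Ls P y a τ z s) (Ls P y a τ w s)
  set c := τ / (2 * Real.sqrt Real.pi)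
  have e : c * (Lc P y a τ z s ^ 2 + Ls P y a τ z s ^ 2) -
      c * (Lc P y a τ w s ^ 2 + Ls P y a τ w s ^ 2) =
      c * ((Lc P y a τ z s ^ 2 - Lc P y a τ w s ^ 2) + (Ls P y a τ z s ^ 2 - Ls P y a τ w s ^ 2)) := by
    ring
  rw [e, abs_mul, abs_of_nonneg hc]
  have h3 := (abs_add_le (Lc P y a τ z s ^ 2 - Lc P y a τ w s ^ 2)
    (Ls P y a τ z s ^ 2 - Ls P y a τ w s ^ 2)).trans (add_le_add h1 h2)
  refine (mul_le_mul_of_nonneg_left h3 hc).trans (le_of_eq ?_)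
  ring

/-- Cauchy-Schwarz bound -/
lemma qq_le (P : Finset ℕ) (y : ℕ → ℝ) (a : ℝ) {τ : ℝ} (hτ : 0 ≤ τ) (z : ℕ → ℝ) (s : ℝ) :
    qq P y a τ z s ≤ (P.card : ℝ) * ∑ p ∈ P, y p ^ 2 * z p ^ 2 * gd τ (2 * Real.log p - s) := by
  rw [qq_eq]
  have hc : 0 ≤ τ / (2 * Real.sqrt Real.pi) := by positivity
  have h1 : Lc P y a τ z s ^ 2 ≤ (P.card : ℝ) *
      ∑ p ∈ P, (y p * z p * Real.cos (a * Real.log p) * gf τ s p) ^ 2 := by
    unfold Lc
    exact sq_sum_le_card_mul_sum_sq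
  have h2 : Ls P y a τ z s ^ 2 ≤ (P.card : ℝ) *
      ∑ p ∈ P, (y p * z p * Real.sin (a * Real.log p) * gf τ s p) ^ 2 := by
    unfold Ls
    exact sq_sum_le_card_mul_sum_sq
  have h3 := add_le_add h1 h2
  rw [← mul_add, ← Finset.sum_add_distrib] at h3
  refine (mul_le_mul_of_nonneg_left h3 hc).trans (le_of_eq ?_)
  rw [mul_left_comm, Finset.mul_sum]
  congr 1
  refine Finset.sum_congr rfl fun p _ => ?_
  have e1 : gd τ (2 * Real.log p - s) = τ / (2 * Real.sqrt Real.pi) * gf τ s p ^ 2 := by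
    have := gf_mul τ s p p
    simp only [sub_self, ne_eq, OfNat.ofNat_ne_zero, not_false_eq_true, zero_pow, mul_zero, zero_div,
      neg_zero, Real.exp_zero, one_mul] at this
    rw [two_mul, this]
    ring
  rw [e1]
  have h4 := Real.cos_sq_add_sin_sq (a * Real.log p)
  have : (y p * z p * Real.cos (a * Real.log p) * gf τ s p) ^ 2 +
      (y p * z p * Real.sin (a * Real.log p) * gf τ s p) ^ 2 =
      y p ^ 2 * z p ^ 2 * gf τ s p ^ 2 *
        (Real.cos (a * Real.log p) ^ 2 + Real.sin (a * Real.log p) ^ 2) := by ring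
  rw [this, h4]
  ring

lemma gd_nonneg {τ : ℝ} (hτ : 0 ≤ τ) (r : ℝ) : 0 ≤ gd τ r := by
  unfold gd; positivity

lemma gd_cont (τ : ℝ) : Continuous (gd τ) := by
  unfold gd; fun_prop

lemma gd_even (τ r : ℝ) : gd τ (-r) = gd τ r := by
  unfold gd; rw [neg_sq]

section
variable (hgd : S_gd)
include hgd

/-- exponential moments of shifted densities -/
lemma gd_mom {τ : ℝ} (hτ : 0 < τ) (α ℓ : ℝ) : Integrable (fun s => Real.exp (α * s) * gd τ (ℓ - s)) ∧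
    ∫ s : ℝ, Real.exp (α * s) * gd τ (ℓ - s) = Real.exp (α * ℓ) * Real.exp (α ^ 2 / τ ^ 2) := by
  obtain ⟨h1, h2⟩ := hgd τ (-α) hτ
  have e : (fun s => Real.exp (α * s) * gd τ (ℓ - s)) =
      (fun s => (fun r => Real.exp (α * ℓ) * (gd τ r * Real.exp (-α * r))) (ℓ - s)) := by
    funext s
    simp only
    rw [show α * s = α * ℓ + -α * (ℓ - s) by ring, Real.exp_add]
    ring
  constructor
  · rw [e]
    exact (h1.const_mul _).comp_sub_left ℓ
  · rw [e, integral_sub_left_eq_self (μ := volume)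
      (fun r => Real.exp (α * ℓ) * (gd τ r * Real.exp (-α * r))) ℓ, integral_const_mul, h2, neg_sq]

lemma gd_int {τ : ℝ} (hτ : 0 < τ) (ℓ : ℝ) : Integrable (fun s => gd τ (ℓ - s)) ∧
    ∫ s : ℝ, gd τ (ℓ - s) = 1 := by
  have h := gd_mom hgd hτ 0 ℓ
  simpa using h

lemma qq_integrable (P : Finset ℕ) (y : ℕ → ℝ) (a : ℝ) {τ : ℝ} (hτ : 0 < τ) (z : ℕ → ℝ) :
    Integrable (fun s => qq P y a τ z s) := by
  unfold qq
  refine integrable_finsetSum _ fun p _ => integrable_finsetSum _ fun p' _ => ?_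
  exact ((gd_int hgd hτ _).1.const_mul _).const_mul _

lemma qq_integral (P : Finset ℕ) (y : ℕ → ℝ) (a : ℝ) {τ : ℝ} (hτ : 0 < τ) (z : ℕ → ℝ) :
    ∫ s : ℝ, qq P y a τ z s = GG P y a τ z := by
  unfold qq
  rw [integral_finsetSum _ (fun p _ => integrable_finsetSum _ fun p' _ =>
    ((gd_int hgd hτ _).1.const_mul _).const_mul _), GG_eq]
  refine Finset.sum_congr rfl fun p _ => ?_
  rw [integral_finsetSum _ (fun p' _ => ((gd_int hgd hτ _).1.const_mul _).const_mul _)]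
  refine Finset.sum_congr rfl fun p' _ => ?_
  rw [integral_const_mul, integral_const_mul, (gd_int hgd hτ _).2, mul_one]

lemma GG_nonneg (P : Finset ℕ) (y : ℕ → ℝ) (a : ℝ) {τ : ℝ} (hτ : 0 < τ) (z : ℕ → ℝ) :
    0 ≤ GG P y a τ z := by
  rw [← qq_integral hgd P y a hτ z]
  exact integral_nonneg fun s => qq_nonneg P y a hτ.le z s

lemma GG_lower (P : Finset ℕ) (y : ℕ → ℝ) (a : ℝ) {τ δ : ℝ} (hτ : 0 < τ) (hδ : 0 < δ) (z w : ℕ → ℝ) :
    (1 - δ) * GG P y a τ w - (1 + 1 / δ) * GG P y a τ (fun p => z p - w p) ≤ GG P y a τ z := by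
  rw [← qq_integral hgd P y a hτ w, ← qq_integral hgd P y a hτ z,
    ← qq_integral hgd P y a hτ (fun p => z p - w p), ← integral_const_mul, ← integral_const_mul,
    ← integral_sub ((qq_integrable hgd P y a hτ w).const_mul _)
      ((qq_integrable hgd P y a hτ _).const_mul _)]
  refine integral_mono (((qq_integrable hgd P y a hτ w).const_mul _).sub
      ((qq_integrable hgd P y a hτ _).const_mul _)) (qq_integrable hgd P y a hτ z) fun s => ?_
  have h := qq_diff P y a hτ.le hδ z w s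
  rw [abs_le] at h
  simp only
  linarith [h.1]

end

lemma GG_le (P : Finset ℕ) (y : ℕ → ℝ) (a τ : ℝ) (z : ℕ → ℝ) :
    GG P y a τ z ≤ (∑ p ∈ P, |y p| * |z p|) ^ 2 := by
  rw [GG_eq, pow_two, Finset.sum_mul_sum]
  refine Finset.sum_le_sum fun p _ => Finset.sum_le_sum fun p' _ => ?_
  refine (le_abs_self _).trans ?_
  rw [abs_mul, abs_mul, abs_mul, abs_mul]
  have h1 := KK_le a τ p p'
  calc |y p| * |y p'| * (|z p| * |z p'|) * |KK a τ p p'| ≤ |y p| * |y p'| * (|z p| * |z p'|) * 1 := by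
        gcongr
    _ = _ := by ring

end Pool.Agent.N880.QF
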