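import Pool.Agent.N880.QF.Pside

/-! # The family inequality for Gaussian windows -/

set_option autoImplicit false

open Complex Filter Topology MeasureTheory Set
open Pool.Agent.H306R2.RZ (js)
open Pool.Agent.H413R2.RZ4HP (js_mul js_sq js_abs_le sqf_unique_int)

namespace Pool.Agent.N880.QF

/-- moment factor -/
noncomputable def JJ (τ α : ℝ) (p : ℕ) : ℝ := Real.exp (α * (2 * Real.log p)) * Real.exp (α ^ 2 / τ ^ 2)

lemma Ep_int (hgd : S_gd) {τ : ℝ} (hτ : 0 < τ) (Q : ℕ) (C : ℝ) (N : ℕ) (δ X K n s0 : ℝ) (p : ℕ) :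
    Integrable (fun s => gd τ (2 * Real.log p - s) * Ep Q C N δ X K n s0 p s) ∧
    ∫ s : ℝ, gd τ (2 * Real.log p - s) * Ep Q C N δ X K n s0 p s =
      nQ Q * JJ τ (1 / 2) p + n * (CQ Q N C * (X / X ^ N) * JJ τ (N - 1 / 2) p *
        (K ^ 2 / K ^ N + (1 + 1 / δ) * (1 / ((p ^ 2 : ℕ) : ℝ) ^ N))) +
      5 * K * (2 * nQ Q * Real.sqrt X) * n * (JJ τ N p * Real.exp (-(N * s0))) := by
  obtain ⟨a1, a2⟩ := gd_mom hgd hτ (1 / 2) (2 * Real.log p)
  obtain ⟨b1, b2⟩ := gd_mom hgd hτ (N - 1 / 2) (2 * Real.log p)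
  obtain ⟨c1, c2⟩ := gd_mom hgd hτ N (2 * Real.log p)
  have e : (fun s => gd τ (2 * Real.log p - s) * Ep Q C N δ X K n s0 p s) = fun s =>
      nQ Q * (Real.exp (1 / 2 * s) * gd τ (2 * Real.log p - s)) +
      (n * (CQ Q N C * (X / X ^ N) * (K ^ 2 / K ^ N + (1 + 1 / δ) * (1 / ((p ^ 2 : ℕ) : ℝ) ^ N)))) *
        (Real.exp ((N - 1 / 2) * s) * gd τ (2 * Real.log p - s)) +
      (5 * K * (2 * nQ Q * Real.sqrt X) * n * Real.exp (-(N * s0))) *
        (Real.exp (N * s) * gd τ (2 * Real.log p - s)) := by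
    funext s
    unfold Ep
    ring
  have i1 := a1.const_mul (nQ Q)
  have i2 := b1.const_mul (n * (CQ Q N C * (X / X ^ N) *
    (K ^ 2 / K ^ N + (1 + 1 / δ) * (1 / ((p ^ 2 : ℕ) : ℝ) ^ N))))
  have i3 := c1.const_mul (5 * K * (2 * nQ Q * Real.sqrt X) * n * Real.exp (-(N * s0)))
  constructor
  · rw [e]
    exact (i1.add i2).add i3
  · rw [e]
    have := integral_add (i1.add i2) i3
    simp only [Pi.add_apply] at this
    rw [this, integral_add i1 i2, integral_const_mul, integral_const_mul, integral_const_mul, a2, b2, c2]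
    unfold JJ
    ring

lemma Dg_le (hDup : S_Dup) {Q : ℕ} (hQ : Squarefree Q) : ∃ C : ℝ, 0 < C ∧ ∀ (τ X : ℝ) (p : ℕ),
    p.Prime → 1 ≤ τ → 1 ≤ X → Dg Q τ X p ≤ (fQ Q * X + C) * Real.exp (1 / (4 * τ ^ 2)) := by
  obtain ⟨C, hC, h⟩ := hDup.1 Q hQ
  refine ⟨C, hC, fun τ X p hp hτ hX => ?_⟩
  have h1 := h τ X hτ hX (fun m => fr Q m * js m p ^ 2)
    (fun m => mul_nonneg (fr_nonneg Q m) (sq_nonneg _))
    (fun m => by
      have a1 := fr_le Q m
      have a2 : js m p ^ 2 ≤ 1 := by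
        rw [← sq_abs]
        exact pow_le_one₀ (abs_nonneg _) (js_abs_le m p)
      calc fr Q m * js m p ^ 2 ≤ 1 * 1 := mul_le_mul a1 a2 (sq_nonneg _) (by norm_num)
        _ = 1 := by norm_num)
    (fun m hm => by
      constructor
      · rintro rfl
        apply hm
        rw [js_zero hp]
        norm_num
      · by_contra hcon
        apply hm
        unfold fr
        rw [if_neg hcon, zero_mul])
  refine le_trans (le_of_eq ?_) h1
  unfold Dg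
  exact tsum_congr fun m => by ring

/-- choice of a finite set of `b` -/
lemma Bs_ex {τ : ℝ} (hτ : 0 ≤ τ) (X : ℝ) (Q B : ℕ) (F : Finset ℤ) : ∃ Bs : Finset ℕ,
    (∀ b ∈ Bs, B < b ∧ b.Coprime Q) ∧ ∀ k ∈ F,
    (∑' b : ℕ, (if B < b ∧ b.Coprime Q then Wt τ ((k * (b : ℤ) ^ 2 : ℤ) / X) else 0)) - 1 ≤
      Aw τ X Bs k := by
  classical
  have h1 : ∀ k : ℤ, ∃ S : Finset ℕ,
      (∑' b : ℕ, (if B < b ∧ b.Coprime Q then Wt τ ((k * (b : ℤ) ^ 2 : ℤ) / X) else 0)) - 1 ≤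
      ∑ b ∈ S, (if B < b ∧ b.Coprime Q then Wt τ ((k * (b : ℤ) ^ 2 : ℤ) / X) else 0) := by
    intro k
    by_cases hs : Summable (fun b : ℕ =>
        (if B < b ∧ b.Coprime Q then Wt τ ((k * (b : ℤ) ^ 2 : ℤ) / X) else 0))
    · have h2 := hs.hasSum
      have h3 := h2.eventually (lt_mem_nhds (show (∑' b : ℕ, (if B < b ∧ b.Coprime Q then
        Wt τ ((k * (b : ℤ) ^ 2 : ℤ) / X) else 0)) - 1 < ∑' b : ℕ, (if B < b ∧ b.Coprime Q then
        Wt τ ((k * (b : ℤ) ^ 2 : ℤ) / X) else 0) by linarith))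
      obtain ⟨S, hS⟩ := h3.exists
      exact ⟨S, hS.le⟩
    · refine ⟨∅, ?_⟩
      rw [tsum_eq_zero_of_not_summable hs]
      simp
  choose S hS using h1
  refine ⟨(F.biUnion S).filter (fun b => B < b ∧ b.Coprime Q), fun b hb => (Finset.mem_filter.1 hb).2,
    fun k hk => (hS k).trans ?_⟩
  unfold Aw
  rw [Finset.sum_filter]
  refine Finset.sum_le_sum_of_subset_of_nonneg (Finset.subset_biUnion_of_mem S hk) fun b _ _ => ?_
  split_ifs
  · exact Wt_nonneg hτ _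
  · exact le_rfl

lemma rho_le (Q : ℕ) : rhoQ Q ≤ nQ Q := by
  unfold rhoQ nQ
  have h1 : ∀ d ∈ Q.divisors, ((ArithmeticFunction.moebius d : ℤ) : ℝ) / d ≤ 1 := by
    intro d hd
    have hd1 : (1 : ℝ) ≤ d := by exact_mod_cast Nat.pos_of_mem_divisors hd
    have h2 := mu_abs d
    unfold mu at h2
    rw [div_le_one (by linarith)]
    exact (le_abs_self _).trans (h2.trans hd1)
  refine (Finset.sum_le_sum h1).trans (le_of_eq ?_)
  rw [Finset.sum_const, nsmul_eq_mul, mul_one]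

lemma Aw_nonneg {τ : ℝ} (hτ : 0 ≤ τ) (X : ℝ) (Bs : Finset ℕ) (k : ℤ) : 0 ≤ Aw τ X Bs k :=
  Finset.sum_nonneg fun _ _ => Wt_nonneg hτ _

lemma card_le {P : Finset ℕ} {X : ℝ} (hX : 1 ≤ X) (hP : ∀ p ∈ P, 1 ≤ p ∧ Real.log p ≤ Real.log X) :
    (P.card : ℝ) ≤ X := by
  have h1 : P ⊆ Finset.Icc 1 ⌊X⌋₊ := by
    intro p hp
    obtain ⟨h1, h2⟩ := hP p hp
    rw [Finset.mem_Icc]
    refine ⟨h1, Nat.le_floor ?_⟩
    have hp0 : (0 : ℝ) < p := by exact_mod_cast h1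
    exact (Real.log_le_log_iff hp0 (by linarith)).1 h2
  have h2 := Finset.card_le_card h1
  rw [Nat.card_Icc, Nat.add_sub_cancel] at h2
  calc (P.card : ℝ) ≤ (⌊X⌋₊ : ℝ) := by exact_mod_cast h2
    _ ≤ X := Nat.floor_le (by linarith)

lemma JJ_le {τ α M : ℝ} (hτ : 1 ≤ τ) (hα : 0 ≤ α) {p : ℕ} (hM : Real.log p ≤ M) :
    JJ τ α p ≤ Real.exp (2 * α * M) * Real.exp (α ^ 2) := by
  unfold JJ
  have h1 : α * (2 * Real.log p) ≤ 2 * α * M := by nlinarith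
  have h2 : α ^ 2 / τ ^ 2 ≤ α ^ 2 := div_le_self (sq_nonneg _) (by nlinarith)
  exact mul_le_mul (Real.exp_le_exp.2 h1) (Real.exp_le_exp.2 h2) (Real.exp_pos _).le
    (Real.exp_pos _).le

lemma JJ_nonneg (τ α : ℝ) (p : ℕ) : 0 ≤ JJ τ α p := by unfold JJ; positivity

lemma X_pow {X : ℝ} (hX : 0 < X) (N : ℕ) : X / X ^ N = Real.exp ((1 - N) * Real.log X) := by
  have h1 : X ^ N = Real.exp (N * Real.log X) := by
    rw [mul_comm, Real.exp_mul, Real.exp_log hX, Real.rpow_natCast]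
  rw [h1]
  conv_lhs => rw [← Real.exp_log hX]
  rw [Real.log_exp, ← Real.exp_sub]
  congr 1
  ring

lemma sqrt_exp {X : ℝ} (hX : 0 < X) : Real.sqrt X = Real.exp (Real.log X / 2) := by
  rw [Real.exp_half, Real.exp_log hX]

end Pool.Agent.N880.QF
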