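import Pool.Agent.N880.QF.Star

/-! # The family inequality for Gaussian windows, second part -/

set_option autoImplicit false

open Complex Filter Topology MeasureTheory Set
open Pool.Agent.H306R2.RZ (js)
open Pool.Agent.H413R2.RZ4HP (js_mul js_sq js_abs_le sqf_unique_int)

namespace Pool.Agent.N880.QF

/-- the integral of the off-diagonal part -/
lemma Ph_int (hgd : S_gd) (hpois : S_pois) (hex : S_exch) (hsv : S_sieve) {Q : ℕ} (hQ : Squarefree Q)
    {P : Finset ℕ} (hP : PSet Q P) (y : ℕ → ℝ) (a : ℝ) {τ X : ℝ} (hτ : 0 < τ) (hX : 0 < X)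
    {K δ C s0 E : ℝ} {N : ℕ} (A : ℤ → ℝ)
    (hPW : ∀ s : ℝ, Ph Q P y a τ X s ≤ (1 - δ) * ∑ k' ∈ Kset K, A k' * qq P y a τ (js k') s +
        ∑ p ∈ P, y p ^ 2 * gd τ (2 * Real.log p - s) * Ep Q C N δ X K P.card s0 p s)
    (hE : ∀ p ∈ P, nQ Q * JJ τ (1 / 2) p + P.card * (CQ Q N C * (X / X ^ N) * JJ τ (N - 1 / 2) p *
        (K ^ 2 / K ^ N + (1 + 1 / δ) * (1 / ((p ^ 2 : ℕ) : ℝ) ^ N))) +
      5 * K * (2 * nQ Q * Real.sqrt X) * P.card * (JJ τ N p * Real.exp (-(N * s0))) ≤ E) :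
    ∑' m : ℤ, fr Q m * Wt τ (m / X) * GG P y a τ (js m) ≤ ∑ p ∈ P, y p ^ 2 * Dg Q τ X p +
      (1 - δ) * ∑ k' ∈ Kset K, A k' * GG P y a τ (js k') + E * ∑ p ∈ P, y p ^ 2 := by
  obtain ⟨_, hPi, hPs⟩ := D2 hpois hex hsv hQ hP y a hτ hX
  rw [hPs, add_assoc]
  refine add_le_add le_rfl ?_
  have i1 : Integrable (fun s => (1 - δ) * ∑ k' ∈ Kset K, A k' * qq P y a τ (js k') s) :=
    (integrable_finsetSum _ fun k' _ => (qq_integrable hgd P y a hτ (js k')).const_mul _).const_mul _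
  have i2' : ∀ p ∈ P, Integrable (fun s => y p ^ 2 * gd τ (2 * Real.log p - s) *
      Ep Q C N δ X K P.card s0 p s) := by
    intro p _
    have := (Ep_int hgd hτ Q C N δ X K P.card s0 p).1.const_mul (y p ^ 2)
    refine this.congr (Eventually.of_forall fun s => ?_)
    simp only
    ring
  have i2 : Integrable (fun s => ∑ p ∈ P, y p ^ 2 * gd τ (2 * Real.log p - s) *
      Ep Q C N δ X K P.card s0 p s) := integrable_finsetSum _ i2'
  have h1 := integral_mono hPi (i1.add i2) hPW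
  refine h1.trans ?_
  simp only [Pi.add_apply]
  rw [integral_add i1 i2, integral_const_mul, integral_finsetSum _
    (fun k' _ => (qq_integrable hgd P y a hτ (js k')).const_mul _), integral_finsetSum _ i2']
  refine add_le_add (le_of_eq ?_) ?_
  · congr 1
    refine Finset.sum_congr rfl fun k' _ => ?_
    rw [integral_const_mul, qq_integral hgd P y a hτ]
  · rw [Finset.mul_sum]
    refine Finset.sum_le_sum fun p hp => ?_
    have h2 := (Ep_int hgd hτ Q C N δ X K P.card s0 p).2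
    have e : (fun s => y p ^ 2 * gd τ (2 * Real.log p - s) * Ep Q C N δ X K P.card s0 p s) =
        fun s => y p ^ 2 * (gd τ (2 * Real.log p - s) * Ep Q C N δ X K P.card s0 p s) := by
      funext s; ring
    rw [e, integral_const_mul, h2, mul_comm E]
    exact mul_le_mul_of_nonneg_left (hE p hp) (sq_nonneg _)

lemma exp_le_of {a b : ℝ} (h : a ≤ b) : Real.exp a ≤ Real.exp b := Real.exp_le_exp.2 h

/-- the error terms in the first range -/
lemma err1 (Q N : ℕ) (C : ℝ) (hC : 0 < C) (hN : 16 ≤ N) : ∃ E : ℝ, 0 < E ∧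
    ∀ (P : Finset ℕ) (τ X : ℝ), 1 ≤ τ → 1 ≤ X →
    (∀ p ∈ P, 1 ≤ p ∧ Real.log p ≤ 45 / 100 * Real.log X) → ∀ p ∈ P,
    nQ Q * JJ τ (1 / 2) p + P.card * (CQ Q N C * (X / X ^ N) * JJ τ (N - 1 / 2) p *
        ((1 : ℝ) ^ 2 / 1 ^ N + (1 + 1 / 1) * (1 / ((p ^ 2 : ℕ) : ℝ) ^ N))) +
      5 * 1 * (2 * nQ Q * Real.sqrt X) * P.card * (JJ τ N p * Real.exp (-(N * Real.log X))) ≤
      E * Real.exp (45 / 100 * Real.log X) := by
  refine ⟨nQ Q * Real.exp ((1 / 2) ^ 2) + 3 * CQ Q N C * Real.exp ((N - 1 / 2) ^ 2) +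
    10 * nQ Q * Real.exp ((N : ℝ) ^ 2) + 1, ?_, ?_⟩
  · have := nQ_nonneg Q
    unfold CQ
    positivity
  intro P τ X hτ hX hP p hp
  have hX0 : 0 < X := by linarith
  set L := Real.log X with hL
  have hL0 : 0 ≤ L := Real.log_nonneg hX
  have hcard : (P.card : ℝ) ≤ X := card_le hX fun p hp => ⟨(hP p hp).1, by
    have := (hP p hp).2; linarith⟩
  have hXe : X = Real.exp L := (Real.exp_log hX0).symm
  have hN' : (16 : ℝ) ≤ N := by exact_mod_cast hN
  have hnQ := nQ_nonneg Q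
  have hCQ : 0 ≤ CQ Q N C := by unfold CQ; positivity
  have hlp := (hP p hp).2
  have j1 := JJ_le hτ (show (0 : ℝ) ≤ 1 / 2 by norm_num) hlp
  have j2 := JJ_le hτ (show (0 : ℝ) ≤ N - 1 / 2 by linarith) hlp
  have j3 := JJ_le hτ (show (0 : ℝ) ≤ N by linarith) hlp
  have hp1 : (1 : ℝ) ≤ ((p ^ 2 : ℕ) : ℝ) ^ N := by
    apply one_le_pow₀
    exact_mod_cast Nat.one_le_pow _ _ (hP p hp).1
  have hb : (1 : ℝ) ^ 2 / 1 ^ N + (1 + 1 / 1) * (1 / ((p ^ 2 : ℕ) : ℝ) ^ N) ≤ 3 := by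
    have : 1 / ((p ^ 2 : ℕ) : ℝ) ^ N ≤ 1 := by
      rw [div_le_one (by linarith)]
      exact hp1
    rw [one_pow, one_pow]
    linarith
  have hb0 : 0 ≤ (1 : ℝ) ^ 2 / 1 ^ N + (1 + 1 / 1) * (1 / ((p ^ 2 : ℕ) : ℝ) ^ N) := by positivity
  -- term 1
  have t1 : nQ Q * JJ τ (1 / 2) p ≤ nQ Q * Real.exp ((1 / 2) ^ 2) * Real.exp (45 / 100 * L) := by
    have e : 2 * (1 / 2) * (45 / 100 * L) = 45 / 100 * L := by ring
    rw [e] at j1
    calc _ ≤ nQ Q * (Real.exp (45 / 100 * L) * Real.exp ((1 / 2) ^ 2)) :=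
          mul_le_mul_of_nonneg_left j1 hnQ
      _ = _ := by ring
  -- term 2
  have t2 : P.card * (CQ Q N C * (X / X ^ N) * JJ τ (N - 1 / 2) p *
        ((1 : ℝ) ^ 2 / 1 ^ N + (1 + 1 / 1) * (1 / ((p ^ 2 : ℕ) : ℝ) ^ N))) ≤
      3 * CQ Q N C * Real.exp ((N - 1 / 2) ^ 2) * Real.exp (45 / 100 * L) := by
    rw [X_pow hX0]
    calc _ ≤ Real.exp L * (CQ Q N C * Real.exp ((1 - N) * L) *
          (Real.exp (2 * (N - 1 / 2) * (45 / 100 * L)) * Real.exp ((N - 1 / 2) ^ 2)) * 3) := by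
          rw [← hXe]
          have := JJ_nonneg τ (N - 1 / 2) p
          gcongr
      _ = 3 * CQ Q N C * Real.exp ((N - 1 / 2) ^ 2) * Real.exp (L + (1 - N) * L +
          2 * (N - 1 / 2) * (45 / 100 * L)) := by
          rw [Real.exp_add, Real.exp_add]
          ring
      _ ≤ _ := by
          refine mul_le_mul_of_nonneg_left (exp_le_of ?_) (by positivity)
          nlinarith
  -- term 3
  have t3 : 5 * 1 * (2 * nQ Q * Real.sqrt X) * P.card * (JJ τ N p * Real.exp (-(N * L))) ≤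
      10 * nQ Q * Real.exp ((N : ℝ) ^ 2) * Real.exp (45 / 100 * L) := by
    rw [sqrt_exp hX0]
    calc _ ≤ 5 * 1 * (2 * nQ Q * Real.exp (L / 2)) * Real.exp L *
          ((Real.exp (2 * N * (45 / 100 * L)) * Real.exp ((N : ℝ) ^ 2)) * Real.exp (-(N * L))) := by
          rw [← hXe]
          have := JJ_nonneg τ N p
          gcongr
      _ = 10 * nQ Q * Real.exp ((N : ℝ) ^ 2) * Real.exp (L / 2 + L + 2 * N * (45 / 100 * L) +
          -(N * L)) := by
          rw [Real.exp_add, Real.exp_add, Real.exp_add]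
          ring
      _ ≤ _ := by
          refine mul_le_mul_of_nonneg_left (exp_le_of ?_) (by positivity)
          nlinarith
  have h5 : 0 < Real.exp (45 / 100 * L) := Real.exp_pos _
  nlinarith

/-- the error terms in the second range -/
lemma err2 (Q N : ℕ) (C : ℝ) (hC : 0 < C) {ε K1 : ℝ} (hε : 0 < ε) (hε1 : ε < 1 / 2) (hK1 : 1 ≤ K1)
    (hN : 16 ≤ N) (hNε : 3 ≤ N * ε) : ∃ E : ℝ, 0 < E ∧
    ∀ (P : Finset ℕ) (τ X : ℝ), 1 ≤ τ → K1 ≤ X →
    (∀ p ∈ P, 1 ≤ p ∧ Real.log p ≤ (1 - ε) * Real.log X) → ∀ p ∈ P,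
    nQ Q * JJ τ (1 / 2) p + P.card * (CQ Q N C * (X / X ^ N) * JJ τ (N - 1 / 2) p *
        ((X / K1) ^ 2 / (X / K1) ^ N + (1 + 1 / (1 / Real.sqrt X)) * (1 / ((p ^ 2 : ℕ) : ℝ) ^ N))) +
      5 * (X / K1) * (2 * nQ Q * Real.sqrt X) * P.card *
        (JJ τ N p * Real.exp (-(N * (2 * (1 - ε / 2) * Real.log X)))) ≤
      E * Real.exp ((1 - ε) * Real.log X) := by
  refine ⟨nQ Q * Real.exp ((1 / 2) ^ 2) + (K1 ^ N + 2) * CQ Q N C * Real.exp ((N - 1 / 2) ^ 2) +
    10 * nQ Q * Real.exp ((N : ℝ) ^ 2) + 1, ?_, ?_⟩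
  · have := nQ_nonneg Q
    unfold CQ
    positivity
  intro P τ X hτ hXK hP p hp
  have hX : 1 ≤ X := hK1.trans hXK
  have hX0 : 0 < X := by linarith
  have hK0 : 0 < K1 := by linarith
  set L := Real.log X with hL
  have hL0 : 0 ≤ L := Real.log_nonneg hX
  have hcard : (P.card : ℝ) ≤ X := card_le hX fun p hp => ⟨(hP p hp).1, by
    have := (hP p hp).2; nlinarith⟩
  have hXe : X = Real.exp L := (Real.exp_log hX0).symm
  have hN' : (16 : ℝ) ≤ N := by exact_mod_cast hN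
  have hnQ := nQ_nonneg Q
  have hCQ : 0 ≤ CQ Q N C := by unfold CQ; positivity
  have hlp := (hP p hp).2
  have j1 := JJ_le hτ (show (0 : ℝ) ≤ 1 / 2 by norm_num) hlp
  have j2 := JJ_le hτ (show (0 : ℝ) ≤ N - 1 / 2 by linarith) hlp
  have j3 := JJ_le hτ (show (0 : ℝ) ≤ N by linarith) hlp
  have hp0 : (0 : ℝ) < p := by exact_mod_cast (hP p hp).1
  have hp1 : (1 : ℝ) ≤ p := by exact_mod_cast (hP p hp).1
  have hlogp : 0 ≤ Real.log p := Real.log_nonneg hp1
  -- term 1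
  have t1 : nQ Q * JJ τ (1 / 2) p ≤ nQ Q * Real.exp ((1 / 2) ^ 2) * Real.exp ((1 - ε) * L) := by
    have e : 2 * (1 / 2) * ((1 - ε) * L) = (1 - ε) * L := by ring
    rw [e] at j1
    calc _ ≤ nQ Q * (Real.exp ((1 - ε) * L) * Real.exp ((1 / 2) ^ 2)) :=
          mul_le_mul_of_nonneg_left j1 hnQ
      _ = _ := by ring
  -- term 2a
  have hKp : (X / K1) ^ 2 / (X / K1) ^ N ≤ K1 ^ N * Real.exp ((2 - N) * L) := by
    have e1 : (X / K1) ^ 2 / (X / K1) ^ N = (K1 ^ N / K1 ^ 2) * (X ^ 2 / X ^ N) := by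
      rw [div_pow, div_pow]
      field_simp
    have e2 : X ^ 2 / X ^ N = Real.exp ((2 - N) * L) := by
      have := X_pow hX0 N
      have e3 : X ^ 2 / X ^ N = X * (X / X ^ N) := by ring
      rw [e3, this, ← hL]
      conv_lhs => rw [hXe]
      rw [← Real.exp_add]
      congr 1
      ring
    rw [e1, e2]
    refine mul_le_mul_of_nonneg_right ?_ (Real.exp_pos _).le
    exact div_le_self (by positivity) (by nlinarith)
  have t2a : P.card * (CQ Q N C * (X / X ^ N) * JJ τ (N - 1 / 2) p *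
        ((X / K1) ^ 2 / (X / K1) ^ N)) ≤
      K1 ^ N * CQ Q N C * Real.exp ((N - 1 / 2) ^ 2) * Real.exp ((1 - ε) * L) := by
    rw [X_pow hX0]
    calc _ ≤ Real.exp L * (CQ Q N C * Real.exp ((1 - N) * L) *
          (Real.exp (2 * (N - 1 / 2) * ((1 - ε) * L)) * Real.exp ((N - 1 / 2) ^ 2)) *
          (K1 ^ N * Real.exp ((2 - N) * L))) := by
          rw [← hXe]
          have := JJ_nonneg τ (N - 1 / 2) p
          gcongr
      _ = K1 ^ N * CQ Q N C * Real.exp ((N - 1 / 2) ^ 2) * Real.exp (L + (1 - N) * L +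
          2 * (N - 1 / 2) * ((1 - ε) * L) + (2 - N) * L) := by
          rw [Real.exp_add, Real.exp_add, Real.exp_add]
          ring
      _ ≤ _ := by
          refine mul_le_mul_of_nonneg_left (exp_le_of ?_) (by positivity)
          have e1 : L + (1 - N) * L + 2 * (N - 1 / 2) * ((1 - ε) * L) + (2 - N) * L =
              (3 - (2 * N - 1) * ε) * L := by ring
          rw [e1]
          have e2 : 3 - (2 * N - 1) * ε ≤ 1 - ε := by nlinarith
          exact mul_le_mul_of_nonneg_right e2 hL0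
  -- term 2b
  have hpp : JJ τ (N - 1 / 2) p * (1 / ((p ^ 2 : ℕ) : ℝ) ^ N) ≤ Real.exp ((N - 1 / 2) ^ 2) := by
    unfold JJ
    have h2 : ((N : ℝ) - 1 / 2) ^ 2 / τ ^ 2 ≤ (N - 1 / 2) ^ 2 := div_le_self (sq_nonneg _) (by nlinarith)
    have h3 : 1 / ((p ^ 2 : ℕ) : ℝ) ^ N = Real.exp (-(2 * N * Real.log p)) := by
      rw [Real.exp_neg, one_div]
      congr 1
      have : (2 : ℝ) * N * Real.log p = Real.log p * ((2 * N : ℕ) : ℝ) := by push_cast; ring
      rw [this, Real.exp_mul, Real.exp_log hp0, Real.rpow_natCast, pow_mul]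
      push_cast
      rfl
    rw [h3]
    calc _ = Real.exp ((N - 1 / 2) * (2 * Real.log p) + -(2 * N * Real.log p)) *
          Real.exp (((N : ℝ) - 1 / 2) ^ 2 / τ ^ 2) := by
          rw [Real.exp_add]; ring
      _ ≤ 1 * Real.exp (((N : ℝ) - 1 / 2) ^ 2) := by
          refine mul_le_mul ?_ (exp_le_of h2) (Real.exp_pos _).le (by norm_num)
          rw [Real.exp_le_one_iff]
          nlinarith
      _ = _ := one_mul _
  have hsq1 : 1 ≤ Real.sqrt X := Real.one_le_sqrt.2 hX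
  have t2b : P.card * (CQ Q N C * (X / X ^ N) * JJ τ (N - 1 / 2) p *
        ((1 + 1 / (1 / Real.sqrt X)) * (1 / ((p ^ 2 : ℕ) : ℝ) ^ N))) ≤
      2 * CQ Q N C * Real.exp ((N - 1 / 2) ^ 2) * Real.exp ((1 - ε) * L) := by
    have h1 : 1 + 1 / (1 / Real.sqrt X) ≤ 2 * Real.sqrt X := by
      rw [one_div_one_div]; linarith
    have h1' : 0 ≤ 1 + 1 / (1 / Real.sqrt X) := by positivity
    rw [X_pow hX0]
    calc _ = P.card * (CQ Q N C * Real.exp ((1 - N) * L)) * (1 + 1 / (1 / Real.sqrt X)) *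
          (JJ τ (N - 1 / 2) p * (1 / ((p ^ 2 : ℕ) : ℝ) ^ N)) := by ring
      _ ≤ Real.exp L * (CQ Q N C * Real.exp ((1 - N) * L)) * (2 * Real.sqrt X) *
          Real.exp ((N - 1 / 2) ^ 2) := by
          rw [← hXe]
          have := JJ_nonneg τ (N - 1 / 2) p
          gcongr
      _ = 2 * CQ Q N C * Real.exp ((N - 1 / 2) ^ 2) * Real.exp (L + (1 - N) * L + L / 2) := by
          rw [sqrt_exp hX0, Real.exp_add, Real.exp_add]
          ring
      _ ≤ _ := by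
          refine mul_le_mul_of_nonneg_left (exp_le_of ?_) (by positivity)
          nlinarith
  -- term 3
  have t3 : 5 * (X / K1) * (2 * nQ Q * Real.sqrt X) * P.card *
        (JJ τ N p * Real.exp (-(N * (2 * (1 - ε / 2) * L)))) ≤
      10 * nQ Q * Real.exp ((N : ℝ) ^ 2) * Real.exp ((1 - ε) * L) := by
    have hXK1 : X / K1 ≤ X := div_le_self hX0.le hK1
    rw [sqrt_exp hX0]
    have a0 : 0 ≤ 2 * nQ Q * Real.exp (L / 2) := by positivity
    have a1 : 5 * (X / K1) * (2 * nQ Q * Real.exp (L / 2)) * P.card ≤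
        5 * Real.exp L * (2 * nQ Q * Real.exp (L / 2)) * Real.exp L := by
      have b1 : 5 * (X / K1) * (2 * nQ Q * Real.exp (L / 2)) ≤
          5 * Real.exp L * (2 * nQ Q * Real.exp (L / 2)) :=
        mul_le_mul_of_nonneg_right (by rw [← hXe]; linarith) a0
      exact mul_le_mul b1 (by rw [← hXe]; exact hcard) (Nat.cast_nonneg _)
        (mul_nonneg (by positivity) a0)
    have a2 : JJ τ N p * Real.exp (-(N * (2 * (1 - ε / 2) * L))) ≤
        (Real.exp (2 * N * ((1 - ε) * L)) * Real.exp ((N : ℝ) ^ 2)) *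
            Real.exp (-(N * (2 * (1 - ε / 2) * L))) :=
      mul_le_mul_of_nonneg_right j3 (Real.exp_pos _).le
    calc _ ≤ 5 * Real.exp L * (2 * nQ Q * Real.exp (L / 2)) * Real.exp L *
          ((Real.exp (2 * N * ((1 - ε) * L)) * Real.exp ((N : ℝ) ^ 2)) *
            Real.exp (-(N * (2 * (1 - ε / 2) * L)))) :=
          mul_le_mul a1 a2 (mul_nonneg (JJ_nonneg τ N p) (Real.exp_pos _).le) (by positivity)
      _ = 10 * nQ Q * Real.exp ((N : ℝ) ^ 2) * Real.exp (L + L / 2 + L + 2 * N * ((1 - ε) * L) +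
          -(N * (2 * (1 - ε / 2) * L))) := by
          rw [Real.exp_add, Real.exp_add, Real.exp_add, Real.exp_add]
          ring
      _ ≤ _ := by
          refine mul_le_mul_of_nonneg_left (exp_le_of ?_) (by positivity)
          have e1 : L + L / 2 + L + 2 * N * ((1 - ε) * L) + -(N * (2 * (1 - ε / 2) * L)) =
              (5 / 2 - N * ε) * L := by ring
          rw [e1]
          exact mul_le_mul_of_nonneg_right (by linarith) hL0
  have h5 : 0 < Real.exp ((1 - ε) * L) := Real.exp_pos _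
  have e6 : P.card * (CQ Q N C * (X / X ^ N) * JJ τ (N - 1 / 2) p *
        ((X / K1) ^ 2 / (X / K1) ^ N + (1 + 1 / (1 / Real.sqrt X)) * (1 / ((p ^ 2 : ℕ) : ℝ) ^ N))) =
      P.card * (CQ Q N C * (X / X ^ N) * JJ τ (N - 1 / 2) p * ((X / K1) ^ 2 / (X / K1) ^ N)) +
      P.card * (CQ Q N C * (X / X ^ N) * JJ τ (N - 1 / 2) p *
        ((1 + 1 / (1 / Real.sqrt X)) * (1 / ((p ^ 2 : ℕ) : ℝ) ^ N))) := by ring
  rw [e6]
  nlinarith

end Pool.Agent.N880.QF
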