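import Pool.Agent.N880.QF.Star2

/-! # The family inequality for Gaussian windows, third part -/

set_option autoImplicit false

open Complex Filter Topology MeasureTheory Set
open Pool.Agent.H306R2.RZ (js)
open Pool.Agent.H413R2.RZ4HP (js_mul js_sq js_abs_le sqf_unique_int)

namespace Pool.Agent.N880.QF

lemma fQ_pos (Q : ℕ) : 0 < fQ Q := by
  unfold fQ
  refine Finset.prod_pos fun p hp => ?_
  have hp2 : (2 : ℝ) ≤ p := by exact_mod_cast (Nat.prime_of_mem_primeFactors hp).two_le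
  have : 1 / (p : ℝ) ^ 2 < 1 := by
    rw [div_lt_one (by positivity)]
    nlinarith
  linarith

lemma fQ_le (Q : ℕ) : fQ Q ≤ 1 := by
  unfold fQ
  refine Finset.prod_le_one (fun p hp => ?_) (fun p hp => ?_)
  · have hp2 : (2 : ℝ) ≤ p := by exact_mod_cast (Nat.prime_of_mem_primeFactors hp).two_le
    have : 1 / (p : ℝ) ^ 2 < 1 := by
      rw [div_lt_one (by positivity)]
      nlinarith
    linarith
  · have : 0 ≤ 1 / (p : ℝ) ^ 2 := by positivity
    linarith

lemma sum_le_T (hgd : S_gd) (hpois : S_pois) (hex : S_exch) (hsv : S_sieve) {Q : ℕ}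
    (hQ : Squarefree Q) {P : Finset ℕ} (hP : PSet Q P) (y : ℕ → ℝ) (a : ℝ) {τ X : ℝ} (hτ : 0 < τ)
    (hX : 0 < X) (I : Finset ℤ) (hI : ∀ m ∈ I, Free Q m) :
    ∑ m ∈ I, Wt τ (m / X) * GG P y a τ (js m) ≤
      ∑' m : ℤ, fr Q m * Wt τ (m / X) * GG P y a τ (js m) := by
  obtain ⟨hs, _, _⟩ := D2 hpois hex hsv hQ hP y a hτ hX
  refine le_trans (le_of_eq ?_) (hs.sum_le_tsum I fun m _ =>
    mul_nonneg (mul_nonneg (fr_nonneg Q m) (Wt_nonneg hτ.le _)) (GG_nonneg hgd P y a hτ _))
  refine Finset.sum_congr rfl fun m hm => ?_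
  unfold fr
  rw [if_pos (hI m hm), one_mul]

lemma Kset_one : Kset 1 = ∅ := by
  rw [Finset.eq_empty_iff_forall_notMem]
  intro k hk
  obtain ⟨h1, h2⟩ := mem_Kset.1 hk
  have h3 : (1 : ℤ) ≤ |k| := Int.one_le_abs h1.ne_zero
  have h4 : ((1 : ℤ) : ℝ) ≤ ((|k| : ℤ) : ℝ) := by exact_mod_cast h3
  push_cast at h4
  linarith

/-- the condition on the main part -/
lemma cond_main {rho I2' nq c1 C3 δ a b A : ℝ} (hδ : 0 ≤ δ) (hδ1 : δ ≤ 1)
    (hA : rho * I2' * a - C3 ≤ A) (hI : 0 ≤ I2') (hI1 : I2' ≤ 1) (hrho : rho ≤ nq) (hnq : 0 ≤ nq)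
    (hC3 : 0 ≤ C3) (ha : 0 ≤ a) (hδa : δ * a ≤ 1) (hb : 2 * nq + C3 ≤ c1 * b) :
    rho * I2' * a - c1 * b + δ * (nq * I2' * a) ≤ (1 - δ) * A := by
  have h1 : (1 - δ) * (rho * I2' * a - C3) ≤ (1 - δ) * A :=
    mul_le_mul_of_nonneg_left hA (by linarith)
  have h2 : δ * (rho * I2' * a) ≤ nq := by
    calc δ * (rho * I2' * a) = (δ * a) * I2' * rho := by ring
      _ ≤ (δ * a) * I2' * nq := by
          refine mul_le_mul_of_nonneg_left hrho (by positivity)
      _ ≤ 1 * 1 * nq := by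
          have : 0 ≤ δ * a := by positivity
          gcongr
      _ = nq := by ring
  have h3 : δ * (nq * I2' * a) ≤ nq := by
    calc δ * (nq * I2' * a) = (δ * a) * I2' * nq := by ring
      _ ≤ 1 * 1 * nq := by
          have : 0 ≤ δ * a := by positivity
          gcongr
      _ = nq := by ring
  have h4 : 0 ≤ δ * C3 := by positivity
  nlinarith

theorem starW (hgd : S_gd) (hpois : S_pois) (hex : S_exch) (hsv : S_sieve) (hDup : S_Dup)
    (hgs : S_gs) (hsq : S_sq) (hphi : S_phi) (hphiQ : S_phiQ) (hAlow : S_Alow)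
    {Q : ℕ} (hQ : GoodQ Q) {ε : ℝ} (B : ℕ) (hε : 0 < ε) (hε1 : ε < 1 / 2) :
    ∃ C X1 : ℝ, 0 < C ∧ 1 ≤ X1 ∧ ∀ (X τ : ℝ) (P : Finset ℕ) (I : Finset ℤ) (y : ℕ → ℝ) (a : ℝ),
      X1 ≤ X → 1 ≤ τ → PSet Q P → ((∀ p ∈ P, Real.log p ≤ 45 / 100 * Real.log X) ∨
        (∀ p ∈ P, 3 / 10 * Real.log X ≤ Real.log p ∧ Real.log p ≤ (1 - ε) * Real.log X)) →
      (∀ m ∈ I, (∃ (k : ℤ) (b : ℕ), Squarefree k ∧ 1 ≤ b ∧ b ≤ B ∧ m = k * (b : ℤ) ^ 2) ∧ Free Q m) →
      ∑ m ∈ I, Wt τ (m / X) * GG P y a τ (js m) ≤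
        ((fQ Q * X + C) * Real.exp (1 / (4 * τ ^ 2)) + C * (Real.exp (45 / 100 * Real.log X) +
          Real.exp ((1 - ε) * Real.log X) + Real.exp (9 / 10 * Real.log X))) * ∑ p ∈ P, y p ^ 2 := by
  have hQs : Squarefree Q := hQ.1
  have hQ0 : Q ≠ 0 := hQs.ne_zero
  obtain ⟨c0, hc0, hph0⟩ := hphi
  have hphi' : S_phi := ⟨c0, hc0, hph0⟩
  obtain ⟨c, hc, hphQ⟩ := hphiQ Q hQ
  obtain ⟨CD, hCD, hDg⟩ := Dg_le hDup hQs
  obtain ⟨CA, hCA, hAl⟩ := hAlow Q B hQs
  set c1 : ℝ := c * c0 with hc1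
  have hc1p : 0 < c1 := by positivity
  have hcc : ∀ z : ℝ, 0 < z → c1 * min 1 (1 / Real.sqrt z) ≤
      ∑ d ∈ Q.divisors, mu d / (d : ℝ) ^ 2 * phi (z / (d : ℝ) ^ 2) := by
    intro z hz
    refine le_trans ?_ (hphQ z hz)
    rw [hc1, mul_assoc]
    exact mul_le_mul_of_nonneg_left (hph0 z hz).2.2 hc.le
  set N : ℕ := ⌈3 / ε⌉₊ + 16 with hN
  have hN16 : 16 ≤ N := by omega
  have hNε : 3 ≤ N * ε := by
    have h1 : 3 / ε ≤ (⌈3 / ε⌉₊ : ℝ) := Nat.le_ceil _
    have h2 : (N : ℝ) = (⌈3 / ε⌉₊ : ℝ) + 16 := by rw [hN]; push_cast; ring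
    rw [h2]
    have h3 : 3 / ε * ε = 3 := by field_simp
    nlinarith
  obtain ⟨CP, hCP, hPW⟩ := PW hgs hsq hphi' hQ0 (by omega : 2 ≤ N) hcc
  have hnQ := nQ_nonneg Q
  set C3 : ℝ := CA + 1 with hC3
  set C4 : ℝ := 2 * nQ Q + C3 with hC4
  have hC4p : 0 < C4 := by rw [hC4, hC3]; positivity
  set K1 : ℝ := (C4 / c1) ^ 2 + 1 with hK1
  have hK11 : 1 ≤ K1 := by rw [hK1]; have := sq_nonneg (C4 / c1); linarith
  obtain ⟨E1, hE1, herr1⟩ := err1 Q N CP hCP hN16
  obtain ⟨E2, hE2, herr2⟩ := err2 Q N CP hCP hε hε1 hK11 hN16 hNε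
  set XL : ℝ := Real.exp (2 / ε * Real.log (C4 / c1 + 1)) with hXL
  have hXLp : 0 < XL := Real.exp_pos _
  refine ⟨CD + E1 + E2 + 12, K1 + XL + 3, by positivity, by linarith, ?_⟩
  intro X τ P I y a hX hτ hP hreg hI
  have hXK : K1 ≤ X := by linarith
  have hX1 : 1 ≤ X := hK11.trans hXK
  have hX0 : 0 < X := by linarith
  have hτ0 : 0 < τ := by linarith
  set L := Real.log X with hL
  have hL0 : 0 ≤ L := Real.log_nonneg hX1
  set S2 := ∑ p ∈ P, y p ^ 2 with hS2
  have hS20 : 0 ≤ S2 := Finset.sum_nonneg fun p _ => sq_nonneg _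
  have hDsum : ∑ p ∈ P, y p ^ 2 * Dg Q τ X p ≤
      (fQ Q * X + CD) * Real.exp (1 / (4 * τ ^ 2)) * S2 := by
    rw [hS2, Finset.mul_sum]
    refine Finset.sum_le_sum fun p hp => ?_
    rw [mul_comm]
    exact mul_le_mul_of_nonneg_right (hDg τ X p (hP p hp).1 hτ hX1) (sq_nonneg _)
  have hx1 : 0 < Real.exp (45 / 100 * L) := Real.exp_pos _
  have hx2 : 0 < Real.exp ((1 - ε) * L) := Real.exp_pos _
  have hx3 : 0 < Real.exp (9 / 10 * L) := Real.exp_pos _
  have hxt : 0 < Real.exp (1 / (4 * τ ^ 2)) := Real.exp_pos _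
  have hfQ := fQ_pos Q
  rcases hreg with hr | hr
  · -- first range
    have hcond : ∀ p ∈ P, 1 ≤ p ∧ Real.log p ≤ 45 / 100 * Real.log X :=
      fun p hp => ⟨(hP p hp).1.pos, hr p hp⟩
    have hpw := hPW P y a τ X 1 1 L (fun _ => 0) hP hτ0 hX1 le_rfl one_pos le_rfl
      (fun k' _ => le_rfl)
      (fun k' hk' => by rw [Kset_one] at hk'; simp at hk')
    have h1 := Ph_int hgd hpois hex hsv hQs hP y a hτ0 hX0 (fun _ => 0) hpw
      (herr1 P τ X hτ hX1 hcond)
    have h2 := sum_le_T hgd hpois hex hsv hQs hP y a hτ0 hX0 I (fun m hm => (hI m hm).2)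
    rw [Kset_one, Finset.sum_empty, mul_zero, add_zero] at h1
    have h3 : E1 * Real.exp (45 / 100 * L) * S2 ≤ (CD + E1 + E2 + 12) * (Real.exp (45 / 100 * L) +
        Real.exp ((1 - ε) * L) + Real.exp (9 / 10 * L)) * S2 := by
      refine mul_le_mul_of_nonneg_right ?_ hS20
      exact mul_le_mul (by linarith) (by linarith) hx1.le (by linarith)
    have h4 : (fQ Q * X + CD) * Real.exp (1 / (4 * τ ^ 2)) * S2 ≤
        (fQ Q * X + (CD + E1 + E2 + 12)) * Real.exp (1 / (4 * τ ^ 2)) * S2 := by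
      refine mul_le_mul_of_nonneg_right (mul_le_mul_of_nonneg_right (by linarith) hxt.le) hS20
    rw [add_mul]
    linarith
  · -- second range
    have hcond : ∀ p ∈ P, 1 ≤ p ∧ Real.log p ≤ (1 - ε) * Real.log X :=
      fun p hp => ⟨(hP p hp).1.pos, (hr p hp).2⟩
    set K : ℝ := X / K1 with hK
    have hK1' : 1 ≤ K := by rw [hK, le_div_iff₀ (by linarith)]; linarith
    have hsqX : 1 ≤ Real.sqrt X := Real.one_le_sqrt.2 hX1
    set δ : ℝ := 1 / Real.sqrt X with hδ
    have hδ0 : 0 < δ := by positivity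
    have hδ1 : δ ≤ 1 := by rw [hδ, div_le_one (by linarith)]; exact hsqX
    obtain ⟨Bs, hBs, hBA⟩ := Bs_ex hτ0.le X Q B (Kset K)
    set A : ℤ → ℝ := Aw τ X Bs with hA
    have hAlo : ∀ k' ∈ Kset K, rhoQ Q * I2 * Real.sqrt (X / |(k' : ℝ)|) - C3 ≤ A k' := by
      intro k' hk'
      have h1 := hAl τ X k' hτ hX1 (mem_Kset.1 hk').1.ne_zero
      have h2 := hBA k' hk'
      rw [hC3]
      linarith
    set s0 : ℝ := 2 * (1 - ε / 2) * L with hs0
    have hpw := hPW P y a τ X K δ s0 A hP hτ0 hX1 hK1' hδ0 hδ1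
      (fun k' _ => Aw_nonneg hτ0.le X Bs k') (by
        intro k' hk' s hs
        obtain ⟨a1, a2⟩ := mem_Kset.1 hk'
        have hk1 : 1 ≤ |(k' : ℝ)| := by
          have : (1 : ℤ) ≤ |k'| := Int.one_le_abs a1.ne_zero
          have h2 : ((1 : ℤ) : ℝ) ≤ ((|k'| : ℤ) : ℝ) := by exact_mod_cast this
          push_cast at h2
          exact h2
        have hk0 : 0 < |(k' : ℝ)| := by linarith
        set aa := Real.sqrt (X / |(k' : ℝ)|) with haa
        have haX : aa ≤ Real.sqrt X := Real.sqrt_le_sqrt (div_le_self hX0.le hk1)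
        have hδa : δ * aa ≤ 1 := by
          rw [hδ, one_div, inv_mul_le_iff₀ (by linarith), mul_one]
          exact haX
        refine cond_main hδ0.le hδ1
          (hAlo k' hk') hsq.1.le hsq.2.1 (rho_le Q) hnQ
          (by rw [hC3]; positivity) (Real.sqrt_nonneg _) hδa ?_
        -- lower bound of the defect
        have hb : C4 / c1 ≤ X * Real.exp (-(s / 2)) * min 1
            (1 / Real.sqrt (|(k' : ℝ)| * (X * Real.exp (-s)))) := by
          have hpos : 0 < X * Real.exp (-(s / 2)) := by positivity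
          rw [mul_min_of_nonneg _ _ hpos.le, mul_one]
          refine le_min ?_ ?_
          · -- X e^{-s/2} ≥ X^{ε/2}
            have h1 : Real.exp (ε / 2 * L) ≤ X * Real.exp (-(s / 2)) := by
              have hXe : X = Real.exp L := (Real.exp_log hX0).symm
              conv_rhs => rw [hXe]
              rw [← Real.exp_add]
              apply exp_le_of
              rw [hs0] at hs
              linarith
            have h2 : C4 / c1 + 1 ≤ Real.exp (ε / 2 * L) := by
              have h3 : 0 < C4 / c1 + 1 := by positivity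
              rw [← Real.exp_log h3]
              apply exp_le_of
              have h4 : 2 / ε * Real.log (C4 / c1 + 1) ≤ L := by
                rw [hL, Real.le_log_iff_exp_le hX0, ← hXL]
                linarith
              calc Real.log (C4 / c1 + 1) = ε / 2 * (2 / ε * Real.log (C4 / c1 + 1)) := by
                    field_simp
                _ ≤ ε / 2 * L := mul_le_mul_of_nonneg_left h4 (by positivity)
            linarith
          · -- the other term is `sqrt (X/|k|) ≥ sqrt K1`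
            have h1 : X * Real.exp (-(s / 2)) * (1 / Real.sqrt (|(k' : ℝ)| * (X * Real.exp (-s)))) =
                Real.sqrt (X / |(k' : ℝ)|) := by
              have e1 : |(k' : ℝ)| * (X * Real.exp (-s)) =
                  (|(k' : ℝ)| * X) * (Real.exp (-(s / 2))) ^ 2 := by
                have : Real.exp (-s) = Real.exp (-(s / 2)) ^ 2 := by
                  rw [← Real.exp_nat_mul]
                  congr 1
                  push_cast
                  ring
                rw [this]; ring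
              have hEE := Real.exp_pos (-(s / 2))
              rw [e1, Real.sqrt_mul (by positivity), Real.sqrt_sq hEE.le, Real.sqrt_div hX0.le,
                Real.sqrt_mul hk0.le]
              have h1 : 0 < Real.sqrt X := Real.sqrt_pos.2 hX0
              have h2 : 0 < Real.sqrt |(k' : ℝ)| := Real.sqrt_pos.2 hk0
              field_simp
              rw [Real.sq_sqrt hX0.le]
            rw [h1]
            apply Real.le_sqrt_of_sq_le
            rw [le_div_iff₀ hk0]
            have h3 : |(k' : ℝ)| * K1 ≤ X := by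
              have h4 : |(k' : ℝ)| < X / K1 := a2
              rw [lt_div_iff₀ (by linarith)] at h4
              exact h4.le
            have h5 : (C4 / c1) ^ 2 ≤ K1 := by rw [hK1]; linarith
            calc (C4 / c1) ^ 2 * |(k' : ℝ)| ≤ K1 * |(k' : ℝ)| :=
                  mul_le_mul_of_nonneg_right h5 hk0.le
              _ = |(k' : ℝ)| * K1 := mul_comm _ _
              _ ≤ X := h3
        have h6 := mul_le_mul_of_nonneg_left hb hc1p.le
        have h7 : c1 * (C4 / c1) = C4 := by field_simp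
        rw [h7] at h6
        exact h6)
    have h1 := Ph_int hgd hpois hex hsv hQs hP y a hτ0 hX0 A hpw (herr2 P τ X hτ hXK hcond)
    have h2 := PSide hgd hex hpois hsv hDup hQs hP y a (K := K) hτ hX1 hδ0 I hI Bs hBs
    -- the primal error
    have h3 : (1 + 1 / δ) * (X * Real.exp (1 / (4 * τ ^ 2)) *
        (3 * ∑ p ∈ P, y p ^ 2 * (1 / (p : ℝ) ^ 2))) ≤ 12 * Real.exp (9 / 10 * L) * S2 := by
      have e1 : 1 + 1 / δ ≤ 2 * Real.exp (L / 2) := by
        rw [hδ, one_div_one_div, ← sqrt_exp hX0]; linarith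
      have e2 : Real.exp (1 / (4 * τ ^ 2)) ≤ 2 := by
        have : 1 / (4 * τ ^ 2) ≤ 1 / 4 := by
          apply div_le_div_of_nonneg_left (by norm_num) (by norm_num)
          nlinarith
        refine (exp_le_of this).trans ?_
        have h4 := Real.exp_bound_div_one_sub_of_interval (x := 1 / 4) (by norm_num) (by norm_num)
        linarith [show (1 : ℝ) / (1 - 1 / 4) = 4 / 3 by norm_num]
      have e3 : ∑ p ∈ P, y p ^ 2 * (1 / (p : ℝ) ^ 2) ≤ Real.exp (-(6 / 10 * L)) * S2 := by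
        rw [hS2, Finset.mul_sum]
        refine Finset.sum_le_sum fun p hp => ?_
        rw [mul_comm]
        refine mul_le_mul_of_nonneg_right ?_ (sq_nonneg _)
        have hp0 : (0 : ℝ) < p := by exact_mod_cast (hP p hp).1.pos
        have h4 : Real.exp (6 / 10 * L) ≤ (p : ℝ) ^ 2 := by
          have h5 : (p : ℝ) ^ 2 = Real.exp (2 * Real.log p) := by
            rw [mul_comm, Real.exp_mul, Real.exp_log hp0]
            exact (Real.rpow_natCast _ 2).symm
          rw [h5]
          apply exp_le_of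
          linarith [(hr p hp).1]
        rw [Real.exp_neg, ← one_div]
        exact one_div_le_one_div_of_le (Real.exp_pos _) h4
      have hXe : X = Real.exp L := (Real.exp_log hX0).symm
      have e4 : 0 ≤ ∑ p ∈ P, y p ^ 2 * (1 / (p : ℝ) ^ 2) :=
        Finset.sum_nonneg fun p _ => by positivity
      calc _ ≤ (2 * Real.exp (L / 2)) * (Real.exp L * 2 *
            (3 * (Real.exp (-(6 / 10 * L)) * S2))) := by
            rw [← hXe]
            gcongr
        _ = 12 * Real.exp (L / 2 + L + -(6 / 10 * L)) * S2 := by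
            rw [Real.exp_add, Real.exp_add]; ring
        _ = _ := by
            congr 3
            ring
    have h4 : E2 * Real.exp ((1 - ε) * L) * S2 + 12 * Real.exp (9 / 10 * L) * S2 ≤
        (CD + E1 + E2 + 12) * (Real.exp (45 / 100 * L) +
        Real.exp ((1 - ε) * L) + Real.exp (9 / 10 * L)) * S2 := by
      rw [← add_mul]
      refine mul_le_mul_of_nonneg_right ?_ hS20
      nlinarith
    have h5 : (fQ Q * X + CD) * Real.exp (1 / (4 * τ ^ 2)) * S2 ≤
        (fQ Q * X + (CD + E1 + E2 + 12)) * Real.exp (1 / (4 * τ ^ 2)) * S2 := by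
      refine mul_le_mul_of_nonneg_right (mul_le_mul_of_nonneg_right (by linarith) hxt.le) hS20
    rw [add_mul]
    linarith

end Pool.Agent.N880.QF
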