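import Pool.Agent.N880.QF.Star3

/-! # The family inequality for Gaussian windows, with the Gaussian weight -/

set_option autoImplicit false

open Complex Filter Topology MeasureTheory Set
open Pool.Agent.H306R2.RZ (js)

namespace Pool.Agent.N880.QF

/-- the family inequality -/
def S_star : Prop := ∀ Q : ℕ, GoodQ Q → ∀ (s ε : ℝ) (B : ℕ), 0 < s → 0 < ε → ε < 1 / 2 →
  ∃ X0 : ℝ, 3 ≤ X0 ∧ ∀ (X : ℝ) (P : Finset ℕ) (I : Finset ℤ) (y : ℕ → ℝ) (a : ℝ),
    X0 ≤ X → PSet Q P → ((∀ p ∈ P, Real.log p ≤ 45 / 100 * Real.log X) ∨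
      (∀ p ∈ P, 3 / 10 * Real.log X ≤ Real.log p ∧ Real.log p ≤ (1 - ε) * Real.log X)) →
    (∀ m ∈ I, Main B X m ∧ Free Q m) →
    ∑ m ∈ I, om X m * GG P y a (Real.log X) (js m) ≤ (1 + s) * (fQ Q * X) * ∑ p ∈ P, y p ^ 2

lemma om_le_Wt (hWl : S_Wt_lower) {X : ℝ} (hX : 0 < X) (hL : 2 ≤ Real.log X) {m : ℤ}
    (hm : |(m : ℝ)| ≤ X * Real.sqrt (Real.log X)) :
    om X m ≤ Real.exp (8 * Real.pi / Real.log X) * Wt (Real.log X) (m / X) := by
  set L := Real.log X with hLd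
  have hL0 : 0 < L := by linarith
  have h1 := hWl L (m / X) hL0
  refine le_trans ?_ (mul_le_mul_of_nonneg_left h1 (Real.exp_pos _).le)
  rw [← Real.exp_add]
  unfold om
  apply Real.exp_le_exp.2
  have h2 : ((m : ℝ) / X) ^ 2 ≤ L := by
    have h3 : |(m : ℝ) / X| ≤ Real.sqrt L := by
      rw [abs_div, abs_of_pos hX, div_le_iff₀ hX, mul_comm]
      exact hm
    calc ((m : ℝ) / X) ^ 2 = |(m : ℝ) / X| ^ 2 := (sq_abs _).symm
      _ ≤ Real.sqrt L ^ 2 := pow_le_pow_left₀ (abs_nonneg _) h3 2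
      _ = L := Real.sq_sqrt hL0.le
  have h4 : Real.exp (4 / L ^ 2) ≤ 1 + 8 / L ^ 2 := by
    have h5 : 4 / L ^ 2 ≤ 1 := by
      rw [div_le_one (by positivity)]
      nlinarith
    have h6 : 0 ≤ 4 / L ^ 2 := by positivity
    have h7 := Real.abs_exp_sub_one_le (x := 4 / L ^ 2) (by rw [abs_of_nonneg h6]; exact h5)
    rw [abs_of_nonneg h6] at h7
    have h8 := (abs_le.1 h7).2
    have h9 : 2 * (4 / L ^ 2) = 8 / L ^ 2 := by ring
    rw [h9] at h8
    linarith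
  have hx0 : 0 ≤ ((m : ℝ) / X) ^ 2 := sq_nonneg _
  have hpi := Real.pi_pos
  have h10 : Real.pi * ((m : ℝ) / X) ^ 2 * Real.exp (4 / L ^ 2) ≤
      Real.pi * ((m : ℝ) / X) ^ 2 + 8 * Real.pi / L := by
    calc _ ≤ Real.pi * ((m : ℝ) / X) ^ 2 * (1 + 8 / L ^ 2) := by gcongr
      _ = Real.pi * ((m : ℝ) / X) ^ 2 + Real.pi * ((m : ℝ) / X) ^ 2 * (8 / L ^ 2) := by ring
      _ ≤ Real.pi * ((m : ℝ) / X) ^ 2 + Real.pi * L * (8 / L ^ 2) := by gcongr
      _ = _ := by field_simp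
  linarith

lemma ev_exp {c : ℝ} (hc : c < 1) {C s : ℝ} (hs : 0 < s) :
    ∀ᶠ L : ℝ in atTop, C * Real.exp (c * L) ≤ s * Real.exp L := by
  have h1 : Tendsto (fun L : ℝ => Real.exp ((1 - c) * L)) atTop atTop :=
    Real.tendsto_exp_atTop.comp (tendsto_id.const_mul_atTop (by linarith))
  filter_upwards [h1.eventually_ge_atTop (C / s)] with L hL
  have h2 : Real.exp L = Real.exp ((1 - c) * L) * Real.exp (c * L) := by
    rw [← Real.exp_add]
    congr 1
    ring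
  rw [h2, ← mul_assoc]
  refine mul_le_mul_of_nonneg_right ?_ (Real.exp_pos _).le
  rw [div_le_iff₀ hs] at hL
  linarith

lemma ev_one {f : ℝ → ℝ} (hf : Tendsto f atTop (𝓝 0)) {s : ℝ} (hs : 0 < s) :
    ∀ᶠ L : ℝ in atTop, Real.exp (f L) ≤ 1 + s := by
  have h1 : Tendsto (fun L => Real.exp (f L)) atTop (𝓝 (Real.exp 0)) :=
    (Real.continuous_exp.tendsto 0).comp hf
  rw [Real.exp_zero] at h1
  filter_upwards [h1.eventually (gt_mem_nhds (show (1 : ℝ) < 1 + s by linarith))] with L hL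
  exact hL.le

lemma fin_alg {f s' s X C E1 E2 : ℝ} (hf : 0 < f) (hf1 : f ≤ 1) (hs : 0 < s) (hs' : 0 < s')
    (h20 : 20 * s' ≤ f * s) (h20' : 20 * s' ≤ f) (hX : 0 < X) (hC : C ≤ s' * X) (hE1 : 1 ≤ E1)
    (hE1' : E1 ≤ 1 + s') (hE2 : E2 ≤ s' * X) :
    (1 + s') * ((f * X + C) * E1 + E2) ≤ (1 + s) * (f * X) := by
  have h1 : (f * X + C) * E1 ≤ ((f + s') * X) * (1 + s') := by
    have : f * X + C ≤ (f + s') * X := by linarith
    calc (f * X + C) * E1 ≤ ((f + s') * X) * E1 := mul_le_mul_of_nonneg_right this (by linarith)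
      _ ≤ _ := mul_le_mul_of_nonneg_left hE1' (by positivity)
  have h2 : (f * X + C) * E1 + E2 ≤ ((f + s') * (1 + s') + s') * X := by linarith
  have h3 : (1 + s') * ((f * X + C) * E1 + E2) ≤ (1 + s') * (((f + s') * (1 + s') + s') * X) :=
    mul_le_mul_of_nonneg_left h2 (by linarith)
  refine h3.trans ?_
  have h4 : (1 + s') * ((f + s') * (1 + s') + s') ≤ (1 + s) * f := by
    have h5 : s' ≤ 1 / 20 := by linarith
    have h6 : s' * s' ≤ s' * (1 / 20) := mul_le_mul_of_nonneg_left h5 hs'.le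
    have h7 : f * s' ≤ 1 * s' := mul_le_mul_of_nonneg_right hf1 hs'.le
    have h8 : s' * s' * s' ≤ s' * (1 / 20) * 1 := by
      have : s' ≤ 1 := by linarith
      have h9 : 0 ≤ s' * s' := by positivity
      nlinarith
    have h9 : f * (s' * s') ≤ 1 * (s' * s') := mul_le_mul_of_nonneg_right hf1 (by positivity)
    nlinarith
  calc (1 + s') * (((f + s') * (1 + s') + s') * X) = ((1 + s') * ((f + s') * (1 + s') + s')) * X := by
        ring
    _ ≤ ((1 + s) * f) * X := mul_le_mul_of_nonneg_right h4 hX.le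
    _ = _ := by ring

theorem star_main (hgd : S_gd) (hpois : S_pois) (hex : S_exch) (hsv : S_sieve) (hDup : S_Dup)
    (hgs : S_gs) (hsq : S_sq) (hphi : S_phi) (hphiQ : S_phiQ) (hAlow : S_Alow)
    (hWl : S_Wt_lower) : S_star := by
  intro Q hQ s ε B hs hε hε1
  obtain ⟨C, X1, hC, hX1, hW⟩ := starW hgd hpois hex hsv hDup hgs hsq hphi hphiQ hAlow hQ B hε hε1
  have hf := fQ_pos Q
  have hf1 := fQ_le Q
  set s' : ℝ := min (fQ Q * s / 20) (fQ Q / 20) with hs'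
  have hs'0 : 0 < s' := by rw [hs']; positivity
  have hs'1 : 20 * s' ≤ fQ Q * s := by
    have := min_le_left (fQ Q * s / 20) (fQ Q / 20)
    linarith
  have hs'2 : 20 * s' ≤ fQ Q := by
    have := min_le_right (fQ Q * s / 20) (fQ Q / 20)
    linarith
  have t1 : Tendsto (fun L : ℝ => 8 * Real.pi / L) atTop (𝓝 0) :=
    tendsto_const_nhds.div_atTop tendsto_id
  have t2 : Tendsto (fun L : ℝ => 1 / (4 * L ^ 2)) atTop (𝓝 0) := by
    apply tendsto_const_nhds.div_atTop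
    exact (tendsto_pow_atTop (by norm_num)).const_mul_atTop (by norm_num)
  have hev : ∀ᶠ L : ℝ in atTop, Real.exp (8 * Real.pi / L) ≤ 1 + s' ∧
      Real.exp (1 / (4 * L ^ 2)) ≤ 1 + s' ∧ C * Real.exp (0 * L) ≤ s' * Real.exp L ∧
      C * Real.exp (45 / 100 * L) ≤ s' / 3 * Real.exp L ∧
      C * Real.exp ((1 - ε) * L) ≤ s' / 3 * Real.exp L ∧
      C * Real.exp (9 / 10 * L) ≤ s' / 3 * Real.exp L ∧ 2 ≤ L := by
    filter_upwards [ev_one t1 hs'0, ev_one t2 hs'0, ev_exp (c := 0) (C := C) (by norm_num) hs'0,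
      ev_exp (c := 45 / 100) (C := C) (by norm_num) (show 0 < s' / 3 by positivity),
      ev_exp (c := 1 - ε) (C := C) (by linarith) (show 0 < s' / 3 by positivity),
      ev_exp (c := 9 / 10) (C := C) (by norm_num) (show 0 < s' / 3 by positivity),
      eventually_ge_atTop 2] with L a1 a2 a3 a4 a5 a6 a7
    exact ⟨a1, a2, a3, a4, a5, a6, a7⟩
  obtain ⟨L0, hL0⟩ := eventually_atTop.1 hev
  refine ⟨max 3 (max X1 (Real.exp L0)), le_max_left _ _, ?_⟩
  intro X P I y a hX hP hreg hI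
  have hX3 : 3 ≤ X := (le_max_left _ _).trans hX
  have hXX1 : X1 ≤ X := (le_max_left _ _).trans ((le_max_right _ _).trans hX)
  have hXe : Real.exp L0 ≤ X := (le_max_right _ _).trans ((le_max_right _ _).trans hX)
  have hX0 : 0 < X := by linarith
  set L := Real.log X with hL
  have hLL : L0 ≤ L := by
    rw [hL, Real.le_log_iff_exp_le hX0]
    exact hXe
  obtain ⟨b1, b2, b3, b4, b5, b6, b7⟩ := hL0 L hLL
  have hXE : Real.exp L = X := Real.exp_log hX0
  rw [hXE] at b3 b4 b5 b6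
  rw [zero_mul, Real.exp_zero, mul_one] at b3
  have hLpos : 0 < L := by linarith
  have h1 := hW X L P I y a hXX1 (by linarith) hP hreg (fun m hm => by
    obtain ⟨⟨_, k, b, c1, c2, c3, c4, c5⟩, h2⟩ := hI m hm
    exact ⟨⟨k, b, c1, c3, c4, c5⟩, h2⟩)
  have hS2 : 0 ≤ ∑ p ∈ P, y p ^ 2 := Finset.sum_nonneg fun p _ => sq_nonneg _
  have h2 : ∑ m ∈ I, om X m * GG P y a L (js m) ≤
      (1 + s') * ∑ m ∈ I, Wt L (m / X) * GG P y a L (js m) := by
    rw [Finset.mul_sum]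
    refine Finset.sum_le_sum fun m hm => ?_
    have c1 := om_le_Wt hWl hX0 b7 (hI m hm).1.1
    have c2 := GG_nonneg hgd P y a hLpos (js m)
    have c3 := Wt_nonneg hLpos.le (m / X)
    calc om X m * GG P y a L (js m) ≤
        (Real.exp (8 * Real.pi / L) * Wt L (m / X)) * GG P y a L (js m) :=
          mul_le_mul_of_nonneg_right c1 c2
      _ ≤ ((1 + s') * Wt L (m / X)) * GG P y a L (js m) := by gcongr
      _ = _ := by ring
  have hE : 1 ≤ Real.exp (1 / (4 * L ^ 2)) := Real.one_le_exp (by positivity)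
  have h3 := fin_alg hf hf1 hs hs'0 hs'1 hs'2 hX0 b3 hE b2
    (show C * (Real.exp (45 / 100 * L) + Real.exp ((1 - ε) * L) + Real.exp (9 / 10 * L)) ≤ s' * X by
      rw [mul_add, mul_add]
      linarith)
  calc _ ≤ (1 + s') * ∑ m ∈ I, Wt L (m / X) * GG P y a L (js m) := h2
    _ ≤ (1 + s') * (((fQ Q * X + C) * Real.exp (1 / (4 * L ^ 2)) +
        C * (Real.exp (45 / 100 * L) + Real.exp ((1 - ε) * L) + Real.exp (9 / 10 * L))) *
          ∑ p ∈ P, y p ^ 2) := mul_le_mul_of_nonneg_left h1 (by linarith)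
    _ = ((1 + s') * ((fQ Q * X + C) * Real.exp (1 / (4 * L ^ 2)) +
        C * (Real.exp (45 / 100 * L) + Real.exp ((1 - ε) * L) + Real.exp (9 / 10 * L)))) *
          ∑ p ∈ P, y p ^ 2 := by ring
    _ ≤ _ := mul_le_mul_of_nonneg_right h3 hS2

end Pool.Agent.N880.QF
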