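import Pool.Agent.N880.QF.Stm

/-!
Project QF (helper880): Gaussian sums.
-/

set_option autoImplicit false

open Complex Filter Topology MeasureTheory Set
open Pool.Agent.H306R2.RZ (js)

namespace Pool.Agent.N880.QF

/-- `I₂ = ∫_0^∞ exp(-π x⁴) dx` -/
noncomputable def I2 : ℝ := ∫ x in Ioi (0 : ℝ), Real.exp (-(Real.pi * x ^ 4))

/-- `∑_{d | Q} μ(d)/d` -/
noncomputable def rhoQ (Q : ℕ) : ℝ := ∑ d ∈ Q.divisors, ((ArithmeticFunction.moebius d : ℤ) : ℝ) / d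

/-- L12a: sums along squares -/
def S_sq : Prop := 0 < I2 ∧ I2 ≤ 1 ∧ ∀ z : ℝ, 0 < z →
  (∫ x in Ioi (0 : ℝ), Real.exp (-(Real.pi * (x ^ 2 * z) ^ 2)) = I2 / Real.sqrt z) ∧
  0 ≤ phi z ∧ phi z ≤ 1

/-- L12b: Gaussian sums over the integers -/
def S_gs : Prop := (∀ Y : ℝ, 0 < Y →
    Summable (fun k : ℤ => Real.exp (-(Real.pi * (k * Y) ^ 2))) ∧
    (∑' k : ℤ, (if k = 0 then 0 else Real.exp (-(Real.pi * (k * Y) ^ 2)))) ≤ 1 / Y ∧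
    1 / Y - 1 ≤ ∑' k : ℤ, (if k = 0 then 0 else Real.exp (-(Real.pi * (k * Y) ^ 2)))) ∧
  ∀ N : ℕ, 2 ≤ N → ∃ C : ℝ, 0 < C ∧
    (∀ Y K : ℝ, 0 < Y → 1 ≤ K →
      (∑' k : ℤ, (if K ≤ |(k : ℝ)| then Real.exp (-(Real.pi * (k * Y) ^ 2)) else 0)) ≤
        C / Y ^ N * K ^ 2 / K ^ N) ∧
    (∀ (Y : ℝ) (D : ℕ), 0 < Y → 1 ≤ D →
      (∑' k : ℤ, (if k ≠ 0 ∧ (D : ℤ) ∣ k then Real.exp (-(Real.pi * (k * Y) ^ 2)) else 0)) ≤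
        C / (D * Y) ^ N)

/-- L12c: lower bound of the weight of a square class without its small square parts -/
def S_Alow : Prop := ∀ (Q B : ℕ), Squarefree Q → ∃ C : ℝ, 0 < C ∧ ∀ (τ X : ℝ) (k : ℤ), 1 ≤ τ → 1 ≤ X →
  k ≠ 0 →
  rhoQ Q * I2 * Real.sqrt (X / |(k : ℝ)|) - C ≤
    ∑' b : ℕ, (if B < b ∧ b.Coprime Q then Wt τ ((k * (b : ℤ) ^ 2 : ℤ) / X) else 0)

/-- L12d: upper bounds of weights -/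
def S_Dup : Prop :=
  (∀ Q : ℕ, Squarefree Q → ∃ C : ℝ, 0 < C ∧ ∀ (τ X : ℝ), 1 ≤ τ → 1 ≤ X → ∀ f : ℤ → ℝ,
    (∀ m, 0 ≤ f m) → (∀ m, f m ≤ 1) → (∀ m, f m ≠ 0 → m ≠ 0 ∧ Free Q m) →
    ∑' m : ℤ, Wt τ (m / X) * f m ≤ (fQ Q * X + C) * Real.exp (1 / (4 * τ ^ 2))) ∧
  (∀ (τ X : ℝ) (D : ℕ), 1 ≤ τ → 1 ≤ X → 1 ≤ D → ∀ f : ℤ → ℝ,
    (∀ m, 0 ≤ f m) → (∀ m, f m ≤ 1) → (∀ m, f m ≠ 0 → m ≠ 0 ∧ (D : ℤ) ∣ m) →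
    ∑' m : ℤ, Wt τ (m / X) * f m ≤ X / D * Real.exp (1 / (4 * τ ^ 2)))

/-- L12e: the sieve identity -/
def S_sieve : Prop := ∀ (Q : ℕ), Squarefree Q → ∀ m : ℤ,
  (∑ d ∈ Q.divisors, if ((d : ℤ) ^ 2 ∣ m) then ((ArithmeticFunction.moebius d : ℤ) : ℝ) else 0) =
    (open Classical in if Free Q m then 1 else 0)

end Pool.Agent.N880.QF
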