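import Pool.Agent.N880.QF.Stm

/-!
Project QF (helper880): Dedekind zeta functions of quadratic fields.
-/

set_option autoImplicit false

open Complex Filter Topology Set
open H370 (NN Nd Ns zset mult)
open Pool.Agent.TH560.QT (Attached)

namespace Pool.Agent.N880.QF

/-- DZ: the Dedekind zeta function of a quadratic field containing a square root of `m` -/
def S_dz : Prop := ∀ (K : Type) [Field K] [NumberField K], Module.finrank ℚ K = 2 →
  ∀ (m : ℤ) (a : K), a ^ 2 = (m : K) → ¬ IsSquare m →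
  ∀ (N : ℕ) (_ : NeZero N) (χ : DirichletCharacter ℂ N), χ.IsPrimitive → Attached m χ →
  ∀ s : ℂ, 1 < s.re →
    NumberField.dedekindZeta K s = riemannZeta s * DirichletCharacter.LFunction χ s

/-- QD: quadratic fields contain the square root of an integer which is not a square -/
def S_quad : Prop := ∀ (K : Type) [Field K] [NumberField K], Module.finrank ℚ K = 2 →
  ∃ (m : ℤ) (a : K), a ^ 2 = (m : K) ∧ ¬ IsSquare m

/-- PR: zeros of a product -/
def S_prod : Prop := ∀ (F G : ℂ → ℂ) (T1 T2 : ℝ), 0 ≤ T1 → T1 ≤ T2 →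
  (∀ s : ℂ, 0 < s.im → AnalyticAt ℂ F s) → (∀ s : ℂ, 0 < s.im → AnalyticAt ℂ G s) →
  (∃ s : ℂ, 0 < s.im ∧ F s ≠ 0) → (∃ s : ℂ, 0 < s.im ∧ G s ≠ 0) → 0 < T1 →
  (zset F T1 T2).Finite ∧ (zset G T1 T2).Finite ∧ (zset (fun s => F s * G s) T1 T2).Finite ∧
  NN (fun s => F s * G s) T1 T2 = NN F T1 T2 + NN G T1 T2 ∧
  Ns G T1 T2 ≤ Ns (fun s => F s * G s) T1 T2 + NN F T1 T2 ∧
  Nd G T1 T2 ≤ Nd (fun s => F s * G s) T1 T2

end Pool.Agent.N880.QF
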